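import Pool.Agent.Lib.LargeSieve.Vaughan

/-!
# Character sum tools: Polya-Vinogradov, primitive decomposition, second differences
-/

noncomputable section

open Finset Real

namespace Pool.Agent.Work.MP_5d318d_nt

open Pool.Agent.Lib.LargeSieve

theorem conj_mul_gauss {d : ℕ} [NeZero d] {χ : DirichletCharacter ℂ d} (hχ : χ.IsPrimitive)
    (k : ℤ) : (starRingEnd ℂ) (χ (k : ZMod d)) * gaussSum χ ZMod.stdAddChar =
      ∑ j ∈ range d, χ (j : ZMod d) * ee (k * ((j : ℝ) / d)) := by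
  have h1 : (starRingEnd ℂ) (χ (k : ZMod d)) = χ⁻¹ (k : ZMod d) := χ.star_apply' _
  rw [h1, ← gaussSum_mulShift_of_isPrimitive _ hχ, gaussSum, sum_zmod_eq_sum_range]
  refine sum_congr rfl fun j _ => ?_
  rw [AddChar.mulShift_apply]
  congr 1
  have := ZMod.stdAddChar_coe (N := d) (k * j)
  rw [Int.cast_mul, Int.cast_natCast] at this
  rw [this]
  unfold ee
  congr 1
  push_cast; ring

theorem norm_gaussSum {d : ℕ} [NeZero d] {χ : DirichletCharacter ℂ d} (hχ : χ.IsPrimitive) :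
    ‖gaussSum χ ZMod.stdAddChar‖ = √d := by
  rw [← norm_gaussSum_sq hχ, Real.sqrt_sq (norm_nonneg _)]

/-- partial character sum -/
def cs {d : ℕ} (χ : DirichletCharacter ℂ d) (t : ℕ) : ℂ := ∑ n ∈ range t, χ (n : ZMod d)

theorem inv_le_dZ_of_mem {d j : ℕ} (hj : j ∈ (range d).erase 0) :
    1 / (d : ℝ) ≤ dZ ((j : ℝ) / d) := by
  rw [mem_erase, mem_range] at hj
  have := inv_le_dZ_div (p := d) (by omega) (m := j) (by
    intro hd
    have := Nat.le_of_dvd (Nat.pos_of_ne_zero hj.1) (Int.natCast_dvd_natCast.1 hd)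
    omega)
  simpa using this

/-- Polya-Vinogradov inequality. -/
theorem norm_cs_le {d : ℕ} (hd : 2 ≤ d) {χ : DirichletCharacter ℂ d} (hχ : χ.IsPrimitive)
    (t : ℕ) : ‖cs χ t‖ ≤ √d * HH d := by
  have : NeZero d := ⟨by omega⟩
  have hd0 : (0 : ℝ) < d := by exact_mod_cast (by omega : 0 < d)
  have h1 : (starRingEnd ℂ) (cs χ t) * gaussSum χ ZMod.stdAddChar =
      ∑ j ∈ range d, χ (j : ZMod d) * ∑ n ∈ range t, ee (n * ((j : ℝ) / d)) := by
    rw [cs, map_sum, sum_mul]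
    simp_rw [mul_sum]
    rw [sum_comm]
    refine sum_congr rfl fun n _ => ?_
    have := conj_mul_gauss hχ (n : ℤ)
    simpa using this
  have h2 : ‖cs χ t‖ * √d ≤ d * HH d := by
    rw [← norm_gaussSum hχ, ← Complex.norm_conj, ← norm_mul, h1,
      ← add_sum_erase _ _ (mem_range.2 (by omega : 0 < d))]
    rw [Nat.cast_zero, χ.map_zero' (by omega), zero_mul, zero_add]
    refine (norm_sum_le _ _).trans (le_trans (sum_le_sum fun j hj => ?_)
      (sum_inv_dZ_le ((range d).erase 0) (fun j => (j : ℝ) / d) d (by omega)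
        (fun j hj => inv_le_dZ_of_mem hj) ?_))
    · rw [norm_mul]
      calc _ ≤ 1 * (1 / (2 * dZ ((j : ℝ) / d))) :=
            mul_le_mul (χ.norm_le_one _) (norm_sum_ee_le _ _
              (lt_of_lt_of_le (by positivity) (inv_le_dZ_of_mem hj))) (norm_nonneg _) zero_le_one
        _ = _ := one_mul _
    · intro j hj k hk hjk
      rw [mem_erase, mem_range] at hj hk
      have := inv_le_dZ_div (p := d) (by omega) (m := (j : ℤ) - k) (by
        intro hd
        have h1 := Int.eq_zero_of_abs_lt_dvd hd (by rw [abs_lt]; constructor <;> omega)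
        omega)
      rw [← sub_div]
      simpa using this
  have h3 : 0 < √(d : ℝ) := Real.sqrt_pos.mpr hd0
  have h4 : √(d : ℝ) * √(d : ℝ) = d := Real.mul_self_sqrt hd0.le
  refine le_of_mul_le_mul_right ?_ h3
  calc _ ≤ d * HH d := h2
    _ = _ := by rw [← h4]; simp only [Real.sqrt_mul_self h3.le]; ring

open Classical in
/-- Sum over all characters mod `f` as a sum over primitive characters. -/
theorem sum_eq_sum_primitive {f : ℕ} (hf : 0 < f) (F : DirichletCharacter ℂ f → ℂ)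
    (Φ : (d : ℕ) → DirichletCharacter ℂ d → ℂ)
    (h : ∀ (d : ℕ) (hd : d ∣ f) (ψ : DirichletCharacter ℂ d), ψ.IsPrimitive →
      F (DirichletCharacter.changeLevel hd ψ) = Φ d ψ) :
    ∑ χ : DirichletCharacter ℂ f, F χ =
      ∑ d ∈ f.divisors, ∑ ψ : DirichletCharacter ℂ d with ψ.IsPrimitive, Φ d ψ := by
  have : NeZero f := ⟨hf.ne'⟩
  rw [← Finset.sum_fiberwise_of_maps_to (s := univ) (t := f.divisors)
    (g := fun χ : DirichletCharacter ℂ f => χ.conductor)
    (fun χ _ => Nat.mem_divisors.mpr ⟨χ.conductor_dvd_level, hf.ne'⟩)]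
  refine sum_congr rfl fun d hd => ?_
  have hdf := Nat.dvd_of_mem_divisors hd
  symm
  refine Finset.sum_bij (fun ψ _ => DirichletCharacter.changeLevel hdf ψ) ?_ ?_ ?_ ?_
  · intro ψ hψ
    refine mem_filter.mpr ⟨mem_univ _, ?_⟩
    rw [DirichletCharacter.conductor_changeLevel]
    exact (mem_filter.mp hψ).2
  · intro ψ _ ψ' _ hh
    exact DirichletCharacter.changeLevel_injective hdf hh
  · intro χ hχ
    have hc : χ.conductor = d := (mem_filter.mp hχ).2
    have hfac : χ.FactorsThrough d := hc ▸ χ.factorsThrough_conductor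
    refine ⟨hfac.χ₀, mem_filter.mpr ⟨mem_univ _, ?_⟩, hfac.eq_changeLevel.symm⟩
    have := DirichletCharacter.conductor_changeLevel hfac.χ₀ hdf
    rw [← hfac.eq_changeLevel] at this
    exact this.symm.trans hc
  · intro ψ hψ
    exact (h d hdf ψ (mem_filter.mp hψ).2).symm

open Classical in
/-- `P d n m = ∑*_{ψ mod d} ψ(n) conj ψ(m)`. -/
def primKer (d : ℕ) (n m : ℤ) : ℂ :=
  ∑ ψ : DirichletCharacter ℂ d with ψ.IsPrimitive,
    ψ (n : ZMod d) * (starRingEnd ℂ) (ψ (m : ZMod d))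

theorem totient_mul_ite_eq {f : ℕ} (hf : 0 < f) {n m : ℤ} (hn : IsCoprime n f)
    (hm : IsCoprime m f) :
    (if (f : ℤ) ∣ n - m then (f.totient : ℂ) else 0) = ∑ d ∈ f.divisors, primKer d n m := by
  classical
  have : NeZero f := ⟨hf.ne'⟩
  unfold primKer
  rw [← sum_eq_sum_primitive hf (fun χ => χ (n : ZMod f) * (starRingEnd ℂ) (χ (m : ZMod f)))
    (fun d ψ => ψ (n : ZMod d) * (starRingEnd ℂ) (ψ (m : ZMod d)))]
  · rw [sum_char_mul_conj]
    have hu : IsUnit (n : ZMod f) := (ZMod.coe_int_isUnit_iff_isCoprime n f).mpr hn.symm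
    have : (n : ZMod f) = m ↔ (f : ℤ) ∣ n - m := by
      rw [eq_comm, ZMod.intCast_eq_intCast_iff_dvd_sub]
    simp only [this, hu, if_true]
    split_ifs <;> simp
  · intro d hd ψ _
    rw [DirichletCharacter.changeLevel_eq_cast_of_dvd' _ hd hn,
      DirichletCharacter.changeLevel_eq_cast_of_dvd' _ hd hm]

theorem sum_Icc_shift (f : ℤ → ℂ) (lo hi : ℤ) :
    ∑ k ∈ Icc (lo - 1) (hi - 1), f (k + 1) = ∑ k ∈ Icc lo hi, f k := by
  refine Finset.sum_bij (fun k _ => k + 1) ?_ ?_ ?_ ?_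
  · intro k hk
    rw [mem_Icc] at hk ⊢
    omega
  · intro a _ b _ h
    simpa using h
  · intro k hk
    rw [mem_Icc] at hk
    exact ⟨k - 1, mem_Icc.mpr ⟨by omega, by omega⟩, by ring⟩
  · intro k _; rfl

theorem norm_sum_diff (a : ℤ → ℂ) (lo hi : ℤ) (ha : ∀ k, k ∉ Icc lo hi → a k = 0) (θ : ℝ) :
    ‖ee θ - 1‖ * ‖∑ k ∈ Icc lo hi, a k * ee (k * θ)‖ =
      ‖∑ k ∈ Icc (lo - 1) hi, (a (k + 1) - a k) * ee (k * θ)‖ := by
  have h1 : ∑ k ∈ Icc (lo - 1) hi, a (k + 1) * ee ((k + 1 : ℤ) * θ) =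
      ∑ k ∈ Icc lo hi, a k * ee (k * θ) := by
    have := sum_Icc_shift (fun k => a k * ee (k * θ)) lo (hi + 1)
    rw [add_sub_cancel_right] at this
    rw [this]
    symm
    refine sum_subset (Icc_subset_Icc le_rfl (by omega)) fun k _ hk => ?_
    rw [ha k hk, zero_mul]
  have h2 : ∑ k ∈ Icc (lo - 1) hi, a k * ee (k * θ) = ∑ k ∈ Icc lo hi, a k * ee (k * θ) := by
    symm
    refine sum_subset (Icc_subset_Icc (by omega) le_rfl) fun k _ hk => ?_
    rw [ha k hk, zero_mul]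
  have h3 : ee θ * ∑ k ∈ Icc (lo - 1) hi, (a (k + 1) - a k) * ee (k * θ) =
      -((ee θ - 1) * ∑ k ∈ Icc lo hi, a k * ee (k * θ)) := by
    have : ee θ * ∑ k ∈ Icc (lo - 1) hi, (a (k + 1) - a k) * ee (k * θ) =
        ∑ k ∈ Icc (lo - 1) hi, a (k + 1) * ee ((k + 1 : ℤ) * θ) -
          ee θ * ∑ k ∈ Icc (lo - 1) hi, a k * ee (k * θ) := by
      rw [mul_sum, mul_sum, ← sum_sub_distrib]
      refine sum_congr rfl fun k _ => ?_
      push_cast
      rw [add_mul, ee_add, one_mul]; ring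
    rw [this, h1, h2]; ring
  have h4 := congrArg norm h3
  rw [norm_mul, norm_ee, one_mul, norm_neg, norm_mul] at h4
  exact h4.symm

theorem norm_sum_second_diff (a : ℤ → ℂ) (lo hi : ℤ) (ha : ∀ k, k ∉ Icc lo hi → a k = 0) (θ : ℝ) :
    16 * dZ θ ^ 2 * ‖∑ k ∈ Icc lo hi, a k * ee (k * θ)‖ ≤
      ∑ k ∈ Icc (lo - 2) hi, ‖a (k + 2) - 2 * a (k + 1) + a k‖ := by
  have h1 := norm_sum_diff a lo hi ha θ
  have h2 := norm_sum_diff (fun k => a (k + 1) - a k) (lo - 1) hi (by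
    intro k hk
    rw [mem_Icc] at hk
    rw [ha k (by rw [mem_Icc]; omega), ha (k + 1) (by rw [mem_Icc]; omega), sub_zero]) θ
  have h3 := four_dZ_le θ
  have h4 := dZ_nonneg θ
  calc _ = (4 * dZ θ) * ((4 * dZ θ) * ‖∑ k ∈ Icc lo hi, a k * ee (k * θ)‖) := by ring
    _ ≤ ‖ee θ - 1‖ * (‖ee θ - 1‖ * ‖∑ k ∈ Icc lo hi, a k * ee (k * θ)‖) := by gcongr
    _ = _ := by rw [h1, h2]
    _ ≤ _ := by
      rw [show lo - 1 - 1 = lo - 2 by ring]
      refine (norm_sum_le _ _).trans (sum_le_sum fun k _ => le_of_eq ?_)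
      rw [norm_mul, norm_ee, mul_one]
      congr 1
      rw [show k + 1 + 1 = k + 2 by ring]; ring

end Pool.Agent.Work.MP_5d318d_nt
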