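import Pool.Agent.Work.MP_5d318d_nt.ATri

-- merged part: Pool.Agent.Work.MP_5d318d_nt.AOff
section
/-!
# The off-diagonal terms on average over the modulus
-/

noncomputable section

open Finset Real

namespace Pool.Agent.Work.MP_5d318d_nt

open Pool.Agent.Lib.LargeSieve Pool.Agent.Lib.ANT

/-- a linear combination of Ramanujan sums -/
def FB (b : ℕ → ℝ) (S : Finset ℕ) (m : ℤ) : ℝ := ∑ r ∈ S, b r * ram r m

/-- coefficients in the character expansion of `FB` -/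
def kq (b : ℕ → ℝ) (R1 R d s : ℕ) : ℝ :=
  if d * s ∈ Ioc R1 R then b (d * s) * (d / (d * s).totient) else 0

/-- the contribution of conductor `d` and cofactor `s` -/
def VA (a : ℕ → ℝ) (L H T Q d s : ℕ) : ℂ :=
  ∑ n ∈ Icc 1 (L + 4 * H), ((a n * ram s n : ℝ) : ℂ) * ∑ k ∈ (Icc (-(T : ℤ)) T).erase 0,
    ((wv L H (n + k * Q) * ram s (k * Q) : ℝ) : ℂ) * primKer d n (-(k * Q))

/-- the off-diagonal sum -/
def Off (a b : ℕ → ℝ) (L H T R1 R Q : ℕ) : ℝ :=
  ∑ n ∈ Icc 1 (L + 4 * H), a n * ∑ k ∈ (Icc (-(T : ℤ)) T).erase 0,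
    wv L H (n + k * Q) * FB b (Ioc R1 R) (n + k * Q)

theorem sum_divisors_pairs {M : Type*} [AddCommMonoid M] (R1 R : ℕ) (f : ℕ → ℕ → M) :
    ∑ r ∈ Ioc R1 R, ∑ d ∈ r.divisors, f d (r / d) =
      ∑ d ∈ Icc 1 R, ∑ s ∈ Icc 1 R, if d * s ∈ Ioc R1 R then f d s else 0 := by
  rw [sum_sigma', ← sum_product', ← sum_filter]
  refine sum_bij' (fun x _ => (x.2, x.1 / x.2)) (fun x _ => ⟨x.1 * x.2, x.1⟩) ?_ ?_ ?_ ?_ ?_
  · rintro ⟨r, d⟩ h
    obtain ⟨h1, h2⟩ : r ∈ Ioc R1 R ∧ d ∈ r.divisors := mem_sigma.mp h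
    obtain ⟨s, rfl⟩ := Nat.dvd_of_mem_divisors h2
    have hd := Nat.pos_of_mem_divisors h2
    have hs : 0 < s := Nat.pos_of_ne_zero (right_ne_zero_of_mul (Nat.mem_divisors.mp h2).2)
    simp only [Nat.mul_div_cancel_left _ hd, mem_filter, mem_product, mem_Icc]
    have h3 := (mem_Ioc.mp h1).2
    exact ⟨⟨⟨hd, (Nat.le_mul_of_pos_right _ hs).trans h3⟩, hs,
      (Nat.le_mul_of_pos_left _ hd).trans h3⟩, h1⟩
  · rintro ⟨d, s⟩ h
    obtain ⟨-, h2⟩ := mem_filter.mp h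
    have := (mem_Ioc.mp h2).1
    exact mem_sigma.mpr ⟨h2, Nat.mem_divisors.mpr ⟨dvd_mul_right _ _,
      (lt_of_le_of_lt (Nat.zero_le _) this).ne'⟩⟩
  · rintro ⟨r, d⟩ h
    simp only [Nat.mul_div_cancel' (Nat.dvd_of_mem_divisors (mem_sigma.mp h).2)]
  · rintro ⟨d, s⟩ h
    have := (mem_Icc.mp (mem_product.mp (mem_filter.mp h).1).1).1
    simp only [Nat.mul_div_cancel_left _ this]
  · intro _ _; rfl

variable {a b : ℕ → ℝ} {L H T R1 R Q : ℕ} {A B Z : ℝ}

theorem Off_eq (hb : ∀ r, ¬ Squarefree r → b r = 0) : (Off a b L H T R1 R Q : ℂ) =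
    ∑ d ∈ Icc 1 R, ∑ s ∈ Icc 1 R, (kq b R1 R d s : ℂ) * VA a L H T Q d s := by
  have h1 : ∀ n h : ℤ, (FB b (Ioc R1 R) (n + h) : ℂ) = ∑ d ∈ Icc 1 R, ∑ s ∈ Icc 1 R,
      (kq b R1 R d s : ℂ) * (((ram s n * ram s h : ℝ) : ℂ) * primKer d n (-h)) := by
    intro n h
    simp only [kq, apply_ite Complex.ofReal, ite_mul, Complex.ofReal_zero, zero_mul]
    rw [← sum_divisors_pairs R1 R (fun d s => ((b (d * s) * (d / (d * s).totient) : ℝ) : ℂ) *
      (((ram s n * ram s h : ℝ) : ℂ) * primKer d n (-h))), FB, Complex.ofReal_sum]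
    refine sum_congr rfl fun r _ => ?_
    by_cases hr : Squarefree r
    · rw [Complex.ofReal_mul, ram_add hr, mul_sum]
      refine sum_congr rfl fun d hd => ?_
      rw [Nat.mul_div_cancel' (Nat.dvd_of_mem_divisors hd)]
      push_cast; ring
    · rw [hb r hr, zero_mul, Complex.ofReal_zero, sum_eq_zero]
      intro d hd
      rw [Nat.mul_div_cancel' (Nat.dvd_of_mem_divisors hd), hb r hr]
      simp
  simp_rw [VA, mul_sum (Icc 1 (L + 4 * H)), sum_comm (t := Icc 1 (L + 4 * H))]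
  rw [Off, Complex.ofReal_sum]
  refine sum_congr rfl fun n _ => ?_
  rw [Complex.ofReal_mul, Complex.ofReal_sum]
  simp_rw [Complex.ofReal_mul (wv _ _ _), h1, mul_sum, sum_comm (s := (Icc (-(T : ℤ)) T).erase 0)]
  exact sum_congr rfl fun d _ => sum_congr rfl fun e _ => sum_congr rfl fun k _ => by
    push_cast; ring

theorem abs_kq_le (hB : 0 ≤ B) (hZ : 0 ≤ Z) (hb : ∀ r ≤ R, |b r| ≤ B / r)
    (hτ : ∀ r ≤ R, (r.divisors.card : ℝ) ≤ Z) (d s : ℕ) :
    |kq b R1 R d s| ≤ B * Z / s ^ 2 / d := by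
  unfold kq
  split_ifs with h
  · rw [mem_Ioc] at h
    have h0 : d * s ≠ 0 := by omega
    have hd : (0 : ℝ) < d := by exact_mod_cast Nat.pos_of_ne_zero (left_ne_zero_of_mul h0)
    have hs : (0 : ℝ) < s := by exact_mod_cast Nat.pos_of_ne_zero (right_ne_zero_of_mul h0)
    have h1 := (div_totient_le_card_divisors (d * s)).trans (hτ _ h.2)
    have h2 := hb _ h.2
    push_cast at h1 h2
    rw [abs_mul, abs_of_nonneg (a := ((d : ℝ) / _)) (by positivity)]
    calc _ = |b (d * s)| * (d * s / (d * s).totient) / s := by field_simp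
      _ ≤ B / (d * s) * Z / s := by gcongr
      _ = _ := by field_simp
  · rw [abs_zero]; positivity

theorem norm_VA_le (hH : 0 < H) (ha : ∀ n, |a n| ≤ A) {d s : ℕ} (hd : 0 < d) (hs : s ≠ 0) :
    ‖VA a L H T Q d s‖ ≤ A * ((L + 4 * H : ℕ) * s.divisors.card) *
      (d * (2 * T * s.gcd Q * s.divisors.card)) := by
  have hA : 0 ≤ A := (abs_nonneg _).trans (ha 0)
  refine (norm_sum_le _ _).trans (le_trans (sum_le_sum fun n _ => ?_)
    ((sum_mul _ _ _).symm.le.trans (mul_le_mul_of_nonneg_right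
      ((mul_sum _ _ _).symm.le.trans (mul_le_mul_of_nonneg_left (sum_abs_ram_nat_le s _) hA))
      (by positivity))))
  rw [norm_mul, Complex.norm_real, Real.norm_eq_abs, abs_mul]
  refine mul_le_mul (mul_le_mul_of_nonneg_right (ha n) (abs_nonneg _)) ((norm_sum_le _ _).trans
    (le_trans ?_ (mul_le_mul_of_nonneg_left (sum_abs_ram_mul_le hs Q T) (Nat.cast_nonneg _))))
    (norm_nonneg _) (by positivity)
  rw [mul_sum]
  refine sum_le_sum fun k _ => ?_
  rw [norm_mul, Complex.norm_real, Real.norm_eq_abs, abs_mul, abs_of_nonneg (wv_nonneg _ _),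
    mul_comm]
  exact mul_le_mul (norm_primKer_le hd _ _)
    (mul_le_of_le_one_left (abs_nonneg _) (wv_le_one _ hH _))
    (mul_nonneg (wv_nonneg _ _) (abs_nonneg _)) (Nat.cast_nonneg _)

theorem small_le (hH : 0 < H) (ha : ∀ n, |a n| ≤ A) (hB : 0 ≤ B) (hb : ∀ r ≤ R, |b r| ≤ B / r)
    (hτ : ∀ r ≤ R, (r.divisors.card : ℝ) ≤ Z) (hQ : Q ≠ 0) (hτQ : (Q.divisors.card : ℝ) ≤ Z)
    (hR1 : 0 < R1) (D0 : ℕ) :
    ‖∑ d ∈ Icc 1 D0, ∑ s ∈ Icc 1 R, (kq b R1 R d s : ℂ) * VA a L H T Q d s‖ ≤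
      4 * A * B * Z ^ 4 * (L + 4 * H : ℕ) * T * D0 ^ 2 / R1 := by
  have hA : 0 ≤ A := (abs_nonneg _).trans (ha 0)
  have hZ : 0 ≤ Z := (Nat.cast_nonneg _).trans hτQ
  have hR1' : (0 : ℝ) < R1 := by exact_mod_cast hR1
  refine (norm_sum_le _ _).trans ((sum_le_card_nsmul _ _
    (4 * A * B * Z ^ 4 * (L + 4 * H : ℕ) * T * D0 / R1) fun d hd => ?_).trans (le_of_eq ?_))
  · rw [mem_Icc] at hd
    have hd' : (0 : ℝ) < d := by exact_mod_cast hd.1
    rw [← sum_subset (s₁ := Ioc (R1 / d) R) (fun s hs => by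
      simp only [mem_Ioc, mem_Icc] at hs ⊢; exact ⟨Nat.pos_of_ne_zero (by rintro rfl; simp at hs), hs.2⟩)
      (fun s hs hs' => by
        rw [kq, if_neg, Complex.ofReal_zero, zero_mul]
        intro h
        exact hs' (mem_Ioc.mpr ⟨(Nat.div_lt_iff_lt_mul hd.1).mpr
          (by rw [mul_comm]; exact (mem_Ioc.mp h).1), (mem_Icc.mp hs).2⟩))]
    calc _ ≤ ∑ s ∈ Ioc (R1 / d) R,
          2 * A * B * Z ^ 3 * (L + 4 * H : ℕ) * T * (s.gcd Q / (s : ℝ) ^ 2) := by
          refine (norm_sum_le _ _).trans (sum_le_sum fun s hs => ?_)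
          rw [mem_Ioc] at hs
          have h1 := abs_kq_le (R1 := R1) hB hZ hb hτ d s
          have h2 := norm_VA_le (L := L) (T := T) (Q := Q) hH ha hd.1
            (show s ≠ 0 by rintro rfl; simp at hs)
          have h3 := hτ s hs.2
          rw [norm_mul, Complex.norm_real, Real.norm_eq_abs]
          calc _ ≤ B * Z / s ^ 2 / d * (A * ((L + 4 * H : ℕ) * Z) *
                (d * (2 * T * s.gcd Q * Z))) := by
                gcongr; exact h2.trans (by gcongr)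
            _ = _ := by field_simp
      _ ≤ 2 * A * B * Z ^ 3 * (L + 4 * H : ℕ) * T * (Z * (2 * D0 / R1)) := by
          rw [← mul_sum]
          gcongr
          refine (sum_gcd_div_sq_le hQ _ _).trans ?_
          gcongr ?_ * ?_
          rw [div_le_div_iff₀ (by positivity) hR1', mul_assoc]
          gcongr
          have := (Nat.lt_mul_div_succ R1 hd.1).le.trans (Nat.mul_le_mul_right _ hd.2)
          exact_mod_cast this
      _ = _ := by ring
  · rw [Nat.card_Icc, nsmul_eq_mul]; push_cast; ring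

open Classical in
theorem VA_eq {d : ℕ} (hd : 2 ≤ d) (s : ℕ) : VA a L H T Q d s =
    ∑ u ∈ s.divisors, ∑ e ∈ s.divisors, ((u * muR (s / u) * (e * muR (s / e)) : ℝ) : ℂ) *
      ∑ χ : DirichletCharacter ℂ d with χ.IsPrimitive,
        (starRingEnd ℂ) (χ ((-(e / e.gcd Q : ℕ) : ℤ) : ZMod d)) * (starRingEnd ℂ) (χ (Q : ZMod d)) *
          WW a L H u (Q * (e / e.gcd Q)) (T / (e / e.gcd Q)) χ := by
  have h1 : ∀ n : ℕ, ∑ k ∈ (Icc (-(T : ℤ)) T).erase 0,
      ((wv L H (n + k * Q) * ram s (k * Q) : ℝ) : ℂ) * primKer d n (-(k * Q)) =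
      ∑ e ∈ s.divisors, ((e * muR (s / e) : ℝ) : ℂ) *
        ∑ χ : DirichletCharacter ℂ d with χ.IsPrimitive,
          (starRingEnd ℂ) (χ ((-(e / e.gcd Q : ℕ) : ℤ) : ZMod d)) *
            (starRingEnd ℂ) (χ (Q : ZMod d)) * (χ (n : ZMod d) *
              ∑ k ∈ Icc (-((T / (e / e.gcd Q) : ℕ) : ℤ)) (T / (e / e.gcd Q) : ℕ),
                (wv L H (n + k * (Q * (e / e.gcd Q) : ℕ)) : ℂ) *
                  (starRingEnd ℂ) (χ (k : ZMod d))) := by
    intro n
    simp_rw [ram, mul_sum s.divisors, Complex.ofReal_sum, sum_mul]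
    rw [sum_comm]
    refine sum_congr rfl fun e he => ?_
    have he0 := Nat.pos_of_mem_divisors he
    have he1 : 0 < e / e.gcd Q :=
      Nat.div_pos (Nat.gcd_le_left _ he0) (Nat.gcd_pos_of_pos_left _ he0)
    simp_rw [dvd_mul_iff_div he0, mul_ite, mul_zero, apply_ite Complex.ofReal, ite_mul,
      Complex.ofReal_zero, zero_mul]
    generalize e / e.gcd Q = f at he1
    rw [sum_erase_dvd (fun k => ((wv L H (n + k * Q) * (e * muR (s / e)) : ℝ) : ℂ) *
      primKer d n (-(k * Q))) ?_ _ he1]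
    · simp_rw [primKer, mul_sum]
      rw [sum_comm]
      refine sum_congr rfl fun χ _ => sum_congr rfl fun k _ => ?_
      have e1 : k * f * Q = k * (Q * f : ℕ) := by push_cast; ring
      rw [e1, show ((-(k * (Q * f : ℕ)) : ℤ) : ZMod d) = ((-(f : ℕ) : ℤ) : ZMod d) * Q * k by
        push_cast; ring, map_mul, map_mul, map_mul, map_mul, Int.cast_natCast]
      push_cast; ring
    · rw [primKer_eq_zero, mul_zero]
      rw [zero_mul, neg_zero, isCoprime_zero_left, Int.isUnit_iff]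
      omega
  simp_rw [VA, h1, WW, mul_sum (Icc 1 (L + 4 * H)), sum_comm (t := Icc 1 (L + 4 * H)),
    mul_sum (Icc 1 (L + 4 * H)), sum_comm (t := Icc 1 (L + 4 * H))]
  refine sum_congr rfl fun n _ => ?_
  rw [ram, mul_sum s.divisors _ (a n), Complex.ofReal_sum, sum_mul]
  refine sum_congr rfl fun u _ => ?_
  rw [mul_sum]
  refine sum_congr rfl fun e _ => ?_
  simp only [Int.natCast_dvd_natCast]
  by_cases h : u ∣ n
  · simp only [if_pos h]
    rw [mul_sum, mul_sum, mul_sum]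
    refine sum_congr rfl fun χ _ => ?_
    push_cast; ring
  · simp [if_neg h]

/-- one term of the large conductor contribution -/
def YA (a b : ℕ → ℝ) (L H T R1 R D0 s u f Q : ℕ) : ℂ :=
  CS D0 (R / s) (fun d χ => (kq b R1 R d s : ℂ) * (starRingEnd ℂ) (χ ((-(f : ℕ) : ℤ) : ZMod d)) *
    (starRingEnd ℂ) (χ (Q : ZMod d)) * WW a L H u (Q * f) (T / f) χ)

theorem large_le {D0 : ℕ} (hD0 : 1 ≤ D0) :
    ‖∑ d ∈ Ioc D0 R, ∑ s ∈ Icc 1 R, (kq b R1 R d s : ℂ) * VA a L H T Q d s‖ ≤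
      ∑ s ∈ Icc 1 R, ∑ u ∈ s.divisors, ∑ e ∈ s.divisors, ∑ f ∈ e.divisors,
        u * s * ‖YA a b L H T R1 R D0 s u f Q‖ := by
  rw [sum_comm]
  refine (norm_sum_le _ _).trans (sum_le_sum fun s hs => ?_)
  have hs0 : 0 < s := (mem_Icc.mp hs).1
  rw [← sum_subset (s₁ := Ioc D0 (R / s)) (Ioc_subset_Ioc_right (Nat.div_le_self _ _))
    (fun d hd hd' => by
      rw [kq, if_neg, Complex.ofReal_zero, zero_mul]
      intro h
      exact hd' (mem_Ioc.mpr ⟨(mem_Ioc.mp hd).1,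
        (Nat.le_div_iff_mul_le hs0).mpr (mem_Ioc.mp h).2⟩))]
  have h1 : ∑ d ∈ Ioc D0 (R / s), (kq b R1 R d s : ℂ) * VA a L H T Q d s =
      ∑ u ∈ s.divisors, ∑ e ∈ s.divisors, ((u * muR (s / u) * (e * muR (s / e)) : ℝ) : ℂ) *
        YA a b L H T R1 R D0 s u (e / e.gcd Q) Q := by
    simp_rw [YA, CS, mul_sum (Ioc D0 _), sum_comm (t := Ioc D0 _)]
    refine sum_congr rfl fun d hd => ?_
    rw [VA_eq (by have := (mem_Ioc.mp hd).1; omega), mul_sum]
    refine sum_congr rfl fun u _ => ?_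
    rw [mul_sum]
    refine sum_congr rfl fun e _ => ?_
    simp only [mul_sum]
    exact sum_congr rfl fun χ _ => by ring
  rw [h1]
  refine (norm_sum_le _ _).trans (sum_le_sum fun u _ => (norm_sum_le _ _).trans
    (sum_le_sum fun e he => ?_))
  refine le_trans ?_ (single_le_sum (f := fun f => u * s * ‖YA a b L H T R1 R D0 s u f Q‖)
    (fun _ _ => by positivity) (Nat.mem_divisors.mpr ⟨Nat.div_dvd_of_dvd (Nat.gcd_dvd_left e Q),
      (Nat.pos_of_mem_divisors he).ne'⟩))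
  rw [norm_mul, Complex.norm_real, Real.norm_eq_abs]
  simp only [abs_mul, Nat.abs_cast]
  have a1 := abs_muR_le (s / u)
  have a2 := abs_muR_le (s / e)
  have a3 : (e : ℝ) ≤ s := by exact_mod_cast Nat.divisor_le he
  calc _ ≤ u * 1 * (s * 1) * ‖YA a b L H T R1 R D0 s u (e / e.gcd Q) Q‖ := by gcongr
    _ = _ := by ring

theorem sum_off_le {Q0 Q1 D0 : ℕ} {Y M l : ℝ} (hH : 0 < H) (ha : ∀ n, |a n| ≤ A) (hB : 0 ≤ B)
    (hb0 : ∀ r, ¬ Squarefree r → b r = 0) (hb : ∀ r ≤ R, |b r| ≤ B / r) (hR1 : 0 < R1)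
    (hD0 : 1 ≤ D0) (hDR : D0 ≤ R) (hRN : R ≤ L + 4 * H) (hQ1 : 1 ≤ Q1)
    (hτ : ∀ t < (Q1 + 1) * R, (t.divisors.card : ℝ) ≤ Z) (hR2 : 2 ≤ R) (hHH : 1 + HH (R ^ 2) ≤ Z)
    (hT : 2 * (L + 4 * H) < (T + 1) * Q0) (hl : 1 ≤ l) (hq : T * (Q1 * (2 / H : ℝ)) ≤ l)
    (hY : 100 ≤ Y) (hY1 : 2 * l ^ 2 ≤ Y) (hY2 : Z ≤ Y) (hY3 : A ≤ Y) (hM : 0 ≤ M)
    (h1 : 4 * (((L + 4 * H : ℕ) : ℝ) * Q1) ^ 2 ≤ M ^ 2 * D0)
    (h2 : 2 * ((L + 4 * H : ℕ) : ℝ) ^ 2 * Q1 * T * Y ^ 2 ≤ M ^ 2)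
    (h3 : 2 * (R : ℝ) * (L + 4 * H : ℕ) * Q1 ^ 2 * Y ^ 2 ≤ M ^ 2)
    (h4 : (R : ℝ) ^ 2 * Y ^ 4 * (L + 4 * H : ℕ) * Q1 * T ≤ M ^ 2) :
    ∑ Q ∈ Ioc Q0 Q1, |Off a b L H T R1 R Q| ≤
      Q1 * (4 * A * B * Z ^ 4 * (L + 4 * H : ℕ) * T * D0 ^ 2 / R1) +
        (2 * (L + 4 * H : ℕ) + 1) / H * (1 + l) * (4 * B * Y ^ 7 * M * Z ^ 6) := by
  have hA : 0 ≤ A := (abs_nonneg _).trans (ha 0)
  have hHR : 1 + HH R ≤ Z := le_trans (by gcongr; exact HH_mono (by nlinarith only [hD0, hDR])) hHH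
  have hZ : 0 ≤ Z := by linarith only [hHR, HH_nonneg R]
  have hY0 : 0 ≤ Y := by linarith only [hY]
  have hτR : ∀ r ≤ R, (r.divisors.card : ℝ) ≤ Z := fun r hr => hτ r (by nlinarith only [hR2, hr, hQ1])
  have e1 : ∀ Q ∈ Ioc Q0 Q1, |Off a b L H T R1 R Q| ≤
      4 * A * B * Z ^ 4 * (L + 4 * H : ℕ) * T * D0 ^ 2 / R1 +
      ∑ s ∈ Icc 1 R, ∑ u ∈ s.divisors, ∑ e ∈ s.divisors, ∑ f ∈ e.divisors,
        u * s * ‖YA a b L H T R1 R D0 s u f Q‖ := by
    intro Q hQ
    rw [mem_Ioc] at hQ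
    rw [← Real.norm_eq_abs, ← Complex.norm_real, Off_eq hb0,
      show Icc 1 R = Ioc 0 R from rfl, ← sum_Ioc_consecutive _ (Nat.zero_le D0) hDR]
    exact (norm_add_le _ _).trans (add_le_add (small_le hH ha hB hb hτR (by omega)
      (hτ Q (by nlinarith only [hR2, hQ, hD0, hDR])) hR1 D0) (large_le hD0))
  refine (sum_le_sum e1).trans ?_
  rw [sum_add_distrib, sum_const, nsmul_eq_mul, Nat.card_Ioc]
  refine add_le_add (by gcongr; omega) ?_
  set P : ℝ := (2 * (L + 4 * H : ℕ) + 1) / H * (1 + l) with hP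
  have hP0 : 0 ≤ P := by positivity
  have e2 : ∀ s ∈ Icc 1 R, ∀ u ∈ s.divisors, ∀ f, 0 < f → ∑ Q ∈ Ioc Q0 Q1,
      u * s * ‖YA a b L H T R1 R D0 s u f Q‖ ≤ P * (4 * B * Y ^ 7 * M * Z ^ 2) * (1 / s) := by
    intro s hs u hu f hf
    have hs0 : 0 < s := (mem_Icc.mp hs).1
    have hu0 := Nat.pos_of_mem_divisors hu
    have hs' : (0 : ℝ) < s := by exact_mod_cast hs0
    have hu' : (0 : ℝ) < u := by exact_mod_cast hu0
    have h5 := trilin_le (L := L) (Q0 := Q0) (Q1 := Q1) (T := T / f) (e := f) (D1 := R / s) hH hu0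
      hD0 a ha (fun d χ => (kq b R1 R d s : ℂ) * (starRingEnd ℂ) (χ ((-(f : ℕ) : ℤ) : ZMod d)))
      (c := B * Z / s ^ 2) (l := l) (E := 4 * Y ^ 7 * M / u) (by positivity)
      (fun d χ => by
        rw [norm_mul, Complex.norm_conj, Complex.norm_real]
        exact (mul_le_of_le_one_right (norm_nonneg _) (χ.norm_le_one _)).trans
          (abs_kq_le hB hZ hb hτR d s))
      (hT.trans_le (by
        rw [mul_comm Q0, ← mul_assoc, mul_comm _ f]
        exact Nat.mul_le_mul_right _ (Nat.lt_mul_div_succ T hf)))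
      hl (le_trans (by
        have : ((T / f : ℕ) : ℝ) * f ≤ T := by exact_mod_cast Nat.div_mul_le_self T f
        calc _ = ((T / f : ℕ) : ℝ) * f * (Q1 * (2 / H)) := by push_cast; ring
          _ ≤ _ := by gcongr) hq) (by positivity)
      (fun hT1 γ hγ a' b' ha' hb' D hD1 hD2 => ps_le hγ hT1 (Nat.div_le_self _ _) hY
        (by
          have : (0 : ℝ) < (T / f : ℕ) := by exact_mod_cast hT1
          rw [mul_div_cancel₀ _ this.ne']; linarith only [hY1]) hu0 hD1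
        ((Nat.mul_le_mul (Nat.divisor_le hu) hD2).trans (Nat.mul_div_le _ _)) hRN hQ1
        (by linarith only [hHH, hY2]) (fun t ht => (hτ t ht).trans hY2) hM h1 h2 h3 h4 a' b'
        (fun n => (ha' n).trans hY3) hb')
    have h6 : 1 + HH (R / s) ≤ Z := le_trans (by gcongr; exact HH_mono (Nat.div_le_self _ _)) hHR
    rw [← mul_sum]
    refine (mul_le_mul_of_nonneg_left h5 (by positivity)).trans ?_
    rw [← mul_assoc (_ / (H : ℝ)), ← hP]
    calc _ ≤ u * s * (P * (B * Z / s ^ 2 * (4 * Y ^ 7 * M / u * Z))) := by gcongr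
      _ = _ := by field_simp
  rw [sum_comm]
  calc _ ≤ ∑ s ∈ Icc 1 R, P * (4 * B * Y ^ 7 * M * Z ^ 5) * (1 / s) := by
        refine sum_le_sum fun s hs => ?_
        have hsR := (mem_Icc.mp hs).2
        have hsZ := hτR s hsR
        rw [sum_comm]
        refine (sum_le_card_nsmul _ _ (Z * (Z * (P * (4 * B * Y ^ 7 * M * Z ^ 2) * (1 / s))))
          fun u hu => ?_).trans ?_
        · rw [sum_comm]
          refine (sum_le_card_nsmul _ _ (Z * (P * (4 * B * Y ^ 7 * M * Z ^ 2) * (1 / s)))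
            fun e he => ?_).trans (by rw [nsmul_eq_mul]; gcongr)
          rw [sum_comm]
          refine (sum_le_card_nsmul _ _ _
            fun f hf => e2 s hs u hu f (Nat.pos_of_mem_divisors hf)).trans ?_
          rw [nsmul_eq_mul]
          gcongr
          exact hτR e ((Nat.divisor_le he).trans hsR)
        · rw [nsmul_eq_mul]
          calc _ ≤ Z * (Z * (Z * (P * (4 * B * Y ^ 7 * M * Z ^ 2) * (1 / s)))) := by gcongr
            _ = _ := by ring
    _ ≤ P * (4 * B * Y ^ 7 * M * Z ^ 5) * Z := by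
        rw [← mul_sum, ← HH]; gcongr; linarith only [hHR]
    _ = _ := by ring

end Pool.Agent.Work.MP_5d318d_nt
end
end

-- merged part: Pool.Agent.Work.MP_5d318d_nt.ADiag
section
/-!
# The test function and the diagonal terms
-/

noncomputable section

open Finset Real ArithmeticFunction

namespace Pool.Agent.Work.MP_5d318d_nt

open Pool.Agent.Lib.LargeSieve Pool.Agent.Lib.ANT

/-- the divisor weights -/
def gw (R d : ℕ) : ℝ := Real.log R - Real.log d + HH (d / R) - eulerMascheroniConstant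

/-- the truncated divisor sum -/
def LT (R R' m : ℕ) : ℝ := ∑ d ∈ m.divisors, if d ≤ R' then muR d * gw R d else 0

/-- its Ramanujan coefficients -/
def bet (R R' r : ℕ) : ℝ := ∑ d ∈ Icc 1 R', if r ∣ d then muR d * gw R d / d else 0

variable {R R' R1 : ℕ} {Z B : ℝ}

theorem abs_gw_far (hR : 0 < R) {d : ℕ} (hd : R ≤ d) : |gw R d| ≤ 1 / (d / R : ℕ) := by
  have hn : 0 < d / R := Nat.div_pos hd hR
  have h1 := eulerMascheroniSeq_lt_eulerMascheroniConstant (d / R)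
  have h2 := eulerMascheroniConstant_lt_eulerMascheroniSeq' (d / R)
  rw [eulerMascheroniSeq, ← HH_eq_harmonic] at h1
  rw [eulerMascheroniSeq', if_neg hn.ne', ← HH_eq_harmonic] at h2
  have hR' : (0 : ℝ) < R := by exact_mod_cast hR
  have hn' : (0 : ℝ) < (d / R : ℕ) := by exact_mod_cast hn
  have h3 : Real.log (R * (d / R : ℕ)) ≤ Real.log d :=
    Real.log_le_log (by positivity) (by exact_mod_cast Nat.mul_div_le d R)
  have h4 : Real.log d ≤ Real.log (R * ((d / R : ℕ) + 1)) :=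
    Real.log_le_log (by exact_mod_cast hR.trans_le hd)
      (by exact_mod_cast (Nat.lt_mul_div_succ d hR).le)
  rw [Real.log_mul hR'.ne' (by positivity)] at h3 h4
  have h5 := Real.log_le_sub_one_of_pos (show 0 < (((d / R : ℕ) : ℝ) + 1) / (d / R : ℕ) by positivity)
  rw [Real.log_div (by positivity) hn'.ne', add_div, div_self hn'.ne'] at h5
  rw [gw, abs_le]
  constructor <;> linarith only [h2, h4, h5, h1, h3]

theorem abs_gw_le (hR : 0 < R) {d : ℕ} (hd : 0 < d) : |gw R d| ≤ 1 + Real.log R := by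
  have h0 := Real.log_natCast_nonneg R
  rcases le_or_gt R d with h | h
  · have : (1 : ℝ) ≤ (d / R : ℕ) := by exact_mod_cast Nat.div_pos h hR
    linarith only [h0, hR, h, this, abs_gw_far hR h, (div_le_one (by linarith)).mpr this]
  · have h1 : Real.log d ≤ Real.log R :=
      Real.log_le_log (by exact_mod_cast hd) (by exact_mod_cast h.le)
    have h2 := Real.log_natCast_nonneg d
    have h3 := one_half_lt_eulerMascheroniConstant
    have h4 := eulerMascheroniConstant_lt_two_thirds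
    rw [gw, Nat.div_eq_of_lt h, show HH 0 = 0 by simp [HH], abs_le]
    constructor <;> linarith only [h0, h1, h3, h4, h2]

theorem FB_bet (R R' : ℕ) {m : ℕ} (hm : m ≠ 0) : FB (bet R R') (Ioc 0 R') m = LT R R' m := by
  simp only [FB, bet, sum_mul]
  rw [sum_comm, LT, ← sum_filter, show m.divisors.filter (fun d => d ≤ R') =
    (Icc 1 R').filter (fun d => d ∣ m) by
      ext d
      simp only [mem_filter, mem_Icc, Nat.mem_divisors]
      exact ⟨fun h => ⟨⟨Nat.pos_of_dvd_of_pos h.1.1 (Nat.pos_of_ne_zero hm), h.2⟩, h.1.1⟩,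
        fun h => ⟨⟨h.2, hm⟩, h.1.2⟩⟩, sum_filter]
  refine sum_congr rfl fun d hd => ?_
  rw [mem_Icc] at hd
  have hd' : (d : ℝ) ≠ 0 := by exact_mod_cast (by omega : d ≠ 0)
  simp only [ite_mul, zero_mul]
  rw [← sum_filter, show Ioc 0 R' = Icc 1 R' from rfl, filter_dvd_Icc (by omega) hd.2, ← mul_sum,
    sum_ram (by omega)]
  simp only [Int.natCast_dvd_natCast]
  split_ifs
  · field_simp
  · simp

theorem bet_eq_zero {r : ℕ} (hr : ¬ Squarefree r) : bet R R' r = 0 :=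
  sum_eq_zero fun d _ => by
    split_ifs with h
    · rw [muR_eq_zero fun h' => hr (h'.squarefree_of_dvd h)]; simp
    · rfl

theorem abs_bet_le (hR : 0 < R) (hZ : 1 + Real.log R ≤ Z) (hH : HH R' ≤ Z) (r : ℕ) :
    |bet R R' r| ≤ Z ^ 2 / r := by
  have hZ0 : 0 ≤ Z := (HH_nonneg _).trans hH
  rcases Nat.eq_zero_or_pos r with rfl | hr
  · rw [bet_eq_zero not_squarefree_zero]; simp
  rw [bet, sum_Icc_dvd hr]
  calc _ ≤ ∑ j ∈ Icc 1 (R' / r), Z / r * (1 / j) := by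
        refine (abs_sum_le_sum_abs _ _).trans (sum_le_sum fun j hj => ?_)
        have h1 := (abs_gw_le hR (Nat.mul_pos hr (mem_Icc.mp hj).1)).trans hZ
        have h2 := abs_muR_le (r * j)
        rw [abs_div, abs_mul, Nat.abs_cast]
        calc _ ≤ 1 * Z / (r * j : ℕ) := by gcongr
          _ = _ := by push_cast; ring
    _ ≤ Z / r * Z := by
        rw [← mul_sum, ← HH]
        gcongr
        exact (HH_mono (Nat.div_le_self _ _)).trans hH
    _ = _ := by ring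

theorem abs_FB_le {b : ℕ → ℝ} (hB : 0 ≤ B) (hb : ∀ r ≤ R', |b r| ≤ B / r) (hH : HH R' ≤ Z)
    {m : ℕ} (hm : m ≠ 0) (hτ : (m.divisors.card : ℝ) ≤ Z) : |FB b (Ioc R1 R') m| ≤ B * Z ^ 2 := by
  calc _ ≤ ∑ r ∈ Icc 1 R', ∑ f ∈ m.divisors, if f ∣ r then B / r * f else 0 := by
        refine (abs_sum_le_sum_abs _ _).trans (le_trans (sum_le_sum fun r hr => ?_)
          (sum_le_sum_of_subset_of_nonneg (Ioc_subset_Ioc_left (Nat.zero_le R1))
            fun _ _ _ => sum_nonneg fun _ _ => by split_ifs <;> positivity))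
        rw [mem_Ioc] at hr
        rw [abs_mul]
        refine (mul_le_mul (hb r hr.2) (abs_ram_le r m) (abs_nonneg _) (by positivity)).trans
          (le_of_eq ?_)
        simp only [Int.natCast_dvd_natCast]
        rw [← sum_filter, ← sum_filter, mul_sum]
        refine sum_congr ?_ fun _ _ => rfl
        ext f
        simp only [mem_filter, Nat.mem_divisors]
        have : r ≠ 0 := by omega
        tauto
    _ ≤ ∑ _f ∈ m.divisors, B * Z := by
        rw [sum_comm]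
        refine sum_le_sum fun f hf => ?_
        have hf0 := Nat.pos_of_mem_divisors hf
        have hf' : (f : ℝ) ≠ 0 := by exact_mod_cast hf0.ne'
        rw [sum_Icc_dvd hf0, sum_congr rfl (g := fun j : ℕ => B * (1 / j)) fun j _ => by
          push_cast; field_simp, ← mul_sum, ← HH]
        gcongr
        exact (HH_mono (Nat.div_le_self _ _)).trans hH
    _ ≤ Z * (B * Z) := by
        have := (HH_nonneg _).trans hH
        rw [sum_const, nsmul_eq_mul]; gcongr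
    _ = _ := by ring

theorem sum_Icc_int (N : ℕ) (f : ℤ → ℝ) : ∑ m ∈ Icc 1 N, f m = ∑ m ∈ Ioc (0 : ℤ) (0 + N), f m := by
  refine sum_bij (fun (m : ℕ) _ => (m : ℤ)) ?_ ?_ ?_ fun _ _ => rfl
  · intro m hm; rw [mem_Icc] at hm; rw [mem_Ioc]; omega
  · intro _ _ _ _ h; exact_mod_cast h
  · intro m hm
    rw [mem_Ioc] at hm
    exact ⟨m.toNat, mem_Icc.mpr (by omega), by omega⟩

theorem sum_abs_sig_le {b : ℕ → ℝ} (hB : 0 ≤ B) (hb : ∀ r ≤ R', |b r| ≤ B / r) (hZ : 0 ≤ Z)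
    (hτ : ∀ r ≤ R', (r.divisors.card : ℝ) ≤ Z) (l : ℕ) {n : ℕ} (hn : n ≤ R') :
    ∑ r ∈ Ioc l n, |b r| * sig r ≤ n * (B * Z) := by
  refine (sum_le_card_nsmul _ _ (B * Z) fun r hr => ?_).trans ?_
  · rw [mem_Ioc] at hr
    have h0 : (0 : ℝ) < r := by exact_mod_cast (by omega : 0 < r)
    calc _ ≤ B / r * (r * Z) := mul_le_mul (hb r (hr.2.trans hn)) ((sig_le r).trans
          (mul_le_mul_of_nonneg_left (hτ r (hr.2.trans hn)) h0.le)) (sig_nonneg r) (by positivity)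
      _ = _ := by field_simp
  · rw [nsmul_eq_mul, Nat.card_Ioc]
    gcongr; omega

theorem pair_FB {b : ℕ → ℝ} (hB : 0 ≤ B) (hb : ∀ r ≤ R', |b r| ≤ B / r) (hZ : 0 ≤ Z)
    (hτ : ∀ r ≤ R', (r.divisors.card : ℝ) ≤ Z) {n : ℕ} (h1 : R1 ≤ n) (hn : n ≤ R') (N : ℕ) :
    |∑ m ∈ Icc 1 N, FB b (Ioc 0 n) m * FB b (Ioc 0 R1) m -
      N * ∑ r ∈ Ioc 0 R1, b r ^ 2 * r.totient| ≤ R' * (B * Z) * (R1 * (B * Z)) := by
  have e1 : ∑ r ∈ Ioc 0 R1, b r ^ 2 * r.totient = ∑ r ∈ Ioc 0 n, ∑ r' ∈ Ioc 0 R1,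
      b r * b r' * (if r = r' then ram r 0 else 0) := by
    rw [sum_comm]
    refine sum_congr rfl fun r hr => ?_
    simp only [mul_ite, mul_zero]
    rw [sum_ite_eq', if_pos (Ioc_subset_Ioc_right h1 hr), ram_zero (mem_Ioc.mp hr).1.ne', sq]
  rw [e1, sum_Icc_int N (fun m => FB b (Ioc 0 n) m * FB b (Ioc 0 R1) m)]
  simp only [FB, sum_mul_sum]
  rw [sum_comm, mul_sum, ← sum_sub_distrib]
  refine le_trans ?_ (mul_le_mul ((sum_abs_sig_le hB hb hZ hτ 0 hn).trans (by gcongr))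
    (sum_abs_sig_le hB hb hZ hτ 0 (h1.trans hn))
    (sum_nonneg fun r _ => mul_nonneg (abs_nonneg _) (sig_nonneg r)) (by positivity))
  rw [sum_mul_sum]
  refine (abs_sum_le_sum_abs _ _).trans (sum_le_sum fun r hr => ?_)
  rw [sum_comm, mul_sum, ← sum_sub_distrib]
  refine (abs_sum_le_sum_abs _ _).trans (sum_le_sum fun r' hr' => ?_)
  have h := pair_sum one_ne_zero (mem_Ioc.mp hr).1.ne' (mem_Ioc.mp hr').1.ne'
    (Nat.coprime_one_left _) (Nat.coprime_one_left _) 0 N 0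
  simp only [Nat.cast_one, isCoprime_one_right, filter_true, add_zero, Nat.totient_one,
    div_one, mul_one, Nat.divisors_one, card_singleton, one_mul] at h
  rw [sum_congr rfl (g := fun m => b r * b r' * (ram r m * ram r' m)) fun _ _ => by ring,
    ← mul_sum, mul_left_comm, ← mul_sub, abs_mul, abs_mul, mul_mul_mul_comm]
  gcongr

theorem LT_eq (R R' : ℕ) {m : ℕ} (hm : 1 < m) : LT R R' m = vonMangoldt m + Tt R m -
    ∑ d ∈ m.divisors, if d ≤ R' then 0 else muR d * gw R d := by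
  rw [eq_sub_iff_add_eq, LT, ← sum_add_distrib, sum_congr rfl (g := fun d =>
    muR d * (Real.log R - eulerMascheroniConstant) - muR d * Real.log d + muR d * HH (d / R))
    fun d _ => by unfold gw; split_ifs <;> ring, sum_add_distrib, sum_sub_distrib, ← sum_mul,
    sum_muR, if_neg hm.ne', zero_mul, zero_sub, Tt]
  congr 1
  exact neg_eq_iff_eq_neg.mpr sum_moebius_mul_log_eq

theorem abs_Tt_le {m : ℕ} (hτ : (m.divisors.card : ℝ) ≤ Z) (hH : HH m ≤ Z) : |Tt R m| ≤ Z ^ 2 := by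
  refine (abs_sum_le_sum_abs _ _).trans ((sum_le_card_nsmul _ _ Z fun d hd => ?_).trans ?_)
  · rw [abs_mul, abs_of_nonneg (HH_nonneg _)]
    exact (mul_le_of_le_one_left (HH_nonneg _) (abs_muR_le _)).trans
      ((HH_mono ((Nat.div_le_self _ _).trans (Nat.divisor_le hd))).trans hH)
  · rw [nsmul_eq_mul, sq]
    exact mul_le_mul_of_nonneg_right hτ ((HH_nonneg _).trans hH)

theorem abs_LT_le (hR : 0 < R) (hZ : 1 + Real.log R ≤ Z) {m : ℕ}
    (hτ : (m.divisors.card : ℝ) ≤ Z) : |LT R R' m| ≤ Z ^ 2 := by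
  have hZ0 : 0 ≤ Z := (Nat.cast_nonneg _).trans hτ
  refine (abs_sum_le_sum_abs _ _).trans ((sum_le_card_nsmul _ _ Z fun d hd => ?_).trans ?_)
  · split_ifs
    · rw [abs_mul]
      exact (mul_le_of_le_one_left (abs_nonneg _) (abs_muR_le _)).trans
        ((abs_gw_le hR (Nat.pos_of_mem_divisors hd)).trans hZ)
    · simpa using hZ0
  · rw [nsmul_eq_mul, sq]
    exact mul_le_mul_of_nonneg_right hτ hZ0

theorem sum_LT_sq_le {N Y M : ℕ} (hR : 2 ≤ R) (hRN : R ≤ N) (hY : 0 < Y) (hRY : R * Y ≤ R')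
    (hM : 0 < M) (hMR : M ≤ R ^ 2) (hτ : ∀ r ≤ N, (r.divisors.card : ℝ) ≤ Z) (hH : 1 + HH N ≤ Z) :
    ∑ m ∈ Icc 1 N, LT R R' m ^ 2 ≤ ∑ m ∈ Icc 1 N, Tt R m ^ 2 +
      (2 * Real.log R - Real.log M) * ∑ m ∈ Icc 1 N, vonMangoldt m +
      (12 * Z * M + 6 * Z ^ 3 * √N + 2 * N * Z ^ 3 / Y + Z ^ 4) := by
  have hZ1 : 1 ≤ Z := by linarith only [hH, HH_nonneg N]
  have hlog : ∀ n ≤ N, 1 + Real.log n ≤ Z := fun n hn => by
    linarith only [hH, hn, log_le_HH n, HH_mono hn]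
  have hY' : (0 : ℝ) < Y := by exact_mod_cast hY
  have hR' : (0 : ℝ) < R := by exact_mod_cast (by omega : 0 < R)
  have hc : 0 ≤ 2 * Real.log R - Real.log M := by
    have := Real.log_le_log (by exact_mod_cast hM) (show (M : ℝ) ≤ R ^ 2 by exact_mod_cast hMR)
    rw [Real.log_pow] at this
    push_cast at this; linarith only [this]
  have h1 : ∀ m ∈ Icc 1 N, LT R R' m ^ 2 ≤ Tt R m ^ 2 +
      (2 * Real.log R - Real.log M) * vonMangoldt m +
      (2 * Z * (if m ≤ M then vonMangoldt m else 0) +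
        3 * Z ^ 2 * (if ¬ m.Prime then vonMangoldt m else 0) + 2 * Z ^ 3 / Y +
        if m = 1 then Z ^ 4 else 0) := by
    intro m hm
    have hΛ : 0 ≤ vonMangoldt m := vonMangoldt_nonneg
    have hΛ1 := vonMangoldt_le_log_of_le hm
    rw [mem_Icc] at hm
    have a1 := abs_LT_le (R' := R') (by omega) (hlog R hRN) (hτ m hm.2)
    have a2 : 0 ≤ 2 * Z * (if m ≤ M then vonMangoldt m else 0) := by split_ifs <;> positivity
    have a3 : 0 ≤ 3 * Z ^ 2 * (if ¬ m.Prime then vonMangoldt m else 0) := by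
      split_ifs <;> positivity
    have a4 := mul_nonneg hc hΛ
    by_cases h : m = 1
    · have : LT R R' m ^ 2 ≤ (Z ^ 2) ^ 2 := by rw [← sq_abs]; gcongr
      have a5 : 0 ≤ 2 * Z ^ 3 / Y := by positivity
      rw [if_pos h]
      linarith only [a2, a3, a4, this, a5, sq_nonneg (Tt R m), sq_nonneg (Tt R m)]
    rw [if_neg h]
    have a5 : |∑ d ∈ m.divisors, if d ≤ R' then 0 else muR d * gw R d| ≤ Z * (1 / Y) := by
      refine (abs_sum_le_sum_abs _ _).trans ((sum_le_card_nsmul _ _ (1 / Y : ℝ)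
        fun d _ => ?_).trans (by rw [nsmul_eq_mul]; gcongr; exact hτ m hm.2))
      split_ifs with hd
      · simp
      · have b1 : Y ≤ d / R := (Nat.le_div_iff_mul_le (by omega)).mpr (by rw [mul_comm]; omega)
        rw [abs_mul]
        refine (mul_le_of_le_one_left (abs_nonneg _) (abs_muR_le _)).trans
          ((abs_gw_far (by omega) (by nlinarith only [hRY, hd, hY])).trans ?_)
        gcongr
    have a6 := LT_eq R R' (show 1 < m by omega)
    generalize (∑ d ∈ m.divisors, if d ≤ R' then 0 else muR d * gw R d) = t at a5 a6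
    have a7 : LT R R' m ^ 2 ≤ (vonMangoldt m + Tt R m) ^ 2 + 2 * Z ^ 3 / Y := by
      have b1 : |LT R R' m * t| ≤ Z ^ 2 * (Z * (1 / Y)) := by rw [abs_mul]; gcongr
      have b2 : Z ^ 2 * (Z * (1 / Y)) * 2 = 2 * Z ^ 3 / Y := by ring
      rw [show vonMangoldt m + Tt R m = LT R R' m + t by linarith only [a6]]
      linarith only [b2, b1, (abs_le.mp b1).1, sq_nonneg t, sq_nonneg t]
    suffices vonMangoldt m * (vonMangoldt m + 2 * Tt R m) ≤
        (2 * Real.log R - Real.log M) * vonMangoldt m +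
        (2 * Z * (if m ≤ M then vonMangoldt m else 0) +
        3 * Z ^ 2 * (if ¬ m.Prime then vonMangoldt m else 0)) by linarith only [a7, this]
    by_cases hp : m.Prime
    · have b1 : Tt R m = -HH (m / R) := by
        rw [Tt, hp.sum_divisors, Nat.div_eq_of_lt hR, muR, intCoe_apply, moebius_apply_prime hp]
        simp [HH]
      have b2 := log_succ_le_HH (m / R)
      have b3 : Real.log m ≤ Real.log (R * ((m / R : ℕ) + 1)) :=
        Real.log_le_log (by exact_mod_cast hm.1)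
          (by exact_mod_cast (Nat.lt_mul_div_succ m (by omega)).le)
      rw [Real.log_mul hR'.ne' (by positivity)] at b3
      have b4 : vonMangoldt m + 2 * Tt R m ≤ 2 * Real.log R - Real.log m := by
        rw [vonMangoldt_apply_prime hp]; linarith only [b1, b2, b3]
      have b5 := mul_le_mul_of_nonneg_left b4 hΛ
      by_cases hmM : m ≤ M
      · rw [if_pos hmM]
        have := mul_nonneg hΛ (Real.log_natCast_nonneg m)
        have := mul_le_mul_of_nonneg_left (show Real.log R ≤ Z by linarith only [hlog, hRN, hlog R hRN]) hΛ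
        nlinarith
      · have := mul_le_mul_of_nonneg_left (Real.log_le_log (by exact_mod_cast hM)
          (show (M : ℝ) ≤ m by exact_mod_cast (not_le.mp hmM).le)) hΛ
        linarith only [a2, a3, b5, this]
    · rw [if_pos hp]
      have b1 := (abs_le.mp (abs_Tt_le (R := R) (hτ m hm.2)
        (show HH m ≤ Z by linarith only [hH, hm, HH_mono hm.2]))).2
      have b2 : vonMangoldt m + 2 * Tt R m ≤ 3 * Z ^ 2 := by linarith only [hΛ1, b1, hlog, hZ1, hlog N le_rfl, sq_nonneg Z, mul_nonneg_of_nonpos_of_nonpos (Mathlib.Tactic.Linarith.sub_nonpos_of_le hZ1) (Mathlib.Tactic.Linarith.sub_nonpos_of_le hZ1)]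
      linarith only [a2, a4, b2, hΛ, mul_le_mul_of_nonneg_left b2 hΛ]
  refine (sum_le_sum h1).trans ?_
  simp only [sum_add_distrib, ← mul_sum]
  rw [← sum_filter, ← sum_filter, sum_const, sum_ite_eq', Nat.card_Icc, nsmul_eq_mul]
  have a1 : ∑ n ∈ (Icc 1 N).filter (fun n => n ≤ M), vonMangoldt n ≤ 6 * M := by
    refine le_trans (sum_le_sum_of_subset_of_nonneg (fun n hn => ?_)
      fun _ _ _ => vonMangoldt_nonneg) (sum_vonMangoldt_Icc_le M)
    simp only [mem_filter, mem_Icc] at hn ⊢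
    omega
  have a2 := (sum_not_prime_le N (by omega)).trans (show 2 * √N * Real.log N ≤ 2 * √N * Z by
    gcongr; linarith only [hlog, hlog N le_rfl])
  have a3 : (if 1 ∈ Icc 1 N then Z ^ 4 else 0) ≤ Z ^ 4 := by split_ifs; exacts [le_rfl, by positivity]
  have a4 := mul_le_mul_of_nonneg_left a1 (show 0 ≤ 2 * Z by positivity)
  have a5 := mul_le_mul_of_nonneg_left a2 (show 0 ≤ 3 * Z ^ 2 by positivity)
  have a6 : ((N + 1 - 1 : ℕ) : ℝ) * (2 * Z ^ 3 / Y) = 2 * N * Z ^ 3 / Y := by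
    rw [Nat.add_sub_cancel]; ring
  linarith only [a3, a4, a5, a6]

theorem sum_inv_rad_le {y W : ℕ} (hW : 0 < W) (S : Finset ℕ) (hS : ∀ v ∈ S, v ≠ 0 ∧ radQ 1 v ≤ y) :
    ∑ v ∈ S, (1 : ℝ) / v ≤ HH (y * W ^ 2) + 2 / W * HH y := by
  rw [← sum_filter_add_sum_filter_not S (fun v => v ≤ y * W ^ 2)]
  refine add_le_add (sum_le_sum_of_subset_of_nonneg (fun v hv => ?_) fun _ _ _ => by positivity) ?_
  · obtain ⟨h1, h2⟩ := mem_filter.mp hv
    exact mem_Icc.mpr ⟨Nat.pos_of_ne_zero (hS v h1).1, h2⟩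
  refine (sum_le_of_section _ (Ioo W (S.sup id + 1) ×ˢ Icc 1 y) _
    (fun x => ((x.1 : ℝ) ^ 2)⁻¹ * (1 / x.2)) (fun x => x.1 ^ 2 * x.2) (fun _ _ => by positivity)
    fun v hv => ?_).trans ?_
  · obtain ⟨h1, h2⟩ := mem_filter.mp hv
    obtain ⟨b, a, h3, h4⟩ := Nat.sq_mul_squarefree v
    have h5 : b ≤ y := (Nat.le_of_dvd (radQ_pos _ _) (dvd_radQ (hS v h1).1 h4
      (Dvd.intro_left _ h3) (Nat.coprime_one_right _))).trans (hS v h1).2
    refine ⟨(a, b), mem_product.mpr ⟨mem_Ioo.mpr ⟨?_, ?_⟩,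
      mem_Icc.mpr ⟨Nat.pos_of_ne_zero h4.ne_zero, h5⟩⟩, h3, le_of_eq ?_⟩
    · by_contra h
      refine h2 (h3 ▸ ?_)
      rw [mul_comm]
      exact Nat.mul_le_mul h5 (Nat.pow_le_pow_left (not_lt.mp h) 2)
    · exact Nat.lt_succ_of_le ((Nat.le_of_dvd (Nat.pos_of_ne_zero (hS v h1).1)
        (h3 ▸ Dvd.dvd.mul_right (dvd_pow_self a two_ne_zero) _)).trans (le_sup (f := id) h1))
    · rw [← h3]; push_cast; rw [one_div, one_div, mul_inv]
  · rw [sum_product' (f := fun a b : ℕ => ((a : ℝ) ^ 2)⁻¹ * (1 / b)), ← sum_mul_sum, ← HH]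
    refine mul_le_mul_of_nonneg_right ((sum_Ioo_inv_sq_le _ _).trans ?_) (HH_nonneg _)
    have : (0 : ℝ) < W := by exact_mod_cast hW
    gcongr; linarith

theorem Sg_le {y W : ℕ} (hW : 0 < W) : ∑ r ∈ (Ioc 0 y).filter Squarefree, (r.totient : ℝ)⁻¹ ≤
    HH (y * W ^ 2) + 2 / W * HH y := by
  classical
  let f : ℕ →* ℝ := { toFun := fun n => (n : ℝ)⁻¹, map_one' := by simp,
                       map_mul' := fun a b => by push_cast; rw [mul_inv] }
  have hf : ∀ {p : ℕ}, p.Prime → ‖f p‖ < 1 := by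
    intro p hp
    change ‖(p : ℝ)⁻¹‖ < 1
    rw [Real.norm_eq_abs, abs_of_nonneg (by positivity)]
    exact inv_lt_one_of_one_lt₀ (by exact_mod_cast hp.one_lt)
  have h1 : ∀ r ∈ (Ioc 0 y).filter Squarefree, HasSum (fun m : ℕ =>
      if m ∈ Nat.factoredNumbers r.primeFactors then (1 : ℝ) / (r * m : ℕ) else 0)
      (r.totient : ℝ)⁻¹ := by
    intro r hr
    have hr0 := (mem_Ioc.mp (mem_filter.mp hr).1).1
    have hr' : (r : ℝ) ≠ 0 := by exact_mod_cast hr0.ne'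
    have h2 := (EulerProduct.summable_and_hasSum_factoredNumbers_prod_filter_prime_geometric
      hf r.primeFactors).2
    rw [filter_true_of_mem fun p hp => Nat.prime_of_mem_primeFactors hp,
      prod_congr rfl (g := fun p : ℕ => 1 + ((p : ℝ) - 1)⁻¹) fun p hp => by
        have : (1 : ℝ) < p := by exact_mod_cast (Nat.prime_of_mem_primeFactors hp).one_lt
        have h1 : (p : ℝ) - 1 ≠ 0 := by linarith only [this]
        change (1 - (p : ℝ)⁻¹)⁻¹ = _
        field_simp; ring, prod_primeFactors_one_add_inv r hr0] at h2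
    have h3 := (hasSum_subtype_iff_indicator.mp h2).mul_left (r : ℝ)⁻¹
    rw [div_eq_mul_inv, inv_mul_cancel_left₀ hr'] at h3
    refine h3.congr_fun fun m => ?_
    rw [Set.indicator_apply]
    split_ifs
    · change _ = (r : ℝ)⁻¹ * (m : ℝ)⁻¹
      push_cast; rw [one_div, mul_inv]
    · simp
  refine hasSum_le_of_sum_le (hasSum_sum h1) fun t => ?_
  rw [← sum_product', ← sum_filter]
  have h2 : ∀ x ∈ (t ×ˢ (Ioc 0 y).filter Squarefree).filter
      (fun x => x.1 ∈ Nat.factoredNumbers x.2.primeFactors),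
      x.2 * x.1 ≠ 0 ∧ radQ 1 (x.2 * x.1) = x.2 ∧ x.2 ≤ y := by
    intro x hx
    obtain ⟨a1, a2⟩ := mem_filter.mp hx
    obtain ⟨a3, a4⟩ := mem_filter.mp (mem_product.mp a1).2
    rw [Nat.mem_factoredNumbers_iff_primeFactors_subset] at a2
    refine ⟨mul_ne_zero a4.ne_zero a2.1, radQ_mul a4 (Nat.coprime_one_right _) a2.1 ?_,
      (mem_Ioc.mp a3).2⟩
    rw [radQ, filter_false_of_mem, prod_empty]
    intro p hp
    rw [one_mul, not_not]
    exact Nat.dvd_of_mem_primeFactors (a2.2 hp)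
  rw [← sum_image (g := fun x : ℕ × ℕ => x.2 * x.1) (f := fun v : ℕ => (1 : ℝ) / v)]
  · refine sum_inv_rad_le hW _ fun v hv => ?_
    obtain ⟨x, hx, rfl⟩ := mem_image.mp hv
    exact ⟨(h2 x hx).1, (h2 x hx).2.1.trans_le (h2 x hx).2.2⟩
  · intro x hx z hz h
    have e : x.2 * x.1 = z.2 * z.1 := h
    have e2 : x.2 = z.2 := by rw [← (h2 x hx).2.1, e, (h2 z hz).2.1]
    rw [← e2] at e
    exact Prod.ext (mul_left_cancel₀ (left_ne_zero_of_mul (h2 x hx).1) e) e2

end Pool.Agent.Work.MP_5d318d_nt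
end
end

-- merged part: Pool.Agent.Work.MP_5d318d_nt.ACore
section
/-!
# The basic inequality for a test function independent of the modulus
-/

noncomputable section

open Finset Real ArithmeticFunction

namespace Pool.Agent.Work.MP_5d318d_nt

open Pool.Agent.Lib.LargeSieve Pool.Agent.Lib.ANT

variable {b : ℕ → ℝ} {L H T Q R R' R1 : ℕ} {Z B : ℝ}

theorem abs_sum_ram_coprime (hQ : Q ≠ 0) {r : ℕ} (hr : Squarefree r) (u : ℤ) (L : ℕ) :
    |∑ m ∈ (Ioc u (u + L)).filter (fun m => IsCoprime m (Q : ℤ)), ram r m| ≤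
      L * (Q.totient / Q) * (if r ∣ Q then 1 else 0) + Q.divisors.card * sig r := by
  have h1 := Nat.gcd_dvd_left r Q
  have h3 := Nat.mul_div_cancel' h1
  have hρ : r / r.gcd Q ≠ 0 := right_ne_zero_of_mul (h3.symm ▸ hr.ne_zero)
  have hc : Q.Coprime (r / r.gcd Q) := by
    refine Nat.eq_one_of_dvd_coprimes (Nat.coprime_of_squarefree_mul (h3.symm ▸ hr)) ?_
      (Nat.gcd_dvd_right _ _)
    exact Nat.dvd_gcd ((Nat.gcd_dvd_right _ _).trans (Nat.div_dvd_of_dvd h1)) (Nat.gcd_dvd_left _ _)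
  have h := pair_sum hQ hρ one_ne_zero hc (Nat.coprime_one_right Q) u L 0
  have h2 : ∀ m : ℤ, ram 1 m = 1 := fun m => by simp [ram, muR]
  have h4 : sig 1 = 1 := by simp [sig]
  have h5 : sig (r / r.gcd Q) ≤ sig r := sum_le_sum_of_subset_of_nonneg
    (Nat.divisors_subset_of_dvd hr.ne_zero (Nat.div_dvd_of_dvd h1)) fun _ _ _ => Nat.cast_nonneg _
  simp only [h2, h4, mul_one] at h
  rw [sum_congr rfl fun m hm => ram_reduce hr (mem_filter.mp hm).2, ← mul_sum, abs_mul]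
  refine (mul_le_of_le_one_left (abs_nonneg _) (abs_muR_le _)).trans ?_
  have h6 := mul_le_mul_of_nonneg_left h5 (Nat.cast_nonneg (α := ℝ) Q.divisors.card)
  have h7 : (0 : ℝ) ≤ L * (Q.totient / Q) := by positivity
  by_cases h8 : r / r.gcd Q = 1
  · rw [if_pos h8, h8, h2, mul_one] at h
    rw [h8, mul_one] at h3
    rw [if_pos (h3 ▸ Nat.gcd_dvd_right r Q), h8]
    rw [h8] at h6
    rw [abs_le] at h ⊢
    constructor <;> linarith only [h, h6, h7]
  · rw [if_neg h8, mul_zero, sub_zero] at h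
    split_ifs <;> linarith only [h, h6, h7]

theorem mean_le (hH : 0 < H) (hQ : Q ≠ 0) (hB : 0 ≤ B) (hb0 : ∀ r, ¬ Squarefree r → b r = 0)
    (hb : ∀ r ≤ R', |b r| ≤ B / r) (hR1 : 0 < R1) (hτQ : (Q.divisors.card : ℝ) ≤ Z)
    (hτ : ∀ r ≤ R', (r.divisors.card : ℝ) ≤ Z) :
    ∑ m ∈ (Icc 1 (L + 4 * H)).filter (fun m => m.Coprime Q), wv L H m * FB b (Ioc R1 R') m ≤
      L * (Q.totient / Q) * (Z * (B / R1)) + Z * (R' * (B * Z)) := by
  have hZ : 0 ≤ Z := (Nat.cast_nonneg _).trans hτQ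
  have h1 : ∀ u : ℤ, ∑ m ∈ (Ioc u (u + L)).filter (fun m => IsCoprime m (Q : ℤ)),
      FB b (Ioc R1 R') m ≤ L * (Q.totient / Q) * (Z * (B / R1)) + Z * (R' * (B * Z)) := by
    intro u
    unfold FB
    rw [sum_comm]
    calc _ ≤ ∑ r ∈ Ioc R1 R', (L * (Q.totient / Q) * (if r ∣ Q then B / R1 else 0) +
          Z * (|b r| * sig r)) := by
          refine sum_le_sum fun r hr => ?_
          rw [mem_Ioc] at hr
          rw [← mul_sum]
          by_cases h : Squarefree r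
          · refine (le_abs_self _).trans ?_
            rw [abs_mul]
            refine (mul_le_mul_of_nonneg_left (abs_sum_ram_coprime hQ h u L) (abs_nonneg _)).trans ?_
            have a1 : |b r| ≤ B / R1 := (hb r hr.2).trans (by gcongr; exact hr.1.le)
            have a2 := sig_nonneg r
            rw [mul_add, mul_left_comm |b r|, mul_left_comm |b r|]
            gcongr
            split_ifs
            · rwa [mul_one]
            · rw [mul_zero]
          · rw [hb0 r h, zero_mul, abs_zero, zero_mul, mul_zero, add_zero]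
            split_ifs <;> positivity
      _ ≤ _ := by
          rw [sum_add_distrib, ← mul_sum, ← mul_sum, ← sum_filter, sum_const, nsmul_eq_mul]
          gcongr
          · refine le_trans (Nat.cast_le.mpr (card_le_card fun r hr => ?_)) hτQ
            exact Nat.mem_divisors.mpr ⟨(mem_filter.mp hr).2, hQ⟩
          · exact sum_abs_sig_le hB hb hZ hτ R1 le_rfl
  simp only [wv, sum_mul]
  rw [sum_comm]
  refine le_trans (sum_le_sum fun t ht => ?_) (le_of_eq (by rw [← sum_mul, sum_gk hH, one_mul]))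
  refine le_trans (le_of_eq ?_) (mul_le_mul_of_nonneg_left (h1 t)
    (div_nonneg (gk_nonneg _) (Nat.cast_nonneg _)))
  rw [mem_range] at ht
  simp only [ite_mul, zero_mul]
  rw [← sum_filter, mul_sum]
  refine sum_bij (fun (m : ℕ) _ => (m : ℤ)) ?_ ?_ ?_ fun _ _ => rfl
  · intro m hm
    exact mem_filter.mpr ⟨(mem_filter.mp hm).2,
      Nat.isCoprime_iff_coprime.mpr (mem_filter.mp (mem_filter.mp hm).1).2⟩
  · intro _ _ _ _ h; exact_mod_cast h
  · intro m hm
    obtain ⟨a1, a2⟩ := mem_filter.mp hm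
    obtain ⟨n, rfl⟩ := Int.eq_ofNat_of_zero_le (show 0 ≤ m by rw [mem_Ioc] at a1; omega)
    refine ⟨n, mem_filter.mpr ⟨mem_filter.mpr ⟨?_, Nat.isCoprime_iff_coprime.mp a2⟩, a1⟩, rfl⟩
    rw [mem_Ioc] at a1
    rw [mem_Icc]; omega

theorem class_sum_nat (g : ℤ → ℝ) {N : ℕ} (hg : ∀ m, m ∉ Ioc (0 : ℤ) (0 + N) → g m = 0)
    (hT : N < (T + 1) * Q) {n : ℕ} (hn : n ∈ Icc 1 N) :
    ∑ m ∈ (Icc 1 N).filter (fun m => m % Q = n % Q), g m =
      ∑ k ∈ Icc (-(T : ℤ)) T, g (n + k * Q) := by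
  have hQ : 0 < Q := Nat.pos_of_ne_zero (by rintro rfl; simp at hT)
  have hQ' : (0 : ℤ) < Q := by exact_mod_cast hQ
  have hT' : (N : ℤ) < (T + 1) * Q := by exact_mod_cast hT
  rw [mem_Icc] at hn
  symm
  refine sum_bij_ne_zero (fun k _ _ => (n + k * Q).toNat) ?_ ?_ ?_ ?_
  · intro k _ h
    have h1 := mem_Ioc.mp (not_not.mp fun h' => h (hg _ h'))
    refine mem_filter.mpr ⟨mem_Icc.mpr (by omega), ?_⟩
    have : ((n + k * Q).toNat : ℤ) % Q = n % Q := by
      rw [Int.toNat_of_nonneg h1.1.le, Int.add_mul_emod_self_right]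
    exact_mod_cast this
  · intro k _ h k' _ h' e
    have h1 := mem_Ioc.mp (not_not.mp fun h'' => h (hg _ h''))
    have h2 := mem_Ioc.mp (not_not.mp fun h'' => h' (hg _ h''))
    exact mul_right_cancel₀ hQ'.ne' (show k * (Q : ℤ) = k' * Q by omega)
  · intro m hm h
    obtain ⟨h1, h2⟩ := mem_filter.mp hm
    rw [mem_Icc] at h1
    obtain ⟨k, hk⟩ := Nat.modEq_iff_dvd.mp (show n ≡ m [MOD Q] from h2.symm)
    have e : n + k * Q = (m : ℤ) := by linarith only [hk]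
    refine ⟨k, mem_Icc.mpr ⟨?_, ?_⟩, by rwa [e], by rw [e, Int.toNat_natCast]⟩
    · by_contra h3
      have : k * Q ≤ -(T + 1) * Q := mul_le_mul_of_nonneg_right (by omega) hQ'.le
      rw [neg_mul] at this
      omega
    · by_contra h3
      have : (T + 1) * Q ≤ k * Q := mul_le_mul_of_nonneg_right (by omega) hQ'.le
      omega
  · intro k _ h
    have h1 := mem_Ioc.mp (not_not.mp fun h' => h (hg _ h'))
    rw [Int.toNat_of_nonneg h1.1.le]

/-- the coefficients paired with the test function -/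
def ac (b : ℕ → ℝ) (L H R1 R' n : ℕ) : ℝ :=
  if n ∈ Icc 1 (L + 4 * H) then 2 * vonMangoldt n - wv L H n * FB b (Ioc R1 R') n else 0

theorem core_avg (hH : 0 < H) (hT : L + 4 * H < (T + 1) * Q) {F C M Y : ℝ}
    (hF : ∀ m ∈ Icc 1 (L + 4 * H), |FB b (Ioc R1 R') m| ≤ F) (hF0 : 0 ≤ F)
    (hC : ∑ n ∈ (Icc 1 (L + 4 * H)).filter (fun n => ¬ n.Coprime Q), vonMangoldt n ≤ C)
    (hM : ∑ m ∈ (Icc 1 (L + 4 * H)).filter (fun m => m.Coprime Q),
      wv L H m * FB b (Ioc R1 R') m ≤ M) (hY : 0 ≤ Y) :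
    ∑ n ∈ Icc 1 (L + 4 * H), ac b L H R1 R' n * (wv L H n * FB b (Ioc R1 R') n) +
      Off (ac b L H R1 R') b L H T R1 R' Q - 2 * ((2 * T + 1) * F * C) - 2 * (Y * M) ≤
      ∑ A ∈ red Q, (psiAP (L + 4 * H) Q A - Y) ^ 2 := by
  have hQ : 0 < Q := Nat.pos_of_ne_zero (by rintro rfl; simp at hT)
  set N := L + 4 * H with hN
  set g : ℤ → ℝ := fun m => wv L H m * FB b (Ioc R1 R') m with hg
  set Φ : ℕ → ℝ := fun A => ∑ m ∈ (Icc 1 N).filter (fun m => m % Q = A), g m with hΦ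
  have hg0 : ∀ m, m ∉ Ioc (0 : ℤ) (0 + N) → g m = 0 := fun m hm => by
    simp only [hg, wv_eq_zero hm, zero_mul]
  have hg1 : ∀ m, |g m| ≤ F := fun m => by
    by_cases h : m ∈ Ioc (0 : ℤ) (0 + N)
    · rw [mem_Ioc] at h
      obtain ⟨n, rfl⟩ := Int.eq_ofNat_of_zero_le h.1.le
      rw [abs_mul, abs_of_nonneg (wv_nonneg _ _)]
      exact (mul_le_of_le_one_left (abs_nonneg _) (wv_le_one _ hH _)).trans
        (hF n (mem_Icc.mpr (by omega)))
    · rwa [hg0 m h, abs_zero]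
  have hΦ1 : ∀ n ∈ Icc 1 N, Φ (n % Q) = ∑ k ∈ Icc (-(T : ℤ)) T, g (n + k * Q) := fun n hn =>
    class_sum_nat g hg0 hT hn
  have h1 : ∑ n ∈ Icc 1 N, ac b L H R1 R' n * g n + Off (ac b L H R1 R') b L H T R1 R' Q =
      2 * ∑ n ∈ Icc 1 N, vonMangoldt n * Φ (n % Q) - ∑ n ∈ Icc 1 N, g n * Φ (n % Q) := by
    rw [Off, mul_sum, ← sum_sub_distrib, ← sum_add_distrib]
    refine sum_congr rfl fun n hn => ?_
    rw [← mul_add, hΦ1 n hn, ← add_sum_erase _ (fun k : ℤ => g (n + k * Q)) (mem_Icc.mpr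
      ⟨neg_nonpos.mpr (Int.natCast_nonneg _), Int.natCast_nonneg _⟩), zero_mul, add_zero, ac,
      if_pos hn]
    ring
  have h2 : ∑ A ∈ red Q, Φ A ^ 2 ≤ ∑ n ∈ Icc 1 N, g n * Φ (n % Q) := by
    rw [← sum_fiberwise_of_maps_to (s := Icc 1 N) (t := range Q) (g := fun n => n % Q)
      fun n _ => mem_range.mpr (Nat.mod_lt _ hQ)]
    refine (sum_le_sum_of_subset_of_nonneg (filter_subset _ _) fun _ _ _ => sq_nonneg _).trans
      (le_of_eq (sum_congr rfl fun A _ => ?_))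
    rw [sq, sum_mul]
    exact sum_congr rfl fun n hn => by rw [(mem_filter.mp hn).2]
  have h3 : ∑ n ∈ Icc 1 N, vonMangoldt n * Φ (n % Q) - (2 * T + 1) * F * C ≤
      ∑ A ∈ red Q, psiAP N Q A * Φ A := by
    have a1 : ∑ A ∈ red Q, psiAP N Q A * Φ A =
        ∑ n ∈ (Icc 1 N).filter (fun n => n.Coprime Q), vonMangoldt n * Φ (n % Q) := by
      rw [← sum_red_fiber N Q hQ]
      refine sum_congr rfl fun A _ => ?_
      rw [psiAP, sum_mul]
      exact sum_congr rfl fun n hn => by rw [(mem_filter.mp hn).2]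
    rw [a1, ← sum_filter_add_sum_filter_not (Icc 1 N) (fun n => n.Coprime Q), add_sub_assoc]
    refine add_le_of_nonpos_right (sub_nonpos.mpr (le_trans ?_
      (mul_le_mul_of_nonneg_left hC (by positivity))))
    rw [mul_sum]
    refine sum_le_sum fun n hn => ?_
    rw [mul_comm, hΦ1 n (mem_filter.mp hn).1]
    refine mul_le_mul_of_nonneg_right ((sum_le_card_nsmul _ _ F fun k _ =>
      (le_abs_self _).trans (hg1 _)).trans ?_) vonMangoldt_nonneg
    rw [nsmul_eq_mul, card_Icc_T]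
  have h4 : ∑ A ∈ red Q, Φ A ≤ M := (sum_red_fiber N Q hQ fun m => g m).trans_le hM
  have h5 : ∑ A ∈ red Q, (2 * (psiAP N Q A * Φ A) - 2 * (Y * Φ A) - Φ A ^ 2) ≤
      ∑ A ∈ red Q, (psiAP N Q A - Y) ^ 2 :=
    sum_le_sum fun A _ => by linarith only [sq_nonneg (psiAP N Q A - Y - Φ A), sq_nonneg (psiAP N Q A - Y - Φ A)]
  rw [sum_sub_distrib, sum_sub_distrib, ← mul_sum, ← mul_sum, ← mul_sum] at h5
  have h6 := mul_le_mul_of_nonneg_left h4 hY
  linarith only [h1, h2, h3, h5, h6]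

theorem FB_sub (h : R1 ≤ R') (m : ℤ) :
    FB b (Ioc R1 R') m = FB b (Ioc 0 R') m - FB b (Ioc 0 R1) m := by
  rw [FB, FB, FB, ← sum_Ioc_consecutive _ (Nat.zero_le R1) h, add_sub_cancel_left]

theorem diag_ge (hH : 0 < H) (hR : 2 ≤ R) (hR1 : R1 ≤ R') (hR' : 1 ≤ R') (hRN : R' ≤ L + 4 * H)
    (hZ : 1 + Real.log R ≤ Z) (hτ : ∀ r ≤ L + 4 * H, (r.divisors.card : ℝ) ≤ Z)
    (hHH : HH (L + 4 * H) ≤ Z) :
    2 * (Real.log R - 1) * ∑ n ∈ Icc 1 (L + 4 * H), vonMangoldt n -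
      (∑ n ∈ Icc 1 (L + 4 * H), vonMangoldt n) ^ 2 / (L + 4 * H : ℕ) *
        ∑ r ∈ (Ioc 0 R1).filter Squarefree, (r.totient : ℝ)⁻¹ -
      ∑ n ∈ Icc 1 (L + 4 * H), LT R R' n ^ 2 - (3 * R' * R1 * Z ^ 6 +
        6 * Z ^ 4 * (2 * √(L + 4 * H : ℕ) * Z + 6 * (R' + 4 * H) + 4 * H * Z)) ≤
    ∑ n ∈ Icc 1 (L + 4 * H), ac (bet R R') L H R1 R' n *
      (wv L H n * FB (bet R R') (Ioc R1 R') n) := by
  set N := L + 4 * H with hN
  set β := bet R R' with hβ
  have hZ1 : 1 ≤ Z := by linarith only [hZ, Real.log_natCast_nonneg R]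
  have hHR : HH R' ≤ Z := (HH_mono hRN).trans hHH
  have hb : ∀ r ≤ R', |β r| ≤ Z ^ 2 / r := fun r _ => abs_bet_le (by omega) hZ hHR r
  have hτR : ∀ r ≤ R', (r.divisors.card : ℝ) ≤ Z := fun r hr => hτ r (hr.trans hRN)
  have hN' : (0 : ℝ) < N := by exact_mod_cast (by omega : 0 < N)
  have hlog : Real.log N ≤ Z := (log_le_HH N).trans hHH
  set κ : ℝ := gw R 1 - ∑ r ∈ Ioc 0 R1, β r * muR r with hκ
  have hκ1 : |κ| ≤ 2 * Z ^ 4 := by
    have a1 := (abs_gw_le (R := R) (by omega) one_pos).trans hZ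
    have a2 := abs_FB_le (R1 := 0) (R' := R1) (by positivity) (fun r hr => hb r (hr.trans hR1))
      ((HH_mono hR1).trans hHR) one_ne_zero (by simpa using hZ1)
    rw [FB, sum_congr rfl fun r hr => by
      rw [ram_of_coprime (mem_Ioc.mp hr).1.ne' (by simpa using isCoprime_one_left)]] at a2
    have a3 : Z ≤ Z ^ 4 := le_self_pow₀ hZ1 (by norm_num)
    linarith only [a1, a2, a3, abs_sub (gw R 1) (∑ r ∈ Ioc 0 R1, β r * muR r)]
  have h1 : ∀ n ∈ Icc 1 N, 2 * κ * vonMangoldt n - FB β (Ioc R1 R') n ^ 2 -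
      6 * Z ^ 4 * ((if ¬ n.Prime then vonMangoldt n else 0) +
        (if n ≤ R' + 4 * H then vonMangoldt n else 0) + if L < n then vonMangoldt n else 0) ≤
      ac β L H R1 R' n * (wv L H n * FB β (Ioc R1 R') n) := by
    intro n hn
    rw [ac, if_pos hn]
    rw [mem_Icc] at hn
    have hΛ : 0 ≤ vonMangoldt n := vonMangoldt_nonneg
    have w0 := wv_nonneg (H := H) L n
    have w1 := wv_le_one L hH n
    have a1 : (wv L H n * FB β (Ioc R1 R') n) ^ 2 ≤ FB β (Ioc R1 R') n ^ 2 := by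
      rw [mul_pow]
      exact mul_le_of_le_one_left (sq_nonneg _) (pow_le_one₀ w0 w1)
    by_cases h : n.Prime ∧ R' + 4 * H < n ∧ n ≤ L
    · have a2 : FB β (Ioc R1 R') n = κ := by
        rw [FB_sub hR1, hβ, FB_bet R R' h.1.ne_zero, LT, h.1.sum_divisors, if_neg (by omega),
          if_pos hR', FB, hκ]
        congr 1
        · simp [muR]
        · refine sum_congr rfl fun r hr => ?_
          rw [mem_Ioc] at hr
          rw [ram_of_coprime hr.1.ne' (Nat.isCoprime_iff_coprime.mpr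
            (h.1.coprime_iff_not_dvd.mpr fun hd => by have := Nat.le_of_dvd hr.1 hd; omega))]
      rw [if_neg (not_not.mpr h.1), if_neg (by omega), if_neg (by omega), a2,
        wv_eq_one hH (by omega) (by omega)]
      exact le_of_eq (by ring)
    · have a2 : vonMangoldt n ≤ (if ¬ n.Prime then vonMangoldt n else 0) +
          (if n ≤ R' + 4 * H then vonMangoldt n else 0) + if L < n then vonMangoldt n else 0 := by
        split_ifs <;> first | linarith | (exfalso; simp only [not_le, not_lt] at *; tauto)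
      have a3 : |wv L H n * FB β (Ioc R1 R') n| ≤ Z ^ 2 * Z ^ 2 := by
        rw [abs_mul, abs_of_nonneg w0]
        exact (mul_le_of_le_one_left (abs_nonneg _) w1).trans
          (abs_FB_le (by positivity) hb hHR (by omega) (hτ n hn.2))
      have a4 := mul_le_mul_of_nonneg_left a2 (show 0 ≤ 6 * Z ^ 4 by positivity)
      have a5 := mul_le_mul_of_nonneg_left (abs_le.mp a3).1 hΛ
      have a6 := mul_le_mul_of_nonneg_left (abs_le.mp hκ1).2 hΛ
      linarith only [a1, a4, a5, a6]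
  refine le_trans ?_ (sum_le_sum h1)
  simp only [sum_sub_distrib, sum_add_distrib, ← mul_sum]
  rw [← sum_filter, ← sum_filter, ← sum_filter]
  have a1 := (sum_not_prime_le N (by omega)).trans (show 2 * √N * Real.log N ≤ 2 * √N * Z by gcongr)
  have a2 : ∑ n ∈ (Icc 1 N).filter (fun n => n ≤ R' + 4 * H), vonMangoldt n ≤
      6 * (R' + 4 * H) := by
    refine le_trans (sum_le_sum_of_subset_of_nonneg (fun n hn => ?_)
      fun _ _ _ => vonMangoldt_nonneg) ((sum_vonMangoldt_Icc_le (R' + 4 * H)).trans (by simp))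
    simp only [mem_filter, mem_Icc] at hn ⊢
    omega
  have a3 : ∑ n ∈ (Icc 1 N).filter (fun n => L < n), vonMangoldt n ≤ 4 * H * Z := by
    refine (sum_le_card_nsmul _ _ Z fun n hn =>
      (vonMangoldt_le_log_of_le (mem_filter.mp hn).1).trans hlog).trans ?_
    have : ((Icc 1 N).filter (fun n => L < n)).card ≤ 4 * H :=
      (card_le_card (t := Ioc L N) fun n hn => by
        simp only [mem_filter, mem_Icc, mem_Ioc] at hn ⊢; omega).trans (by simp [hN])
    rw [nsmul_eq_mul]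
    gcongr
    exact_mod_cast this
  have a4 := mul_le_mul_of_nonneg_left (add_le_add (add_le_add a1 a2) a3)
    (show 0 ≤ 6 * Z ^ 4 by positivity)
  have a5 := abs_le.mp (pair_FB (by positivity) hb (by linarith only [hZ1]) hτR hR1 le_rfl N)
  have a6 := abs_le.mp (pair_FB (by positivity) hb (by linarith only [hZ1]) hτR le_rfl hR1 N)
  have a7 : ∑ n ∈ Icc 1 N, FB β (Ioc R1 R') n ^ 2 = ∑ n ∈ Icc 1 N, LT R R' n ^ 2 -
      2 * ∑ n ∈ Icc 1 N, FB β (Ioc 0 R') n * FB β (Ioc 0 R1) n +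
      ∑ n ∈ Icc 1 N, FB β (Ioc 0 R1) n * FB β (Ioc 0 R1) n := by
    rw [mul_sum, ← sum_sub_distrib, ← sum_add_distrib]
    refine sum_congr rfl fun n hn => ?_
    rw [FB_sub hR1, ← FB_bet R R' (show n ≠ 0 by have := (mem_Icc.mp hn).1; omega)]
    ring
  have hΨ : 0 ≤ ∑ n ∈ Icc 1 N, vonMangoldt n := sum_nonneg fun _ _ => vonMangoldt_nonneg
  generalize ∑ n ∈ Icc 1 N, vonMangoldt n = Ψ at hΨ
  have a8 : 2 * Ψ * ∑ r ∈ Ioc 0 R1, β r * muR r - N * ∑ r ∈ Ioc 0 R1, β r ^ 2 * r.totient ≤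
      Ψ ^ 2 / N * ∑ r ∈ (Ioc 0 R1).filter Squarefree, (r.totient : ℝ)⁻¹ := by
    rw [sum_filter, mul_sum, mul_sum, mul_sum, ← sum_sub_distrib]
    refine sum_le_sum fun r hr => ?_
    split_ifs with h
    · have b1 : (0 : ℝ) < r.totient := by exact_mod_cast Nat.totient_pos.mpr (mem_Ioc.mp hr).1
      have b2 := muR_sq h
      rw [← div_eq_mul_inv, div_div, le_div_iff₀ (by positivity)]
      linarith only [b2, sq_nonneg (Ψ * muR r - N * r.totient * β r), sq_nonneg (Ψ * muR r - ↑N * ↑r.totient * β r), Mathlib.Tactic.Linarith.mul_zero_eq (Mathlib.Tactic.Linarith.sub_nonpos_of_le (sq_nonneg Ψ)) (sub_eq_zero_of_eq b2)]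
    · rw [hβ, bet_eq_zero h]; simp
  have a9 : Real.log R - 1 ≤ gw R 1 := by
    have := eulerMascheroniConstant_lt_two_thirds
    rw [gw, Nat.cast_one, Real.log_one]
    linarith only [this, HH_nonneg (1 / R)]
  have a10 := mul_le_mul_of_nonneg_left a9 hΨ
  rw [a7, hκ]
  linarith only [a4, a5, a6, a8, a10]

end Pool.Agent.Work.MP_5d318d_nt
end
end
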