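import Pool.Agent.Work.MP_5d318d_nt.Core

/-!
# Choice of parameters
-/

noncomputable section

open Finset Real ArithmeticFunction Filter

namespace Pool.Agent.Work.MP_5d318d_nt

open Pool.Agent.Lib.LargeSieve Pool.Agent.Lib.ANT

/-- `Q = p²`, `X / Q = k²`, and `Z` is a small power of `X`. -/
structure Par (X Z k p : ℝ) (Q : ℕ) : Prop where
  hZ : 100 ≤ Z
  hk : 1 ≤ k
  hQ : (Q : ℝ) = p ^ 2
  hX : X = k ^ 2 * p ^ 2
  hkp : k ^ 2 * Z ^ 125 ≤ p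
  hH : ∀ n : ℕ, (n : ℝ) ≤ 10 * X → 1 + HH n ≤ Z
  hτ : ∀ n : ℕ, (n : ℝ) ≤ 10 * X → (n.divisors.card : ℝ) ≤ Z

variable {X Z k p : ℝ} {Q : ℕ}

theorem Par.le_p (c : Par X Z k p Q) {C : ℝ} {i j : ℕ} (hC : C ≤ 100) (hi : i ≤ 2)
    (hj : j ≤ 124) : C * k ^ i * Z ^ j ≤ p := by
  have := c.hZ
  have := c.hk
  calc _ ≤ Z * k ^ 2 * Z ^ 124 := by gcongr <;> linarith
    _ = k ^ 2 * Z ^ 125 := by ring
    _ ≤ p := c.hkp

theorem Par.one_le_p (c : Par X Z k p Q) : 1 ≤ p := by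
  simpa using c.le_p (C := 1) (i := 0) (j := 0) (by norm_num) (by norm_num) (by norm_num)

theorem Par.sqrt_X (c : Par X Z k p Q) : √X = k * p := by
  have := c.hk
  have := c.one_le_p
  rw [c.hX, ← mul_pow, Real.sqrt_sq (by positivity)]

theorem Par.p_le (c : Par X Z k p Q) : p ≤ k * p :=
  le_mul_of_one_le_left (by linarith [c.one_le_p]) c.hk

theorem Par.kp_le (c : Par X Z k p Q) : k * p ≤ X := by
  have := c.p_le
  have := c.one_le_p
  rw [c.hX, ← mul_pow]; nlinarith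

theorem Par.mv (c : Par X Z k p Q) (a : ℕ → ℝ) {H D q : ℕ} (hH : X / Z ≤ H)
    (hL : ((⌊X⌋₊ + 2 * H : ℕ) : ℝ) ≤ 2 * X) (hq : Q ≤ q) (hD1 : Z ^ 37 ≤ D) (hD2 : D * Z ^ 40 ≤ p)
    (ha : ∑ n ∈ Icc 1 ⌊X⌋₊, |a n - vonMangoldt n| ≤ k * p * Z ^ 2) {x : ℤ}
    (hx : x ∈ Icc (-(⌊X⌋₊ : ℤ)) (⌊X⌋₊ + 2 * H)) {y : ℕ} (hy : y ≤ ⌊X⌋₊) :
    PS D (fun _ χ => ‖TS a y χ‖ * ‖Ct χ ((⌊X⌋₊ + 2 * H) / q) (gam H q x)‖) ≤ X / Z ^ 8 * D := by
  have hZ := c.hZ
  have hk := c.hk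
  have hp := c.one_le_p
  have hX : 0 < X := by linarith only [hp, c, c.p_le, c.kp_le]
  have hH0 : (0 : ℝ) < H := lt_of_lt_of_le (by positivity) hH
  have hq' : p ^ 2 ≤ q := by rw [← c.hQ]; exact_mod_cast hq
  have hq0 : 0 < q := by
    have : (0 : ℝ) < q := lt_of_lt_of_le (by positivity) hq'
    exact_mod_cast this
  have hw := wt_gam (by exact_mod_cast hH0) hq0 hx
  have hTq : (((⌊X⌋₊ + 2 * H) / q : ℕ) : ℝ) * q ≤ 2 * X :=
    le_trans (by exact_mod_cast Nat.div_mul_le_self _ _) hL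
  generalize (⌊X⌋₊ + 2 * H) / q = T at hw hTq ⊢
  rcases Nat.eq_zero_or_pos T with rfl | hT
  · refine (PS_mono (G := fun _ _ => 0) fun d hd _ χ _ => ?_).trans
      (by rw [PS_zero]; positivity)
    simp [Ct, χ.map_zero' (by omega : d ≠ 1)]
  have hT2 : (T : ℝ) ≤ 2 * k ^ 2 := by
    have : (T : ℝ) * p ^ 2 ≤ 2 * k ^ 2 * p ^ 2 := by
      rw [mul_assoc, ← c.hX]; exact le_trans (by gcongr) hTq
    exact le_of_mul_le_mul_right this (by positivity)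
  have hT3 : √(T : ℝ) ≤ 2 * k := Real.sqrt_le_iff.mpr ⟨by positivity, by clear * - T k hT2; linarith only [hT2, sq_nonneg k]⟩
  have hU1 : k ^ 2 * Z ^ 39 ≤ ⌈k ^ 2 * Z ^ 39⌉₊ := Nat.le_ceil _
  have hU0 : 1 ≤ k ^ 2 * Z ^ 39 := one_le_mul_of_one_le_of_one_le (one_le_pow₀ hk)
    (one_le_pow₀ (by linarith only [hZ]))
  have hU2 : (⌈k ^ 2 * Z ^ 39⌉₊ : ℝ) ≤ 2 * (k ^ 2 * Z ^ 39) := by
    have := Nat.ceil_lt_add_one (show 0 ≤ k ^ 2 * Z ^ 39 by positivity)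
    linarith only [hU0, this]
  generalize ⌈k ^ 2 * Z ^ 39⌉₊ = U at hU1 hU2
  have hc : Cond X Z ⌊X⌋₊ D T U := by
    clear * - X Z D T U hZ hX hT k p Q c hD1 hT2 hk hU1 hD2 hT3 hU2 hp hH
    refine ⟨hZ, Nat.floor_le hX.le, hT, c.hH, c.hτ, hD1, ?_, ?_, ?_, ?_⟩
    · calc 3 * T * Z ^ 38 ≤ 3 * (2 * k ^ 2) * Z ^ 38 := by gcongr
        _ = 6 * (k ^ 2 * Z ^ 38) := by ring
        _ ≤ Z * (k ^ 2 * Z ^ 38) := by gcongr; linarith only [hZ]
        _ = k ^ 2 * Z ^ 39 := by ring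
        _ ≤ U := hU1
    · rw [c.sqrt_X]
      calc 2 * D * Z ^ 38 = 2 * (D * Z ^ 38) := by ring
        _ ≤ Z ^ 2 * (D * Z ^ 38) := by gcongr; linarith only [hZ, mul_nonneg_of_nonpos_of_nonpos (Mathlib.Tactic.Linarith.sub_nonpos_of_le hZ) (Mathlib.Tactic.Linarith.sub_nonpos_of_le hZ)]
        _ = D * Z ^ 40 := by ring
        _ ≤ k * p := hD2.trans c.p_le
    · rw [c.sqrt_X]
      calc D * √T * Z ^ 20 ≤ D * (2 * k) * Z ^ 20 := by gcongr
        _ = k * (D * (2 * Z ^ 20)) := by ring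
        _ ≤ k * (D * (Z ^ 20 * Z ^ 20)) := by
            gcongr; exact le_trans (by linarith only [hZ]) (le_self_pow₀ (by linarith only [hZ]) (by norm_num))
        _ = k * (D * Z ^ 40) := by ring
        _ ≤ k * p := by gcongr
    · refine Nat.le_floor ?_
      have := c.le_p (C := 8) (i := 2) (j := 117) (by norm_num) le_rfl (by norm_num)
      have h2 := c.le_p (C := 1) (i := 2) (j := 0) (by norm_num) le_rfl (by norm_num)
      push_cast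
      calc (U : ℝ) ^ 3 ≤ (2 * (k ^ 2 * Z ^ 39)) ^ 3 := by gcongr
        _ = k ^ 2 * ((8 * k ^ 2 * Z ^ 117) * (1 * k ^ 2 * Z ^ 0)) := by ring
        _ ≤ k ^ 2 * (p * p) := by gcongr
        _ = X := by rw [c.hX]; ring
  rw [div_mul_eq_mul_div]
  refine mean_value hw hc ?_ ?_ a ha hy
  · rw [← mul_div_assoc, div_le_iff₀ hH0]
    rw [div_le_iff₀ (by positivity)] at hH
    linarith only [hH, hX, hTq]
  · have hd2 : √(D : ℝ) ^ 2 = D := Real.sq_sqrt (Nat.cast_nonneg _)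
    have hZ1 : 1 ≤ Z := by linarith only [hZ]
    have a1 : k * √D * Z ^ 82 ≤ p := by
      clear * - k D Z p X Q c hd2 hD2 hZ hp
      refine le_of_sq_le_sq ?_ (by positivity)
      have := c.le_p (C := 1) (i := 2) (j := 124) (by norm_num) le_rfl le_rfl
      calc _ = (1 * k ^ 2 * Z ^ 124) * (√D ^ 2 * Z ^ 40) := by ring
        _ ≤ p * p := by rw [hd2]; gcongr
        _ = _ := by ring
    have a2 : 4 * U * √D ≤ k * p := by
      clear * - U D k Z p hU2 hZ hZ1 hk a1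
      calc 4 * U * √D ≤ 4 * (2 * (k ^ 2 * Z ^ 39)) * √D := by gcongr
        _ = k * (k * √D * (8 * Z ^ 39)) := by ring
        _ ≤ k * (k * √D * (Z ^ 43 * Z ^ 39)) := by
            gcongr; exact le_trans (by linarith) (le_self_pow₀ hZ1 (by norm_num))
        _ = k * (k * √D * Z ^ 82) := by ring
        _ ≤ k * p := by gcongr
    have a3 : (√T + D * Z) * Z ^ 39 ≤ 2 * p := by
      clear * - k Z p X Q c T hT3 hZ D hD2
      have := c.le_p (C := 2) (i := 1) (j := 39) (by norm_num) (by norm_num) (by norm_num)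
      have : √T * Z ^ 39 ≤ 2 * k ^ 1 * Z ^ 39 := by rw [pow_one]; gcongr
      nlinarith
    calc _ ≤ (k * p * Z ^ 2 + k * p * Z ^ 2) * (2 * k * (√T + D * Z)) * Z ^ 10 := by clear * - Z k p U D T a2 hZ hT3 hT hk hp X c hX hZ1; gcongr
      _ = k ^ 2 * p / 2 * ((√T + D * Z) * (8 * Z ^ 12)) := by ring
      _ ≤ k ^ 2 * p / 2 * ((√T + D * Z) * (Z ^ 27 * Z ^ 12)) := by
          clear * - k p T D Z hZ hZ1 hT hk hp
          gcongr; exact le_trans (by linarith only [hZ]) (le_self_pow₀ hZ1 (by norm_num))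
      _ = k ^ 2 * p / 2 * ((√T + D * Z) * Z ^ 39) := by ring
      _ ≤ k ^ 2 * p / 2 * (2 * p) := by gcongr
      _ = X := by rw [c.hX]; ring

theorem exists_ceil {y : ℝ} (hy : 1 ≤ y) : ∃ n : ℕ, y ≤ n ∧ n ≤ 2 * y :=
  ⟨⌈y⌉₊, Nat.le_ceil _, by linarith only [hy, Nat.ceil_lt_add_one (show 0 ≤ y by linarith)]⟩

theorem exists_floor {y : ℝ} (hy : 1 ≤ y) : ∃ n : ℕ, n ≤ y ∧ y ≤ 2 * n := by
  refine ⟨⌊y⌋₊, Nat.floor_le (by linarith), ?_⟩
  have h1 := Nat.lt_floor_add_one y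
  have h2 : (1 : ℝ) ≤ ⌊y⌋₊ := by exact_mod_cast (Nat.one_le_floor_iff y).mpr hy
  linarith

/-- `Λ` restricted to primes above `R` not dividing `Q` -/
def aa (Q R n : ℕ) : ℝ := if n.Prime ∧ R < n ∧ n.Coprime Q then vonMangoldt n else 0

theorem sum_sub_aa_le {N Q : ℕ} (R : ℕ) (hN : 1 ≤ N) (hQ : 0 < Q) :
    ∑ n ∈ Icc 1 N, (vonMangoldt n - aa Q R n) ≤ 4 * √N * Real.log N + 6 * R + Real.log Q := by
  have h1 := sum_not_prime_le N hN
  have h2 := sum_not_coprime_le N Q hN hQ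
  have h3 : ∑ n ∈ (Icc 1 N).filter (fun n => ¬ R < n), vonMangoldt n ≤ 6 * R := by
    refine le_trans (sum_le_sum_of_subset_of_nonneg (fun n hn => ?_)
      fun _ _ _ => vonMangoldt_nonneg) (sum_vonMangoldt_Icc_le R)
    simp only [mem_filter, mem_Icc] at hn ⊢
    omega
  have h4 := add_le_add (add_le_add h1 h2) h3
  rw [sum_filter, sum_filter, sum_filter, ← sum_add_distrib, ← sum_add_distrib] at h4
  refine le_trans (sum_le_sum fun n _ => ?_) (h4.trans (le_of_eq (by ring)))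
  have : 0 ≤ vonMangoldt n := vonMangoldt_nonneg
  unfold aa
  split_ifs <;> first | linarith | tauto

theorem Par.numeric (c : Par X Z k p Q) {δ : ℝ} (hδ1 : δ ≤ 1 / 10) (hδZ : 1 ≤ δ * Z)
    (hψ : (1 - δ) * X ≤ ∑ n ∈ Icc 1 ⌊X⌋₊, vonMangoldt n) :
    (1 - 10 * δ) * X * (Real.log (p / k ^ 2) - 129 * Real.log Z - 5) - 4 * X ≤ G X Q := by
  have hZ := c.hZ
  have hZ1 : 1 ≤ Z := by linarith only [hZ]
  have hk := c.hk
  have hp := c.one_le_p
  have hkp := c.kp_le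
  have hpk := c.p_le
  have hX : 0 < X := by linarith
  have hδ : 0 < δ := by (refine lt_of_not_ge fun h_nl => ?_; linarith only [h_nl, hδZ, hZ, mul_nonneg_of_nonpos_of_nonpos (Mathlib.Tactic.Linarith.sub_nonpos_of_le hZ) (Mathlib.Tactic.Linarith.sub_nonpos_of_le h_nl)])
  have hQ' : (1 : ℝ) ≤ Q := by rw [c.hQ]; exact one_le_pow₀ hp
  have hQ : 0 < Q := by exact_mod_cast hQ'
  have hQX : (Q : ℝ) ≤ X := by
    rw [c.hQ, c.hX]; exact le_mul_of_one_le_left (by positivity) (one_le_pow₀ hk)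
  have hpw : ∀ (C : ℝ) (j : ℕ), C ≤ 100 → j ≠ 0 → C ≤ Z ^ j := fun C j hC hj =>
    (hC.trans hZ).trans (le_self_pow₀ hZ1 hj)
  have hZp : Z ^ 40 ≤ p := by
    simpa using c.le_p (C := 1) (i := 0) (j := 40) (by norm_num) (by norm_num) (by norm_num)
  have hZX : Z ≤ X := by linarith only [hkp, hpk, hZp, hZ1, le_self_pow₀ hZ1 (show 40 ≠ 0 by norm_num)]
  obtain ⟨H, hH1, hH2⟩ := exists_ceil (y := X / Z) ((one_le_div (by positivity)).mpr hZX)
  obtain ⟨R, hR1, hR2⟩ := exists_floor (y := p / Z ^ 40) ((one_le_div (by positivity)).mpr hZp)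
  obtain ⟨R1, hS1, hS2⟩ := exists_ceil (y := k ^ 2 * Z ^ 82)
    (one_le_mul_of_one_le_of_one_le (one_le_pow₀ hk) (one_le_pow₀ hZ1))
  obtain ⟨D0, hD1, hD2⟩ := exists_ceil (y := Z ^ 37) (one_le_pow₀ hZ1)
  obtain ⟨W, hW1, hW2⟩ := exists_ceil (y := Z ^ 2) (one_le_pow₀ hZ1)
  have hH0 : (0 : ℝ) < H := lt_of_lt_of_le (by positivity) hH1
  have hR0 : (0 : ℝ) < R := by
    have : 0 < p / Z ^ 40 := by positivity
    linarith only [hR2, this]
  have hS0 : (0 : ℝ) < R1 := lt_of_lt_of_le (by positivity) hS1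
  have hD0 : (0 : ℝ) < D0 := lt_of_lt_of_le (by positivity) hD1
  have hW0 : (0 : ℝ) < W := lt_of_lt_of_le (by positivity) hW1
  rw [le_div_iff₀ (by positivity)] at hR1
  have hRp : (R : ℝ) ≤ p := le_trans (le_mul_of_one_le_right hR0.le (one_le_pow₀ hZ1)) hR1
  have hXZ : X / Z ≤ δ * X := by clear * - X Z δ hZ p k hδZ hp hkp hpk; rw [div_le_iff₀ (by positivity)]; nlinarith
  have hNX : (⌊X⌋₊ : ℝ) ≤ X := Nat.floor_le hX.le
  have hN1 : 1 ≤ ⌊X⌋₊ := Nat.le_floor (by push_cast; linarith only [hδ1, hZ, hδ, hZX])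
  have hL0 : ((⌊X⌋₊ + 2 * H : ℕ) : ℝ) ≤ (1 + 4 * δ) * X := by push_cast; linarith only [hH2, hXZ, hNX]
  have hL : ((⌊X⌋₊ + 2 * H : ℕ) : ℝ) ≤ 2 * X := by clear * - X H δ Z p k hδ1 hZ hδ hZX hL0 hp hkp hpk; linarith only [hδ1, hZ, hδ, hZX, hL0, hp, hkp, hpk, mul_nonneg_of_nonpos_of_nonpos (Mathlib.Tactic.Linarith.sub_nonpos_of_le hδ1) (Mathlib.Tactic.Linarith.sub_nonpos_of_le hp), mul_nonneg_of_nonpos_of_nonpos (Mathlib.Tactic.Linarith.sub_nonpos_of_le hδ1) (Mathlib.Tactic.Linarith.sub_nonpos_of_le hkp), mul_nonneg_of_nonpos_of_nonpos (Mathlib.Tactic.Linarith.sub_nonpos_of_le hδ1) (Mathlib.Tactic.Linarith.sub_nonpos_of_le hpk)]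
  have hτR : ∀ r ≤ R, (r.divisors.card : ℝ) ≤ Z := fun r hr => c.hτ r (by
    have : (r : ℝ) ≤ R := by exact_mod_cast hr
    linarith only [hδ1, hZ, hkp, hpk, hδ, hZX, hRp, this])
  have hτQ := c.hτ Q (by linarith only [hδ1, hZ, hδ, hQX, hZX])
  have hHR := c.hH R (by linarith only [hδ1, hZ, hkp, hpk, hδ, hZX, hRp])
  have hlog : ∀ n : ℕ, (n : ℝ) ≤ X → Real.log n ≤ Z := fun n hn => by
    clear * - n Z δ hδ1 hδ X k p Q c hZ hZX hn
    linarith only [hδ1, hδ, c, hZ, hZX, hn, c.hH n (by linarith), log_le_HH n]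
  have ha0 : ∀ n, 0 ≤ aa Q R n := fun n => by
    unfold aa; split_ifs; exacts [vonMangoldt_nonneg, le_rfl]
  have ha1 : ∀ n, aa Q R n ≤ vonMangoldt n := fun n => by
    unfold aa; split_ifs; exacts [le_rfl, vonMangoldt_nonneg]
  have ha2 : ∀ n, aa Q R n ≠ 0 → n.Prime ∧ R < n ∧ n.Coprime Q := fun n h =>
    (ite_ne_right_iff.mp h).1
  have ha3 : ∀ n, aa Q R n ≠ 0 → ∀ r ∈ RR Q R1 R, IsCoprime (n : ℤ) r := fun n h r hr =>
    Nat.isCoprime_iff_coprime.mpr (((ha2 n h).1.coprime_iff_not_dvd).mpr fun hd =>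
      absurd ((Nat.le_of_dvd (RR_pos hr) hd).trans (RR_le hr)) (not_le.mpr (ha2 n h).2.1))
  have hB : ∑ n ∈ Icc 1 ⌊X⌋₊, (vonMangoldt n - aa Q R n) ≤ k * p * Z ^ 2 := by
    clear * - X Q R k p Z hN1 hQ hNX c hlog hQX hk hp hpk hZ hZ1 δ hδ1 hδ hRp
    refine (sum_sub_aa_le R hN1 hQ).trans ?_
    have a1 : √(⌊X⌋₊ : ℝ) ≤ k * p := c.sqrt_X ▸ Real.sqrt_le_sqrt hNX
    have a2 := hlog _ hNX
    have a3 := hlog _ hQX
    have a4 : 4 * √(⌊X⌋₊ : ℝ) * Real.log ⌊X⌋₊ ≤ 4 * (k * p) * Z := by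
      have := Real.log_natCast_nonneg ⌊X⌋₊
      gcongr
    have a5 : 1 * Z ≤ k * p * Z := by gcongr; linarith only [hp, hpk]
    have a6 : k * p * 1 ≤ k * p * Z := by gcongr
    have a7 : k * p * Z * 11 ≤ k * p * Z * Z := by gcongr; linarith only [hδ1, hZ, hδ]
    linarith only [hpk, hRp, a3, a4, a5, a6, a7]
  have hT : (((⌊X⌋₊ + 2 * H) / Q : ℕ) : ℝ) ≤ 2 * k ^ 2 := by
    refine Nat.cast_div_le.trans ?_
    rw [div_le_iff₀ (by positivity), c.hQ, mul_assoc, ← c.hX]; exact hL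
  have hO := off_le (Q := Q) (R1 := R1) (R := R) (Z := Z) (aa Q R) (N := ⌊X⌋₊) (H := H) (D0 := D0)
    (A := 6 * X) (E := X / Z ^ 8) (by exact_mod_cast hH0) (by exact_mod_cast hS0)
    (by exact_mod_cast hD0) hτR hHR ha3
    (by
      refine le_trans (sum_le_sum fun n _ => ?_) ((sum_vonMangoldt_Icc_le _).trans (by linarith only [hNX]))
      rw [abs_of_nonneg (ha0 n)]; exact ha1 n)
    (by positivity) (fun e he D h1 h2 x hx y hy => c.mv _ hH1 hL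
      (Nat.le_mul_of_pos_right _ (mem_Icc.mp he).1) (hD1.trans (by exact_mod_cast h1.le))
      (le_trans (by gcongr) hR1) (le_trans (le_of_eq (sum_congr rfl fun n _ => by
        rw [abs_sub_comm, abs_of_nonneg (sub_nonneg.mpr (ha1 n))])) hB) hx hy)
  have hφ : (0 : ℝ) < Q.totient := by exact_mod_cast Nat.totient_pos.mpr hQ
  have hτ : (Q : ℝ) / Q.totient ≤ Z := (div_totient_le_card_divisors Q).trans hτQ
  have main := core hQ (aa Q R) (N := ⌊X⌋₊) (H := H) (by exact_mod_cast hH0) ha0 ha1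
    (fun n h => (ha2 n h).2.2) ha3 hB hO
    (fun t => abs_sum_lam_le hQ (by exact_mod_cast hS0) hτQ hτR _ _)
    (fun t => sum_FF_sq_le hQ hτQ hτR _ _) (τ := Q / Q.totient) (Y := X / Q.totient)
    (by positivity) hδ (by positivity)
  have hSg := le_Sg (R1 := R1) hQ (show 0 < W by exact_mod_cast hW0) hτQ
    (show HH R ≤ Z by clear * - R Z δ hδ1 hδ hHR; linarith only [hδ1, hδ, hHR])
  rw [sum_sub_distrib] at hB
  refine le_trans ?_ main
  have hS := Sg_nonneg (RR Q R1 R)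
  generalize Sg (RR Q R1 R) = S at hS hSg
  generalize ∑ n ∈ Icc 1 ⌊X⌋₊, aa Q R n = Ψ at hB
  have hT0 : (0 : ℝ) ≤ (((⌊X⌋₊ + 2 * H) / Q : ℕ) : ℝ) := Nat.cast_nonneg _
  generalize (((⌊X⌋₊ + 2 * H) / Q : ℕ) : ℝ) = T at hT hT0
  have hY : X / Q.totient = k ^ 2 * (Q / Q.totient) := by rw [c.hX, c.hQ]; ring
  have hτ' : (Q.totient : ℝ) / Q = (Q / Q.totient : ℝ)⁻¹ := by rw [inv_div]
  have hτ0 : (0 : ℝ) < Q / Q.totient := by positivity
  rw [hY, hτ']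
  generalize (Q : ℝ) / Q.totient = τ at hτ hτ0 hSg
  have hXe : k ^ 2 * p ^ 2 = X := c.hX.symm
  have e1 : 2 * τ * (4 * D0 ^ 2 * (6 * X) * T * Z ^ 3 / R1) ≤ X / 2 := by
    clear * - τ D0 X T Z R1 k hτ hZ hX hk hD0 hD2 hT hT0 hS1 hS0 hpw
    calc _ ≤ 2 * Z * (4 * (2 * Z ^ 37) ^ 2 * (6 * X) * (2 * k ^ 2) * Z ^ 3 / (k ^ 2 * Z ^ 82)) := by
          gcongr
      _ = X / 2 * (8 * 96 / (Z ^ 2 * Z ^ 2)) := by field_simp; ring
      _ ≤ X / 2 * 1 := by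
          gcongr; rw [div_le_one (by positivity)]
          gcongr <;> exact hpw _ _ (by norm_num) (by norm_num)
      _ = _ := mul_one _
  have e2 : 2 * τ * (4 * (2 * ⌊X⌋₊ + 2 * H + 1) / H * (X / Z ^ 8) * Z ^ 4) ≤ X / 2 := by
    clear * - X H δ Z hδ1 hZ hδ hZX hNX hL τ hτ hX hH1 hN1 hH0 hpw
    have a1 : 2 * (⌊X⌋₊ : ℝ) + 2 * H + 1 ≤ 4 * X := by push_cast at hL; linarith only [hδ1, hZ, hδ, hZX, hNX, hL]
    calc _ ≤ 2 * Z * (4 * (4 * X) / (X / Z) * (X / Z ^ 8) * Z ^ 4) := by gcongr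
      _ = X / 2 * (64 / Z ^ 2) := by field_simp; ring
      _ ≤ X / 2 * 1 := by
          gcongr; rw [div_le_one (by positivity)]; exact hpw _ _ (by norm_num) (by norm_num)
      _ = _ := mul_one _
  have e3 : 2 * τ * (k ^ 2 * τ * (R * Z ^ 3)) ≤ X := by
    clear * - τ k R Z p X hpw hτ hτ0 hZ hk hR0 hR1 hp hXe
    calc _ ≤ Z ^ 35 * Z * (k ^ 2 * Z * (R * Z ^ 3)) := by
          gcongr; exact hpw _ _ (by norm_num) (by norm_num)
      _ = k ^ 2 * (R * Z ^ 40 * 1) := by ring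
      _ ≤ k ^ 2 * (p * p) := by gcongr
      _ = X := by rw [← hXe]; ring
  have e4 : (1 + δ) * τ ^ 2 * (4 * ((⌊X⌋₊ + 2 * H : ℕ) : ℝ) * T * Z ^ 3 / (R1 + 1)) ≤ X / 2 := by
    clear * - δ τ X H T Z R1 k hδ1 hδ hτ0 hτ hX hk hZ hL hT hT0 hS1 hN1 hS0 hpw
    calc _ ≤ 2 * Z ^ 2 * (4 * (2 * X) * (2 * k ^ 2) * Z ^ 3 / (k ^ 2 * Z ^ 82)) := by
          gcongr <;> linarith only [hδ1, hδ, hS1]
      _ = X / 2 * (64 / Z ^ 77) := by field_simp; ring
      _ ≤ X / 2 * 1 := by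
          gcongr; rw [div_le_one (by positivity)]; exact hpw _ _ (by norm_num) (by norm_num)
      _ = _ := mul_one _
  have e5 : (1 + δ) * τ ^ 2 * ((2 * T + 1) * (R ^ 2 * Z ^ 5)) ≤ X / 2 := by
    clear * - T k hT hk δ τ R Z p X hδ1 hδ hτ0 hτ hR0 hZ hT0 hpw hR1 hXe
    have a1 : 2 * T + 1 ≤ 5 * k ^ 2 := by linarith only [hT, hk, one_le_pow₀ (n := 2) hk]
    calc _ ≤ 2 * Z ^ 2 * (5 * k ^ 2 * (R ^ 2 * Z ^ 5)) := by gcongr; linarith only [hδ1, hδ]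
      _ = k ^ 2 / 2 * (R ^ 2 * Z ^ 7 * 20) := by ring
      _ ≤ k ^ 2 / 2 * (R ^ 2 * Z ^ 7 * Z ^ 73) := by
          gcongr; exact hpw _ _ (by norm_num) (by norm_num)
      _ = k ^ 2 / 2 * (R * Z ^ 40) ^ 2 := by ring
      _ ≤ k ^ 2 / 2 * p ^ 2 := by gcongr
      _ = _ := by rw [← hXe]; ring
  have e6 : (⌊X⌋₊ / Q + 1) * Real.log ⌊X⌋₊ * (k * p * Z ^ 2) / δ ≤ X := by
    clear * - X Q k hQ p Z c hXe hNX hk hlog δ hδ hp hZ hδZ
    have a1 : (⌊X⌋₊ : ℝ) / Q + 1 ≤ 2 * k ^ 2 := by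
      have : (⌊X⌋₊ : ℝ) / Q ≤ k ^ 2 := by rw [div_le_iff₀ (by positivity), c.hQ, hXe]; exact hNX
      linarith only [this, hk, one_le_pow₀ (n := 2) hk]
    have a2 := hlog _ hNX
    have a3 := Real.log_natCast_nonneg ⌊X⌋₊
    have a4 := c.le_p (C := 2) (i := 1) (j := 4) (by norm_num) (by norm_num) (by norm_num)
    rw [div_le_iff₀ hδ]
    calc _ ≤ 2 * k ^ 2 * Z * (k * p * Z ^ 2) := by gcongr
      _ ≤ 2 * k ^ 2 * Z * (k * p * Z ^ 2) * (δ * Z) := le_mul_of_one_le_right (by positivity) hδZ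
      _ = k ^ 2 * p * (2 * k ^ 1 * Z ^ 4) * δ := by ring
      _ ≤ k ^ 2 * p * p * δ := by gcongr
      _ = _ := by rw [← hXe]; ring
  have e7 : k * p * Z ^ 2 ≤ δ * X := by
    clear * - k Z p X Q c δ hk hp hZ hδZ hpk hδ hXe
    have a4 := c.le_p (C := 1) (i := 0) (j := 3) (by norm_num) (by norm_num) (by norm_num)
    calc _ ≤ k * p * Z ^ 2 * (δ * Z) := le_mul_of_one_le_right (by positivity) hδZ
      _ = δ * (k * p * (1 * k ^ 0 * Z ^ 3)) := by ring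
      _ ≤ δ * (k * p * (k * p)) := by have := a4.trans hpk; gcongr
      _ = _ := by rw [← hXe]; ring
  have e8 : Real.log (p / k ^ 2) - 129 * Real.log Z - 5 ≤ τ * S := by
    clear * - Z W hW0 hW1 R R1 p k hZ hR2 hk hS2 hW2 hS0 hR0 δ hδ1 hδ hp τ S hSg
    have a1 : 4 * Z ^ 2 / W ≤ 4 := by rw [div_le_iff₀ hW0]; linarith only [hW1]
    have a2 := log_le_HH R
    have a3 := HH_le (R1 * W ^ 3)
    have a4 : p / k ^ 2 * (R1 * W ^ 3 : ℕ) ≤ R * Z ^ 129 := by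
      rw [div_le_iff₀ (by positivity)] at hR2
      push_cast
      calc _ ≤ 2 * R * Z ^ 40 / k ^ 2 * (2 * (k ^ 2 * Z ^ 82) * (2 * Z ^ 2) ^ 3) := by clear * - p k R Z R1 W hR2 hk hS2 hW0 hW2 hZ hS0 hR0; gcongr
        _ = R * (Z ^ 128 * 32) := by field_simp; ring
        _ ≤ R * (Z ^ 128 * Z) := by clear * - R Z δ hδ1 hZ hδ hR0; gcongr; linarith only [hδ1, hZ, hδ]
        _ = _ := by ring
    have a5 : (0 : ℝ) < (R1 * W ^ 3 : ℕ) := by push_cast; positivity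
    have a6 := Real.log_le_log (by positivity) a4
    rw [Real.log_mul (by positivity) a5.ne', Real.log_mul hR0.ne' (by positivity),
      Real.log_pow] at a6
    push_cast at a3 a6
    linarith only [hSg, a1, a2, a3, a6]
  have e9 : (1 - 10 * δ) * X ≤ 2 * Ψ - (1 + δ) * ((⌊X⌋₊ + 2 * H : ℕ) : ℝ) := by
    clear * - δ X H hL0 hδ hδ1 hX Ψ Z k p hψ hH2 hH0 hXZ hB e7
    have a1 : (1 + δ) * ((⌊X⌋₊ + 2 * H : ℕ) : ℝ) ≤ (1 + δ) * ((1 + 4 * δ) * X) := by gcongr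
    have a2 : δ * (δ * X) ≤ 1 / 10 * (δ * X) := by gcongr
    have a3 : 0 ≤ δ * X := by positivity
    linarith only [hψ, hH2, hH0, hXZ, hB, e7, a1, a2]
  have f1 : (1 - 10 * δ) * X * (Real.log (p / k ^ 2) - 129 * Real.log Z - 5) ≤
      (2 * Ψ - (1 + δ) * ((⌊X⌋₊ + 2 * H : ℕ) : ℝ)) * (τ * S) :=
    (mul_le_mul_of_nonneg_left e8 (mul_nonneg (by clear * - δ hδ1 e8 e9 hX; linarith only [hδ1]) hX.le)).trans
      (mul_le_mul_of_nonneg_right e9 (by positivity))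
  have f2 : τ ^ 2 * (((⌊X⌋₊ + 2 * H : ℕ) : ℝ) * τ⁻¹ * S) =
      ((⌊X⌋₊ + 2 * H : ℕ) : ℝ) * (τ * S) := by clear * - τ X H S hN1 hτ0; field_simp
  have f3 := congrArg (fun x => (1 + δ) * x) f2
  linarith only [e1, e2, e3, e4, e5, e6, f1, f3]

/-- `G(X,Q) ≥ X log (Q^{3/2} / X) - o(X log X)` uniformly for `1 ≤ Q ≤ X`. -/
theorem lower_main (ε : ℝ) (hε : 0 < ε) : ∃ X₀ : ℝ, ∀ X : ℝ, X₀ ≤ X → ∀ Q : ℕ, 1 ≤ Q →
    (Q : ℝ) ≤ X → X * Real.log ((Q : ℝ) ^ (3 / 2 : ℝ) / X) - ε * (X * Real.log X) ≤ G X Q := by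
  set δ : ℝ := min (ε / 20) (1 / 10) with hδ
  have hδ0 : 0 < δ := lt_min (by linarith only [hε]) (by norm_num)
  have hδ1 : δ ≤ ε / 20 := min_le_left _ _
  have hδ2 : δ ≤ 1 / 10 := min_le_right _ _
  set η : ℝ := δ / 100 with hη
  have hη0 : 0 < η := by positivity
  obtain ⟨C, hC1, hC⟩ := exists_card_divisors_le (η / 2) (by positivity)
  have t1 := (Metric.tendsto_nhds.mp tendsto_psi_div) δ hδ0
  have t2 := (tendsto_rpow_atTop hη0).eventually_ge_atTop (max 100 (1 / δ))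
  have t3 := (tendsto_rpow_atTop (half_pos hη0)).eventually_ge_atTop (C * 10 ^ (η / 2))
  have t4 : ∀ᶠ X : ℝ in atTop, ‖Real.log X‖ ≤ 1 / 2 * ‖X ^ η‖ :=
    (isLittleO_log_rpow_atTop hη0).bound (by norm_num)
  have t5 := Real.tendsto_log_atTop.eventually_ge_atTop (18 / ε)
  obtain ⟨X₀, hX₀⟩ := eventually_atTop.mp
    (t1.and (t2.and (t3.and (t4.and (t5.and (eventually_ge_atTop 2))))))
  refine ⟨X₀, fun X hX Q hQ hQX => ?_⟩
  obtain ⟨h1, h2, h3, h4, h5, h6⟩ := hX₀ X hX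
  have hX0 : 0 < X := by linarith only [h6]
  have hQ1 : (1 : ℝ) ≤ Q := by exact_mod_cast hQ
  have hL : 0 < Real.log X := Real.log_pos (by linarith only [h6])
  have hZ : 100 ≤ X ^ η := (le_max_left _ _).trans h2
  have hLZ : Real.log (X ^ η) = η * Real.log X := Real.log_rpow hX0 _
  have hp2 : (Q : ℝ) = √Q ^ 2 := (Real.sq_sqrt (by linarith only [])).symm
  have hk2 : √(X / Q) ^ 2 = X / Q := Real.sq_sqrt (by positivity)
  have hp0 : 0 < √(Q : ℝ) := Real.sqrt_pos.mpr (by linarith only [hδ2, hη, hη0, hQ1])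
  have hk1 : 1 ≤ √(X / Q) := Real.one_le_sqrt.mpr ((one_le_div (by linarith only [hδ2, hη, hη0, hQ1])).mpr hQX)
  have e : (Q : ℝ) ^ (3 / 2 : ℝ) / X = √Q / √(X / Q) ^ 2 := by
    clear * - Q X hk2 δ η hδ2 hη hη0 hQ1 h6 hQ
    rw [hk2, show (3 / 2 : ℝ) = 1 / 2 + 1 by norm_num, Real.rpow_add_one (by linarith only [hQ1]),
      ← Real.sqrt_eq_rpow]
    field_simp
  rw [e]
  have hXL : 0 < X * Real.log X := by positivity
  by_cases hc : √(X / Q) ^ 2 * (X ^ η) ^ 125 ≤ √Q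
  · have c : Par X (X ^ η) √(X / Q) √Q Q := by
      clear * - X η Q hZ hk1 hp2 hk2 hQ h6 hc δ hδ2 hη hη0 hL h4 hX0 C hC ε hε hC1 h3
      refine ⟨hZ, hk1, hp2, by rw [hk2, ← hp2]; field_simp, hc, fun n hn => ?_, fun n hn => ?_⟩
      · have a1 := HH_le n
        have a2 : Real.log n ≤ Real.log (10 * X) := by
          clear * - n X h6 hn a1
          rcases Nat.eq_zero_or_pos n with rfl | h
          · simpa using Real.log_nonneg (by linarith)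
          · exact Real.log_le_log (by exact_mod_cast h) hn
        rw [Real.log_mul (by norm_num) hX0.ne'] at a2
        have a3 := Real.log_le_sub_one_of_pos (show (0 : ℝ) < 10 by norm_num)
        rw [Real.norm_eq_abs, Real.norm_eq_abs, abs_of_pos hL, abs_of_pos (by linarith only [hZ])] at h4
        linarith only [hδ2, hη, hη0, h4, hZ, a1, a2, a3]
      · refine (hC n).trans ?_
        calc _ ≤ C * (10 * X) ^ (η / 2) := by gcongr
          _ = C * 10 ^ (η / 2) * X ^ (η / 2) := by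
              rw [Real.mul_rpow (by norm_num) hX0.le, mul_assoc]
          _ ≤ X ^ (η / 2) * X ^ (η / 2) := by gcongr
          _ = _ := by rw [← Real.rpow_add hX0, add_halves]
    have hψ : (1 - δ) * X ≤ ∑ n ∈ Icc 1 ⌊X⌋₊, vonMangoldt n := by
      clear * - δ X h1 hX0
      rw [Real.dist_eq, abs_lt] at h1
      have := h1.1
      rw [lt_sub_iff_add_lt, lt_div_iff₀ hX0, Chebyshev.psi_eq_psi_coe_floor, psi_eq] at this
      linarith only [this]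
    have h7 := c.numeric hδ2 (by
      have := (le_max_right _ _).trans h2
      rwa [div_le_iff₀ hδ0, mul_comm] at this) hψ
    refine le_trans ?_ h7
    have a1 : Real.log (√Q / √(X / Q) ^ 2) ≤ 1 / 2 * Real.log X := by
      rw [← Real.log_rpow hX0, ← Real.sqrt_eq_rpow]
      refine Real.log_le_log (by positivity) ((div_le_self hp0.le (one_le_pow₀ hk1)).trans ?_)
      exact Real.sqrt_le_sqrt hQX
    rw [hLZ]
    generalize Real.log (√Q / √(X / Q) ^ 2) = l at a1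
    rw [div_le_iff₀ hε] at h5
    have a2 : δ * X * l ≤ δ * X * (1 / 2 * Real.log X) := by gcongr
    have a3 : δ * (X * Real.log X) ≤ ε / 20 * (X * Real.log X) := by gcongr
    have a4 : X * 18 ≤ X * (Real.log X * ε) := by gcongr
    have a5 : 0 ≤ δ * X * (129 * (η * Real.log X) + 5) := by positivity
    rw [hη] at a5 ⊢
    linarith only [h6, a2, a3, a4, a5]
  · refine le_trans ?_ (sum_nonneg fun _ _ => sq_nonneg _)
    have a1 : Real.log (√Q / √(X / Q) ^ 2) ≤ Real.log ((X ^ η) ^ 125) := by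
      refine Real.log_le_log (by positivity) ?_
      rw [div_le_iff₀ (by positivity), mul_comm]
      exact (not_le.mp hc).le
    rw [Real.log_pow, hLZ, hη] at a1
    push_cast at a1
    have a2 := mul_le_mul_of_nonneg_left a1 hX0.le
    have a3 : δ * (X * Real.log X) ≤ ε / 20 * (X * Real.log X) := by gcongr
    linarith only [a2, a3, hε, hXL, mul_pos_of_neg_of_neg (Mathlib.Tactic.Linarith.sub_neg_of_lt hε) (Mathlib.Tactic.Linarith.sub_neg_of_lt hXL)]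

end Pool.Agent.Work.MP_5d318d_nt
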