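import Pool.Agent.Work.MP_5d318d_nt.ACore
import Pool.Agent.Work.MP_5d318d_nt.Final

/-!
# The lower bound for almost all moduli
-/

noncomputable section

open Finset Real ArithmeticFunction Filter

namespace Pool.Agent.Work.MP_5d318d_nt

open Pool.Agent.Lib.LargeSieve Pool.Agent.Lib.ANT

theorem mul_pow_le {Z c : ℝ} (hZ : 100 ≤ Z) (hc : c ≤ 100) {i j : ℕ} (h : i < j) :
    c * Z ^ i ≤ Z ^ j := by
  calc _ ≤ Z * Z ^ i := by gcongr; linarith only [hZ, hc]
    _ = Z ^ (i + 1) := by ring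
    _ ≤ _ := pow_le_pow_right₀ (by linarith only [hZ]) h

theorem numeric_avg {X Z δ C : ℝ} {Q1 : ℕ} (hZ : 100 ≤ Z) (hq1 : (Q1 : ℝ) ≤ X)
    (hq2 : X * Z ^ 1100 ≤ (Q1 : ℝ) ^ 2) (hX : 0 < X)
    (hH : ∀ n : ℕ, (n : ℝ) ≤ X ^ 2 → 1 + HH n ≤ Z)
    (hτ : ∀ n : ℕ, (n : ℝ) ≤ X ^ 2 → (n.divisors.card : ℝ) ≤ Z) (hδ0 : 0 ≤ δ) (hδ1 : δ ≤ 1 / 10)
    (hN1 : (1 - δ) * X ≤ ⌊X⌋₊) (hΨ1 : (1 - δ) * X ≤ ∑ n ∈ Icc 1 ⌊X⌋₊, vonMangoldt n)
    (hΨ2 : ∑ n ∈ Icc 1 ⌊X⌋₊, vonMangoldt n ≤ (1 + δ) * X)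
    (hC : ∀ (N R : ℕ) (Z : ℝ), (∀ r ≤ N, (r.divisors.card : ℝ) ≤ Z) → HH N ≤ Z →
      ∑ m ∈ Icc 1 N, Tt R m ^ 2 ≤ N * (HH (N / R) + C) + 4 * ((N / R : ℕ) * Z ^ 2) ^ 2)
    (hC0 : 0 ≤ C) :
    (((Icc 1 Q1).filter (fun Q => G X Q < X * (2 * Real.log Q1 - Real.log X) -
      X * (5 * δ * Real.log X + 1400 * Real.log Z + 50 + C))).card : ℝ) ≤ 4 * Q1 / Z := by
  have hZ0 : 0 < Z := by linarith only [hZ]
  have hZ1 : 1 ≤ Z := by linarith only [hZ]
  have hq0 : (0 : ℝ) < Q1 := by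
    rcases Nat.eq_zero_or_pos Q1 with rfl | h
    · have : 0 < X * Z ^ 1100 := by positivity
      simp only [Nat.cast_zero] at hq2; linarith only [this, hq2]
    · exact_mod_cast h
  have hZX : Z ^ 1100 ≤ X := le_of_mul_le_mul_left (hq2.trans (by rw [sq]; gcongr)) hX
  have hp : ∀ (c : ℝ) (i : ℕ), c ≤ 100 → i < 1100 → c * Z ^ i ≤ X := fun c i hc hi =>
    (mul_pow_le hZ hc hi).trans hZX
  have hX1 : 100 ≤ X := by simpa using hp 100 0 le_rfl (by norm_num)
  have hXX : X ≤ X ^ 2 := le_self_pow₀ (by linarith only [hX1]) two_ne_zero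
  set x := √X with hx
  have hx2 : x ^ 2 = X := Real.sq_sqrt hX.le
  have hx0 : 0 < x := Real.sqrt_pos.mpr hX
  have hxq : x * Z ^ 550 ≤ Q1 := le_of_sq_le_sq (by rw [mul_pow, hx2, ← pow_mul]; exact hq2) hq0.le
  have hZx : Z ^ 550 ≤ x := le_of_sq_le_sq (by rw [hx2, ← pow_mul]; exact hZX) hx0.le
  have hZq : Z ^ 550 ≤ Q1 := le_trans (le_mul_of_one_le_left (by positivity)
    ((one_le_pow₀ hZ1).trans hZx)) hxq
  have hdiv : ∀ (y : ℝ) (i : ℕ), Z ^ 550 ≤ y → i ≤ 550 → 1 ≤ y / Z ^ i := fun y i hy hi =>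
    (one_le_div (by positivity)).mpr ((pow_le_pow_right₀ hZ1 hi).trans hy)
  have hZX' : Z ^ 550 ≤ X := hZq.trans hq1
  have hk : 1 ≤ X / Q1 := (one_le_div hq0).mpr hq1
  obtain ⟨Q0, hQ1, hQ2⟩ := exists_ceil (hdiv Q1 1 hZq (by norm_num))
  obtain ⟨H, hH1, hH2⟩ := exists_ceil (hdiv X 6 hZX' (by norm_num))
  obtain ⟨M0, hM1, hM2⟩ := exists_ceil (hdiv X 1 hZX' (by norm_num))
  obtain ⟨R, hR1, hR2⟩ := exists_floor (hdiv Q1 538 hZq (by norm_num))
  obtain ⟨D0, hD1, hD2⟩ := exists_ceil (one_le_pow₀ (n := 257) hZ1)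
  obtain ⟨Y, hY1, hY2⟩ := exists_ceil (one_le_pow₀ (n := 3) hZ1)
  obtain ⟨W, hW1, hW2⟩ := exists_ceil hZ1
  obtain ⟨R1, hS1, hS2⟩ := exists_ceil (y := Z ^ 527 * (X / Q1))
    (one_le_mul_of_one_le_of_one_le (one_le_pow₀ hZ1) hk)
  rw [pow_one] at hQ1 hQ2 hM1 hM2
  have hQ0 : (0 : ℝ) < Q0 := lt_of_lt_of_le (by positivity) hQ1
  have hH0 : (0 : ℝ) < H := lt_of_lt_of_le (by positivity) hH1
  have hM0 : (0 : ℝ) < M0 := lt_of_lt_of_le (by positivity) hM1
  have hD0 : (0 : ℝ) < D0 := lt_of_lt_of_le (by positivity) hD1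
  have hY0 : (0 : ℝ) < Y := lt_of_lt_of_le (by positivity) hY1
  have hW0 : (0 : ℝ) < W := lt_of_lt_of_le (by positivity) hW1
  have hS0 : (0 : ℝ) < R1 := lt_of_lt_of_le (by positivity) hS1
  have hNX : (⌊X⌋₊ : ℝ) ≤ X := Nat.floor_le hX.le
  have hHZ : H * Z ^ 6 ≤ 2 * X := by
    rw [← le_div_iff₀ (by positivity), mul_div_assoc]; exact hH2
  have hN2 : 9 / 10 * X ≤ ⌊X⌋₊ := le_trans (by clear * - X δ hδ1 hX hN1; gcongr; linarith only [hδ1]) hN1
  obtain ⟨L, hL⟩ : ∃ L, ⌊X⌋₊ = L + 4 * H := by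
    clear * - X H Z hZ hH0 hX1 hHZ hN2
    refine ⟨⌊X⌋₊ - 4 * H, (Nat.sub_add_cancel ?_).symm⟩
    have a1 : H * (100 * Z ^ 0) ≤ H * Z ^ 6 := by gcongr; exact mul_pow_le hZ le_rfl (by norm_num)
    have : ((4 * H : ℕ) : ℝ) ≤ ⌊X⌋₊ := by push_cast; linarith only [hX1, hHZ, hN2, a1]
    exact_mod_cast this
  rw [div_le_iff₀ (by positivity)] at hR2
  rw [le_div_iff₀ (by positivity)] at hR1
  have hR0 : (0 : ℝ) < R := by
    by_contra h
    have : (R : ℝ) = 0 := le_antisymm (not_lt.mp h) (Nat.cast_nonneg _)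
    rw [this] at hR2; linarith only [hq0, hR2]
  have hRX : X * Z ^ 23 ≤ (R : ℝ) ^ 2 := by
    clear * - Z X R hZ hX Q1 hq2 hq0 hR2
    refine le_of_mul_le_mul_right ?_ (show 0 < 4 * Z ^ 1076 by positivity)
    calc _ = X * (4 * Z ^ 1099) := by ring
      _ ≤ X * Z ^ 1100 := by gcongr; exact mul_pow_le hZ (by norm_num) (by norm_num)
      _ ≤ (2 * R * Z ^ 538) ^ 2 := hq2.trans (by gcongr)
      _ = _ := by ring
  have hR' : ((R * Y : ℕ) : ℝ) * Z ^ 534 ≤ Q1 := by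
    clear * - R Y Z Q1 hY2 hR0 hZ hR1
    push_cast
    calc _ ≤ R * (2 * Z ^ 3) * Z ^ 534 := by gcongr
      _ = R * (2 * Z ^ 537) := by ring
      _ ≤ R * Z ^ 538 := by gcongr; exact mul_pow_le hZ (by norm_num) (by norm_num)
      _ ≤ _ := hR1
  have hSR : R1 ≤ R := by
    clear * - R1 R Z X Q1 hS2 hq0 hX hZ hq2 hR2
    have : (R1 : ℝ) ≤ R := by
      refine hS2.trans (le_of_mul_le_mul_right ?_ (show 0 < 2 * Z ^ 538 * Q1 by positivity))
      calc _ = X * (4 * Z ^ 1065) := by field_simp; ring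
        _ ≤ X * Z ^ 1100 := by gcongr; exact mul_pow_le hZ (by norm_num) (by norm_num)
        _ ≤ Q1 * Q1 := by rw [← sq]; exact hq2
        _ ≤ 2 * R * Z ^ 538 * Q1 := by gcongr
        _ = _ := by ring
    exact_mod_cast this
  have hDS : D0 ≤ R1 := by
    have : (D0 : ℝ) ≤ R1 := hD2.trans ((mul_pow_le hZ (by norm_num) (by norm_num)).trans
      ((le_mul_of_one_le_right (by positivity) hk).trans hS1))
    exact_mod_cast this
  have hD3 : 2 ≤ D0 := by
    have : ((2 : ℕ) : ℝ) ≤ D0 := le_trans (by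
      simpa using mul_pow_le (c := 2) (i := 0) (j := 257) hZ (by norm_num) (by norm_num)) hD1
    exact_mod_cast this
  have hRR : R ≤ R * Y := Nat.le_mul_of_pos_right _ (by exact_mod_cast hY0)
  generalize hRY : R * Y = R' at hR' hRR
  have hR'0 : (0 : ℝ) ≤ R' := Nat.cast_nonneg _
  have hR'c : ∀ (c : ℝ) (i : ℕ), c ≤ 100 → i < 534 → c * Z ^ i * R' ≤ Q1 := fun c i hc hi =>
    le_trans (by rw [mul_comm]; gcongr; exact mul_pow_le hZ hc hi) hR'
  have hR'N : R' ≤ L + 4 * H := by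
    clear * - Z R' Q1 hR'c X hq1 hX1 hN2 L H hL
    have a1 := hR'c 2 0 (by norm_num) (by norm_num)
    have : (R' : ℝ) ≤ ⌊X⌋₊ := by simp only [pow_zero] at a1; linarith only [hq1, hX1, hN2, a1]
    exact hL ▸ by exact_mod_cast this
  have hψ : G X = fun Q => ∑ A ∈ red Q, (psiAP (L + 4 * H) Q A - X / Q.totient) ^ 2 := by
    ext Q; rw [G, hL]
  rw [hL] at hN1 hN2 hNX hΨ1 hΨ2
  have hτN : ∀ r ≤ L + 4 * H, (r.divisors.card : ℝ) ≤ Z := fun r hr => hτ r
    (le_trans (by exact_mod_cast hr) (hNX.trans hXX))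
  have hHN := hH (L + 4 * H) (hNX.trans hXX)
  have hlog : ∀ n : ℕ, (n : ℝ) ≤ X → 1 + Real.log n ≤ Z := fun n hn => by
    clear * - n Z hH X hn hXX
    linarith [hH n (hn.trans hXX), log_le_HH n]
  have hRX' : (R : ℝ) ≤ X := le_trans (by exact_mod_cast hRR.trans hR'N) hNX
  have hHR : HH R' ≤ Z := by clear * - R' Z L H hHN hR'N; linarith only [hHN, hR'N, HH_mono hR'N]
  have hb : ∀ r ≤ R', |bet R R' r| ≤ Z ^ 2 / r := fun r _ =>
    abs_bet_le (by omega) (hlog R hRX') hHR r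
  have hF : ∀ m ∈ Icc 1 (L + 4 * H), |FB (bet R R') (Ioc R1 R') m| ≤ Z ^ 2 * Z ^ 2 := fun m hm =>
    abs_FB_le (by positivity) hb hHR (by have := (mem_Icc.mp hm).1; omega)
      (hτN m (mem_Icc.mp hm).2)
  have hHpos : 0 < H := by exact_mod_cast hH0
  have hac : ∀ n, |ac (bet R R') L H R1 R' n| ≤ 2 * Z ^ 4 := fun n => by
    unfold ac
    split_ifs with h
    · have a1 := vonMangoldt_le_log_of_le h
      have a2 : 0 ≤ vonMangoldt n := vonMangoldt_nonneg
      have a3 : |wv L H n * FB (bet R R') (Ioc R1 R') n| ≤ Z ^ 2 * Z ^ 2 := by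
        rw [abs_mul, abs_of_nonneg (wv_nonneg _ _)]
        exact (mul_le_of_le_one_left (abs_nonneg _) (wv_le_one _ hHpos _)).trans (hF n h)
      have a4 := mul_pow_le (c := 2) (i := 1) (j := 4) hZ (by norm_num) (by norm_num)
      have a5 := hlog _ hNX
      rw [abs_le] at a3 ⊢
      constructor <;> linarith only [a1, a2, a3.1, a3.2, a4, a5, hZ0]
    · rw [abs_zero]; positivity
  have hT1 := Nat.lt_mul_div_succ (2 * (L + 4 * H)) (show 0 < Q0 by exact_mod_cast hQ0)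
  have hT2 : ((2 * (L + 4 * H) / Q0 : ℕ) : ℝ) * Q1 ≤ 2 * X * Z := by
    clear * - L H Q0 Q1 X Z hq0 hQ0 hNX hZ0 hQ1 hX
    refine (mul_le_mul_of_nonneg_right Nat.cast_div_le hq0.le).trans ?_
    rw [div_le_iff₀ hZ0] at hQ1
    rw [div_mul_eq_mul_div, div_le_iff₀ hQ0, Nat.cast_mul, Nat.cast_two, mul_assoc _ Z, mul_comm Z]
    gcongr
  generalize 2 * (L + 4 * H) / Q0 = T at hT1 hT2
  rw [mul_comm Q0] at hT1
  have hT0 : (0 : ℝ) ≤ T := Nat.cast_nonneg _
  have hN0 : (0 : ℝ) < (L + 4 * H : ℕ) := by clear * - L H X hX1 hN2; linarith only [hX1, hN2]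
  have hoff := sum_off_le (a := ac (bet R R') L H R1 R') (b := bet R R') (L := L) (T := T)
    (R1 := R1) (R := R') (Q0 := Q0) (Q1 := Q1) (D0 := D0) (Z := Z) (Y := Z ^ 15)
    (M := X * Q1 / Z ^ 128) (l := 4 * Z ^ 7) hHpos hac (by positivity)
    (fun r hr => bet_eq_zero hr) hb (by omega) (by omega) (by omega) hR'N (by exact_mod_cast hq0)
    (fun t ht => hτ t (by
      clear * - t Q1 R' ht Z hR'c X hq1 hX1 hX
      have a1 : (t : ℝ) ≤ (Q1 + 1) * R' := by exact_mod_cast ht.le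
      have a2 := hR'c 2 0 (by norm_num) (by norm_num)
      simp only [pow_zero] at a2
      calc _ ≤ (X + X) * (X / 2) := a1.trans (by gcongr <;> linarith only [a2, hq1, hX1])
        _ = _ := by ring))
    (by omega) (hH _ (by
      clear * - R' X L H hR'N hNX
      push_cast
      gcongr
      exact le_trans (by exact_mod_cast hR'N) hNX))
    hT1 (by clear * - Z hZ1 hT1; linarith only [hZ1, one_le_pow₀ (n := 7) hZ1])
    (by
      clear * - T Q1 H Z hH0 X hT2 hZ hH1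
      rw [div_le_iff₀ (by positivity)] at hH1
      rw [← mul_assoc, mul_div_assoc', div_le_iff₀ hH0]
      calc _ ≤ 2 * X * Z * 2 := mul_le_mul_of_nonneg_right hT2 zero_le_two
        _ ≤ 2 * (H * Z ^ 6) * Z * 2 := by gcongr
        _ = _ := by ring)
    (hZ.trans (le_self_pow₀ hZ1 (by norm_num)))
    (le_trans (le_of_eq (by ring)) (mul_pow_le (c := 32) (i := 14) hZ (by norm_num) (by norm_num)))
    (le_self_pow₀ hZ1 (by norm_num)) (mul_pow_le hZ (by norm_num) (by norm_num)) (by positivity)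
    (by
      clear * - L H Q1 X Z D0 hHpos hq0 hNX hZ hX hD1
      calc _ ≤ 4 * (X * Q1) ^ 2 := by gcongr
        _ = (X * Q1 / Z ^ 128) ^ 2 * (4 * Z ^ 256) := by field_simp
        _ ≤ _ := by gcongr; exact (mul_pow_le hZ (by norm_num) (by norm_num)).trans hD1)
    (by
      clear * - L H Q1 T Z X hZ hHpos hNX hT2 hq0 hX hq2
      rw [div_pow, le_div_iff₀ (by positivity)]
      calc _ = 2 * ((L + 4 * H : ℕ) : ℝ) ^ 2 * (T * Q1) * Z ^ 286 := by ring
        _ ≤ 2 * X ^ 2 * (2 * X * Z) * Z ^ 286 := by gcongr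
        _ = X ^ 2 * (X * (4 * Z ^ 287)) := by ring
        _ ≤ X ^ 2 * (X * Z ^ 1100) := by gcongr; exact mul_pow_le hZ (by norm_num) (by norm_num)
        _ ≤ X ^ 2 * Q1 ^ 2 := by gcongr
        _ = _ := by ring)
    (by
      clear * - R' L H Q1 Z X hZ hR'c hq1 hNX hHpos hX hq0
      rw [div_pow, le_div_iff₀ (by positivity)]
      calc _ = (2 * Z ^ 286 * R') * (L + 4 * H : ℕ) * Q1 ^ 2 := by ring
        _ ≤ X * X * Q1 ^ 2 := by
            gcongr; exact (hR'c _ _ (by norm_num) (by norm_num)).trans hq1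
        _ = _ := by ring)
    (by
      clear * - R' Z L H Q1 T X hZ hNX hT2 hq0 hX hR'c
      rw [div_pow, le_div_iff₀ (by positivity)]
      calc _ = R' ^ 2 * Z ^ 316 * (L + 4 * H : ℕ) * (T * Q1) := by ring
        _ ≤ R' ^ 2 * Z ^ 316 * X * (2 * X * Z) := by gcongr
        _ = X ^ 2 * ((2 * Z ^ 317 * R') * (1 * Z ^ 0 * R')) := by ring
        _ ≤ X ^ 2 * (Q1 * Q1) := by
            gcongr X ^ 2 * (?_ * ?_) <;> exact hR'c _ _ (by norm_num) (by norm_num)
        _ = _ := by ring)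
  have hoff2 : ∑ Q ∈ Ioc Q0 Q1, |Off (ac (bet R R') L H R1 R') (bet R R') L H T R1 R' Q| ≤
      X * (2 * Q1 / Z) := by
    clear * - Q0 Q1 R R' L H R1 T Z D0 X hoff hZ hX hNX hT2 hq0 hD3 hD2 hS1 hZ0 hX1 hH1 hZ1
    refine hoff.trans (le_trans (add_le_add (?_ : _ ≤ X * (Q1 / Z)) (?_ : _ ≤ X * (Q1 / Z)))
      (le_of_eq (by ring)))
    · calc _ = 8 * Z ^ 10 * (L + 4 * H : ℕ) * (T * Q1) * D0 ^ 2 / R1 := by ring
        _ ≤ 8 * Z ^ 10 * X * (2 * X * Z) * (2 * Z ^ 257) ^ 2 / (Z ^ 527 * (X / Q1)) := by gcongr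
        _ = X * (Q1 / Z) * (64 / Z) := by field_simp; ring
        _ ≤ _ := mul_le_of_le_one_right (by positivity) ((div_le_one hZ0).mpr (by linarith only [hZ]))
    · calc _ ≤ (3 * X) / (X / Z ^ 6) * (5 * Z ^ 7) *
            (4 * Z ^ 2 * (Z ^ 15) ^ 7 * (X * Q1 / Z ^ 128) * Z ^ 6) := by
            gcongr <;> linarith only [hX1, hNX, hZ1, one_le_pow₀ (n := 7) hZ1]
        _ = X * (Q1 / Z) * (60 / Z) := by field_simp; ring
        _ ≤ _ := mul_le_of_le_one_right (by positivity) ((div_le_one hZ0).mpr (by linarith only [hZ]))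
  have hdiag := diag_ge (L := L) (R := R) (R' := R') (R1 := R1) (Z := Z) hHpos (by omega)
    (by omega) (by omega) hR'N (hlog R hRX') hτN (by clear * - L H Z hHN R hR'N hRX' hlog hτN; linarith only [hHN])
  have hLT := sum_LT_sq_le (R := R) (R' := R') (N := L + 4 * H) (Y := Y) (M := M0) (Z := Z)
    (by omega) (by omega) (by exact_mod_cast hY0) hRY.le (by exact_mod_cast hM0)
    (by
      have a1 : 2 * (X / Z) ≤ X := by
        rw [← mul_div_assoc, div_le_iff₀ hZ0]; nlinarith only [hX, hZ]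
      have : (M0 : ℝ) ≤ R ^ 2 := (hM2.trans a1).trans
        ((le_mul_of_one_le_right hX.le (one_le_pow₀ hZ1)).trans hRX)
      exact_mod_cast this) hτN hHN
  have hTt := hC (L + 4 * H) R Z hτN (by clear * - L H Z hHN R hC hτN; linarith)
  have hSg := Sg_le (y := R1) (show 0 < W by exact_mod_cast hW0)
  have hsq : √((L + 4 * H : ℕ) : ℝ) ≤ x := Real.sqrt_le_sqrt hNX
  have hxc : ∀ (c : ℝ) (i : ℕ), c ≤ 100 → i < 550 → c * Z ^ i * x ≤ X := fun c i hc hi => by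
    rw [← hx2, sq]; gcongr; exact (mul_pow_le hZ hc hi).trans hZx
  have hlZ : 0 ≤ Real.log Z := Real.log_nonneg hZ1
  have hlq : 0 ≤ Real.log Q1 := Real.log_natCast_nonneg _
  have hlX : Real.log Q1 ≤ Real.log X := Real.log_le_log hq0 hq1
  have e1 : ∑ r ∈ (Ioc 0 R1).filter Squarefree, (r.totient : ℝ)⁻¹ ≤
      3 + 530 * Real.log Z + Real.log X - Real.log Q1 := by
    clear * - W R1 hW0 Z R' hW1 hHR R hSR hRR X Q1 hS2 hW2 hZ hX hq0 hS0 hSg
    have a1 : 2 / (W : ℝ) * HH R1 ≤ 2 := by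
      rw [div_mul_eq_mul_div, div_le_iff₀ hW0]
      linarith only [hW1, hHR, hSR, hRR, HH_mono (hSR.trans hRR)]
    have a2 := HH_le (R1 * W ^ 2)
    have a3 : ((R1 * W ^ 2 : ℕ) : ℝ) ≤ Z ^ 530 * (X / Q1) := by
      push_cast
      calc _ ≤ 2 * (Z ^ 527 * (X / Q1)) * (2 * Z) ^ 2 := by gcongr
        _ = 8 * Z ^ 529 * (X / Q1) := by ring
        _ ≤ _ := by gcongr; exact mul_pow_le hZ (by norm_num) (by norm_num)
    have a4 := Real.log_le_log (by push_cast; positivity) a3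
    rw [Real.log_mul (by positivity) (by positivity), Real.log_pow,
      Real.log_div hX.ne' hq0.ne'] at a4
    push_cast at a2 a4
    linarith only [hSg, a1, a2, a4]
  have hNR : (((L + 4 * H) / R : ℕ) : ℝ) ≤ X / R := Nat.cast_div_le.trans (by gcongr)
  have e2 : HH ((L + 4 * H) / R) ≤ 1 + 539 * Real.log Z + Real.log X - Real.log Q1 := by
    clear * - L H R Z X Q1 hNR hR0 hq0 hX hR2 hZ Q0 D0 Y R1 R' hRR hR'N T hSR hDS hD3
    have a2 := HH_le ((L + 4 * H) / R)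
    have a3 : (((L + 4 * H) / R : ℕ) : ℝ) ≤ Z ^ 539 * (X / Q1) := by
      refine hNR.trans ?_
      rw [div_le_iff₀ hR0]
      calc X = X / Q1 * Q1 := by field_simp
        _ ≤ X / Q1 * (2 * R * Z ^ 538) := by gcongr
        _ = 2 * Z ^ 538 * (X / Q1) * R := by ring
        _ ≤ _ := by gcongr; exact mul_pow_le hZ (by norm_num) (by norm_num)
    have a4 := Real.log_le_log (by exact_mod_cast Nat.div_pos (by omega) (by omega)) a3
    rw [Real.log_mul (by positivity) (by positivity), Real.log_pow,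
      Real.log_div hX.ne' hq0.ne'] at a4
    push_cast at a4
    linarith only [a2, a4]
  have e3 : Real.log X - Real.log Z ≤ Real.log M0 := by
    clear * - X Z M0 hX hZ0 hZ hM1
    rw [← Real.log_div hX.ne' hZ0.ne']; exact Real.log_le_log (by positivity) hM1
  have e4 : 0 ≤ Real.log X - Real.log Z - 2 := by
    clear * - Z X hZ hZX hZ0
    have a1 := Real.log_le_log (by positivity) hZX
    have a2 : 1 ≤ Real.log Z := by
      rw [Real.le_log_iff_exp_le hZ0]; linarith only [hZ, Real.exp_one_lt_d9]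
    rw [Real.log_pow] at a1
    push_cast at a1; linarith only [a1, a2]
  have e5 : 4 * ((((L + 4 * H) / R : ℕ) : ℝ) * Z ^ 2) ^ 2 ≤ X := by
    clear * - L H R Z X hZ hNR hR0 hX hRX
    calc _ ≤ 4 * (X / R * Z ^ 2) ^ 2 := by gcongr
      _ = X * (X * (4 * Z ^ 4) / R ^ 2) := by ring
      _ ≤ X * 1 := by
          gcongr
          rw [div_le_one (by positivity)]
          exact le_trans (by gcongr; exact mul_pow_le hZ (by norm_num) (by norm_num)) hRX
      _ = X := mul_one _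
  have e6 : 12 * Z * M0 + 6 * Z ^ 3 * √((L + 4 * H : ℕ) : ℝ) + 2 * (L + 4 * H : ℕ) * Z ^ 3 / Y +
      Z ^ 4 ≤ 28 * X := by
    clear * - Z M0 X hM2 hZ hX L H x hsq hxc Y hY0 hNX hY1 hp
    have a1 : 12 * Z * M0 ≤ 24 * X := by
      calc _ ≤ 12 * Z * (2 * (X / Z)) := by gcongr
        _ = _ := by field_simp; ring
    have a2 := (mul_le_mul_of_nonneg_left hsq (by positivity)).trans
      (hxc 6 3 (by norm_num) (by norm_num))
    have a3 : 2 * (L + 4 * H : ℕ) * Z ^ 3 / Y ≤ 2 * X := by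
      rw [div_le_iff₀ hY0]; gcongr
    linarith only [a1, a2, a3, hp, hp 1 4 (by norm_num) (by norm_num)]
  have e7 : 3 * R' * R1 * Z ^ 6 + 6 * Z ^ 4 * (2 * √((L + 4 * H : ℕ) : ℝ) * Z +
      6 * (R' + 4 * H) + 4 * H * Z) ≤ 5 * X := by
    clear * - R' R1 Z X Q1 hS2 hZ hR'c hX hq0 L H x hsq hxc hq1 hHpos hHZ
    have a1 : 3 * R' * R1 * Z ^ 6 ≤ X := by
      calc _ ≤ 3 * R' * (2 * (Z ^ 527 * (X / Q1))) * Z ^ 6 := by gcongr
        _ = 6 * Z ^ 533 * R' * (X / Q1) := by ring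
        _ ≤ Q1 * (X / Q1) := by gcongr; exact hR'c _ _ (by norm_num) (by norm_num)
        _ = X := by field_simp
    have a2 := (mul_le_mul_of_nonneg_left hsq (by positivity)).trans
      (hxc 12 5 (by norm_num) (by norm_num))
    have a3 := (hR'c 36 4 (by norm_num) (by norm_num)).trans hq1
    have a4 : H * (100 * Z ^ 5) ≤ H * Z ^ 6 := by gcongr; exact mul_pow_le hZ le_rfl (by norm_num)
    have a5 : H * (100 * Z ^ 4) ≤ H * Z ^ 5 := by gcongr; exact mul_pow_le hZ le_rfl (by norm_num)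
    linarith only [a1, a2, a3, a4, a5, hHZ, hX]
  have e8 : (∑ n ∈ Icc 1 (L + 4 * H), vonMangoldt n) ^ 2 / (L + 4 * H : ℕ) ≤ (1 + 4 * δ) * X := by
    clear * - L H δ X hN0 hΨ2 hδ0 hδ1 hX hN1
    rw [div_le_iff₀ hN0]
    calc _ ≤ ((1 + δ) * X) ^ 2 := by
          gcongr
      _ = (1 + δ) ^ 2 * X ^ 2 := by ring
      _ ≤ ((1 + 4 * δ) * (1 - δ)) * X ^ 2 := by gcongr; nlinarith only [hδ0, hδ1]
      _ = (1 + 4 * δ) * X * ((1 - δ) * X) := by ring
      _ ≤ _ := by gcongr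
  have main : X * (2 * Real.log Q1 - Real.log X) -
      X * (5 * δ * Real.log X + 1400 * Real.log Z + 46 + C) ≤
      ∑ n ∈ Icc 1 (L + 4 * H), ac (bet R R') L H R1 R' n *
        (wv L H n * FB (bet R R') (Ioc R1 R') n) := by
    clear * - X Q1 δ Z C R L H R1 R' e8 e1 hδ0 hX hNX e2 hC0 M0 hΨ1 e3 e4 hlZ hδ1 Y hLT hTt e5 e6
      e7 hdiag
    refine le_trans ?_ hdiag
    have a1 := mul_le_mul e8 e1 (sum_nonneg fun _ _ => by positivity) (by positivity)
    have a2 := mul_le_mul hNX (add_le_add e2 (le_refl C)) (add_nonneg (HH_nonneg _) hC0) hX.le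
    have a3 := mul_le_mul hΨ1 (sub_le_sub_right e3 2) e4 (sum_nonneg fun _ _ => vonMangoldt_nonneg)
    have a4 : 0 ≤ δ * X * (Real.log Z + 2) := by positivity
    have a5 : 0 ≤ δ * X * Real.log Q1 := by positivity
    have a6 : δ * (X * (3 + 530 * Real.log Z)) ≤ 1 / 10 * (X * (3 + 530 * Real.log Z)) := by gcongr
    have a7 : 0 ≤ X * Real.log Z := by positivity
    linarith only [a1, a2, a3, a4, a5, a6, a7, hLT, hTt, e5, e6, e7, hX]
  have good : ∀ Q ∈ Ioc Q0 Q1, |Off (ac (bet R R') L H R1 R') (bet R R') L H T R1 R' Q| ≤ X →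
      X * (2 * Real.log Q1 - Real.log X) -
        X * (5 * δ * Real.log X + 1400 * Real.log Z + 50 + C) ≤ G X Q := by
    clear * - Q0 Q1 R R' L H R1 T X hq1 D0 Y Z hZ0 hQ1 hZ hτ hXX hHpos hL hT1 hF hb hDS hD3 hτN
      hR'N hX δ C hψ hT2 hZ1 x hsq hlog hNX hZx hq0 hxq hS0 hS1 hR'c main
    intro Q hQ hO
    rw [mem_Ioc] at hQ
    have hQX : (Q : ℝ) ≤ X := le_trans (by exact_mod_cast hQ.2) hq1
    have hQp : (0 : ℝ) < Q := by exact_mod_cast (by omega : 0 < Q)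
    have hQq : Q1 ≤ Q * Z := by
      rw [div_le_iff₀ hZ0] at hQ1
      exact hQ1.trans (by gcongr; exact hQ.1.le)
    have hτQ := hτ Q (hQX.trans hXX)
    have hφ : (0 : ℝ) < Q.totient := by exact_mod_cast Nat.totient_pos.mpr (by omega)
    have c1 := core_avg (T := T) (Q := Q) (Y := X / Q.totient) hHpos
      (lt_of_le_of_lt (by omega) (hT1.trans_le (Nat.mul_le_mul_left _ hQ.1.le))) hF (by positivity)
      (sum_not_coprime_le _ Q (by omega) (by omega))
      (mean_le hHpos (by omega) (by positivity) (fun r hr => bet_eq_zero hr) hb (by omega) hτQ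
        fun r hr => hτN r (hr.trans hR'N)) (by positivity)
    rw [hψ]
    refine le_trans ?_ c1
    have a1 : 2 * ((2 * T + 1) * (Z ^ 2 * Z ^ 2) * (Real.log Q +
        2 * √((L + 4 * H : ℕ) : ℝ) * Real.log (L + 4 * H : ℕ))) ≤ X := by
      clear * - T Q1 X Z hT2 hq1 hX hZ1 Q L H x hsq hlog hNX hZx hZ hQX hq0 hxq
      have b1 : (2 * T + 1) * Q1 ≤ 5 * X * Z := by
        linarith only [hT2, hq1, le_mul_of_one_le_right hX.le hZ1]
      have b2 : Real.log Q + 2 * √((L + 4 * H : ℕ) : ℝ) * Real.log (L + 4 * H : ℕ) ≤ 3 * x * Z := by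
        have d1 : 2 * √((L + 4 * H : ℕ) : ℝ) * Real.log (L + 4 * H : ℕ) ≤ 2 * x * Z := by
          have := Real.log_natCast_nonneg (L + 4 * H)
          gcongr; linarith only [hlog, hNX, hlog _ hNX]
        have d2 : 1 * Z ≤ x * Z := by gcongr; exact (one_le_pow₀ hZ1).trans hZx
        linarith only [d1, d2, hlog, hQX, hlog _ hQX]
      refine le_of_mul_le_mul_right ?_ hq0
      calc _ ≤ 2 * ((2 * T + 1) * (Z ^ 2 * Z ^ 2) * (3 * x * Z)) * Q1 := by gcongr
        _ = 6 * Z ^ 5 * x * ((2 * T + 1) * Q1) := by ring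
        _ ≤ 6 * Z ^ 5 * x * (5 * X * Z) := by gcongr
        _ = X * (x * (30 * Z ^ 6)) := by ring
        _ ≤ X * (x * Z ^ 550) := by gcongr; exact mul_pow_le hZ (by norm_num) (by norm_num)
        _ ≤ _ := by gcongr
    have a2 : 2 * (X / Q.totient * (L * (Q.totient / Q) * (Z * (Z ^ 2 / R1)) +
        Z * (R' * (Z ^ 2 * Z)))) ≤ 2 * X := by
      clear * - L X H hNX Q Z R1 Q1 hφ hS0 hZ hQp hX hq0 hQq hS1 R' hτQ hR'c
      have b1 : (L : ℝ) ≤ X := le_trans (by exact_mod_cast Nat.le_add_right _ _) hNX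
      have b2 : X / Q.totient * (L * (Q.totient / Q) * (Z * (Z ^ 2 / R1))) ≤ X / 2 := by
        calc _ = X * L * Z ^ 4 / (Q * Z * R1) := by field_simp
          _ ≤ X * X * Z ^ 4 / (Q1 * (Z ^ 527 * (X / Q1))) := by gcongr
          _ = X / 2 * (2 * Z ^ 4 / Z ^ 527) := by field_simp
          _ ≤ _ := mul_le_of_le_one_right (by positivity) ((div_le_one (by positivity)).mpr
              (mul_pow_le hZ (by norm_num) (by norm_num)))
      have b3 : X / Q.totient * (Z * (R' * (Z ^ 2 * Z))) ≤ X / 2 := by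
        have d1 := (div_totient_le_card_divisors Q).trans hτQ
        calc _ = X / 2 * (Q / Q.totient * (2 * Z ^ 5 * R') / (Q * Z)) := by field_simp
          _ ≤ X / 2 * (Z * (2 * Z ^ 5 * R') / Q1) := by gcongr
          _ ≤ _ := mul_le_of_le_one_right (by positivity) ((div_le_one hq0).mpr
              (le_trans (le_of_eq (by ring)) (hR'c 2 6 (by norm_num) (by norm_num))))
      linarith only [b2, b3]
    linarith only [(abs_le.mp hO).1, main, a1, a2]
  have hbad : (((Ioc Q0 Q1).filter (fun Q => X <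
      |Off (ac (bet R R') L H R1 R') (bet R R') L H T R1 R' Q|)).card : ℝ) ≤ 2 * Q1 / Z := by
    refine le_of_mul_le_mul_left (le_trans ?_ hoff2) hX
    rw [mul_comm, ← nsmul_eq_mul]
    exact (card_nsmul_le_sum _ _ _ fun Q hQ => (mem_filter.mp hQ).2.le).trans
      (sum_le_sum_of_subset_of_nonneg (filter_subset _ _) fun _ _ _ => abs_nonneg _)
  refine le_trans (Nat.cast_le.mpr ((card_le_card (t := Ioc 0 Q0 ∪ (Ioc Q0 Q1).filter (fun Q => X <
      |Off (ac (bet R R') L H R1 R') (bet R R') L H T R1 R' Q|)) fun Q hQ => ?_).trans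
      (card_union_le _ _))) ?_
  · obtain ⟨a1, a2⟩ := mem_filter.mp hQ
    rw [mem_Icc] at a1
    by_cases h : Q ≤ Q0
    · exact mem_union_left _ (mem_Ioc.mpr ⟨a1.1, h⟩)
    · have a3 : Q ∈ Ioc Q0 Q1 := mem_Ioc.mpr ⟨not_le.mp h, a1.2⟩
      exact mem_union_right _ (mem_filter.mpr ⟨a3, not_le.mp fun h' => (good Q a3 h').not_gt a2⟩)
  · rw [Nat.cast_add, Nat.card_Ioc, Nat.sub_zero]
    exact (add_le_add hQ2 hbad).trans (le_of_eq (by ring))

/-- `G(X,Q) ≥ X log (Q² / X) - o(X log X)` for all `Q ≤ Q₁` with at most `Q₁ X^{-δ}` exceptions. -/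
theorem almost_all (ε : ℝ) (hε : 0 < ε) : ∃ δ : ℝ, 0 < δ ∧ ∃ X₀ : ℝ, ∀ X : ℝ, X₀ ≤ X →
    ∀ Q₁ : ℕ, (Q₁ : ℝ) ≤ X → (((Icc 1 Q₁).filter (fun Q : ℕ => G X Q <
      X * Real.log ((Q : ℝ) ^ 2 / X) - ε * (X * Real.log X))).card : ℝ) ≤ Q₁ * X ^ (-δ) := by
  set δ : ℝ := min (ε / 20) (1 / 10) with hδ
  have hδ0 : 0 < δ := lt_min (by linarith only [hε]) (by norm_num)
  have hδ1 : δ ≤ ε / 20 := min_le_left _ _
  have hδ2 : δ ≤ 1 / 10 := min_le_right _ _
  set η : ℝ := δ / 1000 with hη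
  have hη0 : 0 < η := by positivity
  obtain ⟨C, hC1, hC⟩ := exists_card_divisors_le (η / 4) (by positivity)
  obtain ⟨K, hK0, hK⟩ := exists_sum_Tt_sq_le
  have t1 := (Metric.tendsto_nhds.mp tendsto_psi_div) δ hδ0
  have t2 := (tendsto_rpow_atTop hη0).eventually_ge_atTop 100
  have t3 := (tendsto_rpow_atTop (half_pos hη0)).eventually_ge_atTop (max C 4)
  have t4 : ∀ᶠ X : ℝ in atTop, ‖Real.log X‖ ≤ 1 / 4 * ‖X ^ η‖ :=
    (isLittleO_log_rpow_atTop hη0).bound (by norm_num)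
  have t5 := Real.tendsto_log_atTop.eventually_ge_atTop ((100 + 2 * K) / ε)
  obtain ⟨X₀, hX₀⟩ := eventually_atTop.mp
    (t1.and (t2.and (t3.and (t4.and (t5.and (eventually_ge_atTop (max 2 (1 / δ))))))))
  refine ⟨η / 2, half_pos hη0, X₀, fun X hX Q₁ hQX => ?_⟩
  obtain ⟨h1, hZ, h3, h4, h5, h6⟩ := hX₀ X hX
  have h7 := (le_max_left _ _).trans h6
  have h8 := (le_max_right _ _).trans h6
  have hX0 : 0 < X := by linarith only [h7]
  have hL : 0 < Real.log X := Real.log_pos (by linarith only [h7])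
  have hLZ : Real.log (X ^ η) = η * Real.log X := Real.log_rpow hX0 _
  have hXL : 0 < X * Real.log X := by positivity
  have hsq : X ^ η = X ^ (η / 2) * X ^ (η / 2) := by rw [← Real.rpow_add hX0, add_halves]
  have hlog : ∀ Q ∈ Icc 1 Q₁, Real.log ((Q : ℝ) ^ 2 / X) ≤ 2 * Real.log Q₁ - Real.log X := by
    clear * - Q₁ X hX0
    intro Q hQ
    rw [mem_Icc] at hQ
    have a1 : (0 : ℝ) < Q := by exact_mod_cast hQ.1
    have a2 := Real.log_le_log a1 (show (Q : ℝ) ≤ Q₁ by exact_mod_cast hQ.2)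
    rw [Real.log_div (by positivity) hX0.ne', Real.log_pow]
    push_cast; linarith only [a2]
  have a3 : δ * (X * Real.log X) ≤ ε / 20 * (X * Real.log X) := by gcongr
  by_cases hc : X * (X ^ η) ^ 1100 ≤ (Q₁ : ℝ) ^ 2
  · rw [Real.dist_eq, abs_lt, lt_sub_iff_add_lt, lt_div_iff₀ hX0, sub_lt_iff_lt_add,
      div_lt_iff₀ hX0, Chebyshev.psi_eq_psi_coe_floor, psi_eq] at h1
    rw [div_le_iff₀ hδ0] at h8
    have h9 := numeric_avg hZ hQX hc hX0 (fun n hn => by
        clear * - n X hL hn η δ hδ2 hη hη0 hZ h4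
        have a1 := HH_le n
        have a2 : Real.log n ≤ Real.log (X ^ 2) := by
          rcases Nat.eq_zero_or_pos n with rfl | h
          · simpa using hL.le
          · exact Real.log_le_log (by exact_mod_cast h) hn
        rw [Real.log_pow] at a2
        rw [Real.norm_eq_abs, Real.norm_eq_abs, abs_of_pos hL, abs_of_pos (by linarith only [hZ])] at h4
        push_cast at a2
        linarith only [hZ, h4, a1, a2])
      (fun n hn => (hC n).trans (by
        clear * - C n η X hn δ ε hε hC1 hX0 hsq h3 h7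
        calc _ ≤ C * (X ^ 2) ^ (η / 4) := by gcongr
          _ = C * X ^ (η / 2) := by
              rw [← Real.rpow_natCast, ← Real.rpow_mul hX0.le]; congr 2; push_cast; ring
          _ ≤ _ := by rw [hsq]; gcongr; exact (le_max_left _ _).trans h3))
      hδ0.le hδ2 (by linarith only [h8, Nat.lt_floor_add_one X]) (by linarith only [h1, h1.1]) (by linarith only [h1, h1.2])
      hK hK0
    refine le_trans (Nat.cast_le.mpr (card_le_card fun Q hQ => ?_)) (h9.trans ?_)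
    · obtain ⟨a1, a2⟩ := mem_filter.mp hQ
      refine mem_filter.mpr ⟨a1, a2.trans_le ?_⟩
      have a4 := mul_le_mul_of_nonneg_left (hlog Q a1) hX0.le
      rw [div_le_iff₀ hε] at h5
      have a5 := mul_le_mul_of_nonneg_left h5 hX0.le
      have a6 : 0 ≤ ε * (X * Real.log X) := by positivity
      rw [hLZ, hη]
      linarith only [a3, a4, a5, a6]
    · have a1 : 0 < X ^ (η / 2) := by positivity
      rw [Real.rpow_neg hX0.le, ← div_eq_mul_inv, hsq, div_le_div_iff₀ (by positivity) a1,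
        mul_comm 4, mul_assoc]
      gcongr
      exact (le_max_right _ _).trans h3
  · rw [filter_false_of_mem, card_empty, Nat.cast_zero]
    · positivity
    intro Q hQ
    refine not_lt.mpr (le_trans ?_ (sum_nonneg fun _ _ => sq_nonneg _))
    have a0 : (0 : ℝ) < Q₁ := by exact_mod_cast (mem_Icc.mp hQ).1.trans (mem_Icc.mp hQ).2
    have a1 := Real.log_le_log (by positivity) (not_le.mp hc).le
    rw [Real.log_mul hX0.ne' (by positivity), Real.log_pow, Real.log_pow, hLZ, hη] at a1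
    push_cast at a1
    have a2 := mul_le_mul_of_nonneg_left ((hlog Q hQ).trans
      (show _ ≤ 1100 * (δ / 1000 * Real.log X) by linarith only [a1])) hX0.le
    have a6 : 0 ≤ ε * (X * Real.log X) := by positivity
    linarith only [a3, a2, a6]

end Pool.Agent.Work.MP_5d318d_nt
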