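import Pool.Agent.Work.MP_5d318d_nt.Chars
import Pool.Agent.Lib.ANT.SieveSums
import Pool.Agent.Lib.LargeSieve.TwoForms

-- merged part: Pool.Agent.Work.MP_5d318d_nt.Dual
section
/-!
# The dual (Poisson type) bound for smoothly weighted character sums
-/

noncomputable section

open Finset Real

namespace Pool.Agent.Work.MP_5d318d_nt

open Pool.Agent.Lib.LargeSieve

/-- Admissible weights. -/
structure Wt (T : ℕ) (s : ℝ) (γ : ℤ → ℝ) : Prop where
  abs_le : ∀ k, |γ k| ≤ 1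
  supp : ∀ k, k ∉ Icc (-(T : ℤ)) T → γ k = 0
  lip : ∀ k, |γ (k + 1) - γ k| ≤ s
  dd : ∑ k ∈ Icc (-(T : ℤ) - 2) T, |γ (k + 2) - 2 * γ (k + 1) + γ k| ≤ 4 * s

/-- weighted character sum -/
def Ct {d : ℕ} (χ : DirichletCharacter ℂ d) (T : ℕ) (γ : ℤ → ℝ) : ℂ :=
  ∑ k ∈ Icc (-(T : ℤ)) T, (γ k : ℂ) * (starRingEnd ℂ) (χ (k : ZMod d))

/-- Fourier transform of the weight -/
def Wh (T : ℕ) (γ : ℤ → ℝ) (θ : ℝ) : ℂ := ∑ k ∈ Icc (-(T : ℤ)) T, (γ k : ℂ) * ee (k * θ)

/-- Fourier transform of `k γ k` -/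
def Vh (T : ℕ) (γ : ℤ → ℝ) (θ : ℝ) : ℂ :=
  ∑ k ∈ Icc (-(T : ℤ)) T, (((k : ℝ) * γ k : ℝ) : ℂ) * ee (k * θ)

variable {T : ℕ} {s : ℝ} {γ : ℤ → ℝ}

theorem Wt.s_nonneg (h : Wt T s γ) : 0 ≤ s := (abs_nonneg _).trans (h.lip 0)

theorem Wh_le (h : Wt T s γ) (θ : ℝ) : 16 * dZ θ ^ 2 * ‖Wh T γ θ‖ ≤ 4 * s := by
  refine (norm_sum_second_diff (fun k => (γ k : ℂ)) _ _
    (fun k hk => by simp [h.supp k hk]) θ).trans (le_trans (le_of_eq ?_) h.dd)
  refine sum_congr rfl fun k _ => ?_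
  rw [← Real.norm_eq_abs, ← Complex.norm_real]
  push_cast; rfl

theorem card_Icc_T (T : ℕ) : ((Icc (-(T : ℤ)) T).card : ℝ) = 2 * T + 1 := by
  rw [Int.card_Icc]
  have : ((T : ℤ) + 1 - -(T : ℤ)).toNat = 2 * T + 1 := by omega
  rw [this]; push_cast; ring

theorem Vh_le_sq (h : Wt T s γ) (hT : 1 ≤ T) (θ : ℝ) : ‖Vh T γ θ‖ ≤ 3 * (T : ℝ) ^ 2 := by
  have hT' : (1 : ℝ) ≤ T := by exact_mod_cast hT
  calc _ ≤ ∑ _k ∈ Icc (-(T : ℤ)) T, (T : ℝ) := by
        refine (norm_sum_le _ _).trans (sum_le_sum fun k hk => ?_)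
        rw [norm_mul, norm_ee, mul_one, Complex.norm_real, Real.norm_eq_abs, abs_mul]
        rw [mem_Icc] at hk
        have h1 : |(k : ℝ)| ≤ T := by
          rw [← Int.cast_abs]
          exact_mod_cast (abs_le.mpr ⟨hk.1, hk.2⟩)
        calc _ ≤ (T : ℝ) * 1 := mul_le_mul h1 (h.abs_le k) (abs_nonneg _) (by linarith only [hT'])
          _ = _ := mul_one _
    _ = (2 * T + 1) * T := by rw [sum_const, nsmul_eq_mul, card_Icc_T]
    _ ≤ _ := by linarith only [hT', mul_nonneg_of_nonpos_of_nonpos (Mathlib.Tactic.Linarith.sub_nonpos_of_le (Mathlib.Tactic.Linarith.natCast_nonneg ℝ T)) (Mathlib.Tactic.Linarith.sub_nonpos_of_le hT')]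

theorem Vh_le (h : Wt T s γ) (hT : 1 ≤ T) (θ : ℝ) :
    16 * dZ θ ^ 2 * ‖Vh T γ θ‖ ≤ 18 * (T * s) := by
  have hT' : (1 : ℝ) ≤ T := by exact_mod_cast hT
  have hs := h.s_nonneg
  refine (norm_sum_second_diff (fun k => (((k : ℝ) * γ k : ℝ) : ℂ)) _ _
    (fun k hk => by simp [h.supp k hk]) θ).trans ?_
  have h1 : ∀ k ∈ Icc (-(T : ℤ) - 2) T,
      ‖((((k + 2 : ℤ) : ℝ) * γ (k + 2) : ℝ) : ℂ) - 2 * ((((k + 1 : ℤ) : ℝ) * γ (k + 1) : ℝ) : ℂ) +
        (((k : ℝ) * γ k : ℝ) : ℂ)‖ ≤ (T + 1) * |γ (k + 2) - 2 * γ (k + 1) + γ k| + 2 * s := by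
    intro k hk
    have e : ((((k + 2 : ℤ) : ℝ) * γ (k + 2) : ℝ) : ℂ) -
        2 * ((((k + 1 : ℤ) : ℝ) * γ (k + 1) : ℝ) : ℂ) + (((k : ℝ) * γ k : ℝ) : ℂ) =
        ((((k : ℝ) + 1) * (γ (k + 2) - 2 * γ (k + 1) + γ k) +
          ((γ (k + 1 + 1) - γ (k + 1)) + (γ (k + 1) - γ k)) : ℝ) : ℂ) := by
      rw [show k + 1 + 1 = k + 2 by ring]
      push_cast; ring
    rw [e, Complex.norm_real, Real.norm_eq_abs]
    rw [mem_Icc] at hk
    have h2 : |(k : ℝ) + 1| ≤ T + 1 := by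
      have : |k + 1| ≤ (T : ℤ) + 1 := abs_le.mpr ⟨by omega, by omega⟩
      exact_mod_cast this
    refine (abs_add_le _ _).trans (add_le_add ?_ ((abs_add_le _ _).trans ?_))
    · rw [abs_mul]; gcongr
    · linarith only [h, h.lip (k + 1), h.lip k]
  refine (sum_le_sum h1).trans ?_
  rw [sum_add_distrib, ← mul_sum, sum_const, nsmul_eq_mul, Int.card_Icc]
  have : ((T : ℤ) + 1 - (-(T : ℤ) - 2)).toNat = 2 * T + 3 := by omega
  rw [this]
  have h2 := mul_le_mul_of_nonneg_left h.dd (show (0 : ℝ) ≤ T + 1 by linarith only [hT'])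
  push_cast
  linarith only [h2, hT', hs, mul_nonneg_of_nonpos_of_nonpos (Mathlib.Tactic.Linarith.sub_nonpos_of_le hT') (Mathlib.Tactic.Linarith.sub_nonpos_of_le hs)]

theorem hasDerivAt_ee (c θ : ℝ) :
    HasDerivAt (fun x : ℝ => ee (c * x)) ((2 * π * Complex.I) * (c * ee (c * θ))) θ := by
  have h1 : HasDerivAt (fun x : ℝ => Complex.I * ((2 * π * (c * x) : ℝ) : ℂ))
      (Complex.I * ((2 * π * c : ℝ) : ℂ)) θ := by
    have : HasDerivAt (fun x : ℝ => 2 * π * (c * x)) (2 * π * c) θ := by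
      simpa using ((hasDerivAt_id θ).const_mul c).const_mul (2 * π)
    exact this.ofReal_comp.const_mul _
  have h2 := h1.cexp
  have e : (2 * π * Complex.I) * (c * ee (c * θ)) =
      Complex.exp (Complex.I * ((2 * π * (c * θ) : ℝ) : ℂ)) * (Complex.I * ((2 * π * c : ℝ) : ℂ)) := by
    unfold ee
    push_cast; ring
  rw [e]
  exact h2

theorem hasDerivAt_Wh (ε θ : ℝ) :
    HasDerivAt (fun x => Wh T γ (ε * x)) ((2 * π * Complex.I) * ε * Vh T γ (ε * θ)) θ := by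
  unfold Wh Vh
  rw [mul_sum]
  refine HasDerivAt.fun_sum fun k _ => ?_
  have := (hasDerivAt_ee (k * ε) θ).const_mul (γ k : ℂ)
  simp_rw [mul_assoc (k : ℝ) ε] at this
  have e : 2 * π * Complex.I * ε * ((((k : ℝ) * γ k : ℝ) : ℂ) * ee (k * (ε * θ))) =
      (γ k : ℂ) * (2 * π * Complex.I * ((((k : ℝ) * ε : ℝ) : ℂ) * ee (k * (ε * θ)))) := by
    push_cast; ring
  rw [e]
  exact this

theorem le_dZ {θ : ℝ} (_h0 : 0 ≤ θ) (h1 : θ ≤ 1 / 2) : θ ≤ dZ θ := by
  unfold dZ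
  rcases le_or_gt (round θ) 0 with h | h
  · have : ((round θ : ℤ) : ℝ) ≤ 0 := by exact_mod_cast h
    exact le_trans (by linarith only [this]) (le_abs_self _)
  · have : (1 : ℝ) ≤ ((round θ : ℤ) : ℝ) := by exact_mod_cast h
    exact le_trans (by linarith) (neg_le_abs _)

theorem le_dZ_mul {ε θ : ℝ} (hε : ε = 1 ∨ ε = -1) (h0 : 0 ≤ θ) (h1 : θ ≤ 1 / 2) :
    θ ≤ dZ (ε * θ) := by
  rcases hε with rfl | rfl
  · simpa using le_dZ h0 h1
  · rw [neg_one_mul, dZ_neg]; exact le_dZ h0 h1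

theorem Wh_diff_le (h : Wt T s γ) (hT : 1 ≤ T) {Z : ℝ} (hZ : T * s ≤ 5 * Z) {ε : ℝ}
    (hε : ε = 1 ∨ ε = -1) {d J : ℕ} (hJ : 1 ≤ J) (hJd : 2 * (J + 1) ≤ d) :
    ‖Wh T γ (ε * (((J + 1 : ℕ) : ℝ) / d)) - Wh T γ (ε * ((J : ℝ) / d))‖ ≤
      38 / d * min ((T : ℝ) ^ 2) (Z * d ^ 2 / J ^ 2) := by
  have hd : (0 : ℝ) < d := by exact_mod_cast (by omega : 0 < d)
  have hJ' : (0 : ℝ) < J := by exact_mod_cast hJ
  have hJd' : 2 * ((J : ℝ) + 1) ≤ d := by exact_mod_cast hJd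
  have hZ0 : 0 ≤ Z := by
    have := mul_nonneg (Nat.cast_nonneg (α := ℝ) T) h.s_nonneg
    linarith only [hZ, this]
  set m := min ((T : ℝ) ^ 2) (Z * d ^ 2 / J ^ 2) with hm
  have hm0 : 0 ≤ m := le_min (by positivity) (by positivity)
  have hle : (J : ℝ) / d ≤ ((J + 1 : ℕ) : ℝ) / d := by push_cast; gcongr; linarith only []
  have key := (convex_Icc ((J : ℝ) / d) (((J + 1 : ℕ) : ℝ) / d)).norm_image_sub_le_of_norm_hasDerivWithin_le
    (f := fun x => Wh T γ (ε * x)) (f' := fun θ => (2 * π * Complex.I) * ε * Vh T γ (ε * θ))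
    (C := 38 * m) (fun x _ => (hasDerivAt_Wh ε x).hasDerivWithinAt) (fun θ hθ => ?_)
    (Set.left_mem_Icc.mpr hle) (Set.right_mem_Icc.mpr hle)
  · refine key.trans (le_of_eq ?_)
    rw [Real.norm_eq_abs, abs_of_nonneg (sub_nonneg.mpr hle)]
    push_cast; field_simp; ring
  · have hθ0 : (J : ℝ) / d ≤ θ := hθ.1
    have hθ1 : θ ≤ 1 / 2 := hθ.2.trans (by
      push_cast; rw [div_le_div_iff₀ hd (by norm_num)]; linarith only [hJd'])
    have hpos : 0 < (J : ℝ) / d := by positivity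
    have h1 := le_dZ_mul hε (hpos.le.trans hθ0) hθ1
    have h2 := Vh_le h hT (ε * θ)
    have h3 := Vh_le_sq h hT (ε * θ)
    have h4 : ‖Vh T γ (ε * θ)‖ ≤ 6 * (Z * d ^ 2 / J ^ 2) := by
      have a : 16 * ((J : ℝ) / d) ^ 2 * ‖Vh T γ (ε * θ)‖ ≤ 96 * Z := by
        calc _ ≤ 16 * dZ (ε * θ) ^ 2 * ‖Vh T γ (ε * θ)‖ := by gcongr; linarith only [hθ0, h1]
          _ ≤ _ := by linarith only [hZ, hZ0, h2]
      have b : ‖Vh T γ (ε * θ)‖ = (16 * ((J : ℝ) / d) ^ 2 * ‖Vh T γ (ε * θ)‖) *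
          (d ^ 2 / (16 * J ^ 2)) := by field_simp
      rw [b]
      calc _ ≤ 96 * Z * (d ^ 2 / (16 * J ^ 2)) := by gcongr
        _ = _ := by field_simp; ring
    have h5 : ‖Vh T γ (ε * θ)‖ ≤ 6 * m := by
      rw [hm, mul_min_of_nonneg _ _ (by norm_num)]
      exact le_min (by nlinarith only [h3]) h4
    have h6 : ‖(2 * π * Complex.I) * (ε : ℂ)‖ = 2 * π := by
      rcases hε with rfl | rfl <;> simp [abs_of_pos Real.pi_pos]
    rw [norm_mul, h6]
    have := Real.pi_lt_d2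
    calc 2 * π * ‖Vh T γ (ε * θ)‖ ≤ 2 * 3.15 * (6 * m) := by gcongr
      _ ≤ 38 * m := by linarith only [hm0]

theorem half_sum {d : ℕ} (hd : 2 ≤ d) (χ : DirichletCharacter ℂ d) (g : ℕ → ℂ) (J1 D : ℕ)
    (hD : J1 ≤ D) (om : ℕ → ℝ) (hom0 : ∀ J, 0 ≤ om J)
    (hom : ∀ J, 1 ≤ J → J + 1 ≤ J1 → ‖g (J + 1) - g J‖ ≤ om J) :
    ‖∑ j ∈ range (J1 + 1), χ (j : ZMod d) * g j‖ ≤
      ‖g J1‖ * ‖cs χ (J1 + 1)‖ + ∑ J ∈ Icc 1 D, om J * ‖cs χ (J + 1)‖ := by
  have h := Finset.sum_range_by_parts g (fun j : ℕ => χ (j : ZMod d)) (J1 + 1)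
  simp only [smul_eq_mul, Nat.add_sub_cancel] at h
  simp_rw [mul_comm (χ _)]
  rw [h]
  refine (norm_sub_le _ _).trans (add_le_add (le_of_eq (norm_mul _ _)) ?_)
  refine (norm_sum_le _ _).trans ?_
  have h0 : cs χ (0 + 1) = 0 := by simp [cs, χ.map_zero' (by omega : d ≠ 1)]
  calc ∑ J ∈ range J1, ‖(g (J + 1) - g J) * ∑ j ∈ range (J + 1), χ (j : ZMod d)‖
      ≤ ∑ J ∈ range J1, om J * ‖cs χ (J + 1)‖ := by
        refine sum_le_sum fun J hJ => ?_
        rw [norm_mul]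
        change _ * ‖cs χ (J + 1)‖ ≤ _
        rcases Nat.eq_zero_or_pos J with rfl | hJ0
        · rw [h0]; simp
        · exact mul_le_mul_of_nonneg_right (hom J hJ0 (mem_range.mp hJ)) (norm_nonneg _)
    _ ≤ ∑ J ∈ insert 0 (Icc 1 D), om J * ‖cs χ (J + 1)‖ := by
        refine sum_le_sum_of_subset_of_nonneg (fun J hJ => ?_)
          fun J _ _ => mul_nonneg (hom0 J) (norm_nonneg _)
        rw [mem_range] at hJ
        rw [mem_insert, mem_Icc]; omega
    _ = _ := by rw [sum_insert (by simp), h0]; simp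

theorem Ct_mul_gauss {d : ℕ} [NeZero d] (hd : 2 ≤ d) {χ : DirichletCharacter ℂ d}
    (hχ : χ.IsPrimitive) (T : ℕ) (γ : ℤ → ℝ) :
    Ct χ T γ * gaussSum χ ZMod.stdAddChar =
      ∑ j ∈ range (d / 2 + 1), χ (j : ZMod d) * Wh T γ (1 * ((j : ℝ) / d)) +
      χ (-1) * ∑ j ∈ range ((d - 1) / 2 + 1), χ (j : ZMod d) * Wh T γ (-1 * ((j : ℝ) / d)) := by
  have hd0 : (d : ℝ) ≠ 0 := by exact_mod_cast (by omega : d ≠ 0)
  have h1 : Ct χ T γ * gaussSum χ ZMod.stdAddChar =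
      ∑ j ∈ range d, χ (j : ZMod d) * Wh T γ ((j : ℝ) / d) := by
    unfold Ct Wh
    simp_rw [sum_mul, mul_assoc, conj_mul_gauss hχ, mul_sum]
    rw [sum_comm]
    refine sum_congr rfl fun j _ => sum_congr rfl fun k _ => by ring
  rw [h1, ← sum_range_add_sum_Ico _ (by omega : d / 2 + 1 ≤ d)]
  simp only [one_mul]
  congr 1
  rw [sum_range_succ', Nat.cast_zero, χ.map_zero' (by omega), zero_mul, add_zero, mul_sum]
  symm
  refine Finset.sum_bij (fun j _ => d - (j + 1)) ?_ ?_ ?_ ?_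
  · intro j hj
    rw [mem_range] at hj
    rw [mem_Ico]; omega
  · intro a ha b hb h
    rw [mem_range] at ha hb
    omega
  · intro j hj
    rw [mem_Ico] at hj
    exact ⟨d - j - 1, mem_range.mpr (by omega), by omega⟩
  · intro j hj
    rw [mem_range] at hj
    have hj' : j + 1 ≤ d := by omega
    rw [← mul_assoc, ← map_mul, Nat.cast_sub hj', Nat.cast_sub hj', ZMod.natCast_self]
    congr 1
    · congr 1; ring
    · unfold Wh
      refine sum_congr rfl fun k _ => ?_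
      congr 1
      rw [← ee_add_int _ k]
      congr 1
      field_simp
      ring

/-- weights in the dual bound -/
def om (T D : ℕ) (Z : ℝ) (J : ℕ) : ℝ := 38 * Z * min (√T / (J * √J)) (√D / J ^ 2)

theorem om_nonneg (T D : ℕ) {Z : ℝ} (hZ : 0 ≤ Z) (J : ℕ) : 0 ≤ om T D Z J :=
  mul_nonneg (by positivity) (le_min (by positivity) (by positivity))

theorem min_le_om {T D d J : ℕ} {Z : ℝ} (hZ : 1 ≤ Z) (hd : 1 ≤ d) (hdD : d ≤ D) (hJ : 1 ≤ J) :
    38 / d * min ((T : ℝ) ^ 2) (Z * d ^ 2 / J ^ 2) ≤ √d * om T D Z J := by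
  have hd' : (0 : ℝ) < d := by exact_mod_cast hd
  have hJ' : (0 : ℝ) < J := by exact_mod_cast hJ
  have hdD' : (d : ℝ) ≤ D := by exact_mod_cast hdD
  set m := min ((T : ℝ) ^ 2) (Z * d ^ 2 / J ^ 2) with hm
  have hm0 : 0 ≤ m := le_min (by positivity) (by positivity)
  have hm1 : m ≤ (T : ℝ) ^ 2 := min_le_left _ _
  have hm2 : m ≤ Z * d ^ 2 / J ^ 2 := min_le_right _ _
  set a := √(d : ℝ) with ha
  set b := √(J : ℝ) with hb
  set c := √(T : ℝ) with hc
  have ha0 : 0 < a := Real.sqrt_pos.mpr hd'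
  have hb0 : 0 < b := Real.sqrt_pos.mpr hJ'
  have hc0 : 0 ≤ c := Real.sqrt_nonneg _
  have ha2 : a ^ 2 = d := Real.sq_sqrt hd'.le
  have hb2 : b ^ 2 = J := Real.sq_sqrt hJ'.le
  have hc2 : c ^ 2 = T := Real.sq_sqrt (Nat.cast_nonneg _)
  have h1 : m ≤ Z * d * a * (c / (J * b)) := by
    refine (pow_le_pow_iff_left₀ hm0 (by positivity) (by norm_num : 4 ≠ 0)).mp ?_
    calc m ^ 4 = m * m ^ 3 := by ring
      _ ≤ (T : ℝ) ^ 2 * (Z * d ^ 2 / J ^ 2) ^ 3 := by clear * - m T Z d J hm1 hZ hd hJ hm2; gcongr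
      _ = Z ^ 3 * 1 * (T ^ 2 * d ^ 6 / J ^ 6) := by field_simp
      _ ≤ Z ^ 3 * Z * (T ^ 2 * d ^ 6 / J ^ 6) := by gcongr
      _ = _ := by rw [← ha2, ← hb2, ← hc2]; field_simp
  have h2 : m ≤ Z * d * a * (√D / J ^ 2) := by
    clear * - m Z d J a D hm2 hdD' ha2 hJ ha0 hZ hd
    refine hm2.trans ?_
    have : a ≤ √D := Real.sqrt_le_sqrt hdD'
    calc Z * d ^ 2 / J ^ 2 = Z * d * a * (a / J ^ 2) := by rw [← ha2]; field_simp
      _ ≤ _ := by gcongr
  have h3 : m ≤ Z * d * a * min (c / (J * b)) (√D / J ^ 2) := by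
    rw [mul_min_of_nonneg _ _ (by positivity)]
    exact le_min h1 h2
  unfold om
  rw [← hc, ← hb]
  calc 38 / d * m ≤ 38 / d * (Z * d * a * min (c / (J * b)) (√D / J ^ 2)) := by gcongr
    _ = _ := by clear * - d Z a c J b D hd ha0 hZ; field_simp

/-- The dual bound. -/
theorem norm_Ct_le (h : Wt T s γ) (hT : 1 ≤ T) {Z : ℝ} (hZ1 : 1 ≤ Z) (hZ : T * s ≤ 5 * Z)
    {d D : ℕ} (hd : 2 ≤ d) (hdD : d ≤ D) (hH : HH d ≤ Z) {χ : DirichletCharacter ℂ d}
    (hχ : χ.IsPrimitive) :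
    ‖Ct χ T γ‖ ≤ 40 * Z ^ 2 + 2 * ∑ J ∈ Icc 1 D, om T D Z J * ‖cs χ (J + 1)‖ := by
  have : NeZero d := ⟨by omega⟩
  have hd0 : (0 : ℝ) < d := by exact_mod_cast (by omega : 0 < d)
  have hsd : 0 < √(d : ℝ) := Real.sqrt_pos.mpr hd0
  have hT' : (1 : ℝ) ≤ T := by exact_mod_cast hT
  have hs0 := h.s_nonneg
  have hs : s ≤ 5 * Z := by linarith only [hZ, hT', hs0, mul_nonneg_of_nonpos_of_nonpos (Mathlib.Tactic.Linarith.sub_nonpos_of_le hT') (Mathlib.Tactic.Linarith.sub_nonpos_of_le hs0)]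
  have key : ∀ (ε : ℝ) (_ : ε = 1 ∨ ε = -1) (J1 : ℕ) (_ : 2 * J1 ≤ d) (_ : J1 = 0 ∨ d ≤ 4 * J1),
      ‖∑ j ∈ range (J1 + 1), χ (j : ZMod d) * Wh T γ (ε * ((j : ℝ) / d))‖ ≤
        √d * (20 * Z ^ 2 + ∑ J ∈ Icc 1 D, om T D Z J * ‖cs χ (J + 1)‖) := by
    intro ε hε J1 h1 h2
    refine (half_sum hd χ (fun j => Wh T γ (ε * ((j : ℝ) / d))) J1 D (by omega)
      (fun J => √d * om T D Z J) (fun J => mul_nonneg hsd.le (om_nonneg _ _ (by linarith only [hZ1]) _))
      (fun J hJ hJ1 => (Wh_diff_le h hT hZ hε hJ (by omega)).trans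
        (min_le_om hZ1 (by omega) hdD hJ))).trans ?_
    rw [mul_add, mul_sum]
    refine add_le_add ?_ (le_of_eq (sum_congr rfl fun J _ => by ring))
    rcases h2 with rfl | h2
    · have h0 : cs χ (0 + 1) = 0 := by simp [cs, χ.map_zero' (by omega : d ≠ 1)]
      rw [h0, norm_zero, mul_zero]; positivity
    · have a1 : (1 : ℝ) / 4 ≤ (J1 : ℝ) / d := by
        rw [div_le_div_iff₀ (by norm_num) hd0]
        have : (d : ℝ) ≤ 4 * J1 := by exact_mod_cast h2
        linarith only [this]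
      have a2 : (J1 : ℝ) / d ≤ 1 / 2 := by
        rw [div_le_div_iff₀ hd0 (by norm_num)]
        have : 2 * (J1 : ℝ) ≤ d := by exact_mod_cast h1
        linarith only [this]
      have a3 := a1.trans (le_dZ_mul hε (by linarith only [a1]) a2)
      have a4 := Wh_le h (ε * ((J1 : ℝ) / d))
      have a5 : ‖Wh T γ (ε * ((J1 : ℝ) / d))‖ ≤ 20 * Z := by
        have : 16 * (1 / 4 : ℝ) ^ 2 * ‖Wh T γ (ε * ((J1 : ℝ) / d))‖ ≤
            16 * dZ (ε * ((J1 : ℝ) / d)) ^ 2 * ‖Wh T γ (ε * ((J1 : ℝ) / d))‖ := by gcongr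
        linarith only [hs, a4, this]
      have a6 := norm_cs_le hd hχ (J1 + 1)
      calc _ ≤ (20 * Z) * (√d * Z) := by
            refine mul_le_mul a5 (a6.trans ?_) (norm_nonneg _) (by linarith only [hZ1])
            gcongr
        _ = _ := by ring
  have k1 := key 1 (Or.inl rfl) (d / 2) (by omega) (by omega)
  have k2 := key (-1) (Or.inr rfl) ((d - 1) / 2) (by omega) (by omega)
  have h3 := congrArg norm (Ct_mul_gauss hd hχ T γ)
  rw [norm_mul, norm_gaussSum hχ] at h3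
  refine le_of_mul_le_mul_right ?_ hsd
  rw [h3]
  refine (norm_add_le _ _).trans ?_
  rw [norm_mul]
  have k3 := mul_le_mul (χ.norm_le_one (-1)) k2 (norm_nonneg _) zero_le_one
  linarith only [k1, k3]

end Pool.Agent.Work.MP_5d318d_nt
end
end

-- merged part: Pool.Agent.Work.MP_5d318d_nt.TypeII
section
/-!
# Type II estimates against a smoothly weighted character sum
-/

noncomputable section

open Finset Real

namespace Pool.Agent.Work.MP_5d318d_nt

open Pool.Agent.Lib.LargeSieve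

open Classical in
/-- Sum over primitive characters of modulus in `[2, D]`. -/
def PS (D : ℕ) (F : (d : ℕ) → DirichletCharacter ℂ d → ℝ) : ℝ :=
  ∑ d ∈ Icc 2 D, ∑ χ : DirichletCharacter ℂ d with χ.IsPrimitive, F d χ

theorem PS_mono {D : ℕ} {F G : (d : ℕ) → DirichletCharacter ℂ d → ℝ}
    (h : ∀ d, 2 ≤ d → d ≤ D → ∀ χ : DirichletCharacter ℂ d, χ.IsPrimitive → F d χ ≤ G d χ) :
    PS D F ≤ PS D G := by
  classical
  exact sum_le_sum fun d hd => sum_le_sum fun χ hχ =>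
    h d (mem_Icc.mp hd).1 (mem_Icc.mp hd).2 χ (mem_filter.mp hχ).2

theorem PS_add (D : ℕ) (F G : (d : ℕ) → DirichletCharacter ℂ d → ℝ) :
    PS D (fun d χ => F d χ + G d χ) = PS D F + PS D G := by
  simp only [PS, sum_add_distrib]

theorem PS_mul (D : ℕ) (c : ℝ) (F : (d : ℕ) → DirichletCharacter ℂ d → ℝ) :
    PS D (fun d χ => c * F d χ) = c * PS D F := by
  simp only [PS, mul_sum]

theorem PS_sum {ι : Type*} (D : ℕ) (s : Finset ι)
    (F : ι → (d : ℕ) → DirichletCharacter ℂ d → ℝ) :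
    PS D (fun d χ => ∑ i ∈ s, F i d χ) = ∑ i ∈ s, PS D (F i) := by
  simp only [PS]
  rw [sum_comm]
  exact sum_congr rfl fun d _ => sum_comm

theorem PS_zero (D : ℕ) : PS D (fun _ _ => 0) = 0 := by simp [PS]

/-- Dirichlet polynomial -/
def DP (L : ℕ) (a : ℕ → ℂ) {d : ℕ} (χ : DirichletCharacter ℂ d) : ℂ :=
  ∑ m ∈ range L, a m * χ (m : ZMod d)

theorem PS_bilin {D L1 L2 : ℕ} {Z A B : ℝ} (hZ : 1 ≤ Z) (hH : HH (D ^ 2) ≤ Z) (a b : ℕ → ℂ)
    (ha : ∑ m ∈ range L1, ‖a m‖ ^ 2 ≤ A) (hb : ∑ m ∈ range L2, ‖b m‖ ^ 2 ≤ B) :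
    PS D (fun _ χ => ‖DP L1 a χ‖ * ‖DP L2 b χ‖) ≤
      √A * √B * ((√L1 + D * Z) * (√L2 + D * Z)) := by
  classical
  have hA : 0 ≤ A := (sum_nonneg fun _ _ => by positivity).trans ha
  have hB : 0 ≤ B := (sum_nonneg fun _ _ => by positivity).trans hb
  have key : ∀ L : ℕ, (L : ℝ) + (D ^ 2 : ℕ) * HH (D ^ 2) ≤ (√L + D * Z) ^ 2 := by
    intro L
    have h1 : √(L : ℝ) ^ 2 = L := Real.sq_sqrt (Nat.cast_nonneg _)
    have h2 : ((D ^ 2 : ℕ) : ℝ) * HH (D ^ 2) ≤ D ^ 2 * Z ^ 2 := by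
      push_cast
      gcongr
      linarith only [hZ, hH, mul_nonneg_of_nonpos_of_nonpos (Mathlib.Tactic.Linarith.sub_nonpos_of_le hZ) (Mathlib.Tactic.Linarith.sub_nonpos_of_le hZ)]
    have h3 : 0 ≤ √(L : ℝ) * (D * Z) := by positivity
    linarith only [h1, h2, h3]
  refine le_trans ?_ (primitive_bilinear_le D L1 L2 a b _ (by positivity) ?_)
  · exact sum_le_sum_of_subset_of_nonneg (Icc_subset_Icc_left one_le_two)
      fun _ _ _ => sum_nonneg fun _ _ => by positivity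
  · have h0 := HH_nonneg (D ^ 2)
    calc _ ≤ ((√L1 + D * Z) ^ 2 * A) * ((√L2 + D * Z) ^ 2 * B) := by
          gcongr
          · exact key L1
          · exact key L2
      _ = _ := by rw [mul_pow, mul_pow, Real.sq_sqrt hA, Real.sq_sqrt hB]; ring

/-- coefficients of the product of a Dirichlet polynomial with a character sum -/
def conv1 (L J : ℕ) (b : ℕ → ℂ) (t : ℕ) : ℂ :=
  if t = 0 then 0 else ∑ p ∈ (range L ×ˢ Icc 1 J).filter (fun p => p.1 * p.2 = t), b p.1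

theorem DP_mul_cs {d : ℕ} (hd : 2 ≤ d) (χ : DirichletCharacter ℂ d) (L J : ℕ) (hJ : 1 ≤ J)
    (b : ℕ → ℂ) : DP L b χ * cs χ (J + 1) = DP (L * J) (conv1 L J b) χ := by
  have h0 : χ ((0 : ℕ) : ZMod d) = 0 := by rw [Nat.cast_zero]; exact χ.map_zero' (by omega)
  have h1 : cs χ (J + 1) = ∑ j ∈ Icc 1 J, χ (j : ZMod d) := by
    rw [cs, show range (J + 1) = insert 0 (Icc 1 J) by ext; simp; omega, sum_insert (by simp), h0,
      zero_add]
  rw [h1, DP, DP, sum_mul_sum, ← sum_product']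
  rw [← sum_fiberwise_of_maps_to (s := range L ×ˢ Icc 1 J) (t := range (L * J))
    (g := fun p => p.1 * p.2)]
  · refine sum_congr rfl fun t _ => ?_
    unfold conv1
    split_ifs with ht
    · subst ht
      rw [zero_mul]
      refine sum_eq_zero fun p hp => ?_
      rw [mul_assoc, ← map_mul, ← Nat.cast_mul, (mem_filter.mp hp).2, h0, mul_zero]
    · rw [sum_mul]
      refine sum_congr rfl fun p hp => ?_
      rw [mul_assoc, ← map_mul, ← Nat.cast_mul, (mem_filter.mp hp).2]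
  · intro p hp
    simp only [mem_product, mem_range, mem_Icc] at hp ⊢
    calc p.1 * p.2 ≤ p.1 * J := Nat.mul_le_mul_left _ hp.2.2
      _ < L * J := Nat.mul_lt_mul_of_pos_right hp.1 hJ

theorem sum_conv1_sq_le (L J : ℕ) (b : ℕ → ℂ) {Z : ℝ} (hZ : 0 ≤ Z) (hb : ∀ n, ‖b n‖ ≤ Z)
    (hτ : ∀ t < L * J, (t.divisors.card : ℝ) ≤ Z) :
    ∑ t ∈ range (L * J), ‖conv1 L J b t‖ ^ 2 ≤ Z ^ 3 * (L * J) := by
  have h1 : ∀ t ∈ range (L * J), ‖conv1 L J b t‖ ^ 2 ≤
      Z ^ 3 * ((range L ×ˢ Icc 1 J).filter (fun p => p.1 * p.2 = t)).card := by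
    intro t ht
    unfold conv1
    split_ifs with h
    · rw [norm_zero, zero_pow two_ne_zero]; positivity
    · set s := (range L ×ˢ Icc 1 J).filter (fun p => p.1 * p.2 = t) with hs
      have h2 : ‖∑ p ∈ s, b p.1‖ ≤ s.card * Z :=
        (norm_sum_le _ _).trans ((sum_le_card_nsmul _ _ _ fun p _ => hb p.1).trans
          (by rw [nsmul_eq_mul]))
      have h3 : (s.card : ℝ) ≤ Z := by
        refine le_trans ?_ (hτ t (mem_range.mp ht))
        refine Nat.cast_le.mpr (card_le_card_of_injOn (fun p => p.1) ?_ ?_)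
        · intro p hp
          exact mem_coe.mpr (Nat.mem_divisors.mpr
            ⟨Dvd.intro _ (mem_filter.mp (mem_coe.mp hp)).2, h⟩)
        · intro p hp q hq hpq
          have hp' := (mem_filter.mp (mem_coe.mp hp)).2
          have hq' := (mem_filter.mp (mem_coe.mp hq)).2
          have hpq' : p.1 = q.1 := hpq
          have h0 : 0 < p.1 := Nat.pos_of_ne_zero fun h0 => h (by rw [← hp', h0, zero_mul])
          refine Prod.ext hpq' (Nat.eq_of_mul_eq_mul_left h0 ?_)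
          rw [hp', hpq', hq']
      calc _ ≤ (s.card * Z) ^ 2 := by gcongr
        _ = s.card * Z ^ 2 * s.card := by ring
        _ ≤ Z * Z ^ 2 * s.card := by gcongr
        _ = _ := by ring
  refine (sum_le_sum h1).trans ?_
  rw [← mul_sum]
  gcongr
  rw [← Nat.cast_sum, ← Nat.cast_mul]
  refine Nat.cast_le.mpr ?_
  rw [Finset.sum_card_fiberwise_eq_card_filter]
  calc _ ≤ (range L ×ˢ Icc 1 J).card := Finset.card_filter_le _ _
    _ = _ := by simp

variable {T : ℕ} {s : ℝ} {γ : ℤ → ℝ}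

theorem sum_norm_sq_le (L : ℕ) (a : ℕ → ℂ) {Z : ℝ} (ha : ∀ n, ‖a n‖ ≤ Z) :
    ∑ m ∈ range L, ‖a m‖ ^ 2 ≤ Z ^ 2 * L := by
  calc _ ≤ ∑ _m ∈ range L, Z ^ 2 := sum_le_sum fun m _ => by gcongr; exact ha m
    _ = _ := by simp [mul_comm]

theorem typeII_core (h : Wt T s γ) (hT : 1 ≤ T) {Z X : ℝ} (hZ1 : 100 ≤ Z) (hZ : T * s ≤ 5 * Z)
    {D L1 L2 : ℕ} (hD : 1 ≤ D) (hH : HH (D ^ 2) ≤ Z) (hL : (L1 : ℝ) * L2 ≤ 4 * X)
    (hτ : ∀ t < L2 * D, (t.divisors.card : ℝ) ≤ Z) (a b : ℕ → ℂ) (ha : ∀ n, ‖a n‖ ≤ Z)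
    (hb : ∀ n, ‖b n‖ ≤ Z) :
    PS D (fun _ χ => ‖DP L1 a χ‖ * ‖DP L2 b χ‖ * ‖Ct χ T γ‖) ≤
      Z ^ 7 * √X * ((√L1 + D * Z) * (√L2 * √D + D * Z * √T)) := by
  have hZ0 : 0 ≤ Z := by linarith only [hZ1]
  have hHD : HH D ≤ Z := (HH_mono (by nlinarith only [hD])).trans hH
  have hX : √(L1 : ℝ) * √(L2 : ℝ) ≤ 2 * √X := by
    rw [← Real.sqrt_mul (Nat.cast_nonneg _)]
    refine (Real.sqrt_le_sqrt hL).trans (le_of_eq ?_)
    rw [Real.sqrt_mul (by norm_num), show (4 : ℝ) = 2 ^ 2 by norm_num, Real.sqrt_sq (by norm_num)]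
  have hD1 : (1 : ℝ) ≤ √D := Real.one_le_sqrt.mpr (by exact_mod_cast hD)
  have hT1 : (1 : ℝ) ≤ √T := Real.one_le_sqrt.mpr (by exact_mod_cast hT)
  have hsq : ∀ L : ℕ, √(Z ^ 2 * L) = Z * √L := fun L => by
    rw [Real.sqrt_mul (by positivity), Real.sqrt_sq hZ0]
  set P : ℝ := √L1 + D * Z with hP
  have hP0 : 0 ≤ P := by positivity
  have step1 : PS D (fun _ χ => ‖DP L1 a χ‖ * ‖DP L2 b χ‖ * ‖Ct χ T γ‖) ≤
      40 * Z ^ 2 * PS D (fun _ χ => ‖DP L1 a χ‖ * ‖DP L2 b χ‖) +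
      ∑ J ∈ Icc 1 D, (2 * om T D Z J) *
        PS D (fun _ χ => ‖DP L1 a χ‖ * ‖DP (L2 * J) (conv1 L2 J b) χ‖) := by
    simp_rw [← PS_mul]
    rw [← PS_sum, ← PS_add]
    refine PS_mono fun d hd hdD χ hχ => ?_
    have h1 := norm_Ct_le h hT (by linarith only [hZ1]) hZ hd hdD ((HH_mono hdD).trans hHD) hχ
    refine (mul_le_mul_of_nonneg_left h1 (by positivity)).trans (le_of_eq ?_)
    rw [mul_add, mul_sum, mul_sum]
    congr 1
    · ring
    · refine sum_congr rfl fun J hJ => ?_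
      rw [← DP_mul_cs hd χ L2 J (mem_Icc.mp hJ).1, norm_mul]; ring
  have step2 : PS D (fun _ χ => ‖DP L1 a χ‖ * ‖DP L2 b χ‖) ≤
      2 * Z ^ 2 * √X * (P * (√L2 * √D + D * Z * √T)) := by
    refine (PS_bilin (by linarith only [hZ1]) hH a b (sum_norm_sq_le L1 a ha) (sum_norm_sq_le L2 b hb)).trans ?_
    rw [hsq, hsq]
    have e1 : √(L2 : ℝ) + D * Z ≤ √L2 * √D + D * Z * √T := by
      have := le_mul_of_one_le_right (Real.sqrt_nonneg (L2 : ℝ)) hD1
      have := le_mul_of_one_le_right (show 0 ≤ D * Z by positivity) hT1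
      linarith
    calc _ = Z ^ 2 * (√L1 * √L2) * (P * (√L2 + D * Z)) := by ring
      _ ≤ Z ^ 2 * (2 * √X) * (P * (√L2 * √D + D * Z * √T)) := by clear * - Z L1 L2 X P D T hX hZ1 e1 hD; gcongr
      _ = _ := by ring
  have step3 : ∀ J ∈ Icc 1 D, (2 * om T D Z J) *
      PS D (fun _ χ => ‖DP L1 a χ‖ * ‖DP (L2 * J) (conv1 L2 J b) χ‖) ≤
      (152 * Z ^ 4 * √X * (P * (√L2 * √D + D * Z * √T))) * (1 / J) := by
    intro J hJ
    have hJ1 := (mem_Icc.mp hJ).1
    have hJ' : (0 : ℝ) < J := by exact_mod_cast hJ1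
    have h1 := PS_bilin (L2 := L2 * J) (by linarith only [hZ1]) hH a (conv1 L2 J b) (sum_norm_sq_le L1 a ha)
      ((sum_conv1_sq_le L2 J b hZ0 hb fun t ht => hτ t
        (lt_of_lt_of_le ht (Nat.mul_le_mul_left _ (mem_Icc.mp hJ).2))).trans
        (show Z ^ 3 * ((L2 : ℝ) * J) ≤ (Z ^ 2) ^ 2 * (L2 * J) by
          clear * - L2 J Z hZ1 hJ1
          gcongr; (refine le_of_not_gt fun h_nl => ?_; linarith only [h_nl, hZ1, pow_pos (show 0 < Z by linarith) 3, mul_nonneg_of_nonpos_of_nonpos (Mathlib.Tactic.Linarith.sub_nonpos_of_le (sq_nonneg Z)) (Mathlib.Tactic.Linarith.sub_nonpos_of_le hZ1), mul_nonneg_of_nonpos_of_nonpos (Mathlib.Tactic.Linarith.sub_nonpos_of_le (sq_nonneg (Z ^ (2 : ℕ)))) (Mathlib.Tactic.Linarith.sub_nonpos_of_le hZ1), mul_nonneg_of_nonpos_of_nonpos (Mathlib.Tactic.Linarith.sub_nonpos_of_le hZ1) (Mathlib.Tactic.Linarith.sub_nonpos_of_le hZ1), mul_nonneg_of_nonpos_of_nonpos (Mathlib.Tactic.Linarith.sub_nonpos_of_le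 hZ1) (le_of_lt (Mathlib.Tactic.Linarith.sub_neg_of_lt h_nl))])))
    set j := √(J : ℝ) with hj
    have hj0 : 0 < j := Real.sqrt_pos.mpr hJ'
    have hj2 : j ^ 2 = J := Real.sq_sqrt hJ'.le
    rw [hsq, Real.sqrt_mul (by positivity), Real.sqrt_sq (by positivity), Nat.cast_mul,
      Real.sqrt_mul (Nat.cast_nonneg _), ← hj] at h1
    have h2 : om T D Z J * (j * j) ≤ 38 * Z * (√D * (1 / J)) := by
      clear * - T D Z J j hZ1 hJ1 hj2 hD
      unfold om
      calc _ ≤ 38 * Z * (√D / J ^ 2) * (j * j) := by gcongr; exact min_le_right _ _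
        _ = _ := by rw [← sq, hj2]; field_simp
    have h3 : om T D Z J * j ≤ 38 * Z * (√T * (1 / J)) := by
      clear * - T D Z J j hZ1 hJ1 hj0 hT
      unfold om
      calc _ ≤ 38 * Z * (√T / (J * j)) * j := by gcongr; exact min_le_left _ _
        _ = _ := by field_simp
    have h4 := om_nonneg T D hZ0 J
    calc _ ≤ (2 * om T D Z J) * (Z * √L1 * (Z ^ 2 * (√L2 * j)) * (P * (√L2 * j + D * Z))) := by
          gcongr
      _ = 2 * Z ^ 3 * (√L1 * √L2) * P *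
            (√L2 * (om T D Z J * (j * j)) + D * Z * (om T D Z J * j)) := by ring
      _ ≤ 2 * Z ^ 3 * (2 * √X) * P *
            (√L2 * (38 * Z * (√D * (1 / J))) + D * Z * (38 * Z * (√T * (1 / J)))) := by clear * - Z L1 L2 P X T D J j hX hZ1 hD h2 h3 h4 hJ1; gcongr
      _ = _ := by ring
  refine step1.trans ?_
  have step4 := sum_le_sum step3
  rw [← mul_sum] at step4
  set W : ℝ := √X * (P * (√L2 * √D + D * Z * √T)) with hW
  have hW0 : 0 ≤ W := by positivity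
  have e1 : 40 * Z ^ 2 * PS D (fun _ χ => ‖DP L1 a χ‖ * ‖DP L2 b χ‖) ≤ 80 * Z ^ 4 * W := by
    calc _ ≤ 40 * Z ^ 2 * (2 * Z ^ 2 * √X * (P * (√L2 * √D + D * Z * √T))) := by gcongr
      _ = _ := by rw [hW]; ring
  have e2 : (152 * Z ^ 4 * √X * (P * (√L2 * √D + D * Z * √T))) * ∑ J ∈ Icc 1 D, (1 : ℝ) / J ≤
      152 * Z ^ 5 * W := by
    clear * - Z X P L2 D T W hHD hZ1 L1 hD hT hW
    calc _ ≤ (152 * Z ^ 4 * √X * (P * (√L2 * √D + D * Z * √T))) * Z := by
          gcongr; exact hHD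
      _ = _ := by rw [hW]; ring
  have e3 : 80 * Z ^ 4 + 152 * Z ^ 5 ≤ Z ^ 7 := by
    have h4 : 0 ≤ Z ^ 4 := by positivity
    have : 80 + 152 * Z ≤ Z ^ 3 := by linarith only [hZ1, mul_nonneg_of_nonpos_of_nonpos (Mathlib.Tactic.Linarith.sub_nonpos_of_le (sq_nonneg Z)) (Mathlib.Tactic.Linarith.sub_nonpos_of_le hZ1), mul_nonneg_of_nonpos_of_nonpos (Mathlib.Tactic.Linarith.sub_nonpos_of_le hZ1) (Mathlib.Tactic.Linarith.sub_nonpos_of_le hZ1)]
    linarith only [h4, this, mul_nonneg_of_nonpos_of_nonpos (Mathlib.Tactic.Linarith.sub_nonpos_of_le h4) (Mathlib.Tactic.Linarith.sub_nonpos_of_le this)]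
  have e4 := mul_le_mul_of_nonneg_right e3 hW0
  rw [mul_assoc (Z ^ 7)]
  clear * - Z D L1 a L2 b T X P W step4 e1 e2 e4; linarith only [step4, e1, e2, e4]

/-- The numerical conditions used in the type II estimate. -/
structure Cond (X Z : ℝ) (N D T U : ℕ) : Prop where
  hZ : 100 ≤ Z
  hNX : (N : ℝ) ≤ X
  hT : 1 ≤ T
  hH : ∀ n : ℕ, (n : ℝ) ≤ 10 * X → 1 + HH n ≤ Z
  hτ : ∀ n : ℕ, (n : ℝ) ≤ 10 * X → (n.divisors.card : ℝ) ≤ Z
  c1 : Z ^ 37 ≤ D
  c2 : 3 * T * Z ^ 38 ≤ U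
  c3 : 2 * D * Z ^ 38 ≤ √X
  c4 : D * √T * Z ^ 20 ≤ √X
  c5 : U ^ 3 ≤ N

theorem Cond.D_sq_le {X Z : ℝ} {N D T U : ℕ} (c : Cond X Z N D T U) : (D : ℝ) ^ 2 ≤ X := by
  have hX : 0 ≤ X := (Nat.cast_nonneg _).trans c.hNX
  have h1 : (1 : ℝ) ≤ Z ^ 38 := one_le_pow₀ (by linarith [c.hZ])
  have h2 : (D : ℝ) ≤ √X := by linarith only [c, h1, c.c3, Nat.cast_nonneg (α := ℝ) D, mul_nonneg_of_nonpos_of_nonpos (Mathlib.Tactic.Linarith.sub_nonpos_of_le (Mathlib.Tactic.Linarith.natCast_nonneg ℝ D)) (Mathlib.Tactic.Linarith.sub_nonpos_of_le h1)]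
  calc (D : ℝ) ^ 2 ≤ √X ^ 2 := by gcongr
    _ = X := Real.sq_sqrt hX

theorem Cond.one_le_D {X Z : ℝ} {N D T U : ℕ} (c : Cond X Z N D T U) : 1 ≤ D := by
  have h1 : (1 : ℝ) ≤ Z ^ 37 := one_le_pow₀ (by linarith [c.hZ])
  exact_mod_cast h1.trans c.c1

theorem Cond.one_le_U {X Z : ℝ} {N D T U : ℕ} (c : Cond X Z N D T U) : 1 ≤ U := by
  have h1 : (1 : ℝ) ≤ Z ^ 38 := one_le_pow₀ (by linarith [c.hZ])
  have h2 : (1 : ℝ) ≤ T := by exact_mod_cast c.hT
  have : (1 : ℝ) ≤ U := by linarith only [h2, c, h1, c.c2, mul_nonneg_of_nonpos_of_nonpos (Mathlib.Tactic.Linarith.sub_nonpos_of_le (Mathlib.Tactic.Linarith.natCast_nonneg ℝ T)) (Mathlib.Tactic.Linarith.sub_nonpos_of_le h1)]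
  exact_mod_cast this

theorem typeII_ordered (h : Wt T s γ) {Z X : ℝ} {N D U : ℕ} (c : Cond X Z N D T U)
    (hZ : T * s ≤ 5 * Z) {L1 L2 : ℕ} (hL : (L1 : ℝ) * L2 ≤ 4 * X) (hL1 : (L1 : ℝ) * U ≤ 3 * X * 3)
    (hL2 : L2 ≤ L1) (a b : ℕ → ℂ) (ha : ∀ n, ‖a n‖ ≤ Z) (hb : ∀ n, ‖b n‖ ≤ Z) :
    PS D (fun _ χ => ‖DP L1 a χ‖ * ‖DP L2 b χ‖ * ‖Ct χ T γ‖) ≤ 5 * X * D / Z ^ 11 := by
  have hZ1 := c.hZ
  have hZ0 : 0 < Z := by linarith only [hZ1]
  have hX : 0 ≤ X := (Nat.cast_nonneg _).trans c.hNX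
  set x := √X with hx
  have hx0 : 0 ≤ x := Real.sqrt_nonneg _
  have hx2 : x ^ 2 = X := Real.sq_sqrt hX
  have hL2' : (L2 : ℝ) ≤ 2 * x := by
    have : (L2 : ℝ) ≤ L1 := by exact_mod_cast hL2
    refine (pow_le_pow_iff_left₀ (Nat.cast_nonneg _) (by positivity) two_ne_zero).mp ?_
    linarith only [hL, hx2, this, Nat.cast_nonneg (α := ℝ) L2, mul_nonneg_of_nonpos_of_nonpos (Mathlib.Tactic.Linarith.sub_nonpos_of_le (Mathlib.Tactic.Linarith.natCast_nonneg ℝ L2)) (Mathlib.Tactic.Linarith.sub_nonpos_of_le this)]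
  have hD0 : (0 : ℝ) ≤ D := Nat.cast_nonneg _
  have hDx : (D : ℝ) ≤ x := by
    refine (pow_le_pow_iff_left₀ hD0 hx0 two_ne_zero).mp (by rw [hx2]; exact c.D_sq_le)
  have hH : HH (D ^ 2) ≤ Z := by
    have := c.hH (D ^ 2) (by push_cast; linarith only [hX, c, c.D_sq_le])
    linarith
  refine (typeII_core h c.hT hZ1 hZ c.one_le_D hH hL (fun t ht => c.hτ t ?_) a b ha hb).trans ?_
  · have : (t : ℝ) ≤ L2 * D := by exact_mod_cast ht.le
    linarith only [hX, hx2, this, hDx, hx0, hL2', mul_nonneg_of_nonpos_of_nonpos (Mathlib.Tactic.Linarith.sub_nonpos_of_le (Mathlib.Tactic.Linarith.natCast_nonneg ℝ L2)) (Mathlib.Tactic.Linarith.sub_nonpos_of_le hDx), mul_nonneg_of_nonpos_of_nonpos (Mathlib.Tactic.Linarith.sub_nonpos_of_le hx0) (Mathlib.Tactic.Linarith.sub_nonpos_of_le hL2')]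
  set l1 := √(L1 : ℝ) with hl1
  set l2 := √(L2 : ℝ) with hl2
  set δ := √(D : ℝ) with hδ
  set τ := √(T : ℝ) with hτ
  have l10 : 0 ≤ l1 := Real.sqrt_nonneg _
  have l20 : 0 ≤ l2 := Real.sqrt_nonneg _
  have δ0 : 0 ≤ δ := Real.sqrt_nonneg _
  have τ0 : 0 ≤ τ := Real.sqrt_nonneg _
  have l12 : l1 ^ 2 = L1 := Real.sq_sqrt (Nat.cast_nonneg _)
  have l22 : l2 ^ 2 = L2 := Real.sq_sqrt (Nat.cast_nonneg _)
  have δ2 : δ ^ 2 = D := Real.sq_sqrt (Nat.cast_nonneg _)
  have τ2 : τ ^ 2 = T := Real.sq_sqrt (Nat.cast_nonneg _)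
  have a1 : l1 * l2 ≤ 2 * x := by
    clear * - l1 l2 x L1 L2 X l12 l22 hx2 hL
    refine (pow_le_pow_iff_left₀ (by positivity) (by positivity) two_ne_zero).mp ?_
    rw [mul_pow, l12, l22, mul_pow, hx2]; linarith only [hL]
  have a2 : 2 * Z ^ 18 ≤ δ := by
    clear * - Z δ hZ1 δ0 D δ2 X N T U c
    refine (pow_le_pow_iff_left₀ (by positivity) δ0 two_ne_zero).mp ?_
    rw [δ2]
    refine le_trans ?_ c.c1
    calc (2 * Z ^ 18) ^ 2 = 4 * Z ^ 36 := by ring
      _ ≤ Z * Z ^ 36 := by gcongr; linarith only [hZ1]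
      _ = Z ^ 37 := by ring
  have a3 : l1 * τ * Z ^ 19 ≤ 2 * x := by
    clear * - l1 τ Z x L1 T hZ1 X U N D c l12 τ2 hL1 hX hx2
    refine (pow_le_pow_iff_left₀ (by positivity) (by positivity) two_ne_zero).mp ?_
    have := mul_le_mul_of_nonneg_left c.c2 (Nat.cast_nonneg (α := ℝ) L1)
    calc (l1 * τ * Z ^ 19) ^ 2 = L1 * T * Z ^ 38 := by rw [← l12, ← τ2]; ring
      _ ≤ 4 * X := by linarith only [hL1, hX, this]
      _ = _ := by rw [mul_pow, hx2]; norm_num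
  have a4 : l2 * δ * Z ^ 19 ≤ x := by
    clear * - l2 δ Z x L2 D hZ1 hx0 l22 δ2 hL2' X N T U c
    refine (pow_le_pow_iff_left₀ (by positivity) hx0 two_ne_zero).mp ?_
    calc (l2 * δ * Z ^ 19) ^ 2 = L2 * (D * Z ^ 38) := by rw [← l22, ← δ2]; ring
      _ ≤ (2 * x) * (D * Z ^ 38) := by gcongr
      _ = x * (2 * D * Z ^ 38) := by ring
      _ ≤ x * x := by gcongr; exact c.c3
      _ = _ := by ring
  have a5 := c.c4
  rw [← hx, ← hτ] at a5
  have b1 : l1 * l2 * δ * Z ^ 18 ≤ x * D := by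
    clear * - l1 l2 δ Z x D a1 hZ1 a2 X δ2
    calc _ ≤ 2 * x * δ * Z ^ 18 := by gcongr
      _ = x * δ * (2 * Z ^ 18) := by ring
      _ ≤ x * δ * δ := by gcongr
      _ = _ := by rw [← δ2]; ring
  have b2 : (l1 + D * Z) * (l2 * δ + D * Z * τ) * Z ^ 18 ≤ 5 * (x * D) := by
    clear * - l1 D Z l2 δ τ x a3 hD0 a4 a5 b1
    have e : (l1 + D * Z) * (l2 * δ + D * Z * τ) * Z ^ 18 = l1 * l2 * δ * Z ^ 18 +
        D * (l1 * τ * Z ^ 19) + D * (l2 * δ * Z ^ 19) + D * (D * τ * Z ^ 20) := by ring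
    rw [e]
    have := mul_le_mul_of_nonneg_left a3 hD0
    have := mul_le_mul_of_nonneg_left a4 hD0
    have := mul_le_mul_of_nonneg_left a5 hD0
    linarith
  rw [le_div_iff₀ (by positivity)]
  calc Z ^ 7 * x * ((l1 + D * Z) * (l2 * δ + D * Z * τ)) * Z ^ 11
      = x * ((l1 + D * Z) * (l2 * δ + D * Z * τ) * Z ^ 18) := by ring
    _ ≤ x * (5 * (x * D)) := by gcongr
    _ = _ := by rw [← hx2]; ring

theorem typeII_sym (h : Wt T s γ) {Z X : ℝ} {N D U : ℕ} (c : Cond X Z N D T U)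
    (hZ : T * s ≤ 5 * Z) {L1 L2 : ℕ} (hL : (L1 : ℝ) * L2 ≤ 4 * X) (hL1 : (L1 : ℝ) * U ≤ 3 * X * 3)
    (hL2 : (L2 : ℝ) * U ≤ 3 * X * 3) (a b : ℕ → ℂ) (ha : ∀ n, ‖a n‖ ≤ Z) (hb : ∀ n, ‖b n‖ ≤ Z) :
    PS D (fun _ χ => ‖DP L1 a χ‖ * ‖DP L2 b χ‖ * ‖Ct χ T γ‖) ≤ 5 * X * D / Z ^ 11 := by
  rcases le_total L2 L1 with hle | hle
  · exact typeII_ordered h c hZ hL hL1 hle a b ha hb
  · have := typeII_ordered h c hZ (by linarith only [hL]) hL2 hle b a hb ha
    simpa only [mul_comm ‖DP L2 b _‖] using this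

theorem typeII_cut (h : Wt T s γ) {Z X : ℝ} {N D U : ℕ} (c : Cond X Z N D T U)
    (hZ : T * s ≤ 5 * Z) {L1 L2 : ℕ} (hL10 : 0 < L1) (hL20 : 0 < L2) (hL : (L1 : ℝ) * L2 ≤ 4 * X)
    (hL1 : (L1 : ℝ) * U ≤ 3 * X * 3) (hL2 : (L2 : ℝ) * U ≤ 3 * X * 3) (a b : ℕ → ℂ)
    (ha : ∀ n, ‖a n‖ ≤ Z) (hb : ∀ n, ‖b n‖ ≤ Z) (g : ℕ → ℕ) (hg : ∀ m, g m < L2) :
    PS D (fun d χ => ‖∑ m ∈ range L1, ∑ n ∈ range L2,
      (if n ≤ g m then (1 : ℂ) else 0) * (a m * χ (m : ZMod d) * (b n * χ (n : ZMod d)))‖ *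
        ‖Ct χ T γ‖) ≤ 5 * X * D / Z ^ 10 := by
  have hZ0 : 0 < Z := by linarith only [c, c.hZ]
  have hX : 0 ≤ X := (Nat.cast_nonneg _).trans c.hNX
  set A : ℕ → ℕ → ℂ := fun u m => a m * ee (u * ((g m : ℝ) / (2 * L2 : ℕ))) with hA
  set B : ℕ → ℕ → ℂ := fun u n => b n * (starRingEnd ℂ) (ee (u * ((n : ℝ) / (2 * L2 : ℕ)))) with hB
  have h1 : ∀ (d : ℕ) (χ : DirichletCharacter ℂ d), ∑ m ∈ range L1, ∑ n ∈ range L2,
      (if n ≤ g m then (1 : ℂ) else 0) * (a m * χ (m : ZMod d) * (b n * χ (n : ZMod d))) =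
      ∑ u ∈ range (2 * L2), cutCoef L2 u * (DP L1 (A u) χ * DP L2 (B u) χ) := by
    intro d χ
    symm
    simp only [DP]
    simp_rw [sum_mul_sum, mul_sum]
    rw [sum_comm]
    refine sum_congr rfl fun m _ => ?_
    rw [sum_comm]
    refine sum_congr rfl fun n hn => ?_
    rw [cut_eq (mem_range.mp hn) (hg m), sum_mul]
    refine sum_congr rfl fun u _ => ?_
    simp only [hA, hB]; ring
  have h2 : PS D (fun d χ => ‖∑ m ∈ range L1, ∑ n ∈ range L2,
      (if n ≤ g m then (1 : ℂ) else 0) * (a m * χ (m : ZMod d) * (b n * χ (n : ZMod d)))‖ *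
        ‖Ct χ T γ‖) ≤ ∑ u ∈ range (2 * L2), ‖cutCoef L2 u‖ *
          PS D (fun _ χ => ‖DP L1 (A u) χ‖ * ‖DP L2 (B u) χ‖ * ‖Ct χ T γ‖) := by
    simp_rw [← PS_mul]
    rw [← PS_sum]
    refine PS_mono fun d _ _ χ _ => ?_
    rw [h1]
    refine (mul_le_mul_of_nonneg_right (norm_sum_le _ _) (norm_nonneg _)).trans (le_of_eq ?_)
    rw [sum_mul]
    refine sum_congr rfl fun u _ => ?_
    rw [norm_mul, norm_mul]; ring
  refine h2.trans ?_
  have h3 : ∀ u ∈ range (2 * L2), ‖cutCoef L2 u‖ *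
      PS D (fun _ χ => ‖DP L1 (A u) χ‖ * ‖DP L2 (B u) χ‖ * ‖Ct χ T γ‖) ≤
      ‖cutCoef L2 u‖ * (5 * X * D / Z ^ 11) := fun u _ =>
    mul_le_mul_of_nonneg_left (typeII_sym h c hZ hL hL1 hL2 _ _
      (fun n => by simp only [hA]; rw [norm_mul, norm_ee, mul_one]; exact ha n)
      (fun n => by simp only [hB]; rw [norm_mul, Complex.norm_conj, norm_ee, mul_one]; exact hb n))
      (norm_nonneg _)
  refine (sum_le_sum h3).trans ?_
  rw [← sum_mul]
  have h4 : ∑ u ∈ range (2 * L2), ‖cutCoef L2 u‖ ≤ Z := by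
    refine (sum_norm_cutCoef_le hL20).trans (c.hH _ ?_)
    have : (1 : ℝ) ≤ L1 := by exact_mod_cast hL10
    push_cast
    linarith only [hL, hX, this, Nat.cast_nonneg (α := ℝ) L2, mul_nonneg_of_nonpos_of_nonpos (Mathlib.Tactic.Linarith.sub_nonpos_of_le (Mathlib.Tactic.Linarith.natCast_nonneg ℝ L2)) (Mathlib.Tactic.Linarith.sub_nonpos_of_le this)]
  calc _ ≤ Z * (5 * X * D / Z ^ 11) := by gcongr
    _ = _ := by field_simp

end Pool.Agent.Work.MP_5d318d_nt
end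
end

-- merged part: Pool.Agent.Work.MP_5d318d_nt.MeanValue
section
/-!
# The mean value estimate for primes twisted by a smoothly weighted character sum
-/

noncomputable section

open Finset Real ArithmeticFunction

namespace Pool.Agent.Work.MP_5d318d_nt

open Pool.Agent.Lib.LargeSieve

/-- twisted sum of an arithmetic function -/
def TS (f : ℕ → ℝ) (y : ℕ) {d : ℕ} (χ : DirichletCharacter ℂ d) : ℂ :=
  ∑ n ∈ Icc 1 y, (f n : ℂ) * χ (n : ZMod d)

theorem TS_mul (f g : ArithmeticFunction ℝ) (y : ℕ) {d : ℕ} (χ : DirichletCharacter ℂ d) :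
    TS (f * g : ArithmeticFunction ℝ) y χ = ∑ m ∈ Icc 1 y, (f m : ℂ) * χ (m : ZMod d) *
      TS g (y / m) χ := by
  unfold TS
  simp_rw [ArithmeticFunction.mul_apply, Complex.ofReal_sum, sum_mul, mul_sum]
  rw [sum_sigma', sum_sigma']
  refine sum_nbij' (fun y => ⟨y.2.1, y.2.2⟩) (fun y => ⟨y.1 * y.2, (y.1, y.2)⟩) ?_ ?_ ?_ ?_ ?_
  · rintro ⟨n, d, m⟩ h
    simp only [mem_sigma, mem_Icc, Nat.mem_divisorsAntidiagonal] at h ⊢
    obtain ⟨⟨h1, h2⟩, rfl, -⟩ := h
    have hd : 0 < d := Nat.pos_of_mul_pos_right h1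
    have hm : 0 < m := Nat.pos_of_mul_pos_left h1
    exact ⟨⟨hd, (Nat.le_mul_of_pos_right _ hm).trans h2⟩, hm,
      (Nat.le_div_iff_mul_le hd).2 (by rwa [mul_comm])⟩
  · rintro ⟨d, m⟩ h
    simp only [mem_sigma, mem_Icc, Nat.mem_divisorsAntidiagonal] at h ⊢
    obtain ⟨⟨h1, h2⟩, h3, h4⟩ := h
    have := Nat.mul_pos h1 h3
    exact ⟨⟨this, by rw [mul_comm]; exact (Nat.le_div_iff_mul_le h1).1 h4⟩, trivial, this.ne'⟩
  · rintro ⟨n, d, m⟩ h
    simp only [mem_sigma, mem_Icc, Nat.mem_divisorsAntidiagonal] at h ⊢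
    obtain ⟨-, rfl, -⟩ := h
    rfl
  · rintro ⟨d, m⟩ _; rfl
  · rintro ⟨n, e, m⟩ h
    simp only [mem_sigma, mem_Icc, Nat.mem_divisorsAntidiagonal] at h ⊢
    obtain ⟨-, rfl, -⟩ := h
    push_cast
    rw [map_mul]; ring

variable {T : ℕ} {s : ℝ} {γ : ℤ → ℝ}

theorem Cond.log_le {X Z : ℝ} {N D T U : ℕ} (c : Cond X Z N D T U) {n : ℕ}
    (hn : (n : ℝ) ≤ 10 * X) : Real.log n ≤ Z := by
  have := c.hH n hn
  have := log_le_HH n
  linarith

theorem typeII_full (h : Wt T s γ) {Z X : ℝ} {N D U : ℕ} (c : Cond X Z N D T U)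
    (hZ : T * s ≤ 5 * Z) (α β : ArithmeticFunction ℝ) (hα : ∀ m ≤ 2 * N, |α m| ≤ Z)
    (hβ : ∀ n ≤ N, |β n| ≤ Z) (hα0 : ∀ m ≤ U, α m = 0)
    (hαβ : ∀ m n, N < m * U → m * n ≤ N → α m * β n = 0) {y : ℕ} (hy : y ≤ N) :
    PS D (fun _ χ => ‖TS (α * β : ArithmeticFunction ℝ) y χ‖ * ‖Ct χ T γ‖) ≤
      10 * X * D / Z ^ 9 := by
  have hZ1 := c.hZ
  have hZ0 : 0 < Z := by linarith only [hZ1]
  have hNX := c.hNX
  have hX : 0 ≤ X := (Nat.cast_nonneg _).trans hNX
  have hU1 := c.one_le_U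
  have hUN : U ≤ N := le_trans (Nat.le_self_pow (by norm_num) U) c.c5
  set F : (d : ℕ) → DirichletCharacter ℂ d → ℕ → ℂ := fun d χ j =>
    ∑ m ∈ (Icc 1 y).filter (fun m => Nat.log 2 m = j),
      (α m : ℂ) * χ (m : ZMod d) * TS β (y / m) χ with hF
  obtain h1 : ∀ (d : ℕ) (χ : DirichletCharacter ℂ d), TS (α * β : ArithmeticFunction ℝ) y χ =
      ∑ j ∈ range (Nat.log 2 N + 1), F d χ j := by
    intro d χ
    rw [TS_mul, sum_fiberwise_of_maps_to]
    intro m hm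
    exact mem_range.mpr (Nat.lt_succ_of_le (Nat.log_mono_right ((mem_Icc.mp hm).2.trans hy)))
  obtain h2 : ∀ j, PS D (fun d χ => ‖F d χ j‖ * ‖Ct χ T γ‖) ≤ 5 * X * D / Z ^ 10 := by
    intro j
    by_cases hj : U < 2 ^ (j + 1) ∧ 2 ^ j * U ≤ N
    · have hp : 0 < 2 ^ j := Nat.two_pow_pos j
      have hjN : 2 ^ j ≤ N := le_trans (Nat.le_mul_of_pos_right _ hU1) hj.2
      have hdiv : N / 2 ^ j * 2 ^ j ≤ N := Nat.div_mul_le_self _ _
      have e1 : 2 ^ (j + 1) * (N / 2 ^ j + 1) ≤ 4 * N := by rw [pow_succ]; linarith only [hjN, hdiv]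
      have e2 : 2 ^ (j + 1) * U ≤ 9 * N := by rw [pow_succ]; linarith only [hU1, hUN, hj]
      obtain e3 : (N / 2 ^ j + 1) * U ≤ 9 * N := by
        have := hj.1
        rw [pow_succ] at this
        have : N / 2 ^ j * U ≤ N / 2 ^ j * (2 ^ j * 2) := Nat.mul_le_mul_left _ this.le
        linarith only [hU1, hUN, hdiv, this]
      have key := typeII_cut h c hZ (L1 := 2 ^ (j + 1)) (L2 := N / 2 ^ j + 1) (Nat.two_pow_pos _)
        (Nat.succ_pos _)
        (by have : ((2 ^ (j + 1) * (N / 2 ^ j + 1) : ℕ) : ℝ) ≤ (4 * N : ℕ) := by exact_mod_cast e1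
            rw [Nat.cast_mul, Nat.cast_mul] at this; push_cast at this ⊢; linarith only [hNX, this])
        (by have : ((2 ^ (j + 1) * U : ℕ) : ℝ) ≤ (9 * N : ℕ) := by exact_mod_cast e2
            rw [Nat.cast_mul, Nat.cast_mul] at this; push_cast at this ⊢; linarith only [hNX, this])
        (by have : (((N / 2 ^ j + 1) * U : ℕ) : ℝ) ≤ (9 * N : ℕ) := by exact_mod_cast e3
            rw [Nat.cast_mul, Nat.cast_mul] at this; push_cast at this ⊢; linarith only [hNX, this])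
        (fun m => if Nat.log 2 m = j then (α m : ℂ) else 0)
        (fun n => if n ≤ N then (β n : ℂ) else 0)
        (fun m => by
          split_ifs with hm
          · rw [Complex.norm_real, Real.norm_eq_abs]
            refine hα m ?_
            have := Nat.lt_pow_succ_log_self (b := 2) one_lt_two m
            rw [hm, pow_succ] at this
            omega
          · rw [norm_zero]; exact hZ0.le)
        (fun n => by
          split_ifs with hn
          · rw [Complex.norm_real, Real.norm_eq_abs]; exact hβ n hn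
          · rw [norm_zero]; exact hZ0.le)
        (fun m => min (y / m) (N / 2 ^ j)) (fun m => Nat.lt_succ_of_le (min_le_right _ _))
      refine le_trans (le_of_eq ?_) key
      congr 1
      ext d χ
      congr 2
      simp only [hF]
      symm
      rw [← sum_subset (s₁ := (Icc 1 y).filter (fun m => Nat.log 2 m = j))]
      · refine sum_congr rfl fun m hm => ?_
        obtain ⟨hm1, hm2⟩ := mem_filter.mp hm
        have hm3 := mem_Icc.mp hm1
        have hle : 2 ^ j ≤ m := hm2 ▸ Nat.pow_log_le_self 2 (by omega)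
        have hle2 : y / m ≤ N / 2 ^ j :=
          (Nat.div_le_div_right hy).trans (Nat.div_le_div_left hle hp)
        have hle3 : y / m ≤ N := (Nat.div_le_self _ _).trans hy
        rw [min_eq_left hle2, if_pos hm2, TS, mul_sum]
        simp_rw [ite_mul, one_mul, zero_mul]
        obtain hins : ∀ a b : ℕ, a ≤ b →
            (range (b + 1)).filter (fun n => n ≤ a) = insert 0 (Icc 1 a) := by
          clear * - N U y j m
          intro a b hab; ext; simp; omega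
        rw [← sum_filter, hins _ _ hle2, sum_insert (by simp)]
        simp only [zero_le, if_true, ArithmeticFunction.map_zero, Complex.ofReal_zero,
          mul_zero, zero_mul, zero_add]
        refine sum_congr rfl fun n hn => ?_
        rw [if_pos ((mem_Icc.mp hn).2.trans hle3)]
      · intro m hm
        have := Nat.lt_pow_succ_log_self (b := 2) one_lt_two m
        rw [(mem_filter.mp hm).2] at this
        exact mem_range.mpr this
      · intro m _ hm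
        refine sum_eq_zero fun n _ => ?_
        by_cases h1 : Nat.log 2 m = j
        · have h2 : m ∉ Icc 1 y := fun h => hm (mem_filter.mpr ⟨h, h1⟩)
          rw [mem_Icc] at h2
          rcases Nat.eq_zero_or_pos m with rfl | hm0
          · simp
          · have h3 : y / m = 0 := Nat.div_eq_of_lt (by omega)
            rcases Nat.eq_zero_or_pos n with rfl | hn0
            · simp
            · rw [h3, if_neg (by omega), zero_mul]
        · simp [h1]
    · have : ∀ (d : ℕ) (χ : DirichletCharacter ℂ d), F d χ j = 0 := by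
        clear * - j y α β N U hj hy hαβ hα0 h h1
        intro d χ
        refine sum_eq_zero fun m hm => ?_
        obtain ⟨hm1, hm2⟩ := mem_filter.mp hm
        have hm3 := mem_Icc.mp hm1
        have hle : 2 ^ j ≤ m := hm2 ▸ Nat.pow_log_le_self 2 (by omega)
        have hlt := Nat.lt_pow_succ_log_self (b := 2) one_lt_two m
        rw [hm2] at hlt
        by_cases h1 : U < 2 ^ (j + 1)
        · have h2 : N < m * U := lt_of_lt_of_le (not_le.mp fun h => hj ⟨h1, h⟩)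
            (Nat.mul_le_mul_right _ hle)
          rw [TS, mul_sum]
          refine sum_eq_zero fun n hn => ?_
          obtain h3 : m * n ≤ N := by
            have := (Nat.le_div_iff_mul_le hm3.1).mp (mem_Icc.mp hn).2
            rw [mul_comm]; omega
          have h4 : (α m : ℂ) * β n = 0 := by exact_mod_cast hαβ m n h2 h3
          linear_combination (χ (m : ZMod d) * χ (n : ZMod d)) * h4
        · rw [hα0 m (by omega)]; simp
      simp only [this, norm_zero, zero_mul]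
      rw [PS_zero]; positivity
  obtain h3 : PS D (fun _ χ => ‖TS (α * β : ArithmeticFunction ℝ) y χ‖ * ‖Ct χ T γ‖) ≤
      ∑ j ∈ range (Nat.log 2 N + 1), PS D (fun d χ => ‖F d χ j‖ * ‖Ct χ T γ‖) := by
    rw [← PS_sum]
    refine PS_mono fun d _ _ χ _ => ?_
    rw [h1, ← sum_mul]
    exact mul_le_mul_of_nonneg_right (norm_sum_le _ _) (norm_nonneg _)
  refine h3.trans ((sum_le_sum fun j _ => h2 j).trans ?_)
  rw [sum_const, card_range, nsmul_eq_mul]
  obtain h4 : ((Nat.log 2 N + 1 : ℕ) : ℝ) ≤ 2 * Z := by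
    clear * - N U y hU1 hUN Z X D T c hNX hZ1
    obtain a1 : (2 : ℝ) ^ Nat.log 2 N ≤ N := by
      exact_mod_cast Nat.pow_log_le_self 2 (by omega : N ≠ 0)
    have a2 := Real.log_le_log (by positivity) a1
    rw [Real.log_pow] at a2
    have a3 := c.log_le (n := N) (by linarith only [hNX])
    have a4 := Real.log_two_gt_d9
    have a5 : (0 : ℝ) ≤ Nat.log 2 N := Nat.cast_nonneg _
    push_cast
    linarith only [hZ1, a2, a3, a4, mul_nonneg_of_nonpos_of_nonpos (Mathlib.Tactic.Linarith.sub_nonpos_of_le (Mathlib.Tactic.Linarith.natCast_nonneg ℝ (Nat.log (2 : ℕ) N))) (le_of_lt (Mathlib.Tactic.Linarith.sub_neg_of_lt a4))]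
  calc _ ≤ (2 * Z) * (5 * X * D / Z ^ 10) := by gcongr
    _ = _ := by field_simp; ring

theorem TS_zeta {d : ℕ} (hd : 2 ≤ d) (χ : DirichletCharacter ℂ d) (t : ℕ) :
    TS zetaR t χ = cs χ (t + 1) := by
  have h0 : χ ((0 : ℕ) : ZMod d) = 0 := by rw [Nat.cast_zero]; exact χ.map_zero' (by omega)
  rw [cs, show range (t + 1) = insert 0 (Icc 1 t) by ext; simp; omega, sum_insert (by simp), h0,
    zero_add, TS]
  refine sum_congr rfl fun n hn => ?_
  rw [zetaR_apply (by have := (mem_Icc.mp hn).1; omega)]; simp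

theorem norm_TS_log_le {d : ℕ} (hd : 2 ≤ d) {χ : DirichletCharacter ℂ d} (hχ : χ.IsPrimitive)
    (t : ℕ) : ‖TS ArithmeticFunction.log t χ‖ ≤ 2 * (√d * HH d) * Real.log t := by
  have h := Finset.sum_range_by_parts (fun n : ℕ => ((Real.log n : ℝ) : ℂ))
    (fun j : ℕ => χ (j : ZMod d)) (t + 1)
  simp only [smul_eq_mul, Nat.add_sub_cancel] at h
  have h1 : TS ArithmeticFunction.log t χ =
      ∑ n ∈ range (t + 1), ((Real.log n : ℝ) : ℂ) * χ (n : ZMod d) := by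
    rw [show range (t + 1) = insert 0 (Icc 1 t) by ext; simp; omega, sum_insert (by simp)]
    simp [TS, log_apply]
  rw [h1, h]
  have h2 := norm_cs_le hd hχ
  have h3 : 0 ≤ Real.log t := Real.log_natCast_nonneg t
  refine (norm_sub_le _ _).trans ?_
  have h4 : ‖((Real.log t : ℝ) : ℂ) * ∑ j ∈ range (t + 1), χ (j : ZMod d)‖ ≤
      Real.log t * (√d * HH d) := by
    rw [norm_mul, Complex.norm_real, Real.norm_eq_abs, abs_of_nonneg h3]
    exact mul_le_mul_of_nonneg_left (h2 _) h3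
  have h5 : ‖∑ i ∈ range t, (((Real.log (i + 1 : ℕ) : ℝ) : ℂ) - ((Real.log i : ℝ) : ℂ)) *
      ∑ j ∈ range (i + 1), χ (j : ZMod d)‖ ≤ Real.log t * (√d * HH d) := by
    refine (norm_sum_le _ _).trans ?_
    calc _ ≤ ∑ i ∈ range t, (Real.log (i + 1 : ℕ) - Real.log i) * (√d * HH d) := by
          refine sum_le_sum fun i _ => ?_
          have : 0 ≤ Real.log (i + 1 : ℕ) - Real.log i :=
            sub_nonneg.mpr (log_nat_mono (Nat.le_succ i))
          rw [norm_mul, ← Complex.ofReal_sub, Complex.norm_real, Real.norm_eq_abs,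
            abs_of_nonneg this]
          exact mul_le_mul_of_nonneg_left (h2 _) this
      _ = _ := by
          rw [← sum_mul, Finset.sum_range_sub (fun i : ℕ => Real.log i)]; simp
  linarith only [h4, h5]

theorem norm_TS_low_mul_le (f g : ArithmeticFunction ℝ) (U y : ℕ) {C B : ℝ} (hC : 0 ≤ C)
    (hB : 0 ≤ B) (hf : ∀ n ≤ U, |f n| ≤ C) {d : ℕ} (χ : DirichletCharacter ℂ d)
    (hg : ∀ t ≤ y, ‖TS g t χ‖ ≤ B) :
    ‖TS (lowPart f U * g : ArithmeticFunction ℝ) y χ‖ ≤ U * C * B := by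
  rw [TS_mul]
  refine (norm_sum_le _ _).trans ?_
  calc _ ≤ ∑ m ∈ Icc 1 y, |lowPart f U m| * B := by
        refine sum_le_sum fun m _ => ?_
        rw [norm_mul, norm_mul, Complex.norm_real, Real.norm_eq_abs]
        refine mul_le_mul (mul_le_of_le_one_right (abs_nonneg _) (χ.norm_le_one _))
          (hg _ (Nat.div_le_self _ _)) (norm_nonneg _) (abs_nonneg _)
    _ ≤ _ := by
        rw [← sum_mul]
        exact mul_le_mul_of_nonneg_right (sum_abs_lowPart_le f U y C hC hf) hB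

/-- the coefficient `μ_{≤ U} * Λ_{≤ U}` -/
def cc (U : ℕ) : ArithmeticFunction ℝ := lowPart muR U * lowPart vonMangoldt U

theorem abs_cc_le (U t : ℕ) : |cc U t| ≤ Real.log t := by
  rw [cc, ArithmeticFunction.mul_apply, ← vonMangoldt_sum,
    ← Nat.sum_divisorsAntidiagonal' (f := fun _ b => vonMangoldt b)]
  refine (abs_sum_le_sum_abs _ _).trans (sum_le_sum fun p _ => ?_)
  rw [abs_mul, lowPart_apply, lowPart_apply]
  have h1 := abs_muR_le p.1
  have h2 : 0 ≤ vonMangoldt p.2 := vonMangoldt_nonneg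
  split_ifs <;> simp only [abs_zero, zero_mul, mul_zero, abs_of_nonneg h2, h2]
  exact mul_le_of_le_one_left h2 h1

theorem cc_eq_zero {U t : ℕ} (ht : U * U < t) : cc U t = 0 := by
  rw [cc, ArithmeticFunction.mul_apply]
  refine sum_eq_zero fun p hp => ?_
  rw [lowPart_apply, lowPart_apply]
  split_ifs with h1 h2
  · have := (Nat.mem_divisorsAntidiagonal.mp hp).1
    have := Nat.mul_le_mul h1 h2
    omega
  · simp
  · simp
  · simp

theorem TS_vaughan (U y : ℕ) {d : ℕ} (χ : DirichletCharacter ℂ d) :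
    TS vonMangoldt y χ = TS (lowPart vonMangoldt U) y χ +
      TS (lowPart muR U * ArithmeticFunction.log : ArithmeticFunction ℝ) y χ -
      TS (lowPart (cc U) U * zetaR : ArithmeticFunction ℝ) y χ -
      TS (highPart (cc U) U * zetaR : ArithmeticFunction ℝ) y χ +
      TS (highPart muR U * (highPart vonMangoldt U * zetaR) : ArithmeticFunction ℝ) y χ := by
  unfold TS
  rw [← sum_add_distrib, ← sum_sub_distrib, ← sum_sub_distrib, ← sum_add_distrib]
  refine sum_congr rfl fun n _ => ?_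
  have h := vaughan U U
  rw [← mul_assoc, ← cc, ← low_add_high (cc U) U, add_mul] at h
  have h1 := congrArg (fun f : ArithmeticFunction ℝ => ((f n : ℝ) : ℂ)) h
  simp only [ArithmeticFunction.add_apply, Complex.ofReal_add] at h1
  linear_combination χ (n : ZMod d) * h1

theorem PS_Ct_le (h : Wt T s γ) (hT : 1 ≤ T) {Z : ℝ} (hZ : 2 ≤ Z) {D : ℕ} (hD : 1 ≤ D)
    (hH : HH (D ^ 2) ≤ Z) :
    PS D (fun _ χ => ‖Ct χ T γ‖) ≤ 8 * D * Z * (√T * (√T + D * Z)) := by
  have hT' : (1 : ℝ) ≤ T := by exact_mod_cast hT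
  have hD' : (1 : ℝ) ≤ D := by exact_mod_cast hD
  have key : ∀ b : ℕ → ℂ, (∀ n, ‖b n‖ ≤ 1) →
      PS D (fun _ χ => ‖DP (T + 1) b χ‖) ≤ 4 * D * Z * (√T * (√T + D * Z)) := by
    intro b hb
    have h1 := PS_bilin (D := D) (L1 := 2) (L2 := T + 1) (A := 1) (by linarith only [hZ]) hH
      (fun m => if m = 1 then 1 else 0) b (by simp [sum_range_succ]) (sum_norm_sq_le (T + 1) b hb)
    have h2 : ∀ (d : ℕ) (χ : DirichletCharacter ℂ d),
        DP 2 (fun m => if m = 1 then 1 else 0) χ = 1 := by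
      intro d χ; simp [DP]
    simp only [h2, norm_one, one_mul, Real.sqrt_one, one_pow] at h1
    refine h1.trans ?_
    have a1 : √((T + 1 : ℕ) : ℝ) ≤ √2 * √T := by
      rw [← Real.sqrt_mul (by norm_num)]
      exact Real.sqrt_le_sqrt (by push_cast; linarith only [hT'])
    have a2 : √2 * √2 = (2 : ℝ) := Real.mul_self_sqrt (by norm_num)
    have a3 : (1 : ℝ) ≤ √2 := Real.one_le_sqrt.mpr (by norm_num)
    have a4 : √((2 : ℕ) : ℝ) + D * Z ≤ 2 * (D * Z) := by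
      have : √((2 : ℕ) : ℝ) ≤ 2 := by push_cast; linarith only [a2, a3, mul_nonneg_of_nonpos_of_nonpos (Mathlib.Tactic.Linarith.sub_nonpos_of_le a3) (Mathlib.Tactic.Linarith.sub_nonpos_of_le a3)]
      linarith only [hD', this, hZ, mul_nonneg_of_nonpos_of_nonpos (Mathlib.Tactic.Linarith.sub_nonpos_of_le (Mathlib.Tactic.Linarith.natCast_nonneg ℝ D)) (Mathlib.Tactic.Linarith.sub_nonpos_of_le hZ)]
    have a5 : √((T + 1 : ℕ) : ℝ) + D * Z ≤ √2 * (√T + D * Z) := by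
      have : 0 ≤ (D : ℝ) * Z := by positivity
      linarith only [a1, a3, this, mul_nonneg_of_nonpos_of_nonpos (Mathlib.Tactic.Linarith.sub_nonpos_of_le a3) (Mathlib.Tactic.Linarith.sub_nonpos_of_le this)]
    calc _ ≤ (√2 * √T) * ((2 * (D * Z)) * (√2 * (√T + D * Z))) := by gcongr
      _ = (√2 * √2) * 2 * D * Z * (√T * (√T + D * Z)) := by ring
      _ = _ := by rw [a2]; ring
  have h1 := key (fun n => (γ n : ℂ)) (fun n => by
    rw [Complex.norm_real, Real.norm_eq_abs]; exact h.abs_le _)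
  have h2 := key (fun n => (γ (-n) : ℂ)) (fun n => by
    rw [Complex.norm_real, Real.norm_eq_abs]; exact h.abs_le _)
  refine le_trans (PS_mono (G := fun d χ => ‖DP (T + 1) (fun n => (γ n : ℂ)) χ‖ +
    ‖DP (T + 1) (fun n => (γ (-n) : ℂ)) χ‖) fun d hd _ χ _ => ?_) (by rw [PS_add]; linarith only [h1, h2])
  have h3 : (starRingEnd ℂ) (Ct χ T γ) = DP (T + 1) (fun n => (γ n : ℂ)) χ +
      χ (-1) * DP (T + 1) (fun n => (γ (-n) : ℂ)) χ := by
    have h0 : χ ((0 : ℕ) : ZMod d) = 0 := by rw [Nat.cast_zero]; exact χ.map_zero' (by omega)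
    unfold Ct DP
    rw [map_sum]
    simp only [map_mul, Complex.conj_ofReal, Complex.conj_conj]
    rw [← sum_filter_add_sum_filter_not _ (fun k : ℤ => 0 ≤ k)]
    congr 1
    · symm
      refine Finset.sum_bij (fun n _ => (n : ℤ)) ?_ ?_ ?_ ?_
      · intro n hn
        rw [mem_range] at hn
        simp only [mem_filter, mem_Icc]; omega
      · intro a _ b _ hab; exact_mod_cast hab
      · intro k hk
        simp only [mem_filter, mem_Icc] at hk
        exact ⟨k.toNat, mem_range.mpr (by omega), by omega⟩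
      · intro n _; simp
    · rw [sum_range_succ', h0, mul_zero, add_zero, mul_sum]
      symm
      refine Finset.sum_bij (fun n _ => -((n + 1 : ℕ) : ℤ)) ?_ ?_ ?_ ?_
      · intro n hn
        rw [mem_range] at hn
        simp only [mem_filter, mem_Icc]; omega
      · intro a _ b _ hab; omega
      · intro k hk
        simp only [mem_filter, mem_Icc] at hk
        exact ⟨(-k - 1).toNat, mem_range.mpr (by omega), by omega⟩
      · intro n _
        rw [Int.cast_neg, Int.cast_natCast, ← neg_one_mul (((n + 1 : ℕ) : ZMod d)), map_mul]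
        ring
  rw [← Complex.norm_conj, h3]
  refine (norm_add_le _ _).trans (add_le_add le_rfl ?_)
  rw [norm_mul]
  exact mul_le_of_le_one_left (norm_nonneg _) (χ.norm_le_one _)

/-- The mean value estimate. -/
theorem mean_value (h : Wt T s γ) {Z X B : ℝ} {N D U : ℕ} (c : Cond X Z N D T U)
    (hZ : T * s ≤ 5 * Z) (c6 : (B + 4 * U * √D * Z ^ 2) * (√T * (√T + D * Z)) * Z ^ 10 ≤ X)
    (a : ℕ → ℝ) (ha : ∑ n ∈ Icc 1 N, |a n - vonMangoldt n| ≤ B) {y : ℕ} (hy : y ≤ N) :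
    PS D (fun _ χ => ‖TS a y χ‖ * ‖Ct χ T γ‖) ≤ X * D / Z ^ 8 := by
  have hZ1 := c.hZ
  have hZ0 : 0 < Z := by linarith only [hZ1]
  have hNX := c.hNX
  have hX : 0 ≤ X := (Nat.cast_nonneg _).trans hNX
  have hU1 := c.one_le_U
  have hUN : U ≤ N := le_trans (Nat.le_self_pow (by norm_num) U) c.c5
  obtain hH : HH (D ^ 2) ≤ Z := by
    have := c.hH (D ^ 2) (by push_cast; linarith only [hNX, c, c.D_sq_le])
    linarith only [this]
  have hD := c.one_le_D
  have hHD : HH D ≤ Z := (HH_mono (by nlinarith only [hD])).trans hH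
  have hlog : ∀ n ≤ 2 * N, Real.log n ≤ Z := fun n hn => c.log_le (by
    have : (n : ℝ) ≤ (2 * N : ℕ) := by exact_mod_cast hn
    push_cast at this; linarith only [hNX, this])
  have hB : 0 ≤ B := (sum_nonneg fun _ _ => abs_nonneg _).trans ha
  have II1 := typeII_full h c hZ (highPart (cc U) U) zetaR
    (fun m hm => by
      rw [highPart_apply]; split_ifs
      · simp [hZ0.le]
      · exact (abs_cc_le U m).trans (hlog m hm))
    (fun n _ => by
      rcases Nat.eq_zero_or_pos n with rfl | hn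
      · simp [hZ0.le]
      · rw [zetaR_apply hn.ne', abs_one]; linarith only [hZ1])
    (fun m hm => by rw [highPart_apply, if_pos hm])
    (fun m n h1 _ => by
      obtain h2 : U * U < m := by
        have h3 := c.c5
        have : U * U * U < m * U := by linarith only [h1, h3]
        exact Nat.lt_of_mul_lt_mul_right this
      rw [highPart_apply, cc_eq_zero h2]; simp) hy
  have II2 := typeII_full h c hZ (highPart muR U) (highPart vonMangoldt U * zetaR)
    (fun m _ => by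
      rw [highPart_apply]; split_ifs
      · simp [hZ0.le]
      · linarith only [hZ1, abs_muR_le m])
    (fun n hn => by
      rw [abs_of_nonneg (high_zeta_nonneg U n)]
      exact (high_zeta_le U n).trans (hlog n (by omega)))
    (fun m hm => by rw [highPart_apply, if_pos hm])
    (fun m n h1 h2 => by
      have h3 : n ≤ U := (Nat.lt_of_mul_lt_mul_left (lt_of_le_of_lt h2 h1)).le
      rw [high_zeta_eq_zero h3, mul_zero]) hy
  have hCt := PS_Ct_le h c.hT (by linarith only [hZ1]) hD hH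
  have hD1 : (1 : ℝ) ≤ √D := Real.one_le_sqrt.mpr (by exact_mod_cast hD)
  obtain hpt : ∀ d, 2 ≤ d → d ≤ D → ∀ χ : DirichletCharacter ℂ d, χ.IsPrimitive →
      ‖TS a y χ‖ * ‖Ct χ T γ‖ ≤ (B + 4 * U * √D * Z ^ 2) * ‖Ct χ T γ‖ +
      (‖TS (highPart (cc U) U * zetaR : ArithmeticFunction ℝ) y χ‖ * ‖Ct χ T γ‖ +
       ‖TS (highPart muR U * (highPart vonMangoldt U * zetaR) : ArithmeticFunction ℝ) y χ‖ *
        ‖Ct χ T γ‖) := by
    clear * - D a y T γ B U Z hHD hD N hy ha hZ0 hlog hUN hZ1 hD1 hU1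
    intro d hd hdD χ hχ
    rw [← add_mul, ← add_mul]
    refine mul_le_mul_of_nonneg_right ?_ (norm_nonneg _)
    obtain hP : √d * HH d ≤ √D * Z := by
      have := (HH_mono hdD).trans hHD
      have h2 : √(d : ℝ) ≤ √D := Real.sqrt_le_sqrt (by exact_mod_cast hdD)
      have := HH_nonneg d
      gcongr
    obtain b0 : ‖TS a y χ - TS vonMangoldt y χ‖ ≤ B := by
      unfold TS
      rw [← sum_sub_distrib]
      refine (norm_sum_le _ _).trans (le_trans (sum_le_sum fun n _ => ?_)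
        ((sum_le_sum_of_subset_of_nonneg (Icc_subset_Icc_right hy)
          fun _ _ _ => abs_nonneg _).trans ha))
      rw [← sub_mul, ← Complex.ofReal_sub, norm_mul, Complex.norm_real, Real.norm_eq_abs]
      exact mul_le_of_le_one_right (abs_nonneg _) (χ.norm_le_one _)
    obtain b1 : ‖TS (lowPart vonMangoldt U) y χ‖ ≤ U * Z := by
      refine (norm_sum_le _ _).trans (le_trans (sum_le_sum fun n _ => ?_)
        (sum_abs_lowPart_le vonMangoldt U y Z hZ0.le fun n hn => ?_))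
      · rw [norm_mul, Complex.norm_real, Real.norm_eq_abs]
        exact mul_le_of_le_one_right (abs_nonneg _) (χ.norm_le_one _)
      · rw [abs_of_nonneg vonMangoldt_nonneg]
        exact vonMangoldt_le_log.trans (hlog n (by omega))
    have b2 := norm_TS_low_mul_le muR ArithmeticFunction.log U y zero_le_one
      (show 0 ≤ 2 * (√D * Z) * Z by positivity) (fun n _ => abs_muR_le n) χ (fun t ht => by
        refine (norm_TS_log_le hd hχ t).trans ?_
        have := hlog t (by omega)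
        have := Real.log_natCast_nonneg t
        gcongr)
    have b3 := norm_TS_low_mul_le (cc U) zetaR U y hZ0.le
      (show 0 ≤ √D * Z by positivity) (fun n hn => (abs_cc_le U n).trans (hlog n (by omega))) χ
      (fun t _ => by rw [TS_zeta hd]; exact (norm_cs_le hd hχ _).trans hP)
    obtain b4 : (U : ℝ) * Z ≤ U * √D * Z ^ 2 := by
      have : Z ≤ √D * Z ^ 2 := by linarith only [hZ1, hD1, mul_nonneg_of_nonpos_of_nonpos (Mathlib.Tactic.Linarith.sub_nonpos_of_le (sq_nonneg Z)) (Mathlib.Tactic.Linarith.sub_nonpos_of_le hD1), mul_nonneg_of_nonpos_of_nonpos (Mathlib.Tactic.Linarith.sub_nonpos_of_le hZ1) (Mathlib.Tactic.Linarith.sub_nonpos_of_le hZ1)]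
      rw [mul_assoc]; gcongr
    have e : TS a y χ = (TS a y χ - TS vonMangoldt y χ) + TS vonMangoldt y χ := by ring
    rw [e]
    refine (norm_add_le _ _).trans ?_
    conv_lhs => rw [TS_vaughan U y χ]
    have t1 := norm_add_le (TS (lowPart vonMangoldt U) y χ +
      TS (lowPart muR U * ArithmeticFunction.log : ArithmeticFunction ℝ) y χ -
      TS (lowPart (cc U) U * zetaR : ArithmeticFunction ℝ) y χ -
      TS (highPart (cc U) U * zetaR : ArithmeticFunction ℝ) y χ)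
      (TS (highPart muR U * (highPart vonMangoldt U * zetaR) : ArithmeticFunction ℝ) y χ)
    have t2 := norm_sub_le (TS (lowPart vonMangoldt U) y χ +
      TS (lowPart muR U * ArithmeticFunction.log : ArithmeticFunction ℝ) y χ -
      TS (lowPart (cc U) U * zetaR : ArithmeticFunction ℝ) y χ)
      (TS (highPart (cc U) U * zetaR : ArithmeticFunction ℝ) y χ)
    have t3 := norm_sub_le (TS (lowPart vonMangoldt U) y χ +
      TS (lowPart muR U * ArithmeticFunction.log : ArithmeticFunction ℝ) y χ)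
      (TS (lowPart (cc U) U * zetaR : ArithmeticFunction ℝ) y χ)
    have t4 := norm_add_le (TS (lowPart vonMangoldt U) y χ)
      (TS (lowPart muR U * ArithmeticFunction.log : ArithmeticFunction ℝ) y χ)
    rw [← TS_vaughan U y χ] at t1
    rw [← TS_vaughan U y χ]
    linarith only [b0, b1, b2, b3, b4, t1, t2, t3, t4]
  refine (PS_mono hpt).trans ?_
  rw [PS_add, PS_add, PS_mul]
  obtain e1 : (B + 4 * U * √D * Z ^ 2) * PS D (fun _ χ => ‖Ct χ T γ‖) ≤ 8 * X * D / Z ^ 9 := by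
    clear * - B U D Z T γ X hZ1 hCt hB hU1 hD c6
    rw [le_div_iff₀ (by positivity)]
    calc _ ≤ (B + 4 * U * √D * Z ^ 2) * (8 * D * Z * (√T * (√T + D * Z))) * Z ^ 9 := by gcongr
      _ = 8 * D * ((B + 4 * U * √D * Z ^ 2) * (√T * (√T + D * Z)) * Z ^ 10) := by ring
      _ ≤ 8 * D * X := by gcongr
      _ = _ := by ring
  obtain e2 : 8 * X * D / Z ^ 9 + (10 * X * D / Z ^ 9 + 10 * X * D / Z ^ 9) ≤ X * D / Z ^ 8 := by
    clear * - X D Z hZ1 hD hX
    have : X * D / Z ^ 8 = Z * (X * D / Z ^ 9) := by field_simp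
    rw [this]
    have h0 : 0 ≤ X * D / Z ^ 9 := by positivity
    have : 8 * X * D / Z ^ 9 + (10 * X * D / Z ^ 9 + 10 * X * D / Z ^ 9) =
      28 * (X * D / Z ^ 9) := by ring
    rw [this]
    gcongr; linarith only [hZ1]
  linarith only [II1, II2, e1, e2]

end Pool.Agent.Work.MP_5d318d_nt
end
end

-- merged part: Pool.Agent.Work.MP_5d318d_nt.Ram
section
/-!
# Ramanujan sums
-/

noncomputable section

open Finset Real ArithmeticFunction

namespace Pool.Agent.Work.MP_5d318d_nt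

open Pool.Agent.Lib.LargeSieve Pool.Agent.Lib.ANT

theorem sum_muR (n : ℕ) : ∑ d ∈ n.divisors, muR d = if n = 1 then 1 else 0 := by
  have h := congrArg (fun f : ArithmeticFunction ℝ => f n) (coe_moebius_mul_coe_zeta (R := ℝ))
  simp only [coe_mul_zeta_apply, one_apply] at h
  exact h

theorem sum_divisors_dvd {M : Type*} [AddCommMonoid M] {u v : ℕ} (hu : u ≠ 0) (hv : v ≠ 0)
    (F : ℕ → M) :
    ∑ s ∈ (u * v).divisors, (if u ∣ s then F s else 0) = ∑ s ∈ v.divisors, F (u * s) := by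
  rw [← sum_filter]
  symm
  refine Finset.sum_bij (fun s _ => u * s) ?_ ?_ ?_ ?_
  · intro s hs
    exact mem_filter.mpr ⟨Nat.mem_divisors.mpr ⟨Nat.mul_dvd_mul_left _ (Nat.dvd_of_mem_divisors hs),
      mul_ne_zero hu hv⟩, dvd_mul_right _ _⟩
  · intro a _ b _ h
    exact Nat.eq_of_mul_eq_mul_left (Nat.pos_of_ne_zero hu) h
  · intro s hs
    obtain ⟨h1, s, rfl⟩ := mem_filter.mp hs
    exact ⟨s, Nat.mem_divisors.mpr ⟨Nat.dvd_of_mul_dvd_mul_left (Nat.pos_of_ne_zero hu)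
      (Nat.dvd_of_mem_divisors h1), hv⟩, rfl⟩
  · intro _ _; rfl

theorem sum_muR_dvd {t : ℕ} (ht : t ≠ 0) (u : ℕ) :
    ∑ s ∈ t.divisors, (if u ∣ s then muR (t / s) else 0) = if u = t then 1 else 0 := by
  by_cases h : u ∣ t
  · obtain ⟨v, rfl⟩ := h
    have hu : u ≠ 0 := left_ne_zero_of_mul ht
    have hv : v ≠ 0 := right_ne_zero_of_mul ht
    rw [sum_divisors_dvd hu hv]
    simp_rw [Nat.mul_div_mul_left _ _ (Nat.pos_of_ne_zero hu)]
    rw [Nat.sum_div_divisors v muR, sum_muR]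
    congr 1
    apply propext
    constructor
    · rintro rfl; simp
    · intro h; exact (Nat.eq_of_mul_eq_mul_left (Nat.pos_of_ne_zero hu) (by rw [← h]; simp)).symm
  · rw [if_neg (fun e : u = t => h (e ▸ dvd_rfl))]
    exact sum_eq_zero fun s hs => if_neg fun e => h (e.trans (Nat.dvd_of_mem_divisors hs))

/-- Ramanujan's sum `c_r(m)`, in its divisor form. -/
def ram (r : ℕ) (m : ℤ) : ℝ := ∑ f ∈ r.divisors, if (f : ℤ) ∣ m then (f : ℝ) * muR (r / f) else 0

theorem ram_eq (r : ℕ) (m : ℤ) : ram r m = ∑ x ∈ r.divisorsAntidiagonal,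
    ((moebius x.1 : ℤ) : ℝ) * (if (x.2 : ℤ) ∣ m then (x.2 : ℝ) else 0) := by
  rw [ram, Nat.sum_divisorsAntidiagonal'
    (f := fun a b => ((moebius a : ℤ) : ℝ) * (if (b : ℤ) ∣ m then (b : ℝ) else 0))]
  refine sum_congr rfl fun f _ => ?_
  split_ifs
  · rw [mul_comm]; rfl
  · simp

theorem ram_zero {r : ℕ} (hr : r ≠ 0) : ram r 0 = r.totient := by
  rw [ram_eq]
  simp only [dvd_zero, if_true]
  refine (sum_eq_iff_sum_mul_moebius_eq (f := fun n => (n.totient : ℝ))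
    (g := fun n => (n : ℝ))).mp (fun n _ => ?_) r (Nat.pos_of_ne_zero hr)
  exact_mod_cast Nat.sum_totient n

theorem sum_ram {g : ℕ} (hg : g ≠ 0) (k : ℤ) :
    ∑ d ∈ g.divisors, ram d k = if (g : ℤ) ∣ k then (g : ℝ) else 0 :=
  (sum_eq_iff_sum_mul_moebius_eq (f := fun n => ram n k)
    (g := fun n => if (n : ℤ) ∣ k then (n : ℝ) else 0)).mpr (fun n _ => (ram_eq n k).symm) g
    (Nat.pos_of_ne_zero hg)

theorem ram_of_coprime {r : ℕ} (hr : r ≠ 0) {m : ℤ} (h : IsCoprime m r) : ram r m = muR r := by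
  rw [ram, sum_eq_single 1]
  · simp
  · intro f hf hf1
    refine if_neg fun hm => hf1 ?_
    have := h.isUnit_of_dvd' hm (Int.natCast_dvd_natCast.mpr (Nat.dvd_of_mem_divisors hf))
    rcases Int.isUnit_iff.mp this with h | h <;> omega
  · intro h; exact absurd (Nat.one_mem_divisors.mpr hr) h

theorem card_dvd_le (T f : ℕ) (hf : 0 < f) :
    (f : ℝ) * (((Icc (-(T : ℤ)) T).erase 0).filter (fun k => (f : ℤ) ∣ k)).card ≤ 2 * T := by
  have h1 : (((Icc (-(T : ℤ)) T).erase 0).filter (fun k => (f : ℤ) ∣ k)).card ≤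
      ((Icc (-((T / f : ℕ) : ℤ)) (T / f : ℕ)).erase 0).card := by
    refine card_le_card_of_injOn (fun k => k / f) ?_ ?_
    · intro k hk
      simp only [coe_filter, mem_erase, mem_Icc, Set.mem_ofPred_eq] at hk
      obtain ⟨⟨h0, h1, h2⟩, j, rfl⟩ := hk
      have hf' : (0 : ℤ) < f := by exact_mod_cast hf
      simp only [coe_erase, coe_Icc, Set.mem_sdiff, Set.mem_Icc, Set.mem_singleton_iff]
      rw [Int.mul_ediv_cancel_left _ hf'.ne']
      have a1 : j ≤ (T : ℤ) / f := (Int.le_ediv_iff_mul_le hf').mpr (by linarith only [h2])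
      have a2 : -j ≤ (T : ℤ) / f := (Int.le_ediv_iff_mul_le hf').mpr (by linarith only [h1])
      push_cast
      exact ⟨⟨by linarith only [a2], a1⟩, right_ne_zero_of_mul h0⟩
    · intro a ha b hb hab
      have ha' := (mem_filter.mp ha).2
      have hb' := (mem_filter.mp hb).2
      rw [← Int.mul_ediv_cancel' ha', ← Int.mul_ediv_cancel' hb']
      exact congrArg _ hab
  have h3 := Nat.mul_div_le T f
  generalize T / f = m at h1 h3
  rw [card_erase_of_mem (mem_Icc.mpr (by omega)), Int.card_Icc] at h1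
  have h2 : (((Icc (-(T : ℤ)) T).erase 0).filter (fun k => (f : ℤ) ∣ k)).card ≤ 2 * m := by
    omega
  have h4 : f * (((Icc (-(T : ℤ)) T).erase 0).filter (fun k => (f : ℤ) ∣ k)).card ≤ 2 * T := by
    nlinarith only [h3, h2]
  exact_mod_cast h4

theorem sum_abs_ram_le (r T : ℕ) :
    ∑ k ∈ (Icc (-(T : ℤ)) T).erase 0, |ram r k| ≤ 2 * T * r.divisors.card := by
  calc _ ≤ ∑ k ∈ (Icc (-(T : ℤ)) T).erase 0, ∑ f ∈ r.divisors,
        (if (f : ℤ) ∣ k then (f : ℝ) else 0) := by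
        refine sum_le_sum fun k _ => (abs_sum_le_sum_abs _ _).trans (sum_le_sum fun f _ => ?_)
        split_ifs
        · rw [abs_mul, Nat.abs_cast]
          exact mul_le_of_le_one_right (Nat.cast_nonneg _) (abs_muR_le _)
        · simp
    _ ≤ ∑ _f ∈ r.divisors, (2 * T : ℝ) := by
        rw [sum_comm]
        refine sum_le_sum fun f hf => ?_
        rw [← sum_filter, sum_const, nsmul_eq_mul, mul_comm]
        exact card_dvd_le T f (Nat.pos_of_mem_divisors hf)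
    _ = _ := by rw [sum_const, nsmul_eq_mul, mul_comm]

theorem inv_totient_eq {v : ℕ} (hv : Squarefree v) :
    ∏ p ∈ v.primeFactors, ((p : ℝ) - 1)⁻¹ = (v.totient : ℝ)⁻¹ := by
  have h := prod_primeFactors_one_add_inv v (Nat.pos_of_ne_zero hv.ne_zero)
  have h1 : ∏ p ∈ v.primeFactors, (1 + ((p : ℝ) - 1)⁻¹) =
      (∏ p ∈ v.primeFactors, (p : ℝ)) * ∏ p ∈ v.primeFactors, ((p : ℝ) - 1)⁻¹ := by
    rw [← prod_mul_distrib]
    refine prod_congr rfl fun p hp => ?_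
    have : (1 : ℝ) < p := by exact_mod_cast (Nat.prime_of_mem_primeFactors hp).one_lt
    have h1 : (p : ℝ) - 1 ≠ 0 := by linarith only [this]
    field_simp; ring
  rw [h1, ← Nat.cast_prod, Nat.prod_primeFactors_of_squarefree hv, div_eq_mul_inv] at h
  exact mul_left_cancel₀ (by exact_mod_cast hv.ne_zero) h

theorem sum_div_totient_mul_muR {v : ℕ} (hv : Squarefree v) :
    ∑ f ∈ v.divisors, (f : ℝ) / f.totient * muR (v / f) = (v.totient : ℝ)⁻¹ := by
  have h := IsMultiplicative.prodPrimeFactors_add_of_squarefree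
    (IsMultiplicative.prodPrimeFactors (fun p : ℕ => 1 + ((p : ℝ) - 1)⁻¹))
    (g := muR) isMultiplicative_moebius.intCast hv
  rw [prodPrimeFactors_apply hv.ne_zero, ArithmeticFunction.mul_apply,
    Nat.sum_divisorsAntidiagonal (f := fun a b =>
      (prodPrimeFactors (fun p : ℕ => 1 + ((p : ℝ) - 1)⁻¹)) a * muR b)] at h
  rw [← inv_totient_eq hv]
  refine Eq.trans (sum_congr rfl fun f hf => ?_) (h.symm.trans (prod_congr rfl fun p hp => ?_))
  · have := Nat.pos_of_mem_divisors hf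
    rw [prodPrimeFactors_apply this.ne', prod_primeFactors_one_add_inv f this]
  · have hp' := Nat.prime_of_mem_primeFactors hp
    rw [ArithmeticFunction.add_apply, prodPrimeFactors_apply hp'.ne_zero, hp'.primeFactors,
      prod_singleton, muR, intCoe_apply, moebius_apply_prime hp']
    push_cast; ring

theorem sum_y {r : ℕ} (hr : Squarefree r) (q : ℕ) :
    ∑ f ∈ r.divisors, (if q ∣ f then (f : ℝ) / f.totient * muR (r / f) else 0) =
      if q ∣ r then (q : ℝ) / r.totient else 0 := by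
  split_ifs with h
  · obtain ⟨v, rfl⟩ := h
    have hq : q ≠ 0 := left_ne_zero_of_mul hr.ne_zero
    have hv : Squarefree v := hr.of_mul_right
    have hc : q.Coprime v := Nat.coprime_of_squarefree_mul hr
    rw [sum_divisors_dvd hq hv.ne_zero, Nat.totient_mul hc, Nat.cast_mul, ← div_div,
      div_eq_mul_inv (q / q.totient : ℝ), ← sum_div_totient_mul_muR hv, mul_sum]
    refine sum_congr rfl fun s hs => ?_
    rw [Nat.mul_div_mul_left _ _ (Nat.pos_of_ne_zero hq),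
      Nat.totient_mul (hc.coprime_dvd_right (Nat.dvd_of_mem_divisors hs))]
    push_cast; ring
  · exact sum_eq_zero fun s hs => if_neg fun e => h (e.trans (Nat.dvd_of_mem_divisors hs))

theorem primKer_eq_zero {d : ℕ} (n : ℤ) {m : ℤ} (h : ¬ IsCoprime m d) : primKer d n m = 0 := by
  refine sum_eq_zero fun ψ _ => ?_
  rw [ψ.map_nonunit (fun hu => h ((ZMod.coe_int_isUnit_iff_isCoprime m d).mp hu).symm)]
  simp

theorem sum_muR_gcd {R g : ℕ} (hg : g ≠ 0) (hgR : g ≤ R) (k : ℤ) :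
    ∑ e ∈ Icc 1 R, (if e ∣ g ∧ (e : ℤ) ∣ k then muR e else 0) =
      if IsCoprime k g then 1 else 0 := by
  have h0 : Int.gcd k g ≠ 0 := by simp [hg]
  simp only [Int.isCoprime_iff_gcd_eq_one]
  rw [← sum_muR, ← sum_filter]
  refine sum_congr ?_ fun _ _ => rfl
  ext e
  rw [mem_filter, mem_Icc, Nat.mem_divisors, ← Int.natCast_dvd_natCast (n := Int.gcd k g),
    Int.dvd_coe_gcd_iff, Int.natCast_dvd_natCast]
  constructor
  · rintro ⟨-, h1, h2⟩; exact ⟨⟨h2, h1⟩, h0⟩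
  · rintro ⟨⟨h1, h2⟩, -⟩
    exact ⟨⟨Nat.pos_of_dvd_of_pos h2 (Nat.pos_of_ne_zero hg),
      (Nat.le_of_dvd (Nat.pos_of_ne_zero hg) h2).trans hgR⟩, h2, h1⟩

theorem ite_dvd_eq {R f : ℕ} (hf : 0 < f) (hfR : f ≤ R) {n Q : ℤ} (hn : IsCoprime n f)
    (hQ : IsCoprime Q f) (k : ℤ) :
    (if (f : ℤ) ∣ n + k * Q then (f.totient : ℂ) else 0) = ∑ d ∈ Icc 1 R, ∑ e ∈ Icc 1 R,
      if d * e ∣ f ∧ (e : ℤ) ∣ k then (muR e : ℂ) * primKer d n (-(k * Q)) else 0 := by
  have h1 : ∀ d ∈ Icc 1 R, (∑ e ∈ Icc 1 R,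
      if d * e ∣ f ∧ (e : ℤ) ∣ k then (muR e : ℂ) * primKer d n (-(k * Q)) else 0) =
      if d ∣ f then (if IsCoprime k (f / d : ℕ) then primKer d n (-(k * Q)) else 0) else 0 := by
    intro d hd
    by_cases h : d ∣ f
    · obtain ⟨g, rfl⟩ := h
      have hd0 : 0 < d := (mem_Icc.mp hd).1
      have hg : g ≠ 0 := right_ne_zero_of_mul hf.ne'
      have h2 := congrArg (fun x : ℝ => (x : ℂ) * primKer d n (-(k * Q)))
        (sum_muR_gcd hg ((Nat.le_mul_of_pos_left _ hd0).trans hfR) k)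
      simp only [Complex.ofReal_sum, sum_mul, apply_ite Complex.ofReal, ite_mul,
        Complex.ofReal_zero, zero_mul, Complex.ofReal_one, one_mul] at h2
      rw [if_pos (dvd_mul_right _ _), Nat.mul_div_cancel_left _ hd0, ← h2]
      simp only [Nat.mul_dvd_mul_iff_left hd0]
    · rw [if_neg h]
      exact sum_eq_zero fun e _ => if_neg fun h' => h ((dvd_mul_right _ _).trans h'.1)
  rw [sum_congr rfl h1, ← sum_filter, show (Icc 1 R).filter (fun d => d ∣ f) = f.divisors by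
    ext d
    rw [mem_filter, mem_Icc, Nat.mem_divisors]
    exact ⟨fun h => ⟨h.2, hf.ne'⟩, fun h => ⟨⟨Nat.pos_of_dvd_of_pos h.1 hf,
      (Nat.le_of_dvd hf h.1).trans hfR⟩, h.1⟩⟩]
  by_cases hk : IsCoprime k f
  · have := totient_mul_ite_eq hf hn (m := -(k * Q)) (hk.mul_left hQ).neg_left
    rw [sub_neg_eq_add] at this
    rw [this]
    refine sum_congr rfl fun d hd => ?_
    rw [if_pos (hk.of_isCoprime_of_dvd_right (Int.natCast_dvd_natCast.mpr
      (Nat.div_dvd_of_dvd (Nat.dvd_of_mem_divisors hd))))]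
  · rw [if_neg, sum_eq_zero]
    · intro d hd
      split_ifs with h
      · refine primKer_eq_zero _ fun h' => hk ?_
        rw [← Nat.mul_div_cancel' (Nat.dvd_of_mem_divisors hd), Nat.cast_mul]
        exact (IsCoprime.of_mul_left_left ((IsCoprime.neg_left_iff _ _).mp h')).mul_right h
      · rfl
    · rintro ⟨j, hj⟩
      refine hk (IsCoprime.of_mul_left_left (y := Q) ?_)
      have : k * Q = -n + f * j := by linarith only [hj]
      rw [this]
      exact hn.neg_left.add_mul_left_left j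

/-- Expansion of a Ramanujan sum in primitive characters. -/
theorem ram_expand {R r : ℕ} (hr : Squarefree r) (hrR : r ≤ R) {n Q : ℤ} (hn : IsCoprime n r)
    (hQ : IsCoprime Q r) (k : ℤ) :
    (ram r (n + k * Q) : ℂ) = ∑ d ∈ Icc 1 R, ∑ e ∈ Icc 1 R,
      if (e : ℤ) ∣ k then (muR e : ℂ) * primKer d n (-(k * Q)) *
        ((if d * e ∣ r then ((d * e : ℕ) : ℝ) / r.totient else 0 : ℝ) : ℂ) else 0 := by
  have h1 : ∀ f ∈ r.divisors, ((if (f : ℤ) ∣ n + k * Q then (f : ℝ) * muR (r / f) else 0 : ℝ) : ℂ) =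
      ∑ d ∈ Icc 1 R, ∑ e ∈ Icc 1 R, if (e : ℤ) ∣ k then (muR e : ℂ) * primKer d n (-(k * Q)) *
        ((if d * e ∣ f then (f : ℝ) / f.totient * muR (r / f) else 0 : ℝ) : ℂ) else 0 := by
    intro f hf
    have hf0 := Nat.pos_of_mem_divisors hf
    have hfr := Int.natCast_dvd_natCast.mpr (Nat.dvd_of_mem_divisors hf)
    have h2 := congrArg (fun x => x * (((f : ℝ) / f.totient * muR (r / f) : ℝ) : ℂ))
      (ite_dvd_eq hf0 ((Nat.divisor_le hf).trans hrR) (hn.of_isCoprime_of_dvd_right hfr)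
        (hQ.of_isCoprime_of_dvd_right hfr) k)
    simp only [sum_mul] at h2
    refine Eq.trans ?_ (h2.trans (sum_congr rfl fun d _ => sum_congr rfl fun e _ => ?_))
    · have : (f.totient : ℂ) ≠ 0 := by exact_mod_cast (Nat.totient_pos.mpr hf0).ne'
      split_ifs
      · push_cast; field_simp
      · simp
    · by_cases a1 : d * e ∣ f <;> by_cases a2 : (e : ℤ) ∣ k <;> simp [a1, a2]
  rw [ram, Complex.ofReal_sum, sum_congr rfl h1, sum_comm]
  refine sum_congr rfl fun d _ => ?_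
  rw [sum_comm]
  refine sum_congr rfl fun e _ => ?_
  by_cases h : (e : ℤ) ∣ k
  · simp only [if_pos h]
    rw [← mul_sum, ← Complex.ofReal_sum, sum_y hr]
  · simp only [if_neg h, sum_const_zero]

end Pool.Agent.Work.MP_5d318d_nt
end
end

-- merged part: Pool.Agent.Work.MP_5d318d_nt.SigmaLB
section
/-!
# Lower bound for a sum of `1 / φ(r)` over squarefree `r` in an interval
-/

noncomputable section

open Finset Real

namespace Pool.Agent.Work.MP_5d318d_nt

open Pool.Agent.Lib.LargeSieve Pool.Agent.Lib.ANT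

/-- squarefree integers in `(R₁, R]` coprime to `Q` -/
def RR (Q R1 R : ℕ) : Finset ℕ := (Ioc R1 R).filter (fun r => Squarefree r ∧ Q.Coprime r)

/-- `∑ 1 / φ(r)` -/
def Sg (S : Finset ℕ) : ℝ := ∑ r ∈ S, (r.totient : ℝ)⁻¹

theorem Sg_nonneg (S : Finset ℕ) : 0 ≤ Sg S := sum_nonneg fun _ _ => by positivity

/-- product of the primes dividing `m` but not `Q` -/
def radQ (Q m : ℕ) : ℕ := ∏ p ∈ m.primeFactors.filter (fun p => ¬ p ∣ Q), p

theorem radQ_primeFactors (Q m : ℕ) :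
    (radQ Q m).primeFactors = m.primeFactors.filter (fun p => ¬ p ∣ Q) :=
  Nat.primeFactors_prod fun _ hp => Nat.prime_of_mem_primeFactors (mem_filter.mp hp).1

theorem radQ_squarefree (Q m : ℕ) : Squarefree (radQ Q m) :=
  squarefree_prod_primes _ fun _ hp => Nat.prime_of_mem_primeFactors (mem_filter.mp hp).1

theorem sum_inv_fiber_le {Q r : ℕ} (hQ : 0 < Q) (hr : Squarefree r) (s : Finset ℕ)
    (hs : ∀ m ∈ s, m ≠ 0 ∧ radQ Q m = r) :
    ∑ m ∈ s, (1 : ℝ) / m ≤ Q / Q.totient * (r.totient : ℝ)⁻¹ := by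
  rcases s.eq_empty_or_nonempty with rfl | ⟨m0, hm0⟩
  · simp only [sum_empty]; positivity
  set q := ∏ p ∈ Q.primeFactors, p with hq
  have hq0 : 0 < q := prod_pos fun p hp => (Nat.prime_of_mem_primeFactors hp).pos
  have hq1 : q.primeFactors = Q.primeFactors :=
    Nat.primeFactors_prod fun _ hp => Nat.prime_of_mem_primeFactors hp
  have hdis : Disjoint r.primeFactors Q.primeFactors := by
    rw [← (hs m0 hm0).2, radQ_primeFactors, disjoint_left]
    intro p hp hp'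
    exact (mem_filter.mp hp).2 (Nat.dvd_of_mem_primeFactors hp')
  have h1 := sum_inv_le_of_primeFactors_eq (s.image (fun m => m * q))
    (r.primeFactors ∪ Q.primeFactors)
    (fun p hp => by
      rcases mem_union.mp hp with h | h <;> exact Nat.prime_of_mem_primeFactors h)
    (fun n hn => by
      obtain ⟨m, hm, rfl⟩ := mem_image.mp hn
      refine ⟨mul_ne_zero (hs m hm).1 hq0.ne', ?_⟩
      rw [Nat.primeFactors_mul (hs m hm).1 hq0.ne', hq1, ← (hs m hm).2, radQ_primeFactors]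
      ext p
      simp only [mem_union, mem_filter, Nat.mem_primeFactors]
      have := hQ.ne'
      tauto)
  rw [sum_image (fun a _ b _ h => Nat.eq_of_mul_eq_mul_right hq0 h), prod_union hdis,
    inv_totient_eq hr] at h1
  have h2 : (q : ℝ) * ∏ p ∈ Q.primeFactors, ((p : ℝ) - 1)⁻¹ = Q / Q.totient := by
    rw [← prod_primeFactors_one_add_inv Q hQ, hq, Nat.cast_prod, ← prod_mul_distrib]
    refine prod_congr rfl fun p hp => ?_
    have : (1 : ℝ) < p := by exact_mod_cast (Nat.prime_of_mem_primeFactors hp).one_lt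
    have h1 : (p : ℝ) - 1 ≠ 0 := by linarith only [this]
    field_simp; ring
  have hq' : (0 : ℝ) < q := by exact_mod_cast hq0
  calc _ = q * ∑ m ∈ s, ((m * q : ℕ) : ℝ)⁻¹ := by
        rw [mul_sum]
        refine sum_congr rfl fun m _ => ?_
        push_cast; rw [mul_inv, one_div]; field_simp
    _ ≤ _ := by
        rw [← h2, mul_assoc, mul_comm _ ((r.totient : ℝ)⁻¹)]
        gcongr

theorem sum_inv_sq_tail (k n : ℕ) :
    ∑ a ∈ Icc 1 n, (if k < a then (1 : ℝ) / (a : ℝ) ^ 2 else 0) ≤ 2 / (k + 1) := by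
  refine le_trans ?_ (sum_Ioo_inv_sq_le (α := ℝ) k (n + 1))
  rw [← sum_filter]
  simp only [one_div]
  refine sum_le_sum_of_subset_of_nonneg (fun a ha => ?_) fun _ _ _ => by positivity
  simp only [mem_filter, mem_Icc, mem_Ioo] at ha ⊢
  omega

theorem sum_inv_far_le {Q R W : ℕ} (hQ : 0 < Q) (hW : 0 < W) {Z : ℝ}
    (hτ : (Q.divisors.card : ℝ) ≤ Z) (hH : HH R ≤ Z) :
    ∑ m ∈ (Icc 1 R).filter (fun m => radQ Q m * W ^ 3 < m), (1 : ℝ) / m ≤ 4 * Z ^ 2 / W := by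
  have hW' : (0 : ℝ) < W := by exact_mod_cast hW
  have h1 : ∑ m ∈ (Icc 1 R).filter (fun m => radQ Q m * W ^ 3 < m), (1 : ℝ) / m ≤
      ∑ x ∈ (Icc 1 R ×ˢ Q.divisors) ×ˢ Icc 1 R,
        ((if W < x.1.1 then (1 : ℝ) / (x.1.1 : ℝ) ^ 2 else 0) +
          (if 0 < x.1.1 then 1 / (x.1.1 : ℝ) ^ 2 else 0) / W) * (1 / x.2) := by
    refine sum_le_of_section _ _ _ _ (fun x : (ℕ × ℕ) × ℕ => x.1.1 ^ 2 * (x.1.2 * x.2))
      (fun _ _ => by split_ifs <;> positivity) ?_
    intro m hm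
    obtain ⟨hm, hlt⟩ := mem_filter.mp hm
    rw [mem_Icc] at hm
    obtain ⟨b0, a, hme, hb0⟩ := Nat.sq_mul_squarefree m
    have hb0pos : 0 < b0 := Nat.pos_of_ne_zero hb0.ne_zero
    have ha : 0 < a := Nat.pos_of_ne_zero fun h => by simp [h] at hme; omega
    obtain ⟨b, hb⟩ : Nat.gcd b0 Q ∣ b0 := Nat.gcd_dvd_left _ _
    set g := Nat.gcd b0 Q with hg
    have hgpos : 0 < g := Nat.gcd_pos_of_pos_left _ hb0pos
    have hbpos : 0 < b := Nat.pos_of_ne_zero fun h => by simp [h] at hb; omega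
    have hbm : b ∣ m := by rw [← hme, hb]; exact Dvd.dvd.mul_left (dvd_mul_left _ _) _
    have hble : b ≤ radQ Q m := by
      refine Nat.le_of_dvd (Nat.pos_of_ne_zero (radQ_squarefree Q m).ne_zero) ?_
      rw [← Nat.prod_primeFactors_of_squarefree (hb0.squarefree_of_dvd (Dvd.intro_left _ hb.symm))]
      refine prod_dvd_prod_of_subset _ _ (fun p => p) fun p hp => mem_filter.mpr
        ⟨Nat.primeFactors_mono hbm (by omega) hp, fun hpQ => ?_⟩
      have hcop : Nat.Coprime g b := Nat.coprime_of_squarefree_mul (hb ▸ hb0)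
      have hpb := Nat.dvd_of_mem_primeFactors hp
      exact (Nat.prime_of_mem_primeFactors hp).one_lt.ne' (Nat.eq_one_of_dvd_coprimes hcop
        (Nat.dvd_gcd (hpb.trans (Dvd.intro_left _ hb.symm)) hpQ) hpb)
    have hm' : m = a ^ 2 * (g * b) := by rw [← hb, hme]
    refine ⟨((a, g), b), ?_, hm'.symm, ?_⟩
    · simp only [mem_product, mem_Icc, Nat.mem_divisors]
      exact ⟨⟨⟨ha, (Nat.le_of_dvd hm.1 (hme ▸ Dvd.dvd.mul_right (dvd_pow_self a two_ne_zero) _)).trans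
        hm.2⟩, Nat.gcd_dvd_right _ _, hQ.ne'⟩, hbpos, (Nat.le_of_dvd hm.1 hbm).trans hm.2⟩
    · have e : (1 : ℝ) / m = 1 / (a : ℝ) ^ 2 / g * (1 / b) := by
        rw [hm']; push_cast; field_simp
      have hg1 : (1 : ℝ) ≤ g := by exact_mod_cast hgpos
      simp only [if_pos ha]
      rw [e]
      gcongr
      split_ifs with h
      · have : 1 / (a : ℝ) ^ 2 / g ≤ 1 / (a : ℝ) ^ 2 := div_le_self (by positivity) hg1
        have : 0 ≤ 1 / (a : ℝ) ^ 2 / W := by positivity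
        linarith
      · have h3 : W ≤ g := by
          by_contra h4
          have a1 : a ^ 2 ≤ W ^ 2 := Nat.pow_le_pow_left (by omega) 2
          have a2 : a ^ 2 * (g * b) ≤ W ^ 2 * (W * radQ Q m) := by gcongr; omega
          rw [← hm'] at a2
          linarith only [hlt, a2]
        rw [zero_add]
        gcongr
  refine h1.trans ?_
  rw [sum_product' (f := fun (y : ℕ × ℕ) (b : ℕ) => ((if W < y.1 then (1 : ℝ) / (y.1 : ℝ) ^ 2 else 0) +
    (if 0 < y.1 then 1 / (y.1 : ℝ) ^ 2 else 0) / W) * (1 / b)), ← sum_mul_sum,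
    sum_product' (f := fun (a _ : ℕ) => ((if W < a then (1 : ℝ) / (a : ℝ) ^ 2 else 0) +
    (if 0 < a then 1 / (a : ℝ) ^ 2 else 0) / W))]
  simp only [sum_const, nsmul_eq_mul]
  rw [← mul_sum, sum_add_distrib, ← sum_div]
  have a1 := sum_inv_sq_tail W R
  have a2 := sum_inv_sq_tail 0 R
  have a3 : 2 / ((W : ℝ) + 1) ≤ 2 / W := by gcongr; linarith only []
  have hZ : 0 ≤ Z := (HH_nonneg _).trans hH
  calc _ ≤ Z * (2 / W + 2 / W) * Z := by
        refine mul_le_mul (mul_le_mul hτ (add_le_add (a1.trans a3) ?_) ?_ hZ) hH (HH_nonneg _)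
          (by positivity)
        · gcongr; simpa using a2
        · refine add_nonneg (sum_nonneg fun _ _ => ?_) (div_nonneg (sum_nonneg fun _ _ => ?_)
            hW'.le) <;> split_ifs <;> positivity
    _ = _ := by ring

theorem le_Sg {Q R1 R W : ℕ} (hQ : 0 < Q) (hW : 0 < W) {Z : ℝ}
    (hτ : (Q.divisors.card : ℝ) ≤ Z) (hH : HH R ≤ Z) :
    HH R - HH (R1 * W ^ 3) - 4 * Z ^ 2 / W ≤ Q / Q.totient * Sg (RR Q R1 R) := by
  have h1 : ∑ m ∈ (Icc 1 R).filter (fun m => R1 < radQ Q m), (1 : ℝ) / m ≤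
      Q / Q.totient * Sg (RR Q R1 R) := by
    rw [← sum_fiberwise_of_maps_to (t := RR Q R1 R) (g := radQ Q), Sg, mul_sum]
    · refine sum_le_sum fun r hr => sum_inv_fiber_le hQ (mem_filter.mp hr).2.1 _ fun m hm => ?_
      have := mem_filter.mp hm
      exact ⟨by have := (mem_Icc.mp (mem_filter.mp this.1).1).1; omega, this.2⟩
    · intro m hm
      obtain ⟨h1, h2⟩ := mem_filter.mp hm
      rw [mem_Icc] at h1
      refine mem_filter.mpr ⟨mem_Ioc.mpr ⟨h2, le_trans (Nat.le_of_dvd h1.1 ?_) h1.2⟩,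
        radQ_squarefree Q m, ?_⟩
      · exact (prod_dvd_prod_of_subset _ _ (fun p => p) (filter_subset _ _)).trans
          (Nat.prod_primeFactors_dvd m)
      · refine Nat.Coprime.prod_right fun p hp => ?_
        exact ((Nat.Prime.coprime_iff_not_dvd
          (Nat.prime_of_mem_primeFactors (mem_filter.mp hp).1)).mpr (mem_filter.mp hp).2).symm
  have h2 := sum_inv_far_le hQ hW hτ hH
  have h3 : HH R ≤ HH (R1 * W ^ 3) + (∑ m ∈ (Icc 1 R).filter (fun m => R1 < radQ Q m), (1 : ℝ) / m +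
      ∑ m ∈ (Icc 1 R).filter (fun m => radQ Q m * W ^ 3 < m), (1 : ℝ) / m) := by
    have h4 : ∑ m ∈ (Icc 1 R).filter (fun m => m ≤ R1 * W ^ 3), (1 : ℝ) / m ≤ HH (R1 * W ^ 3) := by
      refine sum_le_sum_of_subset_of_nonneg (fun m hm => ?_) fun _ _ _ => by positivity
      simp only [mem_filter, mem_Icc] at hm ⊢
      exact ⟨hm.1.1, hm.2⟩
    refine le_trans ?_ (add_le_add h4 le_rfl)
    simp only [sum_filter, ← sum_add_distrib]
    refine sum_le_sum fun m _ => ?_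
    have h0 : (0 : ℝ) ≤ 1 / m := by positivity
    have h5 : m ≤ R1 * W ^ 3 ∨ R1 < radQ Q m ∨ radQ Q m * W ^ 3 < m := by
      by_contra hc
      simp only [not_or, not_le, not_lt] at hc
      have := Nat.mul_le_mul_right (W ^ 3) hc.2.1
      omega
    split_ifs <;> first | linarith | tauto
  linarith only [h1, h2, h3]

end Pool.Agent.Work.MP_5d318d_nt
end
end

-- merged part: Pool.Agent.Work.MP_5d318d_nt.Weight
section
/-!
# The triangular weight
-/

noncomputable section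

open Finset Real

namespace Pool.Agent.Work.MP_5d318d_nt

/-- triangle function of height `H` on `[0, 2H]` -/
def tri (H t : ℝ) : ℝ := max t 0 - 2 * max (t - H) 0 + max (t - 2 * H) 0

variable {H : ℝ}

theorem tri_nonneg (hH : 0 ≤ H) (t : ℝ) : 0 ≤ tri H t := by
  unfold tri; simp only [max_def]; split_ifs <;> linarith

theorem tri_le (hH : 0 ≤ H) (t : ℝ) : tri H t ≤ H := by
  unfold tri; simp only [max_def]; split_ifs <;> linarith

theorem tri_eq_zero (hH : 0 ≤ H) {t : ℝ} (h : t ≤ 0 ∨ 2 * H ≤ t) : tri H t = 0 := by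
  unfold tri; simp only [max_def]; rcases h with h | h <;> split_ifs <;> linarith

theorem tri_lip (hH : 0 ≤ H) (t : ℝ) {q : ℝ} (hq : 0 ≤ q) : |tri H (t + q) - tri H t| ≤ q := by
  unfold tri; simp only [max_def]; rw [abs_le]; constructor <;> split_ifs <;> linarith

theorem sum_tri (H : ℕ) : ∑ t ∈ range (2 * H), tri H t = (H : ℝ) ^ 2 := by
  rw [two_mul, sum_range_add, ← sum_add_distrib, sq, ← nsmul_eq_mul]
  conv_rhs => rw [← card_range H, ← sum_const, card_range]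
  refine sum_congr rfl fun t ht => ?_
  have h1 : (t : ℝ) ≤ H := by exact_mod_cast (mem_range.mp ht).le
  have h2 : (0 : ℝ) ≤ t := Nat.cast_nonneg _
  push_cast
  unfold tri; simp only [max_def]; split_ifs <;> linarith

theorem sum_Icc_tele (f : ℤ → ℝ) (a : ℤ) (n : ℕ) :
    ∑ k ∈ Icc a (a + n), (f (k + 1) - f k) = f (a + n + 1) - f a := by
  induction n with
  | zero => simp
  | succ n ih =>
    rw [show Icc a (a + (n + 1 : ℕ)) = insert (a + n + 1) (Icc a (a + n)) by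
      ext; simp only [mem_Icc, mem_insert]; push_cast; omega, sum_insert (by simp), ih]
    push_cast; rw [← add_assoc]; ring

theorem ramp_dd (x : ℝ) {q : ℝ} (hq : 0 ≤ q) (a : ℤ) (n : ℕ) :
    ∑ k ∈ Icc a (a + n), |max (x + (k + 2 : ℤ) * q) 0 - 2 * max (x + (k + 1 : ℤ) * q) 0 +
      max (x + k * q) 0| ≤ q := by
  have h := sum_Icc_tele (fun k => max (x + (k + 1 : ℤ) * q) 0 - max (x + k * q) 0) a n
  refine le_trans (le_of_eq (sum_congr rfl fun k _ => ?_)) (h.le.trans ?_)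
  · push_cast
    rw [abs_of_nonneg]
    · ring_nf
    · rw [show x + (k + 2) * q = x + k * q + 2 * q by ring,
        show x + (k + 1) * q = x + k * q + q by ring]
      generalize x + k * q = y
      simp only [max_def]; split_ifs <;> linarith
  · push_cast
    rw [show x + (a + n + 1 + 1) * q = x + (a + n + 1) * q + q by ring,
      show x + (a + 1) * q = x + a * q + q by ring]
    generalize x + (a + n + 1) * q = y
    generalize x + a * q = z
    simp only [max_def]; split_ifs <;> linarith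

/-- the weight `k ↦ tri (x + k q) / H` -/
def gam (H q : ℕ) (x : ℤ) (k : ℤ) : ℝ := tri H (x + k * q) / H

theorem wt_gam {H q N : ℕ} (hH : 0 < H) (hq : 0 < q) {x : ℤ}
    (hx : x ∈ Icc (-(N : ℤ)) (N + 2 * H)) : Wt ((N + 2 * H) / q) (q / H) (gam H q x) := by
  have hH' : (0 : ℝ) < H := by exact_mod_cast hH
  have hq' : (0 : ℝ) ≤ q := Nat.cast_nonneg _
  refine ⟨fun k => ?_, fun k hk => ?_, fun k => ?_, ?_⟩
  · rw [gam, abs_of_nonneg (div_nonneg (tri_nonneg hH'.le _) hH'.le), div_le_one hH']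
    exact tri_le hH'.le _
  · rw [gam, tri_eq_zero hH'.le, zero_div]
    have h1 := Nat.lt_div_mul_add (a := N + 2 * H) hq
    generalize (N + 2 * H) / q = T at h1 hk
    rw [mem_Icc] at hk hx
    have h2 : (N : ℤ) + 2 * H < T * q + q := by exact_mod_cast h1
    have h3 : (0 : ℤ) ≤ q := Int.natCast_nonneg _
    rcases (by omega : k ≤ -(T + 1) ∨ T + 1 ≤ k) with h | h
    · left
      have : x + k * q ≤ 0 := by linarith only [hx, h1, h, mul_nonneg_of_nonpos_of_nonpos (Mathlib.Tactic.Linarith.sub_nonpos_of_le (Mathlib.Tactic.Linarith.natCast_nonneg ℤ q)) (Mathlib.Tactic.Linarith.sub_nonpos_of_le h)]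
      exact_mod_cast this
    · right
      have : 2 * H ≤ x + k * q := by linarith only [hx, h1, h, mul_nonneg_of_nonpos_of_nonpos (Mathlib.Tactic.Linarith.sub_nonpos_of_le (Mathlib.Tactic.Linarith.natCast_nonneg ℤ q)) (Mathlib.Tactic.Linarith.sub_nonpos_of_le h)]
      exact_mod_cast this
  · rw [gam, gam, ← sub_div, abs_div, abs_of_pos hH']
    push_cast
    rw [show (x : ℝ) + (k + 1) * q = x + k * q + q by ring]
    exact div_le_div_of_nonneg_right (tri_lip hH'.le _ hq') hH'.le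
  · generalize (N + 2 * H) / q = T
    have e : (T : ℤ) = -T - 2 + (2 * T + 2 : ℕ) := by push_cast; ring
    have a1 := ramp_dd x hq' (-T - 2) (2 * T + 2)
    have a2 := ramp_dd (x - H) hq' (-T - 2) (2 * T + 2)
    have a3 := ramp_dd (x - 2 * H) hq' (-T - 2) (2 * T + 2)
    rw [← e] at a1 a2 a3
    have a4 := add_le_add (add_le_add a1 (mul_le_mul_of_nonneg_left a2 zero_le_two)) a3
    rw [mul_sum, ← sum_add_distrib, ← sum_add_distrib] at a4
    rw [← mul_div_assoc, le_div_iff₀ hH', sum_mul]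
    refine le_trans (sum_le_sum fun k _ => ?_) (a4.trans (by linarith only []))
    rw [← abs_of_pos hH', ← abs_mul, abs_of_pos hH']
    have tr : ∀ A B C : ℝ, |A - 2 * B + C| ≤ |A| + 2 * |B| + |C| := fun A B C => by
      have := abs_add_le (A - 2 * B) C
      have := abs_sub A (2 * B)
      rw [abs_mul, abs_two] at this
      linarith
    refine le_trans (le_of_eq ?_) (tr _ _ _)
    congr 1
    unfold gam tri
    simp only [add_sub_right_comm]
    field_simp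
    ring

/-- the `t`-th interval -/
def II (N H t : ℕ) : Finset ℤ := Ioc (t - 2 * H : ℤ) (t - 2 * H + (N + 2 * H : ℕ))

/-- the smoothed indicator function of `[1, N]` -/
def ww (N H : ℕ) (m : ℤ) : ℝ := ∑ t ∈ range (2 * H), if m ∈ II N H t then tri H t / H ^ 2 else 0

theorem mem_II {N H t n : ℕ} (hn : n ≤ N) (ht : t ∈ range (2 * H)) : (n : ℤ) ∈ II N H t := by
  rw [mem_range] at ht
  rw [II, mem_Ioc]; push_cast; omega

theorem sum_tri_div {H : ℕ} (hH : 0 < H) : ∑ t ∈ range (2 * H), tri H t / H ^ 2 = 1 := by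
  rw [← sum_div, sum_tri, div_self (by positivity)]

theorem ww_eq_one {N H n : ℕ} (hH : 0 < H) (hn : n ≤ N) : ww N H n = 1 := by
  rw [← sum_tri_div hH]
  exact sum_congr rfl fun t ht => if_pos (mem_II hn ht)

theorem abs_ww_le {N H : ℕ} (hH : 0 < H) (m : ℤ) : |ww N H m| ≤ 1 := by
  rw [← sum_tri_div hH]
  refine (abs_sum_le_sum_abs _ _).trans (sum_le_sum fun t _ => ?_)
  have : 0 ≤ tri H t / H ^ 2 := div_nonneg (tri_nonneg (Nat.cast_nonneg _) _) (by positivity)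
  split_ifs
  · exact (abs_of_nonneg this).le
  · simpa using this

theorem ww_shift {N H n : ℕ} (hn : n ∈ Icc 1 N) (q : ℕ) (k : ℤ) :
    ww N H (n + k * q) = ∑ x ∈ Icc (-(N : ℤ)) (N + 2 * H),
      if x - 2 * H < n ∧ n ≤ x + N then gam H q x k / H else 0 := by
  rw [mem_Icc] at hn
  unfold ww gam
  refine sum_bij_ne_zero (fun t _ _ => (t : ℤ) - k * q) ?_ ?_ ?_ ?_
  · intro t _ h
    have := (ite_ne_right_iff.mp h).1
    rw [II, mem_Ioc] at this
    rw [mem_Icc]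
    push_cast at this
    omega
  · intro a _ _ b _ _ h
    omega
  · intro x _ h
    obtain ⟨h1, h2⟩ := ite_ne_right_iff.mp h
    have h3 : ¬ ((x : ℝ) + k * q ≤ 0 ∨ 2 * (H : ℝ) ≤ x + k * q) := fun h =>
      h2 (by rw [tri_eq_zero (Nat.cast_nonneg _) h]; simp)
    rw [not_or, not_le, not_le] at h3
    have h4 : 0 < x + k * q := by exact_mod_cast h3.1
    have h5 : x + k * q < 2 * H := by exact_mod_cast h3.2
    obtain ⟨t, ht⟩ := Int.eq_ofNat_of_zero_le h4.le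
    have h6 : (t : ℝ) = x + k * q := by exact_mod_cast ht.symm
    refine ⟨t, mem_range.mpr (by omega), ?_, by omega⟩
    rw [if_pos (by rw [II, mem_Ioc]; push_cast; omega), h6, sq, ← div_div]
    exact h2
  · intro t _ h
    have := (ite_ne_right_iff.mp h).1
    rw [if_pos this]
    rw [II, mem_Ioc] at this
    push_cast at this ⊢
    rw [if_pos (by omega), sub_add_cancel, sq, div_div]

theorem TS_window (a : ℕ → ℝ) (N H : ℕ) (x : ℤ) {d : ℕ} (χ : DirichletCharacter ℂ d) :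
    ∑ n ∈ Icc 1 N, (if x - 2 * H < n ∧ n ≤ x + N then (a n : ℂ) * χ (n : ZMod d) else 0) =
      TS a (min N (x + N).toNat) χ - TS a (min N (x - 2 * H).toNat) χ := by
  unfold TS
  rw [← sum_sdiff_eq_sub (Icc_subset_Icc_right (by omega)), ← sum_filter]
  refine sum_congr ?_ fun _ _ => rfl
  ext n
  simp only [mem_filter, mem_sdiff, mem_Icc]
  omega

theorem norm_window_le (a : ℕ → ℝ) {N H : ℕ} (q T : ℕ) {d : ℕ}
    (χ : DirichletCharacter ℂ d) :
    ‖∑ n ∈ Icc 1 N, (a n : ℂ) * χ (n : ZMod d) * ∑ k ∈ Icc (-(T : ℤ)) T,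
      (ww N H (n + k * q) : ℂ) * (starRingEnd ℂ) (χ (k : ZMod d))‖ ≤
      ∑ x ∈ Icc (-(N : ℤ)) (N + 2 * H), (H : ℝ)⁻¹ *
        (‖TS a (min N (x + N).toNat) χ‖ * ‖Ct χ T (gam H q x)‖ +
         ‖TS a (min N (x - 2 * H).toNat) χ‖ * ‖Ct χ T (gam H q x)‖) := by
  have h1 : ∑ n ∈ Icc 1 N, (a n : ℂ) * χ (n : ZMod d) * ∑ k ∈ Icc (-(T : ℤ)) T,
      (ww N H (n + k * q) : ℂ) * (starRingEnd ℂ) (χ (k : ZMod d)) =
      ∑ x ∈ Icc (-(N : ℤ)) (N + 2 * H), (H : ℂ)⁻¹ *
        ((TS a (min N (x + N).toNat) χ - TS a (min N (x - 2 * H).toNat) χ) *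
          Ct χ T (gam H q x)) := by
    simp_rw [← TS_window, sum_mul, mul_sum (Icc 1 N)]
    rw [sum_comm]
    refine sum_congr rfl fun n hn => ?_
    simp_rw [ww_shift hn, Complex.ofReal_sum, sum_mul]
    rw [sum_comm, mul_sum]
    refine sum_congr rfl fun x _ => ?_
    split_ifs
    · rw [Ct, mul_sum, mul_sum, mul_sum]
      refine sum_congr rfl fun k _ => ?_
      push_cast; ring
    · simp
  rw [h1]
  refine (norm_sum_le _ _).trans (sum_le_sum fun x _ => ?_)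
  rw [norm_mul, norm_mul, norm_inv, Complex.norm_natCast, ← add_mul]
  gcongr
  exact norm_sub_le _ _

end Pool.Agent.Work.MP_5d318d_nt
end
end
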