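import Pool.Agent.Work.MP_5d318d_nt.Core
import Pool.Agent.Lib.ANT.Moebius
import Pool.Agent.Work.MP_5d318d_nt.Weight

-- merged part: Pool.Agent.Work.MP_5d318d_nt.AExpand
section
/-!
# Ramanujan sums at a general shifted argument
-/

noncomputable section

open Finset Real ArithmeticFunction

namespace Pool.Agent.Work.MP_5d318d_nt

open Pool.Agent.Lib.LargeSieve Pool.Agent.Lib.ANT

theorem ram_mul {a b : ℕ} (hab : a.Coprime b) (m : ℤ) : ram (a * b) m = ram a m * ram b m := by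
  let f : ArithmeticFunction ℝ := ⟨fun n => if (n : ℤ) ∣ m then (n : ℝ) else 0, by simp⟩
  have hf : f.IsMultiplicative := by
    refine ⟨by simp [f], fun {x y} hxy => ?_⟩
    have hc : IsCoprime (x : ℤ) (y : ℤ) := Nat.isCoprime_iff_coprime.mpr hxy
    have : ((x * y : ℕ) : ℤ) ∣ m ↔ (x : ℤ) ∣ m ∧ (y : ℤ) ∣ m := by
      push_cast
      exact ⟨fun h => ⟨(dvd_mul_right _ _).trans h, (dvd_mul_left _ _).trans h⟩,
        fun h => hc.mul_dvd h.1 h.2⟩
    simp only [f, coe_mk, this]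
    by_cases a1 : (x : ℤ) ∣ m <;> by_cases a2 : (y : ℤ) ∣ m <;> simp [a1, a2]
  have h : ∀ r, ram r m = (muR * f) r := fun r => by
    rw [ram_eq, ArithmeticFunction.mul_apply]; rfl
  rw [h, h, h]
  exact (isMultiplicative_moebius.intCast.mul hf).map_mul_of_coprime hab

theorem ram_congr {g : ℕ} {n : ℤ} (hn : (g : ℤ) ∣ n) (h : ℤ) : ram g (n + h) = ram g h :=
  sum_congr rfl fun f hf => by
    simp only [dvd_add_right ((Int.natCast_dvd_natCast.mpr (Nat.dvd_of_mem_divisors hf)).trans hn)]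

theorem muR_mul {a b : ℕ} (hab : a.Coprime b) : muR (a * b) = muR a * muR b :=
  isMultiplicative_moebius.intCast.map_mul_of_coprime hab

theorem muR_sq {r : ℕ} (hr : Squarefree r) : muR r * muR r = 1 := by
  rw [muR, intCoe_apply, ← sq]
  exact_mod_cast moebius_sq_eq_one_of_squarefree hr

theorem muR_div {s e : ℕ} (hs : Squarefree s) (he : e ∣ s) : muR (s / e) = muR s * muR e := by
  obtain ⟨t, rfl⟩ := he
  have he0 : 0 < e := Nat.pos_of_ne_zero (left_ne_zero_of_mul hs.ne_zero)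
  rw [Nat.mul_div_cancel_left _ he0, muR_mul (Nat.coprime_of_squarefree_mul hs), mul_right_comm,
    muR_sq hs.of_mul_left, one_mul]

theorem filter_dvd_Icc {r R : ℕ} (hr : r ≠ 0) (hR : r ≤ R) :
    (Icc 1 R).filter (fun d => d ∣ r) = r.divisors := by
  ext d
  rw [mem_filter, mem_Icc, Nat.mem_divisors]
  exact ⟨fun h => ⟨h.2, hr⟩, fun h => ⟨⟨Nat.pos_of_dvd_of_pos h.1 (Nat.pos_of_ne_zero hr),
    (Nat.le_of_dvd (Nat.pos_of_ne_zero hr) h.1).trans hR⟩, h.1⟩⟩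

theorem ram_add_coprime {r : ℕ} (hr : Squarefree r) {n : ℤ} (hn : IsCoprime n r) (h : ℤ) :
    (ram r (n + h) : ℂ) = ∑ d ∈ r.divisors,
      (((d : ℝ) / r.totient * (muR (r / d) * ram (r / d) h) : ℝ) : ℂ) * primKer d n (-h) := by
  have h1 := ram_expand hr le_rfl hn (Q := 1) isCoprime_one_left h
  rw [mul_one] at h1
  rw [h1, ← filter_dvd_Icc hr.ne_zero le_rfl, sum_filter]
  refine sum_congr rfl fun d hd => ?_
  split_ifs with hdr
  · obtain ⟨s, rfl⟩ := hdr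
    have hd0 : 0 < d := (mem_Icc.mp hd).1
    have hs : Squarefree s := hr.of_mul_right
    rw [Nat.mul_div_cancel_left _ hd0, ram, ← filter_dvd_Icc hs.ne_zero
      (Nat.le_mul_of_pos_left s hd0), sum_filter, mul_sum, mul_sum, Complex.ofReal_sum, sum_mul]
    refine sum_congr rfl fun e _ => ?_
    simp only [Nat.mul_dvd_mul_iff_left hd0]
    by_cases a1 : e ∣ s
    · by_cases a2 : (e : ℤ) ∣ h
      · simp only [if_pos a1, if_pos a2]
        rw [muR_div hs a1, show muR s * (e * (muR s * muR e)) = (muR s * muR s) * (e * muR e) by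
          ring, muR_sq hs]
        push_cast; ring
      · simp [a2]
    · simp [a1]
  · refine sum_eq_zero fun e _ => ?_
    rw [if_neg (fun h' : d * e ∣ r => hdr ((dvd_mul_right _ _).trans h'))]
    simp

theorem primKer_eq_zero_left {d : ℕ} {n : ℤ} (m : ℤ) (h : ¬ IsCoprime n d) :
    primKer d n m = 0 := by
  refine sum_eq_zero fun ψ _ => ?_
  rw [ψ.map_nonunit (fun hu => h ((ZMod.coe_int_isUnit_iff_isCoprime n d).mp hu).symm)]
  simp

/-- `c_r(n + h) = ∑_{d s = r} (d / φ(r)) c_s(n) c_s(h) P_d(n, -h)` for squarefree `r`. -/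
theorem ram_add {r : ℕ} (hr : Squarefree r) (n h : ℤ) :
    (ram r (n + h) : ℂ) = ∑ d ∈ r.divisors,
      (((d : ℝ) / r.totient * (ram (r / d) n * ram (r / d) h) : ℝ) : ℂ) * primKer d n (-h) := by
  obtain ⟨t, ht⟩ : Int.gcd n r ∣ r := by
    simpa using Int.natCast_dvd_natCast.mp (Int.gcd_dvd_right n r)
  have hgn : ((Int.gcd n r : ℕ) : ℤ) ∣ n := Int.gcd_dvd_left _ _
  have hct : IsCoprime n t := by
    rw [Int.isCoprime_iff_gcd_eq_one]
    have h1 : Int.gcd n t ∣ Int.gcd n r := Int.dvd_gcd (Int.gcd_dvd_left _ _)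
      ((Int.gcd_dvd_right _ _).trans (Int.natCast_dvd_natCast.mpr (Dvd.intro_left _ ht.symm)))
    have h2 : Int.gcd n t ∣ t := Int.natCast_dvd_natCast.mp (Int.gcd_dvd_right _ _)
    exact Nat.eq_one_of_dvd_coprimes (Nat.coprime_of_squarefree_mul (ht ▸ hr)) h1 h2
  generalize Int.gcd n r = g at ht hgn
  subst ht
  have hc : g.Coprime t := Nat.coprime_of_squarefree_mul hr
  have hg0 : g ≠ 0 := left_ne_zero_of_mul hr.ne_zero
  have hφ : (g.totient : ℝ) ≠ 0 := by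
    exact_mod_cast (Nat.totient_pos.mpr (Nat.pos_of_ne_zero hg0)).ne'
  rw [ram_mul hc, ram_congr hgn, Complex.ofReal_mul, ram_add_coprime hr.of_mul_right hct, mul_sum]
  symm
  refine (sum_subset (Nat.divisors_subset_of_dvd hr.ne_zero (dvd_mul_left t g)) ?_).symm.trans
    (sum_congr rfl fun d hd => ?_)
  · intro d hd hd'
    rw [primKer_eq_zero_left, mul_zero]
    intro hc'
    refine hd' (Nat.mem_divisors.mpr ⟨?_, hr.of_mul_right.ne_zero⟩)
    exact (Nat.isCoprime_iff_coprime.mp (hc'.of_isCoprime_of_dvd_left hgn)).symm.dvd_of_dvd_mul_left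
      (Nat.dvd_of_mem_divisors hd)
  · have hdt := Nat.dvd_of_mem_divisors hd
    have hc2 : g.Coprime (t / d) := hc.coprime_dvd_right (Nat.div_dvd_of_dvd hdt)
    have e1 : ram g n = g.totient := by
      simpa using (ram_congr hgn 0).trans (ram_zero hg0)
    have e2 : ram (t / d) n = muR (t / d) := ram_of_coprime
      (hr.of_mul_right.squarefree_of_dvd (Nat.div_dvd_of_dvd hdt)).ne_zero
      (hct.of_isCoprime_of_dvd_right (Int.natCast_dvd_natCast.mpr (Nat.div_dvd_of_dvd hdt)))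
    rw [Nat.mul_div_assoc _ hdt, ram_mul hc2, ram_mul hc2, e1, e2, Nat.totient_mul hc,
      ← mul_assoc (ram g h : ℂ), ← Complex.ofReal_mul]
    congr 2
    push_cast
    field_simp

theorem ram_reduce {r Q : ℕ} (hr : Squarefree r) {m : ℤ} (hm : IsCoprime m Q) :
    ram r m = muR (r.gcd Q) * ram (r / r.gcd Q) m := by
  have h1 := Nat.gcd_dvd_left r Q
  have h2 : IsCoprime m (r.gcd Q : ℕ) :=
    hm.of_isCoprime_of_dvd_right (Int.natCast_dvd_natCast.mpr (Nat.gcd_dvd_right r Q))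
  have h3 := Nat.mul_div_cancel' h1
  conv_lhs => rw [← h3]
  rw [ram_mul (Nat.coprime_of_squarefree_mul (h3.symm ▸ hr)),
    ram_of_coprime (hr.squarefree_of_dvd h1).ne_zero h2]

theorem abs_ram_le (r : ℕ) (m : ℤ) :
    |ram r m| ≤ ∑ f ∈ r.divisors, if (f : ℤ) ∣ m then (f : ℝ) else 0 := by
  refine (abs_sum_le_sum_abs _ _).trans (sum_le_sum fun f _ => ?_)
  split_ifs
  · rw [abs_mul, Nat.abs_cast]
    exact mul_le_of_le_one_right (Nat.cast_nonneg _) (abs_muR_le _)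
  · simp

theorem sum_abs_ram_nat_le (s N : ℕ) : ∑ n ∈ Icc 1 N, |ram s n| ≤ N * s.divisors.card := by
  refine (sum_le_sum fun (n : ℕ) _ => abs_ram_le s n).trans ?_
  rw [sum_comm, mul_comm, ← nsmul_eq_mul]
  refine sum_le_card_nsmul _ _ _ fun f _ => ?_
  simp only [Int.natCast_dvd_natCast]
  rw [← sum_filter, sum_const, nsmul_eq_mul, show Icc 1 N = Ioc 0 N from rfl,
    Nat.Ioc_filter_dvd_card_eq_div]
  exact_mod_cast Nat.div_mul_le_self N f

theorem dvd_mul_iff_div {e Q : ℕ} (he : 0 < e) (k : ℤ) :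
    (e : ℤ) ∣ k * Q ↔ ((e / e.gcd Q : ℕ) : ℤ) ∣ k := by
  have hg : 0 < e.gcd Q := Nat.gcd_pos_of_pos_left _ he
  have hc := Nat.isCoprime_iff_coprime.mpr (Nat.coprime_div_gcd_div_gcd (m := e) (n := Q) hg)
  have h1 := Nat.mul_div_cancel' (Nat.gcd_dvd_left e Q)
  have h2 := Nat.mul_div_cancel' (Nat.gcd_dvd_right e Q)
  generalize e / e.gcd Q = a at *
  generalize Q / e.gcd Q = b at *
  generalize e.gcd Q = g at *
  subst h1 h2
  push_cast
  rw [mul_left_comm, mul_dvd_mul_iff_left (by exact_mod_cast hg.ne')]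
  exact ⟨fun h => hc.dvd_of_dvd_mul_right h, fun h => h.mul_right _⟩

theorem sum_abs_ram_mul_le {s : ℕ} (hs : s ≠ 0) (Q T : ℕ) :
    ∑ k ∈ (Icc (-(T : ℤ)) T).erase 0, |ram s (k * Q)| ≤ 2 * T * s.gcd Q * s.divisors.card := by
  refine (sum_le_sum fun k _ => abs_ram_le s _).trans ?_
  rw [sum_comm, mul_comm, ← nsmul_eq_mul]
  refine sum_le_card_nsmul _ _ _ fun f hf => ?_
  have hf0 := Nat.pos_of_mem_divisors hf
  simp only [dvd_mul_iff_div hf0]
  rw [← sum_filter, sum_const, nsmul_eq_mul]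
  have h1 := card_dvd_le T (f / f.gcd Q) (Nat.div_pos (Nat.gcd_le_left _ hf0)
    (Nat.gcd_pos_of_pos_left _ hf0))
  have h2 : (f : ℝ) = f.gcd Q * (f / f.gcd Q : ℕ) := by
    exact_mod_cast (Nat.mul_div_cancel' (Nat.gcd_dvd_left f Q)).symm
  have h3 : (f.gcd Q : ℝ) ≤ s.gcd Q := by
    exact_mod_cast Nat.le_of_dvd (Nat.gcd_pos_of_pos_left _ (Nat.pos_of_ne_zero hs))
      (Nat.gcd_dvd_gcd_of_dvd_left _ (Nat.dvd_of_mem_divisors hf))
  generalize (((Icc (-(T : ℤ)) T).erase 0).filter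
    (fun k => ((f / f.gcd Q : ℕ) : ℤ) ∣ k)).card = c at h1
  conv_lhs => rw [h2]
  calc _ = (f.gcd Q : ℝ) * ((f / f.gcd Q : ℕ) * c) := by ring
    _ ≤ s.gcd Q * (2 * T) := by gcongr
    _ = _ := by ring

theorem sum_gcd_div_sq_le {Q : ℕ} (hQ : Q ≠ 0) (y R : ℕ) :
    ∑ s ∈ Ioc y R, (s.gcd Q : ℝ) / (s : ℝ) ^ 2 ≤ Q.divisors.card * (2 / (y + 1)) := by
  have h := sum_le_of_section (Ioc y R) (Q.divisors.sigma fun q => Ioo (y / q) (R + 1))
    (fun s => (s.gcd Q : ℝ) / (s : ℝ) ^ 2) (fun x => (x.1 : ℝ)⁻¹ * ((x.2 : ℝ) ^ 2)⁻¹)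
    (fun x => x.1 * x.2) (fun _ _ => by positivity) (fun s hs => by
      rw [mem_Ioc] at hs
      have hg : 0 < s.gcd Q := Nat.gcd_pos_of_pos_left _ (by omega)
      have h1 := Nat.mul_div_cancel' (Nat.gcd_dvd_left s Q)
      refine ⟨⟨s.gcd Q, s / s.gcd Q⟩, mem_sigma.mpr ⟨Nat.mem_divisors.mpr
        ⟨Nat.gcd_dvd_right _ _, hQ⟩, mem_Ioo.mpr ⟨?_, ?_⟩⟩, h1, le_of_eq ?_⟩
      · exact (Nat.div_lt_iff_lt_mul hg).mpr (by rw [mul_comm, h1]; exact hs.1)
      · exact Nat.lt_succ_of_le ((Nat.div_le_self _ _).trans hs.2)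
      · have h2 : (s : ℝ) = s.gcd Q * (s / s.gcd Q : ℕ) := by exact_mod_cast h1.symm
        have h3 : (0 : ℝ) < s.gcd Q := by exact_mod_cast hg
        simp only
        generalize ((s / s.gcd Q : ℕ) : ℝ) = j at h2
        generalize ((s.gcd Q : ℕ) : ℝ) = g at h2 h3
        rw [h2]; field_simp)
  refine h.trans ?_
  rw [sum_sigma, ← nsmul_eq_mul]
  refine sum_le_card_nsmul _ _ _ fun q hq => ?_
  have hq0 := Nat.pos_of_mem_divisors hq
  have hq' : (0 : ℝ) < q := by exact_mod_cast hq0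
  simp only
  rw [← mul_sum]
  refine (mul_le_mul_of_nonneg_left (sum_Ioo_inv_sq_le _ _) (by positivity)).trans ?_
  rw [inv_mul_eq_div, div_div]
  gcongr
  have := Nat.lt_mul_div_succ y hq0
  rw [mul_comm]
  exact_mod_cast this

end Pool.Agent.Work.MP_5d318d_nt
end
end

-- merged part: Pool.Agent.Work.MP_5d318d_nt.ASel
section
/-!
# A Selberg type quadratic form with harmonic weights
-/

noncomputable section

open Finset Real ArithmeticFunction

namespace Pool.Agent.Work.MP_5d318d_nt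

open Pool.Agent.Lib.LargeSieve Pool.Agent.Lib.ANT

theorem sum_Icc_dvd {d : ℕ} (hd : 0 < d) (N : ℕ) (F : ℕ → ℝ) :
    ∑ k ∈ Icc 1 N, (if d ∣ k then F k else 0) = ∑ m ∈ Icc 1 (N / d), F (d * m) := by
  have := sum_Icc_ite_dvd hd N (fun k => (F k : ℂ))
  simp only [← apply_ite Complex.ofReal, ← Complex.ofReal_zero] at this
  exact_mod_cast this

theorem muR_eq_zero {n : ℕ} (h : ¬ Squarefree n) : muR n = 0 := by
  rw [muR, intCoe_apply, moebius_eq_zero_of_not_squarefree h, Int.cast_zero]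

theorem muR_mul_ite (r s : ℕ) : muR (r * s) = if r.Coprime s then muR r * muR s else 0 := by
  split_ifs with h
  · exact muR_mul h
  · exact muR_eq_zero fun h' => h (Nat.coprime_of_squarefree_mul h')

theorem radQ_dvd (q v : ℕ) : radQ q v ∣ v :=
  (prod_dvd_prod_of_subset _ _ (fun p => p) (filter_subset _ _)).trans (Nat.prod_primeFactors_dvd v)

theorem radQ_coprime (q v : ℕ) : (radQ q v).Coprime q :=
  Nat.Coprime.prod_left fun _ hp => (Nat.Prime.coprime_iff_not_dvd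
    (Nat.prime_of_mem_primeFactors (mem_filter.mp hp).1)).mpr (mem_filter.mp hp).2

theorem dvd_radQ {q v s : ℕ} (hv : v ≠ 0) (hs : Squarefree s) (h1 : s ∣ v) (h2 : s.Coprime q) :
    s ∣ radQ q v := by
  rw [← Nat.prod_primeFactors_of_squarefree hs]
  refine prod_dvd_prod_of_subset _ _ (fun p => p) fun p hp => mem_filter.mpr
    ⟨Nat.primeFactors_mono h1 hv hp, fun hq => (Nat.prime_of_mem_primeFactors hp).one_lt.ne'
      (Nat.eq_one_of_dvd_coprimes h2 (Nat.dvd_of_mem_primeFactors hp) hq)⟩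

theorem sum_muR_radQ (q : ℕ) {v : ℕ} (hv : v ≠ 0) (F : ℕ → ℝ) :
    ∑ s ∈ v.divisors, (if s.Coprime q then muR s * F s else 0) =
      ∑ s ∈ (radQ q v).divisors, muR s * F s := by
  symm
  refine (sum_congr rfl fun s hs => ?_).trans
    (sum_subset (Nat.divisors_subset_of_dvd hv (radQ_dvd q v)) fun s hs hs' => ?_)
  · rw [if_pos ((radQ_coprime q v).coprime_dvd_left (Nat.dvd_of_mem_divisors hs))]
  · split_ifs with h
    · rw [muR_eq_zero fun h' => hs' (Nat.mem_divisors.mpr ⟨dvd_radQ hv h'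
        (Nat.dvd_of_mem_divisors hs) h, (radQ_squarefree q v).ne_zero⟩), zero_mul]
    · rfl

/-- reciprocal sum over the integers in `(l, t]` composed of primes dividing `q` -/
def EE (q l t : ℕ) : ℝ := ∑ v ∈ Ioc l t, if radQ q v = 1 then (1 : ℝ) / v else 0

theorem EE_nonneg (q l t : ℕ) : 0 ≤ EE q l t :=
  sum_nonneg fun _ _ => by split_ifs <;> positivity

theorem EE_le {q : ℕ} (hq : 0 < q) (l t : ℕ) : EE q l t ≤ q / q.totient := by
  rw [EE, ← sum_filter]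
  simpa using sum_inv_fiber_le hq squarefree_one ((Ioc l t).filter fun v => radQ q v = 1)
    fun m hm => ⟨by have := (mem_Ioc.mp (mem_filter.mp hm).1).1; omega, (mem_filter.mp hm).2⟩

theorem sum_mu_HH (q : ℕ) {t y : ℕ} (h : t ≤ y) :
    ∑ s ∈ Icc 1 y, (if s.Coprime q then muR s * (HH (t / s) / s) else 0) = EE q 0 t := by
  have h1 : ∀ s ∈ Icc 1 y, (if s.Coprime q then muR s * (HH (t / s) / s) else 0) =
      ∑ v ∈ Icc 1 t, if s ∣ v then (if s.Coprime q then muR s * (1 / v) else 0) else 0 := by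
    intro s hs
    rw [sum_Icc_dvd (mem_Icc.mp hs).1]
    split_ifs
    · rw [HH, sum_div, mul_sum]
      exact sum_congr rfl fun j _ => by push_cast; ring
    · simp
  rw [sum_congr rfl h1, sum_comm]
  refine sum_congr rfl fun v hv => ?_
  rw [mem_Ioc] at hv
  rw [← sum_filter, filter_dvd_Icc (by omega) (hv.2.trans h), sum_muR_radQ q (by omega), ← sum_mul,
    sum_muR, boole_mul]

/-- alternating sum of harmonic numbers -/
def Wg (g t : ℕ) : ℝ := ∑ c ∈ g.divisors, muR c * HH (t / c)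

/-- the sieve weights -/
def lw (g t c : ℕ) : ℝ := if c.Coprime g then muR c * Wg g (t / c) else 0

/-- lower end point -/
def lo (g t : ℕ) : ℕ := if g = 1 then 0 else t / g

theorem abs_sum_EE_le {g : ℕ} (hg : g ≠ 0) (q t : ℕ) :
    |∑ c ∈ g.divisors, muR c * EE q 0 (t / c)| ≤ g.divisors.card * EE q (lo g t) t := by
  unfold lo
  split_ifs with h
  · subst h
    simp [muR, abs_of_nonneg (EE_nonneg _ _ _)]
  · have h1 : ∑ c ∈ g.divisors, muR c * EE q 0 (t / c) =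
        -∑ c ∈ g.divisors, muR c * EE q (t / c) t := by
      rw [eq_neg_iff_add_eq_zero, ← sum_add_distrib]
      refine (sum_congr rfl fun c _ => ?_).trans
        (show ∑ c ∈ g.divisors, muR c * EE q 0 t = 0 by rw [← sum_mul, sum_muR, if_neg h, zero_mul])
      rw [← mul_add, EE, EE, sum_Ioc_consecutive _ (Nat.zero_le _) (Nat.div_le_self _ _), EE]
    rw [h1, abs_neg, ← nsmul_eq_mul]
    refine (abs_sum_le_sum_abs _ _).trans (sum_le_card_nsmul _ _ _ fun c hc => ?_)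
    rw [abs_mul, abs_of_nonneg (EE_nonneg _ _ _)]
    refine (mul_le_of_le_one_left (EE_nonneg _ _ _) (abs_muR_le c)).trans ?_
    exact sum_le_sum_of_subset_of_nonneg (Ioc_subset_Ioc_left (Nat.div_le_div_left
      (Nat.divisor_le hc) (Nat.pos_of_mem_divisors hc))) fun _ _ _ => by split_ifs <;> positivity

theorem sum_lw {g r t y : ℕ} (hr : 0 < r) (h : t ≤ y) :
    ∑ c ∈ Icc 1 y, (if r ∣ c then lw g t c / c else 0) =
      if r.Coprime g then muR r / r * ∑ c ∈ g.divisors, muR c * EE (g * r) 0 (t / r / c) else 0 := by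
  rw [sum_Icc_dvd hr]
  split_ifs with hc
  · simp_rw [← sum_mu_HH (g * r) ((Nat.div_le_self _ _).trans (Nat.div_le_div_right h)), mul_sum]
    rw [sum_comm]
    refine sum_congr rfl fun s _ => ?_
    rw [lw, muR_mul_ite, Wg]
    by_cases a1 : s.Coprime (g * r)
    · have a2 := Nat.coprime_mul_iff_right.mp a1
      simp only [if_pos a1, if_pos a2.2.symm, if_pos (Nat.coprime_mul_iff_left.mpr ⟨hc, a2.1⟩)]
      rw [mul_sum, sum_div]
      refine sum_congr rfl fun c _ => ?_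
      rw [← Nat.div_div_eq_div_mul, Nat.div_right_comm]
      push_cast; ring
    · simp only [if_neg a1, mul_zero, sum_const_zero]
      split_ifs with a2 a3
      · exact absurd (Nat.coprime_mul_iff_right.mpr
          ⟨(Nat.coprime_mul_iff_left.mp a2).2, a3.symm⟩) a1
      · simp
      · simp
  · refine sum_eq_zero fun s _ => ?_
    rw [lw, if_neg fun h' => hc (Nat.Coprime.coprime_mul_right h'), zero_div]

theorem sum_lcm_eq (y : ℕ) (f : ℕ → ℝ) :
    ∑ c ∈ Icc 1 y, ∑ c' ∈ Icc 1 y, f c * f c' / c.lcm c' =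
      ∑ r ∈ Icc 1 y, r.totient * (∑ c ∈ Icc 1 y, if r ∣ c then f c / c else 0) ^ 2 := by
  simp_rw [sq, sum_mul_sum, mul_sum]
  rw [sum_comm (s := Icc 1 y) (t := Icc 1 y) (f := fun r c => ∑ c' ∈ Icc 1 y, (r.totient : ℝ) *
    ((if r ∣ c then f c / c else 0) * if r ∣ c' then f c' / c' else 0))]
  refine sum_congr rfl fun c hc => ?_
  rw [sum_comm]
  refine sum_congr rfl fun c' hc' => ?_
  rw [mem_Icc] at hc hc'
  have hg : 0 < c.gcd c' := Nat.gcd_pos_of_pos_left _ hc.1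
  simp_rw [ite_zero_mul_ite_zero, ← Nat.dvd_gcd_iff, mul_ite, mul_zero]
  rw [← sum_filter, filter_dvd_Icc hg.ne' ((Nat.gcd_le_left _ hc.1).trans hc.2), ← sum_mul,
    ← Nat.cast_sum, Nat.sum_totient]
  have h1 : ((c.gcd c' : ℝ)) * c.lcm c' = c * c' := by exact_mod_cast Nat.gcd_mul_lcm c c'
  have h2 : (0 : ℝ) < c.gcd c' := by exact_mod_cast hg
  have h3 : (0 : ℝ) < c.lcm c' := by exact_mod_cast Nat.lcm_pos hc.1 hc'.1
  rw [div_mul_div_comm, ← h1]; field_simp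

theorem radQ_mul {g r v : ℕ} (hr : Squarefree r) (hc : r.Coprime g) (hv : v ≠ 0)
    (h : radQ (g * r) v = 1) : radQ g (r * v) = r := by
  have h1 := radQ_primeFactors (g * r) v
  rw [h, Nat.primeFactors_one, eq_comm, filter_eq_empty_iff] at h1
  refine Nat.dvd_antisymm ?_ (dvd_radQ (mul_ne_zero hr.ne_zero hv) hr (dvd_mul_right _ _) hc)
  rw [← Nat.prod_primeFactors_of_squarefree hr, radQ, Nat.prod_primeFactors_of_squarefree hr]
  conv_rhs => rw [← Nat.prod_primeFactors_of_squarefree hr]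
  refine prod_dvd_prod_of_subset _ _ (fun p => p) fun p hp => ?_
  obtain ⟨h2, h3⟩ := mem_filter.mp hp
  rw [Nat.primeFactors_mul hr.ne_zero hv, mem_union] at h2
  refine h2.elim id fun h4 => ?_
  have hp' := Nat.prime_of_mem_primeFactors h4
  exact Nat.mem_primeFactors.mpr ⟨hp', ((Nat.Prime.dvd_mul hp').mp (not_not.mp (h1 h4))).resolve_left
    h3, hr.ne_zero⟩

theorem form_le {g t y : ℕ} (hg : g ≠ 0) (h : t ≤ y) :
    ∑ c ∈ Icc 1 y, ∑ c' ∈ Icc 1 y, lw g t c * lw g t c' / c.lcm c' ≤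
      g.divisors.card ^ 2 * (g / g.totient) * ∑ w ∈ Ioc (lo g t) t, (1 : ℝ) / w := by
  have hg0 := Nat.pos_of_ne_zero hg
  rw [sum_lcm_eq]
  have h1 : ∀ r ∈ Icc 1 y, r.totient * (∑ c ∈ Icc 1 y, if r ∣ c then lw g t c / c else 0) ^ 2 ≤
      g.divisors.card ^ 2 * (g / g.totient) * ∑ v ∈ Ioc (lo g (t / r)) (t / r),
        if Squarefree r ∧ r.Coprime g ∧ radQ (g * r) v = 1 then (1 : ℝ) / (r * v : ℕ) else 0 := by
    intro r hr
    have hr0 : 0 < r := (mem_Icc.mp hr).1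
    rw [sum_lw hr0 h]
    by_cases hc : Squarefree r ∧ r.Coprime g
    · have e1 : ∑ v ∈ Ioc (lo g (t / r)) (t / r), (if Squarefree r ∧ r.Coprime g ∧
          radQ (g * r) v = 1 then (1 : ℝ) / (r * v : ℕ) else 0) =
          EE (g * r) (lo g (t / r)) (t / r) / r := by
        rw [EE, sum_div]
        refine sum_congr rfl fun v _ => ?_
        by_cases a0 : radQ (g * r) v = 1
        · rw [if_pos ⟨hc.1, hc.2, a0⟩, if_pos a0]; push_cast; ring
        · rw [if_neg fun h => a0 h.2.2, if_neg a0, zero_div]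
      have a1 := abs_sum_EE_le hg (g * r) (t / r)
      have a2 := EE_le (Nat.mul_pos hg0 hr0) (lo g (t / r)) (t / r)
      have a3 := EE_nonneg (g * r) (lo g (t / r)) (t / r)
      have a4 : (0 : ℝ) < r.totient := by exact_mod_cast Nat.totient_pos.mpr hr0
      rw [Nat.totient_mul hc.2.symm] at a2
      push_cast at a2
      rw [if_pos hc.2, e1, mul_pow, div_pow, sq (muR r), muR_sq hc.1, ← sq_abs (∑ c ∈ _, _)]
      generalize EE (g * r) (lo g (t / r)) (t / r) = E at a1 a2 a3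
      calc _ ≤ r.totient * (1 / (r : ℝ) ^ 2 * (g.divisors.card * E) ^ 2) := by gcongr
        _ = r.totient * (1 / (r : ℝ) ^ 2 * (g.divisors.card ^ 2 * E * E)) := by ring
        _ ≤ r.totient * (1 / (r : ℝ) ^ 2 * (g.divisors.card ^ 2 * E *
              (g * r / (g.totient * r.totient)))) := by gcongr
        _ = _ := by field_simp
    · refine le_trans (le_of_eq ?_) (mul_nonneg (by positivity)
        (sum_nonneg fun _ _ => by split_ifs <;> positivity))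
      split_ifs with h2
      · rw [muR_eq_zero fun h3 => hc ⟨h3, h2⟩]; simp
      · simp
  refine (sum_le_sum h1).trans ?_
  rw [← mul_sum, sum_sigma', ← sum_filter]
  gcongr ?_ * ?_
  refine sum_le_of_section _ _ _ _ (fun w => ⟨radQ g w, w / radQ g w⟩)
    (fun _ _ => by positivity) ?_
  rintro ⟨r, v⟩ hx
  obtain ⟨h2, h3, h4, h5⟩ := mem_filter.mp hx
  obtain ⟨h6, h7⟩ : lo g (t / r) < v ∧ v ≤ t / r := mem_Ioc.mp (mem_sigma.mp h2).2
  have hr0 : 0 < r := Nat.pos_of_ne_zero h3.ne_zero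
  refine ⟨r * v, mem_Ioc.mpr ⟨?_, ?_⟩, ?_, le_rfl⟩
  · unfold lo at h6 ⊢
    split_ifs at h6 ⊢
    · exact Nat.mul_pos hr0 h6
    · rwa [Nat.div_right_comm, Nat.div_lt_iff_lt_mul hr0, mul_comm] at h6
  · rwa [Nat.le_div_iff_mul_le hr0, mul_comm] at h7
  · simp only [radQ_mul h3 h4 (show v ≠ 0 by omega) h5, Nat.mul_div_cancel_left _ hr0]

theorem abel_mono (e φ : ℕ → ℝ) (he : ∀ j, |∑ n ∈ Icc 1 j, e n| ≤ 1) (hφ : Monotone φ)
    (h0 : 0 ≤ φ 0) (x : ℕ) : |∑ n ∈ Icc 1 x, e n * φ n| ≤ 2 * φ x := by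
  have key : ∀ x, |∑ n ∈ Icc 1 x, e n * φ n - (∑ n ∈ Icc 1 x, e n) * φ x| ≤ φ x - φ 0 := by
    intro x
    induction x with
    | zero => simp
    | succ x ih =>
      rw [sum_Icc_succ_top (by omega), sum_Icc_succ_top (by omega)]
      have h1 : 0 ≤ φ (x + 1) - φ x := sub_nonneg.mpr (hφ (Nat.le_succ x))
      have h2 : |(∑ n ∈ Icc 1 x, e n) * (φ (x + 1) - φ x)| ≤ φ (x + 1) - φ x := by
        rw [abs_mul, abs_of_nonneg h1]; exact mul_le_of_le_one_left h1 (he x)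
      rw [abs_le] at *
      constructor <;> nlinarith
  have h1 := h0.trans (hφ (Nat.zero_le x))
  have h2 : |(∑ n ∈ Icc 1 x, e n) * φ x| ≤ φ x := by
    rw [abs_mul, abs_of_nonneg h1]; exact mul_le_of_le_one_left h1 (he x)
  have h3 := key x
  rw [abs_le] at *
  constructor <;> linarith

theorem abs_sum_dvd_le {q : ℕ} (hq : 0 < q) (j : ℕ) :
    |∑ n ∈ Icc 1 j, ((if q ∣ n then (1 : ℝ) else 0) - 1 / q)| ≤ 1 := by
  have h := abs_card_modEq_sub_le 0 j q 0 hq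
  simp only [zero_add, Nat.modEq_zero_iff_dvd] at h
  rw [sum_sub_distrib, sum_boole, sum_const, Nat.card_Icc, nsmul_eq_mul, Nat.add_sub_cancel,
    mul_one_div]
  exact h

theorem sum_sq_lw_le {g x y : ℕ} (hg : g ≠ 0) (τ : ℕ → ℕ) (hτ : Monotone τ) (hy : τ x ≤ y) {V : ℝ}
    (hV : ∀ t ≤ y, ∑ w ∈ Ioc (lo g t) t, (1 : ℝ) / w ≤ V) :
    ∑ n ∈ Icc 1 x, (∑ c ∈ n.divisors, lw g (τ n) c) ^ 2 ≤
      x * (g.divisors.card ^ 2 * (g / g.totient) * V) +
        2 * (y * g.divisors.card * HH y) ^ 2 := by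
  have h1 : ∀ n ∈ Icc 1 x, (∑ c ∈ n.divisors, lw g (τ n) c) ^ 2 =
      ∑ c ∈ Icc 1 y, ∑ c' ∈ Icc 1 y, lw g (τ n) c * lw g (τ n) c' / c.lcm c' +
      ∑ c ∈ Icc 1 y, ∑ c' ∈ Icc 1 y, ((if c.lcm c' ∣ n then (1 : ℝ) else 0) - 1 / c.lcm c') *
        (lw g (τ n) c * lw g (τ n) c') := by
    intro n hn
    rw [mem_Icc] at hn
    have e1 : ∑ c ∈ n.divisors, lw g (τ n) c =
        ∑ c ∈ Icc 1 y, if c ∣ n then lw g (τ n) c else 0 := by
      rw [← sum_filter]
      symm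
      refine sum_subset (fun c hc => Nat.mem_divisors.mpr ⟨(mem_filter.mp hc).2, by omega⟩)
        fun c hc hc' => ?_
      have : τ n < c := by
        by_contra h
        exact hc' (mem_filter.mpr ⟨mem_Icc.mpr ⟨Nat.pos_of_mem_divisors hc,
          (not_lt.mp h).trans ((hτ hn.2).trans hy)⟩, Nat.dvd_of_mem_divisors hc⟩)
      simp [lw, Wg, Nat.div_eq_of_lt this, HH]
    rw [e1, sq, sum_mul_sum, ← sum_add_distrib]
    refine sum_congr rfl fun c _ => ?_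
    rw [← sum_add_distrib]
    refine sum_congr rfl fun c' _ => ?_
    rw [ite_zero_mul_ite_zero]
    simp only [← Nat.lcm_dvd_iff]
    split_ifs <;> ring
  rw [sum_congr rfl h1, sum_add_distrib]
  refine add_le_add ((sum_le_card_nsmul _ _ _ fun n hn => (form_le hg ?_).trans
    (mul_le_mul_of_nonneg_left (hV _ ?_) (by positivity))).trans (by simp)) ?_
  · exact (hτ (mem_Icc.mp hn).2).trans hy
  · exact (hτ (mem_Icc.mp hn).2).trans hy
  rw [sum_comm]
  refine (sum_le_card_nsmul _ _ (y * (2 * (g.divisors.card * HH y) ^ 2)) fun c hc => ?_).trans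
    (le_of_eq (by simp; ring))
  rw [sum_comm]
  refine (sum_le_card_nsmul _ _ (2 * (g.divisors.card * HH y) ^ 2) fun c' hc' => ?_).trans
    (le_of_eq (by simp))
  have hH := HH_nonneg y
  by_cases hcc : c.Coprime g ∧ c'.Coprime g
  swap
  · refine le_trans (le_of_eq (sum_eq_zero fun n _ => ?_)) (by positivity)
    rw [lw, lw, ite_zero_mul_ite_zero, if_neg hcc, mul_zero]
  simp only [lw, if_pos hcc.1, if_pos hcc.2, Wg, mul_sum, sum_mul]
  rw [sum_comm]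
  refine (sum_le_card_nsmul _ _ (g.divisors.card * (2 * HH y ^ 2)) fun j _ => ?_).trans
    (le_of_eq (by simp; ring))
  rw [sum_comm]
  refine (sum_le_card_nsmul _ _ (2 * HH y ^ 2) fun j' _ => ?_).trans (le_of_eq (by simp))
  have h2 := abel_mono _ (fun n => HH (τ n / c / j') * HH (τ n / c' / j))
    (abs_sum_dvd_le (Nat.lcm_pos (mem_Icc.mp hc).1 (mem_Icc.mp hc').1))
    (fun a b hab => mul_le_mul (HH_mono (Nat.div_le_div_right (Nat.div_le_div_right (hτ hab))))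
      (HH_mono (Nat.div_le_div_right (Nat.div_le_div_right (hτ hab)))) (HH_nonneg _) (HH_nonneg _))
    (mul_nonneg (HH_nonneg _) (HH_nonneg _)) x
  have h3 : ∀ a b : ℕ, HH (τ x / a / b) ≤ HH y := fun a b =>
    HH_mono ((Nat.div_le_self _ _).trans ((Nat.div_le_self _ _).trans hy))
  have h4 : |muR c * muR j' * (muR c' * muR j)| ≤ 1 := by
    simp only [abs_mul]
    exact mul_le_one₀ (mul_le_one₀ (abs_muR_le _) (abs_nonneg _) (abs_muR_le _)) (by positivity)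
      (mul_le_one₀ (abs_muR_le _) (abs_nonneg _) (abs_muR_le _))
  calc _ = muR c * muR j' * (muR c' * muR j) * ∑ n ∈ Icc 1 x,
        ((if c.lcm c' ∣ n then (1 : ℝ) else 0) - 1 / c.lcm c') *
          (HH (τ n / c / j') * HH (τ n / c' / j)) := by
        rw [mul_sum]; exact sum_congr rfl fun n _ => by ring
    _ ≤ 1 * (2 * (HH (τ x / c / j') * HH (τ x / c' / j))) := by
        refine (le_abs_self _).trans ?_
        rw [abs_mul]; gcongr
    _ ≤ 1 * (2 * (HH y * HH y)) := by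
        have := HH_nonneg (τ x / c' / j)
        gcongr <;> exact h3 _ _
    _ = _ := by ring

end Pool.Agent.Work.MP_5d318d_nt
end
end

-- merged part: Pool.Agent.Work.MP_5d318d_nt.AGraham
section
/-!
# Mean square of a truncated divisor sum of large level
-/

noncomputable section

open Finset Real ArithmeticFunction

namespace Pool.Agent.Work.MP_5d318d_nt

open Pool.Agent.Lib.LargeSieve Pool.Agent.Lib.ANT

/-- `∑_{d ∣ m} μ(d) H(d / R)` -/
def Tt (R m : ℕ) : ℝ := ∑ d ∈ m.divisors, muR d * HH (d / R)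

theorem Tt_mul {g n : ℕ} (h : Squarefree (n * g)) (R : ℕ) :
    Tt R (n * g) = muR (n * g) * ∑ c ∈ n.divisors, lw g (g * n / R) c := by
  have hc : n.Coprime g := Nat.coprime_of_squarefree_mul h
  rw [Tt, ← Nat.sum_div_divisors (n * g) (fun d => muR d * HH (d / R)),
    sum_congr rfl (g := fun e => muR (n * g) * (muR e * HH (g * n / R / e))) fun e he => by
      rw [muR_div h (Nat.dvd_of_mem_divisors he), Nat.div_right_comm, mul_comm n g, mul_assoc],
    ← mul_sum, Nat.divisors_mul, Finset.mul_def, sum_image hc.mul_injOn_divisors, sum_product]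
  congr 1
  refine sum_congr rfl fun c hc' => ?_
  have h1 := hc.coprime_dvd_left (Nat.dvd_of_mem_divisors hc')
  rw [lw, if_pos h1, Wg, mul_sum]
  refine sum_congr rfl fun j hj => ?_
  rw [muR_mul (h1.coprime_dvd_right (Nat.dvd_of_mem_divisors hj)), mul_assoc,
    ← Nat.div_div_eq_div_mul]

theorem Tt_rad {m : ℕ} (hm : m ≠ 0) (R : ℕ) : Tt R m = Tt R (radQ 1 m) := by
  simpa [Tt] using sum_muR_radQ 1 hm (fun d => HH (d / R))

theorem radQ_pos (q v : ℕ) : 0 < radQ q v := Nat.pos_of_ne_zero (radQ_squarefree q v).ne_zero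

theorem sum_Tt_sq_le_aux (N R : ℕ) : ∑ m ∈ Icc 1 N, Tt R m ^ 2 ≤
    ∑ a ∈ Icc 1 N, ∑ n ∈ Icc 1 (N / a / radQ 1 a),
      (∑ c ∈ n.divisors, lw (radQ 1 a) (radQ 1 a * n / R) c) ^ 2 := by
  rw [sum_sigma']
  refine sum_le_of_section _ _ _ _ (fun x => x.1 * (x.2 * radQ 1 x.1))
    (fun _ _ => sq_nonneg _) fun m hm => ?_
  rw [mem_Icc] at hm
  have hm0 : m ≠ 0 := by omega
  obtain ⟨a, ha⟩ := radQ_dvd 1 m
  have ha0 : 0 < a := Nat.pos_of_ne_zero (by rintro rfl; simp at ha; omega)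
  have ham : a ∣ m := Dvd.intro_left _ ha.symm
  obtain ⟨n, hn⟩ := dvd_radQ hm0 (radQ_squarefree 1 a) ((radQ_dvd 1 a).trans ham)
    (Nat.coprime_one_right _)
  have hsq := radQ_squarefree 1 m
  rw [mul_comm] at hn
  have hn0 : 0 < n := Nat.pos_of_ne_zero (left_ne_zero_of_mul (hn ▸ hsq).ne_zero)
  refine ⟨⟨a, n⟩, mem_sigma.mpr ⟨mem_Icc.mpr ⟨ha0, (Nat.le_of_dvd hm.1 ham).trans hm.2⟩,
    mem_Icc.mpr ⟨hn0, ?_⟩⟩, ?_, le_of_eq ?_⟩
  · rw [Nat.le_div_iff_mul_le (radQ_pos _ _), Nat.le_div_iff_mul_le ha0, ← hn, ← ha]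
    exact hm.2
  · simp only
    rw [← hn, mul_comm, ← ha]
  · rw [Tt_rad hm0, hn, Tt_mul (hn ▸ hsq), mul_pow, sq (muR _), muR_sq (hn ▸ hsq), one_mul]

theorem log_succ_le_HH (n : ℕ) : Real.log (n + 1) ≤ HH n := by
  rw [HH_eq_harmonic]
  exact_mod_cast log_add_one_le_harmonic n

theorem sum_lo_le {g : ℕ} (hg : 1 < g) (t : ℕ) :
    ∑ w ∈ Ioc (lo g t) t, (1 : ℝ) / w ≤ 1 + Real.log g := by
  have h1 := sum_Ioc_consecutive (fun w : ℕ => (1 : ℝ) / w) (Nat.zero_le (t / g))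
    (Nat.div_le_self t g)
  have h2 := log_succ_le_HH (t / g)
  have h3 := HH_le t
  have h4 : Real.log t ≤ Real.log (g * ((t / g : ℕ) + 1)) := by
    rcases Nat.eq_zero_or_pos t with rfl | h
    · simpa using Real.log_natCast_nonneg g
    · refine Real.log_le_log (by exact_mod_cast h) ?_
      exact_mod_cast (Nat.lt_mul_div_succ t (by omega)).le
  rw [Real.log_mul (by positivity) (by positivity)] at h4
  rw [lo, if_neg hg.ne']
  change HH (t / g) + _ = HH t at h1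
  linarith

theorem exists_sum_rad_le : ∃ C : ℝ, 0 ≤ C ∧ ∀ N : ℕ, ∑ a ∈ Icc 1 N,
    ((radQ 1 a).divisors.card : ℝ) ^ 2 * (1 + Real.log (radQ 1 a)) / (radQ 1 a).totient *
      (1 / a) ≤ C := by
  obtain ⟨C, hC1, hC⟩ := exists_card_divisors_le (1 / 16) (by norm_num)
  have hs := Real.summable_one_div_nat_rpow.mpr (show (1 : ℝ) < 3 / 2 by norm_num)
  refine ⟨5 * C ^ 4 * ∑' n : ℕ, 1 / (n : ℝ) ^ (3 / 2 : ℝ),
    mul_nonneg (by positivity) (tsum_nonneg fun _ => by positivity), fun N => ?_⟩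
  refine le_trans ?_ (mul_le_mul_of_nonneg_left (hs.sum_le_tsum ((Icc 1 N).filter Squarefree)
    fun _ _ => by positivity) (by positivity))
  rw [← sum_fiberwise_of_maps_to (t := (Icc 1 N).filter Squarefree) (g := radQ 1), mul_sum]
  · refine sum_le_sum fun g hg => ?_
    obtain ⟨h1, h2⟩ := mem_filter.mp hg
    have hg1 : (1 : ℝ) ≤ g := by exact_mod_cast (mem_Icc.mp h1).1
    have hφ : (0 : ℝ) < g.totient := by exact_mod_cast Nat.totient_pos.mpr (mem_Icc.mp h1).1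
    have h3 := sum_inv_fiber_le one_pos h2 ((Icc 1 N).filter fun a => radQ 1 a = g) fun m hm =>
      ⟨by have := (mem_Icc.mp (mem_filter.mp hm).1).1; omega, (mem_filter.mp hm).2⟩
    rw [sum_congr rfl fun a ha => by rw [(mem_filter.mp ha).2], ← mul_sum]
    simp only [Nat.totient_one, Nat.cast_one, div_one, one_mul] at h3
    have hl := Real.log_nonneg hg1
    have h4 : (g.totient : ℝ)⁻¹ ≤ g.divisors.card / g := by
      rw [le_div_iff₀ (by linarith), mul_comm, ← div_eq_mul_inv]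
      exact div_totient_le_card_divisors g
    have h5 : 1 + Real.log g ≤ 5 * (g : ℝ) ^ (1 / 4 : ℝ) := by
      have a1 := Real.log_le_rpow_div (show (0 : ℝ) ≤ g by linarith) (show (0 : ℝ) < 1 / 4 by norm_num)
      have a2 := Real.one_le_rpow hg1 (show (0 : ℝ) ≤ 1 / 4 by norm_num)
      linarith
    have h6 := hC g
    have h7 : ((g : ℝ) ^ (1 / 16 : ℝ)) ^ 4 * (g : ℝ) ^ (1 / 4 : ℝ) * (g : ℝ) ^ (3 / 2 : ℝ) =
        (g : ℝ) ^ 2 := by
      rw [← Real.rpow_natCast, ← Real.rpow_mul (by linarith), ← Real.rpow_add (by linarith),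
        ← Real.rpow_add (by linarith), ← Real.rpow_natCast]
      norm_num
    rw [div_eq_mul_inv]
    calc _ ≤ (g.divisors.card : ℝ) ^ 2 * (5 * (g : ℝ) ^ (1 / 4 : ℝ)) * (g.divisors.card / g) *
          (g.divisors.card / g) := by gcongr; exact h3.trans h4
      _ = (g.divisors.card : ℝ) ^ 4 * (5 * (g : ℝ) ^ (1 / 4 : ℝ)) / g ^ 2 := by ring
      _ ≤ (C * (g : ℝ) ^ (1 / 16 : ℝ)) ^ 4 * (5 * (g : ℝ) ^ (1 / 4 : ℝ)) / g ^ 2 := by gcongr
      _ = _ := by rw [← h7]; field_simp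
  · intro a ha
    rw [mem_Icc] at ha
    exact mem_filter.mpr ⟨mem_Icc.mpr ⟨radQ_pos _ _,
      (Nat.le_of_dvd ha.1 (radQ_dvd 1 a)).trans ha.2⟩, radQ_squarefree 1 a⟩

theorem exists_sum_Tt_sq_le : ∃ C : ℝ, 0 ≤ C ∧ ∀ (N R : ℕ) (Z : ℝ),
    (∀ r ≤ N, (r.divisors.card : ℝ) ≤ Z) → HH N ≤ Z →
    ∑ m ∈ Icc 1 N, Tt R m ^ 2 ≤ N * (HH (N / R) + C) + 4 * ((N / R : ℕ) * Z ^ 2) ^ 2 := by
  obtain ⟨C, hC0, hC⟩ := exists_sum_rad_le
  refine ⟨C, hC0, fun N R Z hτ hH => (sum_Tt_sq_le_aux N R).trans ?_⟩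
  have hZ : 0 ≤ Z := (HH_nonneg _).trans hH
  have h1 : ∀ a ∈ Icc 1 N, ∑ n ∈ Icc 1 (N / a / radQ 1 a),
      (∑ c ∈ n.divisors, lw (radQ 1 a) (radQ 1 a * n / R) c) ^ 2 ≤
      (if a = 1 then N * HH (N / R) else 0) + N * (((radQ 1 a).divisors.card : ℝ) ^ 2 *
        (1 + Real.log (radQ 1 a)) / (radQ 1 a).totient * (1 / a)) +
        2 * ((N / R : ℕ) * Z ^ 2) ^ 2 * (1 / (a : ℝ) ^ 2) := by
    intro a ha
    rw [mem_Icc] at ha
    have hg := radQ_pos 1 a
    have ha' : (0 : ℝ) < a := by exact_mod_cast ha.1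
    have hl := Real.log_natCast_nonneg (radQ 1 a)
    have e1 : 2 * ((N / a / R : ℕ) * (radQ 1 a).divisors.card * HH (N / a / R)) ^ 2 ≤
        2 * ((N / R : ℕ) * Z ^ 2) ^ 2 * (1 / (a : ℝ) ^ 2) := by
      have a1 : ((N / a / R : ℕ) : ℝ) ≤ (N / R : ℕ) / a := by
        rw [Nat.div_right_comm]; exact Nat.cast_div_le
      have a2 := hτ _ ((Nat.le_of_dvd ha.1 (radQ_dvd 1 a)).trans ha.2)
      have a3 : HH (N / a / R) ≤ Z :=
        (HH_mono ((Nat.div_le_self _ _).trans (Nat.div_le_self _ _))).trans hH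
      have a4 := HH_nonneg (N / a / R)
      calc _ ≤ 2 * ((N / R : ℕ) / a * Z * Z) ^ 2 := by gcongr
        _ = _ := by ring
    have key := fun V => sum_sq_lw_le (x := N / a / radQ 1 a) (y := N / a / R) (V := V) hg.ne'
      (fun n => radQ 1 a * n / R)
      (fun _ _ h => Nat.div_le_div_right (Nat.mul_le_mul_left _ h))
      (Nat.div_le_div_right (Nat.mul_div_le _ _))
    split_ifs with h
    · subst h
      have e2 : radQ 1 1 = 1 := by simp [radQ]
      refine (key (HH (N / R)) fun t ht => ?_).trans (add_le_add ?_ e1)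
      · rw [e2, lo, if_pos rfl]
        exact HH_mono (by simpa using ht)
      · simp [e2]
    · have hg1 : 1 < radQ 1 a := by
        by_contra h'
        have h2 := radQ_primeFactors 1 a
        rw [show radQ 1 a = 1 by omega, Nat.primeFactors_one, eq_comm, filter_eq_empty_iff] at h2
        have h3 := Nat.minFac_prime h
        exact h2 (Nat.mem_primeFactors.mpr ⟨h3, Nat.minFac_dvd a, by omega⟩) h3.not_dvd_one
      refine (key _ fun t _ => sum_lo_le hg1 t).trans (add_le_add ?_ e1)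
      have a1 : ((N / a / radQ 1 a : ℕ) : ℝ) ≤ N / a / radQ 1 a :=
        Nat.cast_div_le.trans (by gcongr; exact Nat.cast_div_le)
      have hg' : (0 : ℝ) < radQ 1 a := by exact_mod_cast hg
      rw [zero_add]
      refine (mul_le_mul_of_nonneg_right a1 (by positivity)).trans (le_of_eq ?_)
      field_simp
  refine (sum_le_sum h1).trans ?_
  rw [sum_add_distrib, sum_add_distrib, ← mul_sum, ← mul_sum, sum_ite_eq']
  have a1 := mul_le_mul_of_nonneg_left (hC N) (Nat.cast_nonneg (α := ℝ) N)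
  have a2 := mul_le_mul_of_nonneg_left (sum_inv_sq_le_two N)
    (show 0 ≤ 2 * ((N / R : ℕ) * Z ^ 2) ^ 2 by positivity)
  have a3 := mul_nonneg (Nat.cast_nonneg (α := ℝ) N) (HH_nonneg (N / R))
  split_ifs <;> linarith

end Pool.Agent.Work.MP_5d318d_nt
end
end

-- merged part: Pool.Agent.Work.MP_5d318d_nt.AWeight
section
/-!
# A three times smoothed weight
-/

noncomputable section

open Finset Real

namespace Pool.Agent.Work.MP_5d318d_nt

/-- moving average -/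
def avg (H : ℕ) (f : ℤ → ℝ) (t : ℤ) : ℝ := (∑ i ∈ range H, f (t - i)) / H

/-- difference operator -/
def dif (a : ℤ) (f : ℤ → ℝ) (t : ℤ) : ℝ := f (t + a) - f t

variable {H : ℕ} {f : ℤ → ℝ} {c : ℝ}

theorem abs_avg_le (hH : 0 < H) (h : ∀ t, |f t| ≤ c) (t : ℤ) : |avg H f t| ≤ c := by
  have hH' : (0 : ℝ) < H := by exact_mod_cast hH
  rw [avg, abs_div, abs_of_pos hH', div_le_iff₀ hH', mul_comm]
  refine (abs_sum_le_sum_abs _ _).trans ((sum_le_card_nsmul _ _ _ fun i _ => h _).trans ?_)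
  simp

theorem avg_nonneg (h : ∀ t, 0 ≤ f t) (t : ℤ) : 0 ≤ avg H f t :=
  div_nonneg (sum_nonneg fun _ _ => h _) (Nat.cast_nonneg _)

theorem dif_avg (a : ℤ) : dif a (avg H f) = avg H (dif a f) := by
  ext t
  simp only [dif, avg, sum_sub_distrib, sub_div, add_sub_right_comm]

theorem abs_dif_le (h : ∀ t, |dif 1 f t| ≤ c) (a t : ℤ) : |dif a f t| ≤ |(a : ℝ)| * c := by
  have key : ∀ (n : ℕ) (t : ℤ), |dif n f t| ≤ n * c := by
    intro n t
    induction n with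
    | zero => simp [dif]
    | succ n ih =>
      have e : dif (n + 1 : ℕ) f t = dif n f t + dif 1 f (t + n) := by
        simp only [dif]; push_cast; rw [add_assoc]; ring
      rw [e]
      refine (abs_add_le _ _).trans ?_
      push_cast
      linarith [h (t + n)]
  obtain ⟨n, rfl | rfl⟩ := Int.eq_nat_or_neg a
  · simpa using key n t
  · have := key n (t - n)
    rw [dif, sub_add_cancel, abs_sub_comm] at this
    simpa [dif, sub_eq_add_neg] using this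

theorem abs_dif_avg_le (hH : 0 < H) (h : ∀ t, |f t| ≤ c) (a t : ℤ) :
    |dif a (avg H f) t| ≤ |(a : ℝ)| * (2 / H * c) := by
  refine abs_dif_le (fun t => ?_) a t
  have hH' : (0 : ℝ) < H := by exact_mod_cast hH
  have e : dif 1 (avg H f) t = (f (t + 1) - f (t + 1 - H)) / H := by
    rw [dif, avg, avg, ← sub_div, ← sum_sub_distrib]
    congr 1
    have := sum_range_sub' (fun i : ℕ => f (t + 1 - i)) H
    simp only [Nat.cast_zero, sub_zero] at this
    rw [← this]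
    refine sum_congr rfl fun i _ => ?_
    push_cast
    rw [add_sub_add_right_eq_sub]
  rw [e, abs_div, abs_of_pos hH', div_mul_eq_mul_div]
  gcongr
  linarith [abs_sub (f (t + 1)) (f (t + 1 - H)), h (t + 1), h (t + 1 - H)]

theorem avg_supp {a : ℕ} (h : ∀ t, f t ≠ 0 → 0 ≤ t ∧ t < a) (t : ℤ) (ht : avg H f t ≠ 0) :
    0 ≤ t ∧ t < (a + H : ℕ) := by
  obtain ⟨i, hi, h1⟩ := exists_ne_zero_of_sum_ne_zero (left_ne_zero_of_mul ht)
  have := h _ h1
  rw [mem_range] at hi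
  push_cast; omega

theorem sum_avg (hH : 0 < H) {a : ℕ} (h : ∀ t, f t ≠ 0 → 0 ≤ t ∧ t < a) :
    ∑ t ∈ range (a + H), avg H f t = ∑ t ∈ range a, f t := by
  have hH' : (H : ℝ) ≠ 0 := by exact_mod_cast hH.ne'
  have h1 : ∀ i ∈ range H, ∑ t ∈ range (a + H), f ((t : ℤ) - i) = ∑ t ∈ range a, f t := by
    intro i hi
    rw [mem_range] at hi
    symm
    refine sum_bij_ne_zero (fun t _ _ => t + i) ?_ ?_ ?_ ?_
    · intro t ht _; rw [mem_range] at ht ⊢; omega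
    · intro _ _ _ _ _ _ h; omega
    · intro t _ h2
      have := h _ h2
      refine ⟨t - i, mem_range.mpr (by omega), ?_, by omega⟩
      rwa [Nat.cast_sub (by omega)]
    · intro t _ _; simp
  simp only [avg]
  rw [← sum_div, sum_comm, sum_congr rfl h1, sum_const, card_range, nsmul_eq_mul]
  field_simp

/-- indicator function of `[0, H)` -/
def box (H : ℕ) (t : ℤ) : ℝ := if 0 ≤ t ∧ t < H then 1 else 0

/-- the kernel -/
def gk (H : ℕ) : ℤ → ℝ := avg H (avg H (avg H (box H)))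

theorem abs_box_le (t : ℤ) : |box H t| ≤ 1 := by unfold box; split_ifs <;> simp

theorem box_supp (t : ℤ) (h : box H t ≠ 0) : 0 ≤ t ∧ t < H := (ite_ne_right_iff.mp h).1

theorem gk_nonneg (t : ℤ) : 0 ≤ gk H t :=
  avg_nonneg (avg_nonneg (avg_nonneg fun t => by unfold box; split_ifs <;> simp)) t

theorem abs_gk_le (hH : 0 < H) (t : ℤ) : |gk H t| ≤ 1 :=
  abs_avg_le hH (abs_avg_le hH (abs_avg_le hH abs_box_le)) t

theorem gk_supp {t : ℤ} (h : gk H t ≠ 0) : 0 ≤ t ∧ t < 4 * H := by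
  have := avg_supp (avg_supp (avg_supp box_supp)) t h
  push_cast at this; omega

theorem sum_gk (hH : 0 < H) : ∑ t ∈ range (4 * H), gk H t / H = 1 := by
  have hH' : (H : ℝ) ≠ 0 := by exact_mod_cast hH.ne'
  rw [← sum_div, show 4 * H = H + H + H + H by ring, gk,
    sum_avg hH (avg_supp (avg_supp box_supp)), sum_avg hH (avg_supp box_supp),
    sum_avg hH box_supp, sum_congr rfl (g := fun _ => 1), sum_const, card_range, nsmul_eq_mul,
    mul_one, div_self hH']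
  intro t ht
  rw [mem_range] at ht
  exact if_pos (by omega)

theorem gk_dif1 (hH : 0 < H) (a t : ℤ) : |dif a (gk H) t| ≤ |(a : ℝ)| * (2 / H) := by
  rw [gk]
  simpa using abs_dif_avg_le hH (abs_avg_le hH (abs_avg_le hH abs_box_le)) a t

theorem gk_dif2 (hH : 0 < H) (a b t : ℤ) :
    |dif a (dif b (gk H)) t| ≤ |(a : ℝ)| * (2 / H) * (|(b : ℝ)| * (2 / H)) := by
  rw [gk, dif_avg b, mul_assoc]
  simpa using abs_dif_avg_le hH (abs_dif_avg_le hH (abs_avg_le hH abs_box_le) b) a t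

theorem gk_dif3 (hH : 0 < H) (a b c t : ℤ) : |dif a (dif b (dif c (gk H))) t| ≤
    |(a : ℝ)| * (2 / H) * (|(b : ℝ)| * (2 / H) * (|(c : ℝ)| * (2 / H))) := by
  rw [gk, dif_avg c, dif_avg b, dif_avg c, mul_assoc, mul_assoc]
  simpa using abs_dif_avg_le hH (abs_dif_avg_le hH (abs_dif_avg_le hH abs_box_le c) b) a t

theorem wt_of_pointwise {T : ℕ} (hT : 1 ≤ T) {a : ℝ} (ha : 0 ≤ a) {γ : ℤ → ℝ}
    (h0 : ∀ k ∈ Icc (-(T : ℤ)) T, |γ k| ≤ 1) (hs : ∀ k, k ∉ Icc (-(T : ℤ)) T → γ k = 0)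
    (h1 : ∀ k : ℤ, |(k : ℝ)| ≤ 3 * T → |γ (k + 1) - γ k| ≤ a / T)
    (h2 : ∀ k : ℤ, |(k : ℝ)| ≤ 3 * T → |γ (k + 2) - 2 * γ (k + 1) + γ k| ≤ a / T ^ 2) :
    Wt T (2 * a / T) γ := by
  have hT' : (1 : ℝ) ≤ T := by exact_mod_cast hT
  have hk : ∀ k ∈ Icc (-(T : ℤ) - 2) T, |(k : ℝ)| ≤ 3 * T := fun k hk => by
    rw [mem_Icc] at hk
    have : |k| ≤ 3 * T := by rw [abs_le]; omega
    exact_mod_cast this
  refine ⟨fun k => ?_, hs, fun k => ?_, ?_⟩
  · by_cases h : k ∈ Icc (-(T : ℤ)) T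
    · exact h0 k h
    · simp [hs k h]
  · by_cases h : k ∈ Icc (-(T : ℤ) - 2) T
    · refine (h1 k (hk k h)).trans ?_
      gcongr; linarith
    · rw [mem_Icc] at h
      rw [hs k (by rw [mem_Icc]; omega), hs (k + 1) (by rw [mem_Icc]; omega), sub_zero, abs_zero]
      positivity
  · refine (sum_le_card_nsmul _ _ _ fun k h => h2 k (hk k h)).trans ?_
    rw [Int.card_Icc, show ((T : ℤ) + 1 - (-T - 2)).toNat = 2 * T + 3 by omega, nsmul_eq_mul]
    push_cast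
    calc _ ≤ (8 * T) * (a / (T : ℝ) ^ 2) := by gcongr; linarith
      _ = _ := by field_simp; ring

/-- the weight `k ↦ g (x + k q)` -/
def gq (H q : ℕ) (x k : ℤ) : ℝ := gk H (x + k * q)

theorem gq_supp {N q T : ℕ} (hN : 4 * H ≤ N) (hT : 2 * N < (T + 1) * q) {x : ℤ}
    (hx : x ∈ Icc (-(N : ℤ)) N) (k : ℤ) (hk : k ∉ Icc (-(T : ℤ)) T) : gq H q x k = 0 := by
  by_contra h
  have h1 := gk_supp h
  rw [mem_Icc] at hx hk
  have h2 : 2 * (N : ℤ) < (T + 1) * q := by exact_mod_cast hT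
  have h3 : (0 : ℤ) ≤ q := Int.natCast_nonneg _
  have h4 : 4 * (H : ℤ) ≤ N := by exact_mod_cast hN
  rcases (by omega : k ≤ -(T + 1) ∨ T + 1 ≤ k) with h | h <;> nlinarith

theorem wt_gq (hH : 0 < H) {N q T : ℕ} (hT1 : 1 ≤ T) (hN : 4 * H ≤ N) (hT : 2 * N < (T + 1) * q)
    {x : ℤ} (hx : x ∈ Icc (-(N : ℤ)) N) {l : ℝ} (hl : 1 ≤ l) (hq : T * (q * (2 / H : ℝ)) ≤ l) :
    Wt T (2 * (5 * l ^ 2) / T) (gq H q x) := by
  have hT' : (0 : ℝ) < T := by exact_mod_cast hT1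
  have h1 : q * (2 / H : ℝ) ≤ l / T := by rw [le_div_iff₀ hT', mul_comm]; exact hq
  refine wt_of_pointwise hT1 (by positivity) (fun k _ => abs_gk_le hH _) (gq_supp hN hT hx)
    (fun k _ => ?_) fun k _ => ?_
  · have := gk_dif1 hH q (x + k * q)
    rw [Int.cast_natCast, Nat.abs_cast] at this
    refine le_trans (le_of_eq ?_) (this.trans (h1.trans ?_))
    · simp only [dif, gq]; ring_nf
    · gcongr; nlinarith
  · have := gk_dif2 hH q q (x + k * q)
    rw [Int.cast_natCast, Nat.abs_cast] at this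
    refine le_trans (le_of_eq ?_) (this.trans ?_)
    · simp only [dif, gq]; ring_nf
    · calc _ ≤ l / T * (l / T) := by gcongr
        _ = 1 * l ^ 2 / T ^ 2 := by ring
        _ ≤ _ := by gcongr; norm_num

theorem wt_gq_sub (hH : 0 < H) {N e u T : ℕ} (hT1 : 1 ≤ T) (hN : 4 * H ≤ N)
    (hT : 2 * N < (T + 1) * (u * e)) {x : ℤ} (hx : x ∈ Icc (-(N : ℤ)) N) {l σ : ℝ} (hl : 1 ≤ l)
    (hσ : 0 < σ) (hq : T * (((u + 1) * e : ℕ) * (2 / H : ℝ)) ≤ l)
    (he : T * (e * (2 / H : ℝ)) ≤ σ) :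
    Wt T (2 * (5 * l ^ 2) / T) (fun k => (gq H ((u + 1) * e) x k - gq H (u * e) x k) / σ) := by
  have hT' : (0 : ℝ) < T := by exact_mod_cast hT1
  have h1 : ((u + 1) * e : ℕ) * (2 / H : ℝ) ≤ l / T := by rw [le_div_iff₀ hT', mul_comm]; exact hq
  have h2 : (u * e : ℕ) * (2 / H : ℝ) ≤ l / T := le_trans (by gcongr; omega) h1
  have h3 : e * (2 / H : ℝ) ≤ σ / T := by rw [le_div_iff₀ hT', mul_comm]; exact he
  have h4 : ∀ (k : ℤ) (c : ℝ), |(k : ℝ)| ≤ c * T → |((k * e : ℤ) : ℝ)| * (2 / H) ≤ c * σ := by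
    intro k c hk
    have hc : 0 ≤ c := by
      by_contra h
      nlinarith [abs_nonneg (k : ℝ)]
    push_cast
    rw [abs_mul, Nat.abs_cast]
    calc _ ≤ c * T * e * (2 / H) := by gcongr
      _ = c * (T * (e * (2 / H))) := by ring
      _ ≤ _ := by gcongr
  refine wt_of_pointwise hT1 (by positivity) (fun k hk => ?_) (fun k hk => ?_)
    (fun k hk => ?_) fun k hk => ?_
  · rw [abs_div, abs_of_pos hσ, div_le_iff₀ hσ]
    refine le_trans (le_of_eq ?_) ((gk_dif1 hH (k * e) (x + k * (u * e : ℕ))).trans (h4 k 1 ?_))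
    · simp only [dif, gq]; push_cast; ring_nf
    · rw [one_mul]
      exact_mod_cast abs_le.mpr (mem_Icc.mp hk)
  · rw [gq_supp hN hT hx k hk, gq_supp hN (hT.trans_le (by gcongr; omega)) hx k hk, sub_zero,
      zero_div]
  · rw [← sub_div, abs_div, abs_of_pos hσ, div_le_iff₀ hσ]
    have a1 := gk_dif1 hH e (x + k * (u * e : ℕ) + (u * e : ℕ) + k * e)
    have a2 := gk_dif2 hH (u * e : ℕ) (k * e) (x + k * (u * e : ℕ))
    rw [Int.cast_natCast, Nat.abs_cast] at a1 a2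
    have a3 := h4 k 3 hk
    refine le_trans (le_of_eq ?_) ((abs_add_le _ _).trans ((add_le_add a1 a2).trans ?_))
    · simp only [dif, gq]; push_cast; ring_nf
    · calc _ ≤ σ / T + l / T * (3 * σ) := by gcongr
        _ = (1 + 3 * l) / T * σ := by ring
        _ ≤ _ := by gcongr; nlinarith
  · rw [← mul_div_assoc, ← sub_div, ← add_div, abs_div, abs_of_pos hσ, div_le_iff₀ hσ]
    have a1 := gk_dif3 hH (k * e) ((u + 1) * e : ℕ) ((u + 1) * e : ℕ) (x + k * (u * e : ℕ))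
    have a2 := gk_dif2 hH ((u + 1) * e : ℕ) e (x + k * (u * e : ℕ) + (u * e : ℕ))
    have a3 := gk_dif2 hH e (u * e : ℕ) (x + k * (u * e : ℕ) + (u * e : ℕ))
    simp only [Int.cast_natCast, Nat.abs_cast] at a1 a2 a3
    have a4 := h4 k 3 hk
    refine le_trans (le_of_eq ?_) ((abs_add_three _ _ _).trans
      ((add_le_add (add_le_add a1 a2) a3).trans ?_))
    · simp only [dif, gq]; push_cast; ring_nf
    · calc _ ≤ 3 * σ * (l / T * (l / T)) + l / T * (σ / T) + σ / T * (l / T) := by gcongr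
        _ = (3 * l ^ 2 + 2 * l) / T ^ 2 * σ := by ring
        _ ≤ _ := by gcongr; nlinarith

/-- the smoothed indicator function of `[4H, L]` -/
def wv (L H : ℕ) (m : ℤ) : ℝ :=
  ∑ t ∈ range (4 * H), if m ∈ Ioc (t : ℤ) (t + L) then gk H t / H else 0

theorem wv_eq_one {L : ℕ} (hH : 0 < H) {m : ℤ} (h1 : 4 * H ≤ m) (h2 : m ≤ L) : wv L H m = 1 := by
  rw [← sum_gk hH]
  refine sum_congr rfl fun t ht => if_pos ?_
  rw [mem_range] at ht
  rw [mem_Ioc]; omega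

theorem wv_nonneg (L : ℕ) (m : ℤ) : 0 ≤ wv L H m :=
  sum_nonneg fun t _ => by
    have := gk_nonneg (H := H) t
    split_ifs <;> positivity

theorem wv_le_one (L : ℕ) (hH : 0 < H) (m : ℤ) : wv L H m ≤ 1 := by
  rw [← sum_gk hH]
  refine sum_le_sum fun t _ => ?_
  have := gk_nonneg (H := H) t
  split_ifs
  · rfl
  · positivity

theorem wv_eq_zero {L : ℕ} {m : ℤ} (h : m ∉ Ioc (0 : ℤ) (0 + (L + 4 * H : ℕ))) : wv L H m = 0 := by
  refine sum_eq_zero fun t ht => if_neg ?_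
  rw [mem_range] at ht
  rw [mem_Ioc] at h ⊢
  push_cast at h; omega

theorem wv_shift {L n : ℕ} (hn : n ∈ Icc 1 (L + 4 * H)) (q : ℕ) (k : ℤ) :
    wv L H (n + k * q) = ∑ x ∈ Icc (-((L + 4 * H : ℕ) : ℤ)) (L + 4 * H : ℕ),
      if x < n ∧ n ≤ x + L then gq H q x k / H else 0 := by
  rw [mem_Icc] at hn
  unfold wv gq
  refine sum_bij_ne_zero (fun t _ _ => (t : ℤ) - k * q) ?_ ?_ ?_ ?_
  · intro t _ h
    have := (ite_ne_right_iff.mp h).1
    rw [mem_Ioc] at this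
    rw [mem_Icc]
    push_cast
    omega
  · intro a _ _ b _ _ h
    omega
  · intro x _ h
    obtain ⟨h1, h2⟩ := ite_ne_right_iff.mp h
    have h3 := gk_supp (left_ne_zero_of_mul h2)
    obtain ⟨t, ht⟩ := Int.eq_ofNat_of_zero_le h3.1
    refine ⟨t, mem_range.mpr (by omega), ?_, by omega⟩
    rw [if_pos (by rw [mem_Ioc]; omega), ← ht]
    exact h2
  · intro t _ h
    have := (ite_ne_right_iff.mp h).1
    rw [if_pos this]
    rw [mem_Ioc] at this
    rw [if_pos (by omega), sub_add_cancel]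

end Pool.Agent.Work.MP_5d318d_nt
end
end

-- merged part: Pool.Agent.Work.MP_5d318d_nt.ATri
section
/-!
# A trilinear estimate, on average over the modulus
-/

noncomputable section

open Finset Real

namespace Pool.Agent.Work.MP_5d318d_nt

open Pool.Agent.Lib.LargeSieve Pool.Agent.Lib.ANT

open Classical in
/-- Sum over primitive characters of modulus in `(D₀, D₁]`. -/
def CS (D0 D1 : ℕ) (F : (d : ℕ) → DirichletCharacter ℂ d → ℂ) : ℂ :=
  ∑ d ∈ Ioc D0 D1, ∑ χ : DirichletCharacter ℂ d with χ.IsPrimitive, F d χ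

theorem CS_sum {ι : Type*} (D0 D1 : ℕ) (s : Finset ι)
    (F : ι → (d : ℕ) → DirichletCharacter ℂ d → ℂ) :
    CS D0 D1 (fun d χ => ∑ i ∈ s, F i d χ) = ∑ i ∈ s, CS D0 D1 (F i) := by
  simp only [CS]
  rw [sum_comm]
  exact sum_congr rfl fun d _ => sum_comm

theorem CS_mul (D0 D1 : ℕ) (c : ℂ) (F : (d : ℕ) → DirichletCharacter ℂ d → ℂ) :
    CS D0 D1 (fun d χ => c * F d χ) = c * CS D0 D1 F := by
  simp only [CS, mul_sum]

theorem CS_add (D0 D1 : ℕ) (F G : (d : ℕ) → DirichletCharacter ℂ d → ℂ) :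
    CS D0 D1 (fun d χ => F d χ + G d χ) = CS D0 D1 F + CS D0 D1 G := by
  simp only [CS, sum_add_distrib]

theorem dual_le {D0 D1 Q1 : ℕ} (hD0 : 1 ≤ D0) (S : Finset ℕ) (hS : ∀ Q ∈ S, Q ≤ Q1)
    (ξ Φ : (d : ℕ) → DirichletCharacter ℂ d → ℂ) {c E : ℝ} (hc : 0 ≤ c)
    (hξ : ∀ d χ, ‖ξ d χ‖ ≤ c / d) (hE : 0 ≤ E)
    (h : ∀ b : ℕ → ℂ, (∀ n, ‖b n‖ ≤ 1) → ∀ D, D0 < D → D ≤ D1 →
      PS D (fun d χ => ‖DP (Q1 + 1) b χ‖ * ‖Φ d χ‖) ≤ E * D) :
    ∑ Q ∈ S, ‖CS D0 D1 (fun d χ => ξ d χ * (starRingEnd ℂ) (χ (Q : ZMod d)) * Φ d χ)‖ ≤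
      c * (E * (1 + HH D1)) := by
  classical
  choose θ hθ1 hθ2 using fun Q : ℕ => Complex.exists_norm_eq_mul_self
    (CS D0 D1 (fun d χ => ξ d χ * (starRingEnd ℂ) (χ (Q : ZMod d)) * Φ d χ))
  set b : ℕ → ℂ := fun Q => if Q ∈ S then (starRingEnd ℂ) (θ Q) else 0 with hb
  have hb1 : ∀ n, ‖b n‖ ≤ 1 := fun n => by
    simp only [hb]; split_ifs <;> simp [hθ1]
  have h1 : ((∑ Q ∈ S, ‖CS D0 D1 (fun d χ => ξ d χ * (starRingEnd ℂ) (χ (Q : ZMod d)) * Φ d χ)‖ :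
      ℝ) : ℂ) = CS D0 D1 (fun d χ => ξ d χ * (starRingEnd ℂ) (DP (Q1 + 1) b χ) * Φ d χ) := by
    rw [Complex.ofReal_sum, sum_congr rfl fun Q _ => hθ2 Q]
    simp_rw [← CS_mul]
    rw [← CS_sum]
    congr 1
    ext d χ
    rw [DP, map_sum, mul_sum, sum_mul, ← sum_subset (s₁ := S)
      (fun Q hQ => mem_range.mpr (Nat.lt_succ_of_le (hS Q hQ))) fun Q _ hQ => by simp [hb, hQ]]
    refine sum_congr rfl fun Q hQ => ?_
    simp only [hb, if_pos hQ, map_mul, Complex.conj_conj]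
    ring
  have h2 := abel_div (fun d => ∑ χ : DirichletCharacter ℂ d with χ.IsPrimitive,
    ‖DP (Q1 + 1) b χ‖ * ‖Φ d χ‖) (D0 := D0) (R := D1) hE fun D h1 h2 =>
    le_trans (sum_le_sum_of_subset_of_nonneg (t := Icc 2 D) (fun d hd => by
      simp only [mem_Icc, mem_Ioc] at hd ⊢; omega) fun _ _ _ =>
        sum_nonneg fun _ _ => by positivity) (h b hb1 D h1 h2)
  refine le_trans ?_ (mul_le_mul_of_nonneg_left h2 hc)
  refine (le_abs_self _).trans ?_
  rw [← Real.norm_eq_abs, ← Complex.norm_real, h1, mul_sum]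
  refine (norm_sum_le _ _).trans (sum_le_sum fun d _ => (norm_sum_le _ _).trans ?_)
  rw [← mul_div_assoc, mul_comm, mul_div_assoc, sum_mul]
  refine sum_le_sum fun χ _ => ?_
  rw [norm_mul, norm_mul, Complex.norm_conj, mul_assoc, mul_comm]
  exact mul_le_mul_of_nonneg_left (hξ d χ) (by positivity)

/-- the smoothed bilinear character sum -/
def WW (a : ℕ → ℝ) (L H u q T : ℕ) {d : ℕ} (χ : DirichletCharacter ℂ d) : ℂ :=
  ∑ n ∈ Icc 1 (L + 4 * H), (if u ∣ n then (a n : ℂ) * χ (n : ZMod d) else 0) *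
    ∑ k ∈ Icc (-(T : ℤ)) T, (wv L H (n + k * q) : ℂ) * (starRingEnd ℂ) (χ (k : ZMod d))

/-- coefficients restricted to a window -/
def aw (a : ℕ → ℝ) (L u : ℕ) (x : ℤ) (j : ℕ) : ℂ :=
  if j ≠ 0 ∧ x < (u * j : ℕ) ∧ (u * j : ℕ) ≤ x + L then a (u * j) else 0

theorem WW_eq (a : ℕ → ℝ) (L H : ℕ) {u : ℕ} (hu : 0 < u) (q T : ℕ) {d : ℕ}
    (χ : DirichletCharacter ℂ d) :
    WW a L H u q T χ = ∑ x ∈ Icc (-((L + 4 * H : ℕ) : ℤ)) (L + 4 * H : ℕ), (H : ℂ)⁻¹ *
      (χ (u : ZMod d) * (DP ((L + 4 * H) / u + 1) (aw a L u x) χ * Ct χ T (gq H q x))) := by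
  have h1 : ∀ x : ℤ, χ (u : ZMod d) * DP ((L + 4 * H) / u + 1) (aw a L u x) χ =
      ∑ n ∈ Icc 1 (L + 4 * H), if x < n ∧ n ≤ x + L then
        (if u ∣ n then (a n : ℂ) * χ (n : ZMod d) else 0) else 0 := by
    intro x
    rw [DP, mul_sum]
    refine sum_bij_ne_zero (fun j _ _ => u * j) ?_ ?_ ?_ ?_
    · intro j hj h
      have h0 := (ite_ne_right_iff.mp (left_ne_zero_of_mul (right_ne_zero_of_mul h))).1.1
      rw [mem_range, Nat.lt_succ_iff, Nat.le_div_iff_mul_le hu, mul_comm] at hj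
      exact mem_Icc.mpr ⟨Nat.mul_pos hu (Nat.pos_of_ne_zero h0), hj⟩
    · intro _ _ _ _ _ _ h
      exact Nat.eq_of_mul_eq_mul_left hu h
    · intro n hn h
      obtain ⟨h2, h3⟩ := ite_ne_right_iff.mp h
      obtain ⟨⟨j, rfl⟩, h4⟩ := ite_ne_right_iff.mp h3
      rw [mem_Icc] at hn
      refine ⟨j, ?_, ?_, rfl⟩
      · rw [mem_range, Nat.lt_succ_iff, Nat.le_div_iff_mul_le hu, mul_comm]; exact hn.2
      · rw [aw, if_pos ⟨by rintro rfl; simp at hn, h2⟩, mul_left_comm, ← map_mul, ← Nat.cast_mul]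
        exact h4
    · intro j _ h
      have h0 := (ite_ne_right_iff.mp (left_ne_zero_of_mul (right_ne_zero_of_mul h))).1
      rw [aw, if_pos h0, if_pos h0.2, if_pos (dvd_mul_right _ _), mul_left_comm, ← map_mul,
        ← Nat.cast_mul]
  simp_rw [← mul_assoc (χ _), h1, sum_mul, mul_sum (Icc 1 _)]
  rw [sum_comm]
  refine sum_congr rfl fun n hn => ?_
  simp_rw [wv_shift hn, Complex.ofReal_sum, sum_mul]
  rw [sum_comm, mul_sum]
  refine sum_congr rfl fun x _ => ?_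
  by_cases h : x < n ∧ n ≤ x + L
  · simp only [if_pos h]
    rw [Ct, mul_sum, mul_sum, mul_sum]
    refine sum_congr rfl fun k _ => ?_
    push_cast; ring
  · simp [if_neg h]

theorem Ct_tele {d : ℕ} (χ : DirichletCharacter ℂ d) (T : ℕ) (g : ℕ → ℤ → ℝ) {Q0 Q : ℕ}
    (hQ : Q0 ≤ Q) {σ : ℝ} (hσ : σ ≠ 0) :
    Ct χ T (g Q) = Ct χ T (g Q0) +
      ∑ v ∈ Ico Q0 Q, σ * Ct χ T (fun k => (g (v + 1) k - g v k) / σ) := by
  have hσ' : (σ : ℂ) ≠ 0 := by exact_mod_cast hσ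
  rw [← sub_eq_iff_eq_add', ← sum_Ico_sub (fun v => Ct χ T (g v)) hQ]
  refine sum_congr rfl fun v _ => ?_
  simp only [Ct, mul_sum, ← sum_sub_distrib]
  refine sum_congr rfl fun k _ => ?_
  push_cast; field_simp

theorem trilin_le {L H Q0 Q1 T u e D0 D1 : ℕ} (hH : 0 < H) (hu : 0 < u) (hD0 : 1 ≤ D0)
    (a : ℕ → ℝ) {A c l E : ℝ} (ha : ∀ n, |a n| ≤ A)
    (ξ : (d : ℕ) → DirichletCharacter ℂ d → ℂ) (hc : 0 ≤ c) (hξ : ∀ d χ, ‖ξ d χ‖ ≤ c / d)
    (hT : 2 * (L + 4 * H) < (T + 1) * (Q0 * e)) (hl : 1 ≤ l)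
    (hq : T * ((Q1 * e : ℕ) * (2 / H : ℝ)) ≤ l) (hE : 0 ≤ E)
    (h : 1 ≤ T → ∀ γ, Wt T (2 * (5 * l ^ 2) / T) γ → ∀ a' b : ℕ → ℂ, (∀ n, ‖a' n‖ ≤ A) →
      (∀ n, ‖b n‖ ≤ 1) → ∀ D, D0 < D → D ≤ D1 → PS D (fun _ χ => ‖DP (Q1 + 1) b χ‖ *
        ‖DP ((L + 4 * H) / u + 1) a' χ * Ct χ T γ‖) ≤ E * D) :
    ∑ Q ∈ Ioc Q0 Q1, ‖CS D0 D1 (fun d χ => ξ d χ * (starRingEnd ℂ) (χ (Q : ZMod d)) *
      WW a L H u (Q * e) T χ)‖ ≤
      (2 * (L + 4 * H : ℕ) + 1) / H * ((1 + l) * (c * (E * (1 + HH D1)))) := by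
  have hHH := HH_nonneg D1
  rcases Nat.eq_zero_or_pos T with rfl | hT1
  · refine le_trans (le_of_eq (sum_eq_zero fun Q _ => ?_)) (by positivity)
    rw [norm_eq_zero]
    refine sum_eq_zero fun d hd => sum_eq_zero fun χ _ => ?_
    have : χ (0 : ZMod d) = 0 := χ.map_zero' (by have := (mem_Ioc.mp hd).1; omega)
    simp [WW, this]
  rcases le_or_gt Q1 Q0 with hQ | hQ
  · rw [Ioc_eq_empty_of_le hQ, sum_empty]; positivity
  have hQ1 : (0 : ℝ) < Q1 := by exact_mod_cast lt_of_le_of_lt (Nat.zero_le _) hQ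
  set N := L + 4 * H with hN
  set σ : ℝ := l / Q1 with hσ
  have hσ0 : 0 < σ := by positivity
  set Y : ℤ → (ℤ → ℝ) → ℕ → ℂ := fun x γ Q => CS D0 D1 (fun d χ => ξ d χ * χ (u : ZMod d) *
    (starRingEnd ℂ) (χ (Q : ZMod d)) * (DP (N / u + 1) (aw a L u x) χ * Ct χ T γ)) with hY
  have key : ∀ x γ, Wt T (2 * (5 * l ^ 2) / T) γ →
      ∑ Q ∈ Ioc Q0 Q1, ‖Y x γ Q‖ ≤ c * (E * (1 + HH D1)) := by
    intro x γ hγ
    refine dual_le hD0 _ (fun Q hQ => (mem_Ioc.mp hQ).2) _ _ hc (fun d χ => ?_) hE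
      fun b hb => h hT1 γ hγ _ b (fun n => ?_) hb
    · rw [norm_mul]
      exact (mul_le_of_le_one_right (norm_nonneg _) (χ.norm_le_one _)).trans (hξ d χ)
    · unfold aw
      split_ifs
      · rw [Complex.norm_real]; exact ha _
      · rw [norm_zero]; exact (abs_nonneg _).trans (ha 0)
  have h1 : ∀ Q ∈ Ioc Q0 Q1, ‖CS D0 D1 (fun d χ => ξ d χ * (starRingEnd ℂ) (χ (Q : ZMod d)) *
      WW a L H u (Q * e) T χ)‖ ≤ ∑ x ∈ Icc (-(N : ℤ)) N, (H : ℝ)⁻¹ *
        (‖Y x (gq H (Q0 * e) x) Q‖ + ∑ v ∈ Ico Q0 Q1, σ *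
          ‖Y x (fun k => (gq H ((v + 1) * e) x k - gq H (v * e) x k) / σ) Q‖) := by
    intro Q hQ
    rw [mem_Ioc] at hQ
    have e1 : CS D0 D1 (fun d χ => ξ d χ * (starRingEnd ℂ) (χ (Q : ZMod d)) *
        WW a L H u (Q * e) T χ) = ∑ x ∈ Icc (-(N : ℤ)) N, (H : ℂ)⁻¹ *
        (Y x (gq H (Q0 * e) x) Q + ∑ v ∈ Ico Q0 Q, σ *
          Y x (fun k => (gq H ((v + 1) * e) x k - gq H (v * e) x k) / σ) Q) := by
      simp only [hY, ← CS_mul, ← CS_sum, ← CS_add]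
      congr 1
      ext d χ
      rw [WW_eq a L H hu, mul_sum]
      refine sum_congr rfl fun x _ => ?_
      rw [Ct_tele χ T (fun v => gq H (v * e) x) hQ.1.le hσ0.ne']
      simp only [mul_add, mul_sum]
      congr 1
      · ring
      · exact sum_congr rfl fun v _ => by ring
    rw [e1]
    refine (norm_sum_le _ _).trans (sum_le_sum fun x _ => ?_)
    rw [norm_mul, norm_inv, Complex.norm_natCast]
    gcongr
    refine (norm_add_le _ _).trans (add_le_add le_rfl ((norm_sum_le _ _).trans ?_))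
    simp only [norm_mul, Complex.norm_real, Real.norm_eq_abs, abs_of_pos hσ0]
    exact sum_le_sum_of_subset_of_nonneg (Ico_subset_Ico_right hQ.2) fun _ _ _ => by positivity
  refine (sum_le_sum h1).trans ?_
  rw [sum_comm]
  refine (sum_le_card_nsmul _ _ ((H : ℝ)⁻¹ * ((1 + l) * (c * (E * (1 + HH D1)))))
    fun x hx => ?_).trans (le_of_eq ?_)
  · rw [← mul_sum, sum_add_distrib, sum_comm, add_mul, one_mul]
    gcongr
    · refine key x _ (wt_gq hH hT1 (by omega) hT hx hl (le_trans ?_ hq))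
      gcongr
    · refine (sum_le_card_nsmul _ _ (σ * (c * (E * (1 + HH D1)))) fun v hv => ?_).trans ?_
      · rw [mem_Ico] at hv
        rw [← mul_sum]
        gcongr
        refine key x _ (wt_gq_sub hH hT1 (by omega) (hT.trans_le (by gcongr; exact hv.1)) hx hl hσ0
          (le_trans ?_ hq) ?_)
        · gcongr; omega
        · rw [hσ, le_div_iff₀ hQ1]
          refine le_trans (le_of_eq ?_) hq
          push_cast; ring
      · rw [nsmul_eq_mul, ← mul_assoc, Nat.card_Ico]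
        gcongr
        rw [hσ, mul_div_assoc', div_le_iff₀ hQ1, mul_comm]
        gcongr
        omega
  · rw [nsmul_eq_mul, card_Icc_T]; ring

theorem ps_le {T T0 : ℕ} {s : ℝ} {γ : ℤ → ℝ} (h : Wt T s γ) (hT : 1 ≤ T) (hT0 : T ≤ T0)
    {Y M : ℝ} (hY : 100 ≤ Y) (hs : T * s ≤ 5 * Y) {N Q1 u D D0 R : ℕ} (hu : 0 < u) (hD : D0 < D)
    (huD : u * D ≤ R) (hRN : R ≤ N) (hQ1 : 1 ≤ Q1) (hH : HH (R ^ 2) ≤ Y)
    (hτ : ∀ t < (Q1 + 1) * R, (t.divisors.card : ℝ) ≤ Y) (hM : 0 ≤ M)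
    (h1 : 4 * ((N : ℝ) * Q1) ^ 2 ≤ M ^ 2 * D0) (h2 : 2 * (N : ℝ) ^ 2 * Q1 * T0 * Y ^ 2 ≤ M ^ 2)
    (h3 : 2 * (R : ℝ) * N * Q1 ^ 2 * Y ^ 2 ≤ M ^ 2)
    (h4 : (R : ℝ) ^ 2 * Y ^ 4 * N * Q1 * T0 ≤ M ^ 2)
    (a b : ℕ → ℂ) (ha : ∀ n, ‖a n‖ ≤ Y) (hb : ∀ n, ‖b n‖ ≤ 1) :
    PS D (fun _ χ => ‖DP (Q1 + 1) b χ‖ * ‖DP (N / u + 1) a χ * Ct χ T γ‖) ≤
      4 * Y ^ 7 * M / u * D := by
  have hDR : D ≤ R := (Nat.le_mul_of_pos_left D hu).trans huD
  have huN : u ≤ N := ((Nat.le_mul_of_pos_right u (by omega)).trans huD).trans hRN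
  have hu' : (0 : ℝ) < u := by exact_mod_cast hu
  have hL1 : ((N / u + 1 : ℕ) : ℝ) ≤ 2 * (N / u) := by
    have a1 : ((N / u : ℕ) : ℝ) ≤ N / u := Nat.cast_div_le
    have a2 : (1 : ℝ) ≤ N / u := (one_le_div hu').mpr (by exact_mod_cast huN)
    push_cast; linarith
  have hL2 : ((Q1 + 1 : ℕ) : ℝ) ≤ 2 * Q1 := by
    have : (1 : ℝ) ≤ Q1 := by exact_mod_cast hQ1
    push_cast; linarith
  have main := typeII_core h hT hY hs (D := D) (L1 := N / u + 1) (L2 := Q1 + 1) (X := N / u * Q1)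
    (by omega) ((HH_mono (by gcongr)).trans hH)
    (by calc _ ≤ 2 * ((N : ℝ) / u) * (2 * Q1) := by gcongr
          _ = _ := by ring)
    (fun t ht => hτ t (ht.trans_le (by gcongr))) a b ha fun n => (hb n).trans (by linarith)
  refine le_trans (le_of_eq ?_) (main.trans ?_)
  · congr 1; ext d χ; rw [norm_mul]; ring
  have hY0 : 0 ≤ Y := by linarith
  have hD1 : (1 : ℝ) ≤ D := by exact_mod_cast (by omega : 1 ≤ D)
  have hD0 : (D0 : ℝ) ≤ D := by exact_mod_cast hD.le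
  have huD' : (u : ℝ) * D ≤ R := by exact_mod_cast huD
  have hT0' : (T : ℝ) ≤ T0 := by exact_mod_cast hT0
  have hu1 : (1 : ℝ) ≤ u := by exact_mod_cast hu
  have x2 : √((N : ℝ) / u * Q1) ^ 2 = N / u * Q1 := Real.sq_sqrt (by positivity)
  have p2 : √((N / u + 1 : ℕ) : ℝ) ^ 2 ≤ 2 * (N / u) := by
    rw [Real.sq_sqrt (by positivity)]; exact hL1
  have q2 : √((Q1 + 1 : ℕ) : ℝ) ^ 2 ≤ 2 * Q1 := by rw [Real.sq_sqrt (by positivity)]; exact hL2
  have d2 : √(D : ℝ) ^ 2 = D := Real.sq_sqrt (by positivity)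
  have t2 : √(T : ℝ) ^ 2 ≤ T0 := by rw [Real.sq_sqrt (by positivity)]; exact hT0'
  have x0 := Real.sqrt_nonneg ((N : ℝ) / u * Q1)
  have p0 := Real.sqrt_nonneg ((N / u + 1 : ℕ) : ℝ)
  have q0 := Real.sqrt_nonneg ((Q1 + 1 : ℕ) : ℝ)
  have d0 := Real.sqrt_nonneg (D : ℝ)
  have t0 := Real.sqrt_nonneg (T : ℝ)
  generalize √((N : ℝ) / u * Q1) = x at *
  generalize √((N / u + 1 : ℕ) : ℝ) = p at *
  generalize √((Q1 + 1 : ℕ) : ℝ) = q at *
  generalize √(D : ℝ) = δ at *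
  generalize √(T : ℝ) = τ at *
  have b1 : u * x * p * q * δ ≤ M * D := by
    refine le_of_sq_le_sq ?_ (by positivity)
    calc _ = u ^ 2 * x ^ 2 * p ^ 2 * q ^ 2 * δ ^ 2 := by ring
      _ ≤ u ^ 2 * (N / u * Q1) * (2 * (N / u)) * (2 * Q1) * D := by rw [x2, d2]; gcongr
      _ = 4 * ((N : ℝ) * Q1) ^ 2 * D := by field_simp; ring
      _ ≤ M ^ 2 * D * D := mul_le_mul_of_nonneg_right (h1.trans (by gcongr)) (by positivity)
      _ = _ := by ring
  have b2 : u * x * p * Y * τ ≤ M := by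
    refine le_of_sq_le_sq (le_trans ?_ h2) hM
    calc _ = u ^ 2 * x ^ 2 * p ^ 2 * τ ^ 2 * Y ^ 2 := by ring
      _ ≤ u ^ 2 * (N / u * Q1) * (2 * (N / u)) * T0 * Y ^ 2 := by rw [x2]; gcongr
      _ = _ := by field_simp
  have b3 : u * x * Y * q * δ ≤ M := by
    refine le_of_sq_le_sq (le_trans ?_ h3) hM
    calc _ = u ^ 2 * x ^ 2 * q ^ 2 * δ ^ 2 * Y ^ 2 := by ring
      _ ≤ u ^ 2 * (N / u * Q1) * (2 * Q1) * D * Y ^ 2 := by rw [x2, d2]; gcongr
      _ = 2 * (u * D) * N * Q1 ^ 2 * Y ^ 2 := by field_simp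
      _ ≤ _ := by gcongr
  have b4 : u * x * D * Y ^ 2 * τ ≤ M := by
    refine le_of_sq_le_sq (le_trans ?_ h4) hM
    calc _ = u ^ 2 * x ^ 2 * D ^ 2 * Y ^ 4 * τ ^ 2 := by ring
      _ ≤ u ^ 2 * (N / u * Q1) * D ^ 2 * Y ^ 4 * T0 := by rw [x2]; gcongr
      _ = (u * D) * (1 * D) * Y ^ 4 * N * Q1 * T0 := by field_simp
      _ ≤ R * (u * D) * Y ^ 4 * N * Q1 * T0 := by gcongr
      _ ≤ R * R * Y ^ 4 * N * Q1 * T0 := by gcongr
      _ = _ := by ring
  rw [div_mul_eq_mul_div, le_div_iff₀ hu']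
  calc _ = Y ^ 7 * (u * x * p * q * δ + D * (u * x * p * Y * τ) + D * (u * x * Y * q * δ) +
        D * (u * x * D * Y ^ 2 * τ)) := by ring
    _ ≤ Y ^ 7 * (M * D + D * M + D * M + D * M) := by gcongr
    _ = _ := by ring

end Pool.Agent.Work.MP_5d318d_nt
end
end
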