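import Pool.Agent.Lib.ANT.PrimePairs
import Pool.Agent.Lib.ANT.DivisorBound
import Pool.Agent.Lib.ANT.PNT

/-!
# The variance of primes in progressions for moduli close to `X`
-/

noncomputable section

open Finset ArithmeticFunction Filter Topology

namespace Pool.Agent.Work.MP_5d318d_nt

open Pool.Agent.Lib.ANT

/-- `ψ(N; Q, A)`. -/
def psiAP (N Q A : ℕ) : ℝ := ∑ n ∈ (Icc 1 N).filter (fun n => n % Q = A), vonMangoldt n

/-- The reduced residues mod `Q`. -/
def red (Q : ℕ) : Finset ℕ := (range Q).filter (fun A => Nat.Coprime A Q)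

/-- Hooley's variance. -/
def G (X : ℝ) (Q : ℕ) : ℝ := ∑ A ∈ red Q, (psiAP ⌊X⌋₊ Q A - X / (Nat.totient Q : ℝ)) ^ 2

theorem card_red (Q : ℕ) : (red Q).card = Q.totient := by
  rw [red, Nat.totient_eq_card_coprime]
  congr 1
  ext A
  simp [Nat.coprime_comm]

theorem sum_red_fiber (N Q : ℕ) (hQ : 0 < Q) (f : ℕ → ℝ) :
    ∑ A ∈ red Q, ∑ n ∈ (Icc 1 N).filter (fun n => n % Q = A), f n =
      ∑ n ∈ (Icc 1 N).filter (fun n => n.Coprime Q), f n := by
  rw [← Finset.sum_fiberwise_of_maps_to (s := (Icc 1 N).filter (fun n => n.Coprime Q))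
    (t := red Q) (g := fun n => n % Q)]
  · refine Finset.sum_congr rfl fun A hA => Finset.sum_congr ?_ fun _ _ => rfl
    ext n
    simp only [Finset.mem_filter]
    have hA' := (Finset.mem_filter.mp hA).2
    constructor
    · rintro ⟨h1, h2⟩
      refine ⟨⟨h1, ?_⟩, h2⟩
      rw [← h2] at hA'
      exact (ZMod.coprime_mod_iff_coprime _ _).mp hA'
    · rintro ⟨⟨h1, -⟩, h2⟩
      exact ⟨h1, h2⟩
  · intro n hn
    exact Finset.mem_filter.mpr ⟨Finset.mem_range.mpr (Nat.mod_lt _ hQ),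
      (ZMod.coprime_mod_iff_coprime _ _).mpr (Finset.mem_filter.mp hn).2⟩

theorem psi_eq (N : ℕ) : Chebyshev.psi N = ∑ n ∈ Icc 1 N, vonMangoldt n := by
  rw [psi_eq_sum_Icc_one, Nat.floor_natCast]

theorem sum_vonMangoldt_Icc_le (N : ℕ) : ∑ n ∈ Icc 1 N, vonMangoldt n ≤ 6 * N :=
  sum_vonMangoldt_le N

theorem sum_not_prime_le (N : ℕ) (hN : 1 ≤ N) :
    ∑ n ∈ (Icc 1 N).filter (fun n => ¬ n.Prime), vonMangoldt n ≤ 2 * √N * Real.log N := by
  have h1 := Chebyshev.psi_sub_theta_eq_sum_not_prime (N : ℝ)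
  have h2 := Chebyshev.psi_sub_theta_le (x := N) (by exact_mod_cast hN)
  rw [h1, Nat.floor_natCast] at h2
  exact h2

/-- The terms not coprime to `Q` are negligible. -/
theorem sum_not_coprime_le (N Q : ℕ) (hN : 1 ≤ N) (hQ : 0 < Q) :
    ∑ n ∈ (Icc 1 N).filter (fun n => ¬ n.Coprime Q), vonMangoldt n ≤
      Real.log Q + 2 * √N * Real.log N := by
  classical
  rw [← Finset.sum_filter_add_sum_filter_not _ Nat.Prime]
  refine add_le_add ?_ (le_trans (Finset.sum_le_sum_of_subset_of_nonneg ?_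
    fun _ _ _ => vonMangoldt_nonneg) (sum_not_prime_le N hN))
  · rw [← vonMangoldt_sum]
    refine Finset.sum_le_sum_of_subset_of_nonneg ?_ fun _ _ _ => vonMangoldt_nonneg
    intro p hp
    obtain ⟨h1, h2⟩ := Finset.mem_filter.mp hp
    refine Nat.mem_divisors.mpr ⟨?_, hQ.ne'⟩
    by_contra h
    exact (Finset.mem_filter.mp h1).2 ((Nat.Prime.coprime_iff_not_dvd h2).mpr h)
  · intro n hn
    obtain ⟨h1, h2⟩ := Finset.mem_filter.mp hn
    exact Finset.mem_filter.mpr ⟨(Finset.mem_filter.mp h1).1, h2⟩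

theorem vonMangoldt_le_log_of_le {n N : ℕ} (hn : n ∈ Icc 1 N) : vonMangoldt n ≤ Real.log N := by
  have := Finset.mem_Icc.mp hn
  exact vonMangoldt_le_log.trans
    (Real.log_le_log (by exact_mod_cast this.1) (by exact_mod_cast this.2))

theorem log_sq_le (x : ℝ) (hx : 1 ≤ x) : Real.log x ^ 2 ≤ 16 * √x := by
  have h1 : Real.log x = 4 * Real.log (√(√x)) := by
    rw [Real.log_sqrt (Real.sqrt_nonneg _), Real.log_sqrt (by linarith)]; ring
  have h0 : 0 < √(√x) := Real.sqrt_pos.mpr (Real.sqrt_pos.mpr (by linarith))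
  have h2 : Real.log (√(√x)) ≤ √(√x) := (Real.log_le_sub_one_of_pos h0).trans (by linarith)
  have h3 : 0 ≤ Real.log (√(√x)) := by
    have := Real.log_nonneg hx
    linarith
  have h4 : √(√x) ^ 2 = √x := Real.sq_sqrt (Real.sqrt_nonneg _)
  rw [h1]
  nlinarith

/-- Sieve bound for the correlation `∑ Λ(n) Λ(n+h)`. -/
theorem sum_pair_le (N h : ℕ) (hN : 2 ≤ N) (hh : 0 < h) :
    ∑ n ∈ (Icc 1 N).filter (fun n => n + h ≤ N), vonMangoldt n * vonMangoldt (n + h) ≤
      464 * ((h : ℝ) / h.totient) * N := by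
  classical
  have hN1 : (1 : ℝ) < N := by exact_mod_cast hN
  have hL : 0 < Real.log N := Real.log_pos hN1
  set s := (Icc 1 N).filter (fun n => n + h ≤ N) with hs
  have hpt : ∀ n ∈ s, vonMangoldt n * vonMangoldt (n + h) ≤
      (if n.Prime ∧ (n + h).Prime then Real.log N ^ 2 else 0) +
      Real.log N * (if ¬ n.Prime then vonMangoldt n else 0) +
      Real.log N * (if ¬ (n + h).Prime then vonMangoldt (n + h) else 0) := by
    intro n hn
    obtain ⟨h1, h2⟩ := Finset.mem_filter.mp hn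
    have a1 := vonMangoldt_le_log_of_le h1
    have a2 : vonMangoldt (n + h) ≤ Real.log N :=
      vonMangoldt_le_log_of_le (Finset.mem_Icc.mpr ⟨by omega, h2⟩)
    have b1 : 0 ≤ vonMangoldt n := vonMangoldt_nonneg
    have b2 : 0 ≤ vonMangoldt (n + h) := vonMangoldt_nonneg
    by_cases c1 : n.Prime <;> by_cases c2 : (n + h).Prime <;> simp only [c1, c2, and_self,
      if_true, not_true, if_false, and_false, false_and, not_false_iff] <;> nlinarith
  refine (Finset.sum_le_sum hpt).trans ?_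
  rw [Finset.sum_add_distrib, Finset.sum_add_distrib, ← Finset.mul_sum, ← Finset.mul_sum,
    ← Finset.sum_filter, ← Finset.sum_filter, ← Finset.sum_filter]
  have e1 : ∑ _n ∈ s.filter (fun n => n.Prime ∧ (n + h).Prime), Real.log N ^ 2 ≤
      400 * ((h : ℝ) / h.totient) * N := by
    have := card_prime_pairs_le h 0 N hh hN
    rw [le_div_iff₀ (by positivity)] at this
    rw [Finset.sum_const, nsmul_eq_mul]
    refine le_trans (mul_le_mul_of_nonneg_right ?_ (by positivity)) this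
    refine Nat.cast_le.mpr (Finset.card_le_card fun n hn => ?_)
    obtain ⟨h1, h2⟩ := Finset.mem_filter.mp hn
    have := Finset.mem_Icc.mp (Finset.mem_filter.mp h1).1
    exact Finset.mem_filter.mpr ⟨Finset.mem_Ioc.mpr ⟨by omega, by omega⟩, h2⟩
  have e2 : ∑ n ∈ s.filter (fun n => ¬ n.Prime), vonMangoldt n ≤ 2 * √N * Real.log N :=
    le_trans (Finset.sum_le_sum_of_subset_of_nonneg
      (Finset.filter_subset_filter _ (Finset.filter_subset _ _)) fun _ _ _ => vonMangoldt_nonneg)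
      (sum_not_prime_le N (by omega))
  have e3 : ∑ n ∈ s.filter (fun n => ¬ (n + h).Prime), vonMangoldt (n + h) ≤
      2 * √N * Real.log N := by
    refine le_trans ?_ (sum_not_prime_le N (by omega))
    rw [← Finset.sum_image (s := s.filter (fun n => ¬ (n + h).Prime)) (g := fun n => n + h)
      (f := fun n => vonMangoldt n) (fun a _ b _ hab => Nat.add_right_cancel hab)]
    refine Finset.sum_le_sum_of_subset_of_nonneg ?_ fun _ _ _ => vonMangoldt_nonneg
    intro m hm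
    obtain ⟨n, hn, rfl⟩ := Finset.mem_image.mp hm
    obtain ⟨h1, h2⟩ := Finset.mem_filter.mp hn
    exact Finset.mem_filter.mpr ⟨Finset.mem_Icc.mpr ⟨by omega, (Finset.mem_filter.mp h1).2⟩, h2⟩
  have e4 := log_sq_le N hN1.le
  have e5 : √(N : ℝ) * √(N : ℝ) = N := Real.mul_self_sqrt (by linarith)
  have e6 : 1 ≤ (h : ℝ) / h.totient := (one_le_div (by exact_mod_cast Nat.totient_pos.mpr hh)).mpr
    (by exact_mod_cast Nat.totient_le h)
  have e7 : Real.log N * (2 * √N * Real.log N) ≤ 32 * N := by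
    have : 0 ≤ √(N : ℝ) := Real.sqrt_nonneg _
    nlinarith
  have e8 := mul_le_mul_of_nonneg_left e2 hL.le
  have e9 := mul_le_mul_of_nonneg_left e3 hL.le
  nlinarith

/-- The diagonal term. -/
def diag (N Q : ℕ) : ℝ := ∑ n ∈ (Icc 1 N).filter (fun n => n.Coprime Q), vonMangoldt n ^ 2

theorem sum_sq_eq (N Q : ℕ) (hQ : 0 < Q) :
    ∑ A ∈ red Q, psiAP N Q A ^ 2 = ∑ n ∈ (Icc 1 N).filter (fun n => n.Coprime Q),
      vonMangoldt n * psiAP N Q (n % Q) := by
  rw [← sum_red_fiber N Q hQ]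
  refine Finset.sum_congr rfl fun A _ => ?_
  rw [sq]
  conv_lhs => rw [psiAP, Finset.sum_mul]
  refine Finset.sum_congr rfl fun n hn => ?_
  rw [(Finset.mem_filter.mp hn).2]
  rfl

theorem diag_le_sum_sq (N Q : ℕ) (hQ : 0 < Q) : diag N Q ≤ ∑ A ∈ red Q, psiAP N Q A ^ 2 := by
  rw [sum_sq_eq N Q hQ]
  refine Finset.sum_le_sum fun n hn => ?_
  rw [sq]
  refine mul_le_mul_of_nonneg_left ?_ vonMangoldt_nonneg
  exact Finset.single_le_sum (f := fun n => vonMangoldt n) (fun _ _ => vonMangoldt_nonneg)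
    (Finset.mem_filter.mpr ⟨(Finset.mem_filter.mp hn).1, rfl⟩)

theorem sum_offdiag_le (N Q : ℕ) (hN : 2 ≤ N) (hQ : 0 < Q) :
    ∑ n ∈ Icc 1 N, ∑ m ∈ (Icc 1 N).filter (fun m => m % Q = n % Q ∧ n < m),
      vonMangoldt n * vonMangoldt m ≤ 1392 * (N : ℝ) ^ 2 / Q.totient := by
  classical
  have h1 : ∀ n ∈ Icc 1 N, ∑ m ∈ (Icc 1 N).filter (fun m => m % Q = n % Q ∧ n < m),
      vonMangoldt n * vonMangoldt m ≤ ∑ k ∈ Ioc 0 (N / Q),
        if n + k * Q ≤ N then vonMangoldt n * vonMangoldt (n + k * Q) else 0 := by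
    intro n _
    rw [← Finset.sum_filter, ← Finset.sum_image (s := (Ioc 0 (N / Q)).filter
      (fun k => n + k * Q ≤ N)) (g := fun k => n + k * Q)
      (f := fun m => vonMangoldt n * vonMangoldt m)
      (fun a _ b _ hab => Nat.eq_of_mul_eq_mul_right hQ (Nat.add_left_cancel hab))]
    refine Finset.sum_le_sum_of_subset_of_nonneg ?_
      fun _ _ _ => mul_nonneg vonMangoldt_nonneg vonMangoldt_nonneg
    intro m hm
    obtain ⟨h1, h2, h3⟩ := Finset.mem_filter.mp hm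
    have h4 := Finset.mem_Icc.mp h1
    obtain ⟨k, hk⟩ := (Nat.modEq_iff_dvd' h3.le).mp h2.symm
    have hm' : n + k * Q = m := by rw [mul_comm, ← hk]; omega
    refine Finset.mem_image.mpr ⟨k, Finset.mem_filter.mpr ⟨Finset.mem_Ioc.mpr ⟨?_, ?_⟩, ?_⟩, hm'⟩
    · rcases Nat.eq_zero_or_pos k with rfl | h
      · omega
      · exact h
    · exact (Nat.le_div_iff_mul_le hQ).mpr (by omega)
    · omega
  refine (Finset.sum_le_sum h1).trans ?_
  rw [Finset.sum_comm]
  have hQ' : (0 : ℝ) < Q := by exact_mod_cast hQ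
  have hφ : (0 : ℝ) < Q.totient := by exact_mod_cast Nat.totient_pos.mpr hQ
  have h2 : ∀ k ∈ Ioc 0 (N / Q), (∑ n ∈ Icc 1 N,
      if n + k * Q ≤ N then vonMangoldt n * vonMangoldt (n + k * Q) else 0) ≤
      (464 * (Q / Q.totient) * N) * ((k : ℝ) / k.totient) := by
    intro k hk
    have hk0 := (Finset.mem_Ioc.mp hk).1
    rw [← Finset.sum_filter]
    refine (sum_pair_le N (k * Q) hN (Nat.mul_pos hk0 hQ)).trans ?_
    have hφk : (0 : ℝ) < k.totient := by exact_mod_cast Nat.totient_pos.mpr hk0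
    have h3 : (k.totient : ℝ) * Q.totient ≤ (k * Q).totient := by
      exact_mod_cast Nat.totient_super_multiplicative k Q
    have h4 : ((k * Q : ℕ) : ℝ) / (k * Q).totient ≤ (Q / Q.totient) * ((k : ℝ) / k.totient) := by
      calc _ ≤ ((k * Q : ℕ) : ℝ) / (k.totient * Q.totient) :=
            div_le_div_of_nonneg_left (Nat.cast_nonneg _) (by positivity) h3
        _ = _ := by push_cast; field_simp
    calc _ ≤ 464 * ((Q / Q.totient) * ((k : ℝ) / k.totient)) * N := by gcongr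
      _ = _ := by ring
  refine (Finset.sum_le_sum h2).trans ?_
  rw [← Finset.mul_sum]
  have h3 := sum_div_totient_le (N / Q)
  have h4 : ((N / Q : ℕ) : ℝ) ≤ N / Q := Nat.cast_div_le
  calc _ ≤ (464 * ((Q : ℝ) / Q.totient) * N) * (3 * (N / Q)) := by
        gcongr
        linarith
    _ = _ := by field_simp; ring

theorem sum_sq_le (N Q : ℕ) (hN : 2 ≤ N) (hQ : 0 < Q) :
    ∑ A ∈ red Q, psiAP N Q A ^ 2 ≤ diag N Q + 2784 * (N : ℝ) ^ 2 / Q.totient := by
  classical
  rw [sum_sq_eq N Q hQ]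
  have h1 : ∀ n ∈ Icc 1 N, vonMangoldt n * psiAP N Q (n % Q) = vonMangoldt n ^ 2 +
      (∑ m ∈ Icc 1 N, (if m % Q = n % Q ∧ n < m then vonMangoldt n * vonMangoldt m else 0) +
       ∑ m ∈ Icc 1 N, (if n % Q = m % Q ∧ m < n then vonMangoldt m * vonMangoldt n else 0)) := by
    intro n hn
    have : vonMangoldt n ^ 2 = ∑ m ∈ Icc 1 N,
        if m = n then vonMangoldt n * vonMangoldt m else 0 := by
      rw [Finset.sum_ite_eq', if_pos hn, sq]
    rw [this, psiAP, Finset.mul_sum, Finset.sum_filter, ← Finset.sum_add_distrib,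
      ← Finset.sum_add_distrib]
    refine Finset.sum_congr rfl fun m _ => ?_
    rcases lt_trichotomy m n with h | h | h
    · by_cases h' : m % Q = n % Q
      · simp [h, h', h.ne, h.not_gt, mul_comm]
      · simp [h', h.ne, Ne.symm h']
    · simp [h]
    · by_cases h' : m % Q = n % Q
      · simp [h, h', h.ne', h.not_gt]
      · simp [h', h.ne', Ne.symm h']
  rw [Finset.sum_congr rfl fun n hn => h1 n (Finset.mem_filter.mp hn).1, Finset.sum_add_distrib]
  refine add_le_add le_rfl ?_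
  have hnn : ∀ (c : Prop) [Decidable c] (a b : ℕ),
      0 ≤ (if c then vonMangoldt a * vonMangoldt b else 0) := by
    intro c _ a b
    split_ifs
    · exact mul_nonneg vonMangoldt_nonneg vonMangoldt_nonneg
    · exact le_rfl
  refine (Finset.sum_le_sum_of_subset_of_nonneg (Finset.filter_subset _ _) fun n _ _ =>
    add_nonneg (Finset.sum_nonneg fun m _ => hnn _ _ _)
      (Finset.sum_nonneg fun m _ => hnn _ _ _)).trans ?_
  rw [Finset.sum_add_distrib, Finset.sum_comm (s := Icc 1 N) (t := Icc 1 N)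
    (f := fun n m => if n % Q = m % Q ∧ m < n then vonMangoldt m * vonMangoldt n else 0)]
  have h2 := sum_offdiag_le N Q hN hQ
  simp_rw [Finset.sum_filter] at h2
  have : 2784 * (N : ℝ) ^ 2 / Q.totient =
      1392 * (N : ℝ) ^ 2 / Q.totient + 1392 * (N : ℝ) ^ 2 / Q.totient := by ring
  rw [this]
  exact add_le_add h2 h2

theorem G_eq (X : ℝ) (Q : ℕ) (hQ : 0 < Q) :
    G X Q = ∑ A ∈ red Q, psiAP ⌊X⌋₊ Q A ^ 2 -
      2 * (X / Q.totient) * ∑ n ∈ (Icc 1 ⌊X⌋₊).filter (fun n => n.Coprime Q), vonMangoldt n +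
      X ^ 2 / Q.totient := by
  have hφ : (0 : ℝ) < Q.totient := by exact_mod_cast Nat.totient_pos.mpr hQ
  rw [← sum_red_fiber _ Q hQ, G, Finset.mul_sum, ← Finset.sum_sub_distrib]
  have : X ^ 2 / Q.totient = ∑ _A ∈ red Q, (X / Q.totient) ^ 2 := by
    rw [Finset.sum_const, card_red, nsmul_eq_mul]; field_simp
  rw [this, ← Finset.sum_add_distrib]
  refine Finset.sum_congr rfl fun A _ => ?_
  rw [psiAP]; ring

/-- `G` differs from the diagonal term by `O(X² / φ(Q))`. -/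
theorem abs_G_sub_diag_le (X : ℝ) (hX : 2 ≤ X) (Q : ℕ) (hQ : 0 < Q) :
    |G X Q - diag ⌊X⌋₊ Q| ≤ 2800 * X ^ 2 / Q.totient := by
  have hφ : (0 : ℝ) < Q.totient := by exact_mod_cast Nat.totient_pos.mpr hQ
  have hN : 2 ≤ ⌊X⌋₊ := Nat.le_floor (by exact_mod_cast hX)
  have hNX : (⌊X⌋₊ : ℝ) ≤ X := Nat.floor_le (by linarith)
  have h1 := diag_le_sum_sq ⌊X⌋₊ Q hQ
  have h2 := sum_sq_le ⌊X⌋₊ Q hN hQ
  have h3 : 0 ≤ ∑ n ∈ (Icc 1 ⌊X⌋₊).filter (fun n => n.Coprime Q), vonMangoldt n :=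
    Finset.sum_nonneg fun _ _ => vonMangoldt_nonneg
  have h4 : ∑ n ∈ (Icc 1 ⌊X⌋₊).filter (fun n => n.Coprime Q), vonMangoldt n ≤ 6 * X :=
    (Finset.sum_le_sum_of_subset_of_nonneg (Finset.filter_subset _ _)
      fun _ _ _ => vonMangoldt_nonneg).trans ((sum_vonMangoldt_Icc_le _).trans (by linarith))
  have h5 : 2784 * (⌊X⌋₊ : ℝ) ^ 2 / Q.totient ≤ 2784 * (X ^ 2 / Q.totient) := by
    rw [← mul_div_assoc]; gcongr
  have h6 : 0 ≤ X / Q.totient := by positivity
  have h7 := mul_le_mul_of_nonneg_left h4 h6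
  have h8 := mul_nonneg h6 h3
  have h9 : X / Q.totient * (6 * X) = 6 * (X ^ 2 / Q.totient) := by ring
  have h10 : 0 ≤ X ^ 2 / Q.totient := by positivity
  rw [G_eq X Q hQ, mul_div_assoc, abs_le]
  constructor <;> nlinarith

theorem diag_le (N Q : ℕ) : diag N Q ≤ Real.log N * Chebyshev.psi N := by
  rw [psi_eq, Finset.mul_sum]
  refine (Finset.sum_le_sum_of_subset_of_nonneg (Finset.filter_subset _ _)
    fun _ _ _ => sq_nonneg _).trans (Finset.sum_le_sum fun n hn => ?_)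
  rw [sq]
  exact mul_le_mul_of_nonneg_right (vonMangoldt_le_log_of_le hn) vonMangoldt_nonneg

theorem le_diag (N Q Y : ℕ) (hN : 1 ≤ N) (hQ : 0 < Q) (y : ℝ) (hy : 1 ≤ y) (hyY : y ≤ Y + 1) :
    Real.log y * (Chebyshev.psi N - 6 * Y - 4 * √N * Real.log N - Real.log Q) ≤ diag N Q := by
  classical
  have hly : 0 ≤ Real.log y := Real.log_nonneg hy
  set s := (Icc 1 N).filter (fun n => n.Coprime Q ∧ n.Prime ∧ Y < n) with hs
  have h1 : Real.log y * ∑ n ∈ s, vonMangoldt n ≤ diag N Q := by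
    rw [Finset.mul_sum]
    refine le_trans (Finset.sum_le_sum fun n hn => ?_) (Finset.sum_le_sum_of_subset_of_nonneg
      (t := (Icc 1 N).filter (fun n => n.Coprime Q)) (s := s) ?_ fun _ _ _ => sq_nonneg _)
    · obtain ⟨-, -, h2, h3⟩ := Finset.mem_filter.mp hn
      rw [sq]
      refine mul_le_mul_of_nonneg_right ?_ vonMangoldt_nonneg
      rw [vonMangoldt_apply_prime h2]
      have : (Y : ℝ) + 1 ≤ n := by exact_mod_cast h3
      exact Real.log_le_log (by linarith) (by linarith)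
    · intro n hn
      obtain ⟨h1, h2, -⟩ := Finset.mem_filter.mp hn
      exact Finset.mem_filter.mpr ⟨h1, h2⟩
  refine le_trans (mul_le_mul_of_nonneg_left ?_ hly) h1
  have h2 := sum_not_coprime_le N Q hN hQ
  have h3 := sum_not_prime_le N hN
  have h4 : ∑ n ∈ (Icc 1 N).filter (fun n => n ≤ Y), vonMangoldt n ≤ 6 * Y := by
    refine le_trans (Finset.sum_le_sum_of_subset_of_nonneg ?_ fun _ _ _ => vonMangoldt_nonneg)
      (sum_vonMangoldt_Icc_le Y)
    intro n hn
    obtain ⟨h1, h2⟩ := Finset.mem_filter.mp hn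
    exact Finset.mem_Icc.mpr ⟨(Finset.mem_Icc.mp h1).1, h2⟩
  have h5 : Chebyshev.psi N ≤ ∑ n ∈ s, vonMangoldt n +
      ∑ n ∈ (Icc 1 N).filter (fun n => ¬ n.Coprime Q), vonMangoldt n +
      ∑ n ∈ (Icc 1 N).filter (fun n => ¬ n.Prime), vonMangoldt n +
      ∑ n ∈ (Icc 1 N).filter (fun n => n ≤ Y), vonMangoldt n := by
    rw [psi_eq, hs]
    simp only [Finset.sum_filter, ← Finset.sum_add_distrib]
    refine Finset.sum_le_sum fun n _ => ?_
    have := vonMangoldt_nonneg (n := n)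
    split_ifs <;> first | linarith | (exfalso; simp_all)
  linarith

theorem eventually_diag (δ : ℝ) (hδ : 0 < δ) :
    ∀ᶠ X : ℝ in atTop, ∀ Q : ℕ, 0 < Q → (Q : ℝ) ≤ X →
      |diag ⌊X⌋₊ Q - X * Real.log X| ≤ δ * (X * Real.log X) := by
  set η : ℝ := min (δ / 5) (1 / 4) with hη
  have hη0 : 0 < η := lt_min (by linarith) (by norm_num)
  have hη1 : η ≤ δ / 5 := min_le_left _ _
  have hη2 : η ≤ 1 / 4 := min_le_right _ _
  have t1 := (Metric.tendsto_nhds.mp tendsto_psi_div) η hη0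
  have t2 : ∀ᶠ X : ℝ in atTop, X ^ (-η) ≤ η / 6 :=
    (tendsto_rpow_neg_atTop hη0).eventually (ge_mem_nhds (by linarith))
  have t3 : ∀ᶠ X : ℝ in atTop, ‖Real.log X‖ ≤ η / 4 * ‖X ^ (1 / 2 : ℝ)‖ :=
    (isLittleO_log_rpow_atTop (by norm_num : (0 : ℝ) < 1 / 2)).bound (by linarith)
  have t4 : ∀ᶠ X : ℝ in atTop, ‖Real.log X‖ ≤ η * ‖X‖ := Real.isLittleO_log_id_atTop.bound hη0
  filter_upwards [t1, t2, t3, t4, eventually_ge_atTop 2] with X h1 h2 h3 h4 hX Q hQ hQX
  have hX0 : 0 < X := by linarith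
  have hL : 0 < Real.log X := Real.log_pos (by linarith)
  rw [Real.dist_eq, abs_lt] at h1
  have hψ1 : Chebyshev.psi X ≤ (1 + η) * X := by
    have := h1.2; rw [sub_lt_iff_lt_add, div_lt_iff₀ hX0] at this; linarith
  have hψ2 : (1 - η) * X ≤ Chebyshev.psi X := by
    have := h1.1; rw [lt_sub_iff_add_lt, lt_div_iff₀ hX0] at this; linarith
  rw [Chebyshev.psi_eq_psi_coe_floor] at hψ1 hψ2
  set N := ⌊X⌋₊ with hNdef
  have hN : 2 ≤ N := Nat.le_floor (by exact_mod_cast hX)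
  have hN' : (2 : ℝ) ≤ N := by exact_mod_cast hN
  have hNX : (N : ℝ) ≤ X := Nat.floor_le hX0.le
  have hLN : Real.log N ≤ Real.log X := Real.log_le_log (by linarith) hNX
  have hLN0 : 0 ≤ Real.log N := Real.log_nonneg (by linarith)
  have hLQ : Real.log Q ≤ Real.log X := Real.log_le_log (by exact_mod_cast hQ) hQX
  have u1 : diag N Q ≤ (1 + η) * (X * Real.log X) := by
    refine (diag_le N Q).trans ?_
    calc _ ≤ Real.log X * ((1 + η) * X) :=
          mul_le_mul hLN hψ1 (Chebyshev.psi_nonneg _) hL.le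
      _ = _ := by ring
  set y : ℝ := X ^ (1 - η) with hy
  have hy1 : 1 ≤ y := Real.one_le_rpow (by linarith) (by linarith)
  have u2 := le_diag N Q ⌊y⌋₊ (by omega) hQ y hy1 (Nat.lt_floor_add_one y).le
  have hly : Real.log y = (1 - η) * Real.log X := Real.log_rpow hX0 _
  have v1 : 6 * (⌊y⌋₊ : ℝ) ≤ η * X := by
    have a : (⌊y⌋₊ : ℝ) ≤ y := Nat.floor_le (by linarith)
    have b : y = X ^ (-η) * X := by
      rw [hy, ← Real.rpow_add_one hX0.ne']; congr 1; ring
    have c : X ^ (-η) * X ≤ η / 6 * X := by gcongr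
    linarith
  have v2 : 4 * √N * Real.log N ≤ η * X := by
    rw [Real.norm_eq_abs, Real.norm_eq_abs, abs_of_pos hL, ← Real.sqrt_eq_rpow,
      abs_of_nonneg (Real.sqrt_nonneg _)] at h3
    have a : √(N : ℝ) ≤ √X := Real.sqrt_le_sqrt hNX
    have b : √X * √X = X := Real.mul_self_sqrt hX0.le
    calc 4 * √N * Real.log N ≤ 4 * √X * (η / 4 * √X) := by gcongr; linarith
      _ = η * (√X * √X) := by ring
      _ = η * X := by rw [b]
  have v3 : Real.log Q ≤ η * X := by
    rw [Real.norm_eq_abs, Real.norm_eq_abs, abs_of_pos hL, abs_of_pos hX0] at h4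
    linarith
  have u3 : (1 - η) * Real.log X * ((1 - 4 * η) * X) ≤ diag N Q := by
    refine le_trans ?_ u2
    rw [hly]
    refine mul_le_mul_of_nonneg_left (by linarith) (mul_nonneg (by linarith) hL.le)
  have hXL : 0 < X * Real.log X := mul_pos hX0 hL
  rw [abs_le]
  constructor
  · have : (1 - η) * Real.log X * ((1 - 4 * η) * X) =
        (1 - 5 * η + 4 * η ^ 2) * (X * Real.log X) := by ring
    rw [this] at u3
    have : 0 ≤ 4 * η ^ 2 * (X * Real.log X) := by positivity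
    nlinarith
  · nlinarith

/-- `G(X,Q) = X log Q + o(X log Q) + O(X² / φ(Q))` uniformly for `1 ≤ Q ≤ X`. -/
theorem range_main : ∃ C : ℝ, ∀ δ : ℝ, 0 < δ → ∃ X₀ : ℝ, ∀ X : ℝ, X₀ ≤ X → ∀ Q : ℕ, 1 ≤ Q →
    (Q : ℝ) ≤ X →
    |G X Q - X * Real.log Q| ≤ δ * (X * Real.log Q) + C * (X ^ 2 / Q.totient) := by
  refine ⟨2802, fun δ hδ => ?_⟩
  set η : ℝ := min δ 1 with hη
  have hη0 : 0 < η := lt_min hδ one_pos
  have hη1 : η ≤ δ := min_le_left _ _
  have hη2 : η ≤ 1 := min_le_right _ _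
  obtain ⟨X₀, hX₀⟩ := eventually_atTop.mp
    ((eventually_diag η hη0).and (eventually_ge_atTop 2))
  refine ⟨X₀, fun X hX Q hQ hQX => ?_⟩
  obtain ⟨h1, h2⟩ := hX₀ X hX
  have h3 := h1 Q hQ hQX
  have h4 := abs_G_sub_diag_le X h2 Q hQ
  have hX0 : 0 < X := by linarith
  have hQ' : (1 : ℝ) ≤ Q := by exact_mod_cast hQ
  have hφ : (0 : ℝ) < Q.totient := by exact_mod_cast Nat.totient_pos.mpr hQ
  have hφQ : (Q.totient : ℝ) ≤ Q := by exact_mod_cast Nat.totient_le Q
  have hLQ : Real.log Q ≤ Real.log X := Real.log_le_log (by linarith) hQX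
  have hLQ0 : 0 ≤ Real.log Q := Real.log_nonneg hQ'
  have h5 : X * Real.log X - X * Real.log Q ≤ X ^ 2 / Q.totient := by
    have a : Real.log (X / Q) ≤ X / Q :=
      (Real.log_le_sub_one_of_pos (by positivity)).trans (by linarith)
    rw [Real.log_div hX0.ne' (by linarith)] at a
    have b : X / Q ≤ X / Q.totient := div_le_div_of_nonneg_left hX0.le hφ hφQ
    calc _ = X * (Real.log X - Real.log Q) := by ring
      _ ≤ X * (X / Q.totient) := by gcongr; linarith
      _ = _ := by ring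
  have h6 : 0 ≤ X * Real.log X - X * Real.log Q := by nlinarith
  have h7 : 0 ≤ X * Real.log Q := by positivity
  have h8 : η * (X * Real.log X) ≤ δ * (X * Real.log Q) + X ^ 2 / Q.totient := by
    nlinarith
  rw [mul_div_assoc] at h4
  rw [abs_le] at h3 h4 ⊢
  constructor <;> linarith [h3.1, h3.2, h4.1, h4.2]

end Pool.Agent.Work.MP_5d318d_nt
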