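import Pool.Agent.Work.MP_5d318d_nt.Weight
import Pool.Agent.Work.MP_5d318d_nt.Range

-- merged part: Pool.Agent.Work.MP_5d318d_nt.Pair
section
/-!
# Correlations of Ramanujan sums over an interval
-/

noncomputable section

open Finset Real ArithmeticFunction

namespace Pool.Agent.Work.MP_5d318d_nt

open Pool.Agent.Lib.LargeSieve

theorem abs_card_int_modEq (u v : ℤ) (L r : ℕ) (hr : 0 < r) :
    |(((Ioc u (u + L)).filter (fun x => x ≡ v [ZMOD r])).card : ℝ) - L / r| ≤ 1 := by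
  have hr' : (0 : ℤ) < r := by exact_mod_cast hr
  have hq : (0 : ℚ) < r := by exact_mod_cast hr
  have h := Int.Ioc_filter_modEq_card u (u + L) hr' v
  have hle : ⌊((u : ℚ) - v) / (r : ℤ)⌋ ≤ ⌊(((u + L : ℤ) : ℚ) - v) / (r : ℤ)⌋ := by
    apply Int.floor_le_floor
    push_cast
    gcongr
    linarith only [Nat.cast_nonneg (α := ℚ) L]
  rw [max_eq_left (sub_nonneg.mpr hle)] at h
  have a1 := Int.floor_le (((u : ℚ) - v) / (r : ℤ))
  have a2 := Int.lt_floor_add_one (((u : ℚ) - v) / (r : ℤ))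
  have a3 := Int.floor_le ((((u + L : ℤ) : ℚ) - v) / (r : ℤ))
  have a4 := Int.lt_floor_add_one ((((u + L : ℤ) : ℚ) - v) / (r : ℤ))
  have e : (((u + L : ℤ) : ℚ) - v) / (r : ℤ) = ((u : ℚ) - v) / (r : ℤ) + L / r := by
    push_cast; ring
  have h' := congrArg (fun x : ℤ => (x : ℚ)) h
  simp only [Int.cast_natCast, Int.cast_sub] at h' a1 a2 a3 a4 e
  have : |(((Ioc u (u + L)).filter (fun x => x ≡ v [ZMOD r])).card : ℚ) - L / r| ≤ 1 := by
    rw [h', abs_le]; constructor <;> linarith only [a1, a4, e, a2, a3]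
  have := (Rat.cast_le (K := ℝ)).mpr this
  push_cast at this
  exact this

theorem card_pair {a b : ℕ} (ha : 0 < a) (hb : 0 < b) (u h : ℤ) (L : ℕ) :
    |(((Ioc u (u + L)).filter (fun m => (a : ℤ) ∣ m ∧ (b : ℤ) ∣ m + h)).card : ℝ) -
      (if (Nat.gcd a b : ℤ) ∣ h then (L : ℝ) * Nat.gcd a b / (a * b) else 0)| ≤ 1 := by
  split_ifs with hh
  · obtain ⟨j, rfl⟩ := hh
    have hl : 0 < Nat.lcm a b := Nat.lcm_pos ha hb
    have h1 := abs_card_int_modEq u (-(a * Nat.gcdA a b * j)) L _ hl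
    have h2 : (L : ℝ) * Nat.gcd a b / (a * b) = L / Nat.lcm a b := by
      have : ((Nat.gcd a b : ℝ)) * Nat.lcm a b = a * b := by exact_mod_cast Nat.gcd_mul_lcm a b
      have h3 : (0 : ℝ) < Nat.gcd a b := by exact_mod_cast Nat.gcd_pos_of_pos_left b ha
      have h4 : (0 : ℝ) < Nat.lcm a b := by exact_mod_cast hl
      rw [← this]; field_simp
    rw [h2]
    convert h1 using 5
    refine filter_congr fun m _ => ?_
    rw [Int.modEq_comm, Int.modEq_iff_dvd, sub_neg_eq_add, ← Int.lcm_natCast_natCast,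
      Int.coe_lcm_dvd_iff, Nat.gcd_eq_gcd_ab]
    have e : m + (a * Nat.gcdA a b + b * Nat.gcdB a b) * j =
      (m + a * Nat.gcdA a b * j) + b * (Nat.gcdB a b * j) := by ring
    rw [e, dvd_add_left (dvd_mul_right _ _), mul_assoc, dvd_add_left (dvd_mul_right _ _)]
  · rw [filter_false_of_mem]
    · simp
    · rintro m - ⟨h1, h2⟩
      have := dvd_sub ((Int.natCast_dvd_natCast.mpr (Nat.gcd_dvd_right a b)).trans h2)
        ((Int.natCast_dvd_natCast.mpr (Nat.gcd_dvd_left a b)).trans h1)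
      exact hh (by simpa using this)

theorem ite_coprime_eq {Q : ℕ} (hQ : Q ≠ 0) (m : ℤ) :
    (if IsCoprime m Q then (1 : ℝ) else 0) =
      ∑ g ∈ Q.divisors, if (g : ℤ) ∣ m then muR g else 0 := by
  rw [← sum_muR_gcd hQ le_rfl]
  simp only [ite_and]
  rw [← sum_filter]
  refine sum_congr ?_ fun _ _ => rfl
  ext d
  rw [mem_filter, mem_Icc, Nat.mem_divisors]
  exact ⟨fun h => ⟨h.2, hQ⟩, fun h => ⟨⟨Nat.pos_of_dvd_of_pos h.1 (Nat.pos_of_ne_zero hQ),
    Nat.le_of_dvd (Nat.pos_of_ne_zero hQ) h.1⟩, h.1⟩⟩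

theorem sum_muR_div {Q : ℕ} (hQ : Q ≠ 0) : ∑ g ∈ Q.divisors, muR g / g = Q.totient / Q := by
  rw [← ram_zero hQ, ram, ← Nat.sum_div_divisors Q (fun g => muR g / g), sum_div]
  refine sum_congr rfl fun g hg => ?_
  have h1 : (g : ℝ) ≠ 0 := by exact_mod_cast (Nat.pos_of_mem_divisors hg).ne'
  have h2 : (Q : ℝ) ≠ 0 := by exact_mod_cast hQ
  rw [if_pos (dvd_zero _), Nat.cast_div (Nat.dvd_of_mem_divisors hg) h1]
  field_simp

theorem sum_pair_main {r r' : ℕ} (hr : r ≠ 0) (hr' : r' ≠ 0) (k : ℤ) :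
    ∑ f ∈ r.divisors, ∑ f' ∈ r'.divisors, muR (r / f) * muR (r' / f') *
      (if (Nat.gcd f f' : ℤ) ∣ k then (Nat.gcd f f' : ℝ) else 0) =
      if r = r' then ram r k else 0 := by
  have h1 : ∀ f ∈ r.divisors, ∀ f' ∈ r'.divisors, muR (r / f) * muR (r' / f') *
      (if (Nat.gcd f f' : ℤ) ∣ k then (Nat.gcd f f' : ℝ) else 0) =
      ∑ d ∈ r.divisors, ram d k * ((if d ∣ f then muR (r / f) else 0) *
        (if d ∣ f' then muR (r' / f') else 0)) := by
    intro f hf f' _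
    have hf0 := Nat.pos_of_mem_divisors hf
    rw [← sum_ram (Nat.gcd_pos_of_pos_left f' hf0).ne', mul_sum]
    simp_rw [ite_zero_mul_ite_zero, mul_ite, mul_zero]
    rw [← sum_filter]
    refine sum_congr ?_ fun _ _ => mul_comm _ _
    ext d
    rw [mem_filter, Nat.mem_divisors, Nat.mem_divisors, Nat.dvd_gcd_iff]
    exact ⟨fun h => ⟨⟨h.1.1.trans (Nat.dvd_of_mem_divisors hf), hr⟩, h.1⟩,
      fun h => ⟨h.2, (Nat.gcd_pos_of_pos_left f' hf0).ne'⟩⟩
  rw [sum_congr rfl fun f hf => sum_congr rfl (h1 f hf)]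
  simp_rw [sum_comm (s := r'.divisors) (t := r.divisors)]
  rw [sum_comm]
  simp_rw [← mul_sum, ← sum_mul, sum_muR_dvd hr, sum_muR_dvd hr']
  rw [sum_eq_single r]
  · simp
  · intro d _ hd; simp [hd]
  · intro h; exact absurd (Nat.mem_divisors_self r hr) h

/-- sum of divisors -/
def sig (r : ℕ) : ℝ := ∑ f ∈ r.divisors, (f : ℝ)

theorem sig_nonneg (r : ℕ) : 0 ≤ sig r := sum_nonneg fun _ _ => Nat.cast_nonneg _

theorem sig_le (r : ℕ) : sig r ≤ r * r.divisors.card := by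
  rw [mul_comm, ← nsmul_eq_mul]
  exact sum_le_card_nsmul _ _ _ fun f hf => by exact_mod_cast Nat.divisor_le hf

theorem pair_sum {Q r r' : ℕ} (hQ : Q ≠ 0) (hr : r ≠ 0) (hr' : r' ≠ 0) (c : Q.Coprime r)
    (c' : Q.Coprime r') (u : ℤ) (L : ℕ) (k : ℤ) :
    |∑ m ∈ (Ioc u (u + L)).filter (fun m => IsCoprime m (Q : ℤ)), ram r m * ram r' (m + k * Q) -
      L * (Q.totient / Q) * (if r = r' then ram r k else 0)| ≤
      Q.divisors.card * sig r * sig r' := by
  have h1 : ∑ m ∈ (Ioc u (u + L)).filter (fun m => IsCoprime m (Q : ℤ)),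
      ram r m * ram r' (m + k * Q) =
      ∑ g ∈ Q.divisors, ∑ f ∈ r.divisors, ∑ f' ∈ r'.divisors,
        muR g * (f * muR (r / f)) * (f' * muR (r' / f')) * (((Ioc u (u + L)).filter
          (fun m => ((g * f : ℕ) : ℤ) ∣ m ∧ (f' : ℤ) ∣ m + k * Q)).card : ℝ) := by
    simp_rw [card_filter, Nat.cast_sum, mul_sum, sum_comm (t := Ioc u (u + L))]
    rw [sum_filter]
    refine sum_congr rfl fun m _ => ?_
    rw [← boole_mul, ite_coprime_eq hQ, ram, ram, sum_mul_sum, sum_mul]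
    refine sum_congr rfl fun g hg => ?_
    rw [mul_sum]
    refine sum_congr rfl fun f hf => ?_
    rw [mul_sum]
    refine sum_congr rfl fun f' _ => ?_
    have hc : IsCoprime (g : ℤ) (f : ℤ) := Nat.isCoprime_iff_coprime.mpr
      (Nat.Coprime.coprime_dvd_left (Nat.dvd_of_mem_divisors hg)
        (c.coprime_dvd_right (Nat.dvd_of_mem_divisors hf)))
    have : ((g * f : ℕ) : ℤ) ∣ m ↔ (g : ℤ) ∣ m ∧ (f : ℤ) ∣ m := by
      push_cast
      exact ⟨fun h => ⟨(dvd_mul_right _ _).trans h, (dvd_mul_left _ _).trans h⟩,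
        fun h => hc.mul_dvd h.1 h.2⟩
    simp only [this]
    by_cases a1 : (g : ℤ) ∣ m <;> by_cases a2 : (f : ℤ) ∣ m <;>
      by_cases a3 : (f' : ℤ) ∣ m + k * Q <;> simp [a1, a2, a3, mul_assoc]
  have h2 : (L : ℝ) * (Q.totient / Q) * (if r = r' then ram r k else 0) =
      ∑ g ∈ Q.divisors, ∑ f ∈ r.divisors, ∑ f' ∈ r'.divisors,
        muR g * (f * muR (r / f)) * (f' * muR (r' / f')) *
        (if (Nat.gcd (g * f) f' : ℤ) ∣ k * Q then
          (L : ℝ) * Nat.gcd (g * f) f' / ((g * f : ℕ) * f') else 0) := by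
    rw [← sum_muR_div hQ, ← sum_pair_main hr hr', mul_assoc, sum_mul, mul_sum]
    refine sum_congr rfl fun g hg => ?_
    rw [mul_sum, mul_sum]
    refine sum_congr rfl fun f hf => ?_
    rw [mul_sum, mul_sum]
    refine sum_congr rfl fun f' hf' => ?_
    have c1 : Q.Coprime f' := c'.coprime_dvd_right (Nat.dvd_of_mem_divisors hf')
    have c2 : g.Coprime f' := Nat.Coprime.coprime_dvd_left (Nat.dvd_of_mem_divisors hg) c1
    have c3 : IsCoprime ((Nat.gcd f f' : ℕ) : ℤ) (Q : ℤ) := Nat.isCoprime_iff_coprime.mpr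
      (c1.symm.coprime_dvd_left (Nat.gcd_dvd_right _ _))
    have : ((Nat.gcd f f' : ℕ) : ℤ) ∣ k * Q ↔ ((Nat.gcd f f' : ℕ) : ℤ) ∣ k :=
      ⟨fun h => c3.dvd_of_dvd_mul_right h, fun h => h.mul_right _⟩
    rw [c2.gcd_mul_left_cancel]
    simp only [this]
    have b1 : (g : ℝ) ≠ 0 := by exact_mod_cast (Nat.pos_of_mem_divisors hg).ne'
    have b2 : (f : ℝ) ≠ 0 := by exact_mod_cast (Nat.pos_of_mem_divisors hf).ne'
    have b3 : (f' : ℝ) ≠ 0 := by exact_mod_cast (Nat.pos_of_mem_divisors hf').ne'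
    split_ifs
    · push_cast; clear * - L g r f r' f' b2 b3 b1; field_simp
    · simp
  rw [h1, h2, ← sum_sub_distrib, mul_assoc, ← nsmul_eq_mul, ← sum_const]
  refine (abs_sum_le_sum_abs _ _).trans (sum_le_sum fun g hg => ?_)
  rw [← sum_sub_distrib, sig, sig, sum_mul_sum]
  refine (abs_sum_le_sum_abs _ _).trans (sum_le_sum fun f hf => ?_)
  rw [← sum_sub_distrib]
  refine (abs_sum_le_sum_abs _ _).trans (sum_le_sum fun f' hf' => ?_)
  rw [← mul_sub, abs_mul]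
  have a1 := card_pair (Nat.mul_pos (Nat.pos_of_mem_divisors hg) (Nat.pos_of_mem_divisors hf))
    (Nat.pos_of_mem_divisors hf') u (k * Q) L
  refine (mul_le_of_le_one_right (abs_nonneg _) a1).trans ?_
  simp only [abs_mul, Nat.abs_cast]
  have := abs_muR_le g
  have := abs_muR_le (r / f)
  have := abs_muR_le (r' / f')
  calc _ ≤ 1 * (f * 1) * (f' * 1 : ℝ) := by gcongr
    _ = _ := by ring

end Pool.Agent.Work.MP_5d318d_nt
end
end

-- merged part: Pool.Agent.Work.MP_5d318d_nt.Norm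
section
/-!
# The approximant and its mean square over residue classes
-/

noncomputable section

open Finset Real ArithmeticFunction

namespace Pool.Agent.Work.MP_5d318d_nt

open Pool.Agent.Lib.LargeSieve Pool.Agent.Lib.ANT

/-- `∑ μ(r) c_r(m) / φ(r)` -/
def lam (S : Finset ℕ) (m : ℤ) : ℝ := ∑ r ∈ S, muR r / r.totient * ram r m

/-- sum of `lam` over a residue class -/
def FF (Q : ℕ) (S : Finset ℕ) (I : Finset ℤ) (A : ℕ) : ℝ :=
  ∑ m ∈ I.filter (fun m : ℤ => m % Q = A), lam S m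

theorem class_sum (g : ℤ → ℝ) {Q : ℕ} (hQ : 0 < Q) (u : ℤ) (L : ℕ) {n : ℤ}
    (hn : n ∈ Ioc u (u + L)) :
    ∑ m ∈ (Ioc u (u + L)).filter (fun m => m % Q = n % Q), g m =
      ∑ k ∈ Icc (-((L / Q : ℕ) : ℤ)) (L / Q : ℕ),
        if n + k * Q ∈ Ioc u (u + L) then g (n + k * Q) else 0 := by
  rw [← sum_filter]
  symm
  have hQ' : (0 : ℤ) < Q := by exact_mod_cast hQ
  refine Finset.sum_bij (fun k _ => n + k * Q) ?_ ?_ ?_ ?_
  · intro k hk
    exact mem_filter.mpr ⟨(mem_filter.mp hk).2, Int.add_mul_emod_self_right _ _ _⟩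
  · intro a _ b _ h
    exact mul_right_cancel₀ hQ'.ne' (add_left_cancel h)
  · intro m hm
    obtain ⟨h1, h2⟩ := mem_filter.mp hm
    obtain ⟨k, hk⟩ := Int.ModEq.dvd h2.symm
    have e : n + k * Q = m := by linarith only [hk]
    refine ⟨k, mem_filter.mpr ⟨?_, e ▸ h1⟩, e⟩
    rw [mem_Ioc] at h1 hn
    have a1 : k ≤ (L : ℤ) / Q := (Int.le_ediv_iff_mul_le hQ').mpr (by linarith only [hn, h1, hk])
    have a2 : -k ≤ (L : ℤ) / Q := (Int.le_ediv_iff_mul_le hQ').mpr (by linarith only [hn, h1, hk])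
    rw [mem_Icc]; push_cast
    exact ⟨by linarith only [a2], a1⟩
  · intro _ _; rfl

theorem sum_red_fiber_int {Q : ℕ} (hQ : 0 < Q) (s : Finset ℤ) (f : ℤ → ℝ) :
    ∑ A ∈ red Q, ∑ m ∈ s.filter (fun m : ℤ => m % Q = A), f m =
      ∑ m ∈ s.filter (fun m => IsCoprime m (Q : ℤ)), f m := by
  have hQ' : (0 : ℤ) < Q := by exact_mod_cast hQ
  have key : ∀ m : ℤ, IsCoprime m (Q : ℤ) ↔ (m % Q).toNat.Coprime Q := fun m => by
    rw [← Nat.isCoprime_iff_coprime, Int.toNat_of_nonneg (Int.emod_nonneg _ hQ'.ne'),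
      Int.emod_def, sub_eq_add_neg, ← mul_neg, IsCoprime.add_mul_left_left_iff]
  rw [← sum_fiberwise_of_maps_to (s := s.filter (fun m => IsCoprime m (Q : ℤ))) (t := red Q)
    (g := fun m => (m % Q).toNat)]
  · refine sum_congr rfl fun A hA => sum_congr ?_ fun _ _ => rfl
    ext m
    simp only [mem_filter, key]
    have h0 := Int.emod_nonneg m hQ'.ne'
    constructor
    · rintro ⟨h1, h2⟩
      have : (m % Q).toNat = A := by omega
      exact ⟨⟨h1, this ▸ (mem_filter.mp hA).2⟩, this⟩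
    · rintro ⟨⟨h1, -⟩, h2⟩
      exact ⟨h1, by omega⟩
  · intro m hm
    have h0 := Int.emod_nonneg m hQ'.ne'
    have h1 := Int.emod_lt_of_pos m hQ'
    exact mem_filter.mpr ⟨mem_range.mpr (by omega), (key m).mp (mem_filter.mp hm).2⟩

variable {Q R1 R : ℕ} {Z : ℝ}

theorem RR_pos {r : ℕ} (hr : r ∈ RR Q R1 R) : 0 < r :=
  lt_of_le_of_lt (Nat.zero_le _) (mem_Ioc.mp (mem_filter.mp hr).1).1

theorem RR_le {r : ℕ} (hr : r ∈ RR Q R1 R) : r ≤ R := (mem_Ioc.mp (mem_filter.mp hr).1).2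

theorem abs_coef_le (hτ : ∀ r ≤ R, (r.divisors.card : ℝ) ≤ Z) {r : ℕ} (hr : r ∈ RR Q R1 R) :
    |muR r / r.totient| ≤ (r.totient : ℝ)⁻¹ ∧ (r.totient : ℝ)⁻¹ ≤ Z / r := by
  have h0 : (0 : ℝ) < r := by exact_mod_cast RR_pos hr
  constructor
  · rw [abs_div, Nat.abs_cast, ← one_div]
    exact div_le_div_of_nonneg_right (abs_muR_le r) (Nat.cast_nonneg _)
  · rw [le_div_iff₀ h0, mul_comm, ← div_eq_mul_inv]
    exact (div_totient_le_card_divisors r).trans (hτ r (RR_le hr))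

theorem sum_sig_le (hZ : 0 ≤ Z) (hτ : ∀ r ≤ R, (r.divisors.card : ℝ) ≤ Z) :
    ∑ r ∈ RR Q R1 R, |muR r / r.totient| * sig r ≤ R * Z ^ 2 := by
  calc _ ≤ ∑ _r ∈ RR Q R1 R, Z ^ 2 := by
        refine sum_le_sum fun r hr => ?_
        have h0 : (0 : ℝ) < r := by exact_mod_cast RR_pos hr
        have h1 := abs_coef_le hτ hr
        calc _ ≤ Z / r * (r * Z) := mul_le_mul (h1.1.trans h1.2) ((sig_le r).trans
              (mul_le_mul_of_nonneg_left (hτ r (RR_le hr)) h0.le)) (sig_nonneg r) (by positivity)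
          _ = _ := by field_simp
    _ ≤ _ := by
        rw [sum_const, nsmul_eq_mul]
        have : (RR Q R1 R).card ≤ R := (card_filter_le _ _).trans (by simp)
        gcongr

theorem sum_RR_inv_sq_le : ∑ r ∈ RR Q R1 R, ((r : ℝ) ^ 2)⁻¹ ≤ 2 / (R1 + 1) := by
  refine le_trans ?_ (sum_Ioo_inv_sq_le (α := ℝ) R1 (R + 1))
  refine sum_le_sum_of_subset_of_nonneg (fun a ha => ?_) fun _ _ _ => by positivity
  have := mem_Ioc.mp (mem_filter.mp ha).1
  rw [mem_Ioo]; omega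

theorem abs_sum_lam_le (hQ : 0 < Q) (hR1 : 1 ≤ R1) (hτQ : (Q.divisors.card : ℝ) ≤ Z)
    (hτ : ∀ r ≤ R, (r.divisors.card : ℝ) ≤ Z) (u : ℤ) (L : ℕ) :
    |∑ m ∈ (Ioc u (u + L)).filter (fun m => IsCoprime m (Q : ℤ)), lam (RR Q R1 R) m| ≤
      R * Z ^ 3 := by
  have hZ : 0 ≤ Z := (Nat.cast_nonneg _).trans hτQ
  unfold lam
  rw [sum_comm]
  refine (abs_sum_le_sum_abs _ _).trans (le_trans (sum_le_sum fun r hr => ?_)
    (le_trans (le_of_eq (mul_sum _ _ _).symm) ((mul_le_mul_of_nonneg_left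
      (sum_sig_le (Q := Q) (R1 := R1) hZ hτ) hZ).trans (le_of_eq (by ring)))))
  have h := pair_sum hQ.ne' (RR_pos hr).ne' one_ne_zero (mem_filter.mp hr).2.2
    (Nat.coprime_one_right Q) u L 0
  have h1 : r ≠ 1 := by have := (mem_Ioc.mp (mem_filter.mp hr).1).1; omega
  have h2 : ∀ m : ℤ, ram 1 m = 1 := fun m => by simp [ram, muR]
  simp only [if_neg h1, h2, mul_one, mul_zero, sub_zero, sig, Nat.divisors_one, sum_singleton,
    Nat.cast_one] at h
  rw [← mul_sum, abs_mul, mul_left_comm]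
  exact mul_le_mul_of_nonneg_left (h.trans (mul_le_mul_of_nonneg_right hτQ (sig_nonneg r)))
    (abs_nonneg _)

theorem pair_lam_le (hQ : 0 < Q) (hτQ : (Q.divisors.card : ℝ) ≤ Z)
    (hτ : ∀ r ≤ R, (r.divisors.card : ℝ) ≤ Z) (u : ℤ) (L : ℕ) (k : ℤ) :
    ∑ m ∈ (Ioc u (u + L)).filter (fun m => IsCoprime m (Q : ℤ)),
      lam (RR Q R1 R) m * lam (RR Q R1 R) (m + k * Q) ≤
      L * (Q.totient / Q) * ∑ r ∈ RR Q R1 R, (r.totient : ℝ)⁻¹ ^ 2 * |ram r k| +
        R ^ 2 * Z ^ 5 := by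
  have hZ : 0 ≤ Z := (Nat.cast_nonneg _).trans hτQ
  have h1 : ∑ m ∈ (Ioc u (u + L)).filter (fun m => IsCoprime m (Q : ℤ)),
      lam (RR Q R1 R) m * lam (RR Q R1 R) (m + k * Q) =
      ∑ r ∈ RR Q R1 R, ∑ r' ∈ RR Q R1 R, muR r / r.totient * (muR r' / r'.totient) *
        ∑ m ∈ (Ioc u (u + L)).filter (fun m => IsCoprime m (Q : ℤ)),
          ram r m * ram r' (m + k * Q) := by
    simp_rw [lam, sum_mul_sum, mul_sum]
    rw [sum_comm]
    refine sum_congr rfl fun r _ => ?_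
    rw [sum_comm]
    exact sum_congr rfl fun r' _ => sum_congr rfl fun m _ => by ring
  have h2 := sum_sig_le (Q := Q) (R1 := R1) hZ hτ
  have h3 : Z * (∑ r ∈ RR Q R1 R, |muR r / r.totient| * sig r) ^ 2 ≤ R ^ 2 * Z ^ 5 := by
    have h0 : 0 ≤ ∑ r ∈ RR Q R1 R, |muR r / r.totient| * sig r :=
      sum_nonneg fun r _ => mul_nonneg (abs_nonneg _) (sig_nonneg _)
    calc _ ≤ Z * (R * Z ^ 2) ^ 2 := by gcongr
      _ = _ := by ring
  refine le_trans ?_ (add_le_add le_rfl h3)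
  rw [h1, sq, sum_mul_sum, mul_sum, mul_sum, ← sum_add_distrib]
  refine sum_le_sum fun r hr => ?_
  have h4 : (L : ℝ) * (Q.totient / Q) * ((r.totient : ℝ)⁻¹ ^ 2 * |ram r k|) =
      ∑ r' ∈ RR Q R1 R, if r = r' then
        (L : ℝ) * (Q.totient / Q) * ((r.totient : ℝ)⁻¹ ^ 2 * |ram r k|) else 0 := by
    rw [sum_ite_eq, if_pos hr]
  rw [h4, mul_sum, ← sum_add_distrib]
  refine sum_le_sum fun r' hr' => ?_
  have h := pair_sum hQ.ne' (RR_pos hr).ne' (RR_pos hr').ne' (mem_filter.mp hr).2.2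
    (mem_filter.mp hr').2.2 u L k
  set P := ∑ m ∈ (Ioc u (u + L)).filter (fun m => IsCoprime m (Q : ℤ)),
    ram r m * ram r' (m + k * Q)
  set M := (L : ℝ) * (Q.totient / Q) * (if r = r' then ram r k else 0) with hM
  have a1 : muR r / r.totient * (muR r' / r'.totient) * (P - M) ≤
      Z * (|muR r / r.totient| * sig r * (|muR r' / r'.totient| * sig r')) := by
    refine (le_abs_self _).trans ?_
    rw [abs_mul, abs_mul]
    have := sig_nonneg r
    have := sig_nonneg r'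
    calc _ ≤ |muR r / r.totient| * |muR r' / r'.totient| * (Z * sig r * sig r') := by
          gcongr; exact h.trans (by gcongr)
      _ = _ := by ring
  have a2 : muR r / r.totient * (muR r' / r'.totient) * M ≤ if r = r' then
      (L : ℝ) * (Q.totient / Q) * ((r.totient : ℝ)⁻¹ ^ 2 * |ram r k|) else 0 := by
    rw [hM]
    split_ifs with e
    · subst e
      refine (le_abs_self _).trans ?_
      rw [abs_mul, abs_mul, abs_mul (L * _ : ℝ), abs_of_nonneg (a := (L * _ : ℝ)) (by positivity)]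
      have := (abs_coef_le hτ hr).1
      calc _ ≤ (r.totient : ℝ)⁻¹ * (r.totient : ℝ)⁻¹ * (L * (Q.totient / Q) * |ram r k|) := by
            gcongr
        _ = _ := by ring
    · simp
  linarith only [a1, a2]

theorem sum_FF_sq_le (hQ : 0 < Q) (hτQ : (Q.divisors.card : ℝ) ≤ Z)
    (hτ : ∀ r ≤ R, (r.divisors.card : ℝ) ≤ Z) (u : ℤ) (L : ℕ) :
    ∑ A ∈ red Q, FF Q (RR Q R1 R) (Ioc u (u + L)) A ^ 2 ≤
      L * (Q.totient / Q) * Sg (RR Q R1 R) + 4 * L * (L / Q : ℕ) * Z ^ 3 / (R1 + 1) +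
        (2 * (L / Q : ℕ) + 1) * (R ^ 2 * Z ^ 5) := by
  have hZ : 0 ≤ Z := (Nat.cast_nonneg _).trans hτQ
  set T := L / Q with hT
  set S := RR Q R1 R with hS
  have h1 : ∑ A ∈ red Q, FF Q S (Ioc u (u + L)) A ^ 2 = ∑ k ∈ Icc (-(T : ℤ)) T,
      ∑ m ∈ (Ioc u (u + L)).filter (fun m => IsCoprime m (Q : ℤ)),
        if m + k * Q ∈ Ioc u (u + L) then lam S m * lam S (m + k * Q) else 0 := by
    rw [sum_comm, ← sum_red_fiber_int hQ]
    refine sum_congr rfl fun A _ => ?_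
    rw [sq]
    conv_lhs => rw [FF, sum_mul]
    refine sum_congr rfl fun m hm => ?_
    obtain ⟨a1, a2⟩ := mem_filter.mp hm
    rw [← a2, class_sum _ hQ u L a1, mul_sum]
    exact sum_congr rfl fun k _ => by rw [mul_ite, mul_zero]
  have h2 : ∀ k ∈ Icc (-(T : ℤ)) T,
      (∑ m ∈ (Ioc u (u + L)).filter (fun m => IsCoprime m (Q : ℤ)),
        if m + k * Q ∈ Ioc u (u + L) then lam S m * lam S (m + k * Q) else 0) ≤
      L * (Q.totient / Q) * ∑ r ∈ S, (r.totient : ℝ)⁻¹ ^ 2 * |ram r k| + R ^ 2 * Z ^ 5 := by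
    intro k _
    have h := pair_lam_le (R1 := R1) hQ hτQ hτ (u + (-(k * Q)).toNat) (L - (k * Q).natAbs) k
    rw [← sum_filter]
    refine le_trans (le_of_eq (sum_congr ?_ fun _ _ => rfl)) (h.trans ?_)
    · ext m
      simp only [mem_filter, mem_Ioc]
      generalize k * Q = j
      constructor
      · rintro ⟨⟨a, b⟩, c⟩; exact ⟨by omega, b⟩
      · rintro ⟨a, b⟩; exact ⟨⟨by omega, b⟩, by omega⟩
    · have : 0 ≤ ∑ r ∈ S, (r.totient : ℝ)⁻¹ ^ 2 * |ram r k| :=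
        sum_nonneg fun _ _ => by positivity
      gcongr
      exact Nat.sub_le _ _
  rw [h1]
  refine (sum_le_sum h2).trans ?_
  rw [sum_add_distrib, sum_const, nsmul_eq_mul, card_Icc_T, ← mul_sum,
    ← add_sum_erase _ _ (mem_Icc.mpr ⟨neg_nonpos.mpr (Int.natCast_nonneg _),
      Int.natCast_nonneg _⟩ : (0 : ℤ) ∈ Icc (-(T : ℤ)) T), mul_add]
  refine add_le_add (add_le_add (le_of_eq ?_) ?_) le_rfl
  · congr 1
    refine sum_congr rfl fun r hr => ?_
    have : (r.totient : ℝ) ≠ 0 := by exact_mod_cast (Nat.totient_pos.mpr (RR_pos hr)).ne'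
    rw [ram_zero (RR_pos hr).ne', Nat.abs_cast]
    field_simp
  · have a1 : (Q.totient : ℝ) / Q ≤ 1 :=
      div_le_one_of_le₀ (by exact_mod_cast Nat.totient_le Q) (Nat.cast_nonneg _)
    have a2 : ∑ k ∈ (Icc (-(T : ℤ)) T).erase 0, ∑ r ∈ S, (r.totient : ℝ)⁻¹ ^ 2 * |ram r k| ≤
        2 * T * Z ^ 3 * (2 / (R1 + 1)) := by
      refine le_trans ?_ (mul_le_mul_of_nonneg_left (sum_RR_inv_sq_le (Q := Q) (R := R))
        (by positivity))
      rw [sum_comm, mul_sum]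
      refine sum_le_sum fun r hr => ?_
      rw [← mul_sum]
      have b1 := (abs_coef_le hτ hr).2
      have b2 := hτ r (RR_le hr)
      calc _ ≤ (Z / r) ^ 2 * (2 * T * Z) := by
            refine mul_le_mul (by gcongr) ((sum_abs_ram_le r T).trans (by gcongr))
              (sum_nonneg fun _ _ => abs_nonneg _) (by positivity)
        _ = _ := by ring
    calc _ ≤ L * 1 * (2 * T * Z ^ 3 * (2 / (R1 + 1))) := by
          refine mul_le_mul (by gcongr) a2
            (sum_nonneg fun _ _ => sum_nonneg fun _ _ => by positivity) (by positivity)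
      _ = _ := by ring

end Pool.Agent.Work.MP_5d318d_nt
end
end

-- merged part: Pool.Agent.Work.MP_5d318d_nt.OffDiag
section
/-!
# The off-diagonal terms
-/

noncomputable section

open Finset Real ArithmeticFunction

namespace Pool.Agent.Work.MP_5d318d_nt

open Pool.Agent.Lib.LargeSieve Pool.Agent.Lib.ANT

/-- coefficients of the character expansion of `lam` -/
def zz (S : Finset ℕ) (q : ℕ) : ℝ :=
  ∑ r ∈ S, muR r / r.totient * (if q ∣ r then (q : ℝ) / r.totient else 0)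

variable {Q R1 R : ℕ} {Z : ℝ}

theorem lam_expand {n : ℤ} (hn : ∀ r ∈ RR Q R1 R, IsCoprime n r) (k : ℤ) :
    (lam (RR Q R1 R) (n + k * Q) : ℂ) = ∑ d ∈ Icc 1 R, ∑ e ∈ Icc 1 R,
      ((zz (RR Q R1 R) (d * e) * muR e : ℝ) : ℂ) *
        if (e : ℤ) ∣ k then primKer d n (-(k * Q)) else 0 := by
  simp_rw [zz, sum_mul, Complex.ofReal_sum, sum_mul, sum_comm (t := RR Q R1 R)]
  rw [lam, Complex.ofReal_sum]
  refine sum_congr rfl fun r hr => ?_
  rw [Complex.ofReal_mul, ram_expand (mem_filter.mp hr).2.1 (RR_le hr) (hn r hr)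
    (Nat.isCoprime_iff_coprime.mpr (mem_filter.mp hr).2.2), mul_sum]
  refine sum_congr rfl fun d _ => ?_
  rw [mul_sum]
  refine sum_congr rfl fun e _ => ?_
  simp only [Complex.ofReal_mul]
  by_cases h : (e : ℤ) ∣ k
  · rw [if_pos h, if_pos h]; ring
  · rw [if_neg h, if_neg h]; ring

theorem abs_zz_le (hZ : 0 ≤ Z) (hτ : ∀ r ≤ R, (r.divisors.card : ℝ) ≤ Z) {q : ℕ} (hq : 0 < q) :
    |zz (RR Q R1 R) q| ≤ 2 * Z ^ 2 / (q * ((R1 / q : ℕ) + 1)) := by
  have hq' : (0 : ℝ) < q := by exact_mod_cast hq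
  have h1 : |zz (RR Q R1 R) q| ≤ ∑ r ∈ (RR Q R1 R).filter (fun r => q ∣ r),
      Z ^ 2 * q / (r : ℝ) ^ 2 := by
    rw [sum_filter]
    refine (abs_sum_le_sum_abs _ _).trans (sum_le_sum fun r hr => ?_)
    have h := abs_coef_le hτ hr
    split_ifs
    · rw [abs_mul, abs_of_nonneg (a := ((q : ℝ) / _)) (by positivity), div_eq_mul_inv (q : ℝ)]
      calc _ ≤ Z / r * (q * (Z / r)) := by
            have := h.2
            gcongr; exact h.1.trans h.2
        _ = _ := by ring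
    · simp
  have h2 := sum_le_of_section ((RR Q R1 R).filter (fun r => q ∣ r)) (Ioo (R1 / q) (R + 1))
    (fun r => Z ^ 2 * q / (r : ℝ) ^ 2) (fun j => Z ^ 2 / q * ((j : ℝ) ^ 2)⁻¹) (fun j => q * j)
    (fun _ _ => by positivity) (fun r hr => by
      obtain ⟨hr, j, rfl⟩ := mem_filter.mp hr
      have h3 := mem_Ioc.mp (mem_filter.mp hr).1
      have h4 : j ≤ q * j := Nat.le_mul_of_pos_left _ hq
      refine ⟨j, mem_Ioo.mpr ⟨(Nat.div_lt_iff_lt_mul hq).mpr (by rw [mul_comm]; exact h3.1),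
        by omega⟩, rfl, le_of_eq ?_⟩
      push_cast; field_simp)
  rw [← mul_sum] at h2
  refine (h1.trans h2).trans ((mul_le_mul_of_nonneg_left (sum_Ioo_inv_sq_le _ _)
    (by positivity)).trans (le_of_eq ?_))
  field_simp

theorem norm_primKer_le {d : ℕ} (hd : 0 < d) (n m : ℤ) : ‖primKer d n m‖ ≤ d := by
  classical
  have : NeZero d := ⟨hd.ne'⟩
  refine (norm_sum_le _ _).trans (le_trans (sum_le_card_nsmul _ _ 1 fun ψ _ => ?_) ?_)
  · rw [norm_mul, Complex.norm_conj]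
    exact mul_le_one₀ (ψ.norm_le_one _) (norm_nonneg _) (ψ.norm_le_one _)
  · rw [nsmul_eq_mul, mul_one]
    have h := DirichletCharacter.card_eq_totient_of_hasEnoughRootsOfUnity ℂ d
    rw [Nat.card_eq_fintype_card] at h
    exact_mod_cast (card_le_univ _).trans (h.le.trans (Nat.totient_le d))

theorem sum_erase_dvd (F : ℤ → ℂ) (hF : F 0 = 0) (T : ℕ) {e : ℕ} (he : 0 < e) :
    ∑ k ∈ (Icc (-(T : ℤ)) T).erase 0, (if (e : ℤ) ∣ k then F k else 0) =
      ∑ k ∈ Icc (-((T / e : ℕ) : ℤ)) (T / e : ℕ), F (k * e) := by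
  have he' : (0 : ℤ) < e := by exact_mod_cast he
  rw [sum_erase _ (by simp [hF]), ← sum_filter]
  symm
  refine Finset.sum_bij (fun k _ => k * e) ?_ ?_ ?_ ?_
  · intro k hk
    rw [mem_Icc] at hk
    push_cast at hk
    have a1 := (Int.le_ediv_iff_mul_le he').mp hk.2
    have a2 := (Int.le_ediv_iff_mul_le he').mp (neg_le.mp hk.1)
    exact mem_filter.mpr ⟨mem_Icc.mpr ⟨by linarith only [a2], a1⟩, dvd_mul_left _ _⟩
  · intro a _ b _ h
    exact mul_right_cancel₀ he'.ne' h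
  · intro k hk
    obtain ⟨h1, j, rfl⟩ := mem_filter.mp hk
    rw [mem_Icc] at h1
    have a1 : j ≤ (T : ℤ) / e := (Int.le_ediv_iff_mul_le he').mpr (by linarith only [h1])
    have a2 : -j ≤ (T : ℤ) / e := (Int.le_ediv_iff_mul_le he').mpr (by linarith only [h1])
    refine ⟨j, ?_, mul_comm _ _⟩
    rw [mem_Icc]; push_cast
    exact ⟨by linarith only [a2], a1⟩
  · intro _ _; rfl

theorem abel_div (s : ℕ → ℝ) {D0 R : ℕ} {E : ℝ} (hE : 0 ≤ E)
    (h : ∀ D, D0 < D → D ≤ R → ∑ d ∈ Ioc D0 D, s d ≤ E * D) :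
    ∑ d ∈ Ioc D0 R, s d / d ≤ E * (1 + HH R) := by
  have h' : ∀ D ≤ R, ∑ d ∈ Ioc D0 D, s d ≤ E * D := fun D hD => by
    rcases lt_or_ge D0 D with h1 | h1
    · exact h D h1 hD
    · rw [Ioc_eq_empty_of_le h1, sum_empty]; positivity
  have key : ∀ n ≤ R, ∑ d ∈ Ioc D0 n, s d / d ≤ (∑ d ∈ Ioc D0 n, s d) / n + E * HH n := by
    intro n hn
    induction n with
    | zero => simp [HH]
    | succ n ih =>
      rcases lt_or_ge n D0 with h1 | h1
      · rw [Ioc_eq_empty_of_le h1]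
        simp only [sum_empty, zero_div, zero_add]
        exact mul_nonneg hE (HH_nonneg _)
      · have a1 := ih (by omega)
        have a2 := h' n (by omega)
        have a3 : (∑ d ∈ Ioc D0 n, s d) / n ≤
            (∑ d ∈ Ioc D0 n, s d) / (n + 1 : ℕ) + E * (1 / (n + 1 : ℕ)) := by
          rcases Nat.eq_zero_or_pos n with rfl | hn0
          · simpa using hE
          · have : (0 : ℝ) < n := by exact_mod_cast hn0
            push_cast
            rw [mul_one_div, ← add_div, div_le_div_iff₀ this (by positivity)]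
            linarith only [a2]
        rw [sum_Ioc_succ_top h1, sum_Ioc_succ_top h1, HH, sum_Icc_succ_top (by omega), ← HH,
          add_div]
        linarith only [a1, a3]
  refine (key R le_rfl).trans ?_
  have := div_le_of_le_mul₀ (Nat.cast_nonneg R) hE (h' R le_rfl)
  linarith only [this]

/-- the contribution of conductor `d` and divisor `e` -/
def VV (a : ℕ → ℝ) (N H Q d e : ℕ) : ℂ :=
  ∑ n ∈ Icc 1 N, (a n : ℂ) * ∑ k ∈ (Icc (-(((N + 2 * H) / Q : ℕ) : ℤ)) ((N + 2 * H) / Q : ℕ)).erase 0,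
    (ww N H (n + k * Q) : ℂ) * if (e : ℤ) ∣ k then primKer d n (-(k * Q)) else 0

theorem norm_VV_le (a : ℕ → ℝ) {N H d e : ℕ} (hH : 0 < H) (hd : 0 < d) (he : 0 < e) {A : ℝ}
    (hA : ∑ n ∈ Icc 1 N, |a n| ≤ A) :
    ‖VV a N H Q d e‖ ≤ A * (d * (2 * ((N + 2 * H) / Q : ℕ) / e)) := by
  refine (norm_sum_le _ _).trans (le_trans (sum_le_sum fun n _ => ?_)
    ((sum_mul _ _ _).symm.le.trans (mul_le_mul_of_nonneg_right hA (by positivity))))
  rw [norm_mul, Complex.norm_real, Real.norm_eq_abs]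
  refine mul_le_mul_of_nonneg_left ((norm_sum_le _ _).trans ?_) (abs_nonneg _)
  have h := card_dvd_le ((N + 2 * H) / Q) e he
  rw [mul_comm, ← le_div_iff₀ (by exact_mod_cast he)] at h
  refine le_trans ?_ (mul_le_mul_of_nonneg_left h (Nat.cast_nonneg _))
  rw [card_filter, Nat.cast_sum, mul_sum]
  refine sum_le_sum fun k _ => ?_
  split_ifs
  · rw [norm_mul, Complex.norm_real, Real.norm_eq_abs, Nat.cast_one, mul_one]
    exact (mul_le_of_le_one_left (norm_nonneg _) (abs_ww_le hH _)).trans (norm_primKer_le hd _ _)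
  · simp

open Classical in
theorem norm_VV_le_sum (a : ℕ → ℝ) {N H d e : ℕ} (hd : 2 ≤ d) (he : 0 < e) :
    ‖VV a N H Q d e‖ ≤ ∑ χ : DirichletCharacter ℂ d with χ.IsPrimitive,
      ∑ x ∈ Icc (-(N : ℤ)) (N + 2 * H), (H : ℝ)⁻¹ *
        (‖TS a (min N (x + N).toNat) χ‖ * ‖Ct χ ((N + 2 * H) / (Q * e)) (gam H (Q * e) x)‖ +
         ‖TS a (min N (x - 2 * H).toNat) χ‖ *
          ‖Ct χ ((N + 2 * H) / (Q * e)) (gam H (Q * e) x)‖) := by
  classical
  have h1 : VV a N H Q d e = ∑ χ : DirichletCharacter ℂ d with χ.IsPrimitive,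
      (starRingEnd ℂ) (χ ((-(Q * e : ℕ) : ℤ) : ZMod d)) *
      ∑ n ∈ Icc 1 N, (a n : ℂ) * χ (n : ZMod d) *
        ∑ k ∈ Icc (-(((N + 2 * H) / (Q * e) : ℕ) : ℤ)) ((N + 2 * H) / (Q * e) : ℕ),
          (ww N H (n + k * (Q * e : ℕ)) : ℂ) * (starRingEnd ℂ) (χ (k : ZMod d)) := by
    simp_rw [mul_sum (Icc 1 N)]
    rw [sum_comm]
    refine sum_congr rfl fun n _ => ?_
    simp_rw [mul_ite, mul_zero]
    rw [sum_erase_dvd (fun k => (ww N H (n + k * Q) : ℂ) * primKer d n (-(k * Q))) ?_ _ he,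
      Nat.div_div_eq_div_mul]
    · simp_rw [primKer, mul_sum]
      rw [sum_comm]
      refine sum_congr rfl fun χ _ => sum_congr rfl fun k _ => ?_
      have e1 : k * e * Q = k * (Q * e : ℕ) := by push_cast; ring
      rw [e1, show ((-(k * (Q * e : ℕ)) : ℤ) : ZMod d) = ((-(Q * e : ℕ) : ℤ) : ZMod d) * k by
        push_cast; ring, map_mul, map_mul, Int.cast_natCast]
      ring
    · rw [primKer_eq_zero, mul_zero]
      rw [zero_mul, neg_zero, isCoprime_zero_left, Int.isUnit_iff]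
      omega
  rw [h1]
  refine (norm_sum_le _ _).trans (sum_le_sum fun χ _ => ?_)
  rw [norm_mul, Complex.norm_conj]
  exact (mul_le_of_le_one_left (norm_nonneg _) (χ.norm_le_one _)).trans
    (norm_window_le a _ _ χ)

theorem off_le (a : ℕ → ℝ) {N H D0 : ℕ} {A E : ℝ} (hH : 0 < H) (hR1 : 0 < R1) (hD0 : 1 ≤ D0)
    (hτ : ∀ r ≤ R, (r.divisors.card : ℝ) ≤ Z) (hHH : 1 + HH R ≤ Z)
    (ha : ∀ n, a n ≠ 0 → ∀ r ∈ RR Q R1 R, IsCoprime (n : ℤ) r)
    (hA : ∑ n ∈ Icc 1 N, |a n| ≤ A) (hE : 0 ≤ E)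
    (hMV : ∀ e ∈ Icc 1 R, ∀ D, D0 < D → D ≤ R → ∀ x ∈ Icc (-(N : ℤ)) (N + 2 * H), ∀ y ≤ N,
      PS D (fun _ χ => ‖TS a y χ‖ * ‖Ct χ ((N + 2 * H) / (Q * e)) (gam H (Q * e) x)‖) ≤ E * D) :
    |∑ n ∈ Icc 1 N, a n *
      ∑ k ∈ (Icc (-(((N + 2 * H) / Q : ℕ) : ℤ)) ((N + 2 * H) / Q : ℕ)).erase 0,
        ww N H (n + k * Q) * lam (RR Q R1 R) (n + k * Q)| ≤
      4 * D0 ^ 2 * A * ((N + 2 * H) / Q : ℕ) * Z ^ 3 / R1 +
        4 * (2 * N + 2 * H + 1) / H * E * Z ^ 4 := by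
  have hHR := HH_nonneg R
  have hZ : 0 ≤ Z := by linarith only [hHH, hHR]
  have hA0 : 0 ≤ A := (sum_nonneg fun _ _ => abs_nonneg _).trans hA
  have hR1' : (0 : ℝ) < R1 := by exact_mod_cast hR1
  set T := (N + 2 * H) / Q with hT
  set S := RR Q R1 R with hS
  have h1 : ((∑ n ∈ Icc 1 N, a n * ∑ k ∈ (Icc (-(T : ℤ)) T).erase 0,
      ww N H (n + k * Q) * lam S (n + k * Q) : ℝ) : ℂ) =
      ∑ d ∈ Icc 1 R, ∑ e ∈ Icc 1 R, ((zz S (d * e) * muR e : ℝ) : ℂ) * VV a N H Q d e := by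
    clear * - N a T H Q S R R1 hS ha
    simp_rw [VV, mul_sum (Icc 1 N), sum_comm (t := Icc 1 N)]
    rw [Complex.ofReal_sum]
    refine sum_congr rfl fun n _ => ?_
    by_cases hn : a n = 0
    · simp [hn]
    · rw [Complex.ofReal_mul, Complex.ofReal_sum]
      simp_rw [Complex.ofReal_mul (ww _ _ _), hS, lam_expand (ha n hn), mul_sum,
        sum_comm (s := (Icc (-(T : ℤ)) T).erase 0)]
      exact sum_congr rfl fun d _ => sum_congr rfl fun e _ => sum_congr rfl fun k _ => by ring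
  rw [← Real.norm_eq_abs, ← Complex.norm_real, h1]
  have h2 : ∀ d ∈ Icc 1 R, ‖∑ e ∈ Icc 1 R, ((zz S (d * e) * muR e : ℝ) : ℂ) * VV a N H Q d e‖ ≤
      ∑ e ∈ Icc 1 R, |zz S (d * e)| * ‖VV a N H Q d e‖ := by
    intro d _
    refine (norm_sum_le _ _).trans (sum_le_sum fun e _ => ?_)
    rw [norm_mul, Complex.norm_real, Real.norm_eq_abs, abs_mul]
    exact mul_le_mul_of_nonneg_right (mul_le_of_le_one_right (abs_nonneg _) (abs_muR_le _))
      (norm_nonneg _)
  refine (norm_sum_le _ _).trans ((sum_le_sum h2).trans ?_)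
  rw [← sum_filter_add_sum_filter_not _ (fun d => d ≤ D0)]
  refine add_le_add ?_ ?_
  · have h3 : ∀ d ∈ (Icc 1 R).filter (fun d => d ≤ D0),
        ∑ e ∈ Icc 1 R, |zz S (d * e)| * ‖VV a N H Q d e‖ ≤ 4 * D0 * A * T * Z ^ 3 / R1 := by
      intro d hd
      obtain ⟨hd1, hd2⟩ := mem_filter.mp hd
      have hd0 : 0 < d := (mem_Icc.mp hd1).1
      calc _ ≤ ∑ e ∈ Icc 1 R, (4 * D0 * A * T * Z ^ 2 / R1) * (1 / e) := by
            clear * - S d a N H Q D0 A T Z R1 R hZ hτ hd0 hR1 hH hA hd2 hA0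
            refine sum_le_sum fun e he => ?_
            have he0 : 0 < e := (mem_Icc.mp he).1
            have b1 : |zz S (d * e)| ≤ 2 * Z ^ 2 / R1 := by
              clear * - Q R1 R d e Z hZ hτ hd0 he0 hR1
              refine (abs_zz_le hZ hτ (Nat.mul_pos hd0 he0)).trans ?_
              gcongr
              exact_mod_cast (Nat.lt_mul_div_succ R1 (Nat.mul_pos hd0 he0)).le
            have b2 := norm_VV_le (Q := Q) a hH hd0 he0 hA
            calc _ ≤ 2 * Z ^ 2 / R1 * (A * (D0 * (2 * T / e))) := by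
                  gcongr; exact b2.trans (by clear * - A d N H Q e D0 T hd2 he0 hA0; gcongr)
              _ = _ := by ring
        _ ≤ (4 * D0 * A * T * Z ^ 2 / R1) * Z := by
            clear * - R D0 A T Z R1 hHH hD0 hA0 hR1
            rw [← mul_sum, ← HH]; gcongr; linarith only [hHH]
        _ = _ := by ring
    refine (sum_le_card_nsmul _ _ _ h3).trans ?_
    have : ((Icc 1 R).filter (fun d => d ≤ D0)).card ≤ D0 :=
      (card_le_card (t := Icc 1 D0) fun d hd => by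
        simp only [mem_filter, mem_Icc] at hd ⊢; omega).trans (by simp)
    rw [nsmul_eq_mul]
    calc _ ≤ D0 * (4 * D0 * A * T * Z ^ 3 / R1) := by clear * - D0 A T Z R1 R this hD0 hA0 hZ hR1; gcongr
      _ = _ := by ring
  · rw [show (Icc 1 R).filter (fun d => ¬ d ≤ D0) = Ioc D0 R by
      ext; simp only [mem_filter, mem_Icc, mem_Ioc]; omega, sum_comm]
    set E' : ℝ := 2 * (2 * N + 2 * H + 1) / H * E with hE'
    have h3 : ∀ e ∈ Icc 1 R, ∑ d ∈ Ioc D0 R, |zz S (d * e)| * ‖VV a N H Q d e‖ ≤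
        (2 * Z ^ 3 * E') * (1 / e) := by
      intro e he
      have he0 : 0 < e := (mem_Icc.mp he).1
      have h4 := abel_div (fun d => ‖VV a N H Q d e‖) (D0 := D0) (R := R) (E := E')
        (by clear * - N H E hH hE Q a e hE' hMV he he0; positivity) (fun D hD1 hD2 => by
          clear * - D0 D a N H Q e E' R1 R hD0 he0 hH E hMV he hD1 hD2 hE'
          refine le_trans (sum_le_sum fun d hd => norm_VV_le_sum (Q := Q) a (N := N) (H := H)
            (by have := (mem_Ioc.mp hd).1; omega) he0) ?_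
          refine le_trans (sum_le_sum_of_subset_of_nonneg (t := Icc 2 D) (fun d hd => by
            simp only [mem_Icc, mem_Ioc] at hd ⊢; omega) fun _ _ _ =>
              sum_nonneg fun _ _ => sum_nonneg fun _ _ => by clear * - H a N Q e hH; positivity) ?_
          rw [← PS, PS_sum]
          refine (sum_le_card_nsmul _ _ ((H : ℝ)⁻¹ * (E * D + E * D)) fun x hx => ?_).trans ?_
          · rw [PS_mul, PS_add]
            gcongr
            exacts [hMV e he D hD1 hD2 x hx _ (min_le_left _ _),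
              hMV e he D hD1 hD2 x hx _ (min_le_left _ _)]
          · rw [Int.card_Icc, show ((N : ℤ) + 2 * H + 1 - -(N : ℤ)).toNat = 2 * N + 2 * H + 1 by
              omega, nsmul_eq_mul, hE']
            push_cast
            exact le_of_eq (by ring))
      calc _ ≤ ∑ d ∈ Ioc D0 R, (2 * Z ^ 2 / e) * (‖VV a N H Q d e‖ / d) := by
            clear * - S e a N H Q Z D0 R R1 hD0 hZ hτ he0
            refine sum_le_sum fun d hd => ?_
            have hd0 : 0 < d := by have := (mem_Ioc.mp hd).1; omega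
            have b1 : |zz S (d * e)| ≤ 2 * Z ^ 2 / (d * e : ℕ) := by
              refine (abs_zz_le hZ hτ (Nat.mul_pos hd0 he0)).trans ?_
              have : (0 : ℝ) < (d * e : ℕ) := by exact_mod_cast Nat.mul_pos hd0 he0
              gcongr
              exact le_mul_of_one_le_right this.le (by linarith only [Nat.cast_nonneg (α := ℝ) (R1 / (d * e))])
            refine (mul_le_mul_of_nonneg_right b1 (norm_nonneg _)).trans (le_of_eq ?_)
            push_cast; ring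
        _ ≤ (2 * Z ^ 2 / e) * (E' * Z) := by
            clear * - D0 R Z e a N H Q E' h4 hHH E hH hE he0
            rw [← mul_sum]
            gcongr
            exact h4.trans (by gcongr)
        _ = _ := by ring
    refine (sum_le_sum h3).trans ?_
    rw [← mul_sum, ← HH]
    calc _ ≤ (2 * Z ^ 3 * E') * Z := by clear * - Z E' R hHH hZ N H E hH hE hE'; gcongr; linarith only [hHH]
      _ = _ := by rw [hE']; ring

end Pool.Agent.Work.MP_5d318d_nt
end
end

-- merged part: Pool.Agent.Work.MP_5d318d_nt.Core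
section
/-!
# The basic inequality
-/

noncomputable section

open Finset Real ArithmeticFunction

namespace Pool.Agent.Work.MP_5d318d_nt

open Pool.Agent.Lib.LargeSieve Pool.Agent.Lib.ANT

variable {Q R1 R : ℕ}

theorem lam_of_coprime {n : ℤ} (hn : ∀ r ∈ RR Q R1 R, IsCoprime n r) :
    lam (RR Q R1 R) n = Sg (RR Q R1 R) := by
  refine sum_congr rfl fun r hr => ?_
  have h : muR r * muR r = 1 := by
    rw [muR, intCoe_apply, ← sq]
    exact_mod_cast moebius_sq_eq_one_of_squarefree (mem_filter.mp hr).2.1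
  rw [ram_of_coprime (RR_pos hr).ne' (hn r hr), div_mul_eq_mul_div, h, one_div]

theorem psiAP_le (N : ℕ) (hQ : 0 < Q) (A : ℕ) : psiAP N Q A ≤ (N / Q + 1) * Real.log N := by
  have h := (abs_le.mp (abs_card_modEq_sub_le 0 N Q A hQ)).2
  refine (sum_le_card_nsmul _ _ (Real.log N) fun n hn =>
    vonMangoldt_le_log_of_le (mem_filter.mp hn).1).trans ?_
  rw [nsmul_eq_mul]
  refine mul_le_mul_of_nonneg_right (le_trans ?_ (sub_le_iff_le_add'.mp h))
    (Real.log_natCast_nonneg N)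
  refine Nat.cast_le.mpr (card_le_card fun n hn => ?_)
  simp only [mem_filter, mem_Icc, mem_Ioc, Nat.ModEq] at hn ⊢
  exact ⟨by omega, by rw [← hn.2, Nat.mod_mod]⟩

theorem sum_FF_mul (hQ : 0 < Q) (S : Finset ℕ) (a : ℕ → ℝ) (hc : ∀ n, a n ≠ 0 → n.Coprime Q)
    {N H t : ℕ} (ht : t ∈ range (2 * H)) :
    ∑ A ∈ red Q, FF Q S (II N H t) A * ∑ n ∈ (Icc 1 N).filter (fun n => n % Q = A), a n =
      ∑ n ∈ Icc 1 N, a n *
        ∑ k ∈ Icc (-(((N + 2 * H) / Q : ℕ) : ℤ)) ((N + 2 * H) / Q : ℕ),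
          if n + k * Q ∈ II N H t then lam S (n + k * Q) else 0 := by
  rw [← sum_filter_of_ne (p := fun n => n.Coprime Q) (s := Icc 1 N)
    (fun n _ h => hc n (left_ne_zero_of_mul h)), ← sum_red_fiber N Q hQ]
  refine sum_congr rfl fun A _ => ?_
  rw [mul_sum]
  refine sum_congr rfl fun n hn => ?_
  obtain ⟨h1, h2⟩ := mem_filter.mp hn
  rw [mul_comm, FF, ← h2, Int.natCast_mod, II,
    class_sum _ hQ _ _ (mem_II (mem_Icc.mp h1).2 ht)]

theorem core (hQ : 0 < Q) (a : ℕ → ℝ) {N H : ℕ} (hH : 0 < H) {B O M P τ δ Y : ℝ}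
    (ha0 : ∀ n, 0 ≤ a n) (ha1 : ∀ n, a n ≤ vonMangoldt n) (hc : ∀ n, a n ≠ 0 → n.Coprime Q)
    (hr : ∀ n, a n ≠ 0 → ∀ r ∈ RR Q R1 R, IsCoprime (n : ℤ) r)
    (hB : ∑ n ∈ Icc 1 N, (vonMangoldt n - a n) ≤ B)
    (hO : |∑ n ∈ Icc 1 N, a n *
      ∑ k ∈ (Icc (-(((N + 2 * H) / Q : ℕ) : ℤ)) ((N + 2 * H) / Q : ℕ)).erase 0,
        ww N H (n + k * Q) * lam (RR Q R1 R) (n + k * Q)| ≤ O)
    (hM : ∀ t, |∑ m ∈ (II N H t).filter (fun m => IsCoprime m (Q : ℤ)), lam (RR Q R1 R) m| ≤ M)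
    (hP : ∀ t, ∑ A ∈ red Q, FF Q (RR Q R1 R) (II N H t) A ^ 2 ≤ P)
    (hτ : 0 ≤ τ) (hδ : 0 < δ) (hY : 0 ≤ Y) :
    2 * τ * (Sg (RR Q R1 R) * ∑ n ∈ Icc 1 N, a n - O - Y * M) - (1 + δ) * τ ^ 2 * P -
      (N / Q + 1) * Real.log N * B / δ ≤ ∑ A ∈ red Q, (psiAP N Q A - Y) ^ 2 := by
  set S := RR Q R1 R with hS
  set T := (N + 2 * H) / Q with hT
  set α : ℕ → ℝ := fun A => ∑ n ∈ (Icc 1 N).filter (fun n => n % Q = A), a n with hα
  set β : ℕ → ℝ := fun A => ∑ n ∈ (Icc 1 N).filter (fun n => n % Q = A),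
    (vonMangoldt n - a n) with hβ
  have e1 : ∀ A, psiAP N Q A = α A + β A := fun A => by
    simp only [hα, hβ, psiAP, sum_sub_distrib]; ring
  have hβ0 : ∀ A, 0 ≤ β A := fun A => sum_nonneg fun n _ => sub_nonneg.mpr (ha1 n)
  have hC : 0 ≤ ((N : ℝ) / Q + 1) * Real.log N :=
    mul_nonneg (by positivity) (Real.log_natCast_nonneg N)
  have h1 : ∑ A ∈ red Q, β A ^ 2 ≤ (N / Q + 1) * Real.log N * B := by
    calc _ ≤ ∑ A ∈ red Q, (N / Q + 1) * Real.log N * β A := by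
          refine sum_le_sum fun A _ => ?_
          have := psiAP_le N hQ A
          have h0 : 0 ≤ α A := sum_nonneg fun n _ => ha0 n
          rw [sq]
          exact mul_le_mul_of_nonneg_right (by linarith only [this, h0, e1, e1 A]) (hβ0 A)
      _ ≤ _ := by
          rw [← mul_sum, sum_red_fiber N Q hQ]
          exact mul_le_mul_of_nonneg_left ((sum_le_sum_of_subset_of_nonneg (filter_subset _ _)
            fun n _ _ => sub_nonneg.mpr (ha1 n)).trans hB) hC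
  have h2 : ∀ t ∈ range (2 * H), 2 * τ * (∑ n ∈ Icc 1 N, a n * (∑ k ∈ Icc (-(T : ℤ)) T,
      if n + k * Q ∈ II N H t then lam S (n + k * Q) else 0) - Y * M) - (1 + δ) * τ ^ 2 * P -
      (N / Q + 1) * Real.log N * B / δ ≤ ∑ A ∈ red Q, (psiAP N Q A - Y) ^ 2 := by
    intro t ht
    have a1 : ∑ A ∈ red Q, (2 * τ * (FF Q S (II N H t) A * α A - Y * FF Q S (II N H t) A) -
        (1 + δ) * τ ^ 2 * FF Q S (II N H t) A ^ 2 - β A ^ 2 / δ) ≤
        ∑ A ∈ red Q, (psiAP N Q A - Y) ^ 2 := by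
      clear * - τ Q S N H t α Y δ β e1 hδ
      refine sum_le_sum fun A _ => ?_
      rw [e1]
      generalize FF Q S (II N H t) A = F
      have b1 := sq_nonneg (α A + β A - Y - τ * F)
      have b2 : 0 ≤ (δ * (τ * F) + β A) ^ 2 / δ := by positivity
      have b3 : (δ * (τ * F) + β A) ^ 2 / δ =
        δ * (τ * F) ^ 2 + 2 * (τ * F) * β A + β A ^ 2 / δ := by field_simp; ring
      linarith only [b2, b3, sq_nonneg (α A + β A - Y - τ * F)]
    rw [sum_sub_distrib, sum_sub_distrib, ← mul_sum, ← mul_sum, ← sum_div, sum_sub_distrib,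
      ← mul_sum, sum_FF_mul hQ S a hc ht] at a1
    have a2 : ∑ A ∈ red Q, FF Q S (II N H t) A ≤ M := by
      unfold FF
      rw [sum_red_fiber_int hQ]
      exact (le_abs_self _).trans (hM t)
    refine le_trans ?_ a1
    have a3 := hP t
    clear * - τ N a T H t Q S Y M δ P β B a2 hY hτ a3 hδ h1; gcongr
  have h3 : ∑ t ∈ range (2 * H), tri H t / H ^ 2 * ∑ n ∈ Icc 1 N, a n *
      (∑ k ∈ Icc (-(T : ℤ)) T, if n + k * Q ∈ II N H t then lam S (n + k * Q) else 0) =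
      Sg S * ∑ n ∈ Icc 1 N, a n + ∑ n ∈ Icc 1 N, a n * ∑ k ∈ (Icc (-(T : ℤ)) T).erase 0,
        ww N H (n + k * Q) * lam S (n + k * Q) := by
    clear * - H N a T Q S hH R1 R hr
    simp_rw [mul_sum (Icc 1 N)]
    rw [sum_comm, ← sum_add_distrib]
    refine sum_congr rfl fun n hn => ?_
    by_cases h0 : a n = 0
    · simp [h0]
    have b1 : Sg S = ww N H (n + 0 * Q) * lam S (n + 0 * Q) := by
      rw [zero_mul, add_zero, ww_eq_one hH (mem_Icc.mp hn).2, lam_of_coprime (hr n h0), one_mul]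
    rw [mul_comm (Sg S), ← mul_add, b1, add_sum_erase _
      (fun k : ℤ => ww N H (n + k * Q) * lam S (n + k * Q)) (mem_Icc.mpr
        ⟨neg_nonpos.mpr (Int.natCast_nonneg _), Int.natCast_nonneg _⟩)]
    simp_rw [ww, sum_mul, mul_sum]
    rw [sum_comm]
    refine sum_congr rfl fun k _ => sum_congr rfl fun t _ => ?_
    split_ifs <;> ring
  have h4 := sum_le_sum fun t ht => mul_le_mul_of_nonneg_left (h2 t ht)
    (show 0 ≤ tri H t / H ^ 2 from div_nonneg (tri_nonneg (Nat.cast_nonneg _) _) (by positivity))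
  rw [← sum_mul, sum_tri_div hH, one_mul] at h4
  refine le_trans ?_ h4
  have h5 : ∀ (x : ℕ → ℝ) (c1 c2 : ℝ), ∑ t ∈ range (2 * H), tri H t / H ^ 2 *
      (2 * τ * (x t - Y * M) - c1 - c2) =
      2 * τ * (∑ t ∈ range (2 * H), tri H t / H ^ 2 * x t - Y * M) - c1 - c2 := by
    clear * - H τ Y M hH
    intro x c1 c2
    have : ∀ t : ℕ, tri H t / H ^ 2 * (2 * τ * (x t - Y * M) - c1 - c2) =
      2 * τ * (tri H t / H ^ 2 * x t) - tri H t / H ^ 2 * (2 * τ * (Y * M) + c1 + c2) :=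
      fun t => by ring
    simp_rw [this]
    rw [sum_sub_distrib, ← mul_sum, ← sum_mul, sum_tri_div hH]; ring
  rw [h5, h3]
  have := (abs_le.mp hO).1
  gcongr
  linarith only [this]

end Pool.Agent.Work.MP_5d318d_nt
end
end
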